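import Pool.Agent.Lib_helper41.LVB.Defs
import Pool.Agent.Lib_helper68.LEV.EIA
import Pool.Agent.Lib_helper68.LEV.LHI
import Pool.Agent.Lib_helper68.LEV.GID
import Pool.Agent.Lib_helper68.LEV.GEL

/-! block AFE: the approximate functional equation -/

namespace Pool.Agent.LVB

open Pool.Agent.LEV Complex MeasureTheory Filter Topology UpperHalfPlane ModularGroup ProbabilityTheory
open scoped MatrixGroups Modular ENNReal ModularForm ComplexConjugate ContDiff

/-- the image of a half line under `u ↦ 1 / (κ u)` -/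
theorem AFE_image {c c' κ : ℝ} (hc : 0 < c) (hc' : 0 < c') (hκ : 0 < κ) (h : κ * c * c' = 1) :
    (fun u : ℝ => 1 / (κ * u)) '' Set.Ioi c' = Set.Ioo 0 c := by
  ext v
  constructor
  · rintro ⟨u, hu, rfl⟩
    have hu' : c' < u := hu
    have hu0 : 0 < u := hc'.trans hu'
    refine ⟨by positivity, ?_⟩
    show 1 / (κ * u) < c
    rw [div_lt_iff₀ (by positivity), ← h]
    nlinarith [mul_pos hκ hc]
  · rintro ⟨h0, h1⟩
    refine ⟨1 / (κ * v), ?_, ?_⟩
    · show c' < 1 / (κ * v)
      rw [lt_div_iff₀ (by positivity), ← h]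
      nlinarith [mul_pos hκ hc']
    · show 1 / (κ * (1 / (κ * v))) = v
      field_simp

section
variable {N : ℕ} [Fact N.Prime]

theorem AFE_trans {f : S2 N} (hf : IsNew f) (h1 : co f N = 1) {u : ℝ} (hu : 0 < u) :
    ev f 0 u = ((N : ℂ) * (u : ℂ) ^ 2)⁻¹ * ev f 0 (1 / (N * u)) := by
  have h := GID_trans hf h1 (e := 1) (j := 0) (α := 0) one_pos ⟨1, by norm_num⟩ hu
  simpa using h

/-- splitting the integral at `Y` -/
theorem AFE_split {f : S2 N} (hf : IsNew f) (h1 : co f N = 1) {Y : ℝ} (hY : 0 < Y) :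
    ∫ v in Set.Ioi (0 : ℝ), ev f 0 v =
      (∫ v in Set.Ioi (1 / (N * Y)), ev f 0 v) + ∫ v in Set.Ioi Y, ev f 0 v := by
  have hN : (0 : ℝ) < N := by exact_mod_cast (Fact.out : N.Prime).pos
  have hun : Set.Ioc 0 Y ∪ Set.Ioi Y = Set.Ioi 0 := Set.Ioc_union_Ioi_eq_Ioi hY.le
  have hint := (lh_int f).1
  rw [← hun, setIntegral_union (Set.Ioc_disjoint_Ioi le_rfl) measurableSet_Ioi
    (hint.mono_set (fun v hv => hv.1)) (GID_int f 0 hY), integral_Ioc_eq_integral_Ioo]
  congr 1
  have hc' : 0 < 1 / (N * Y) := by positivity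
  have hinj : Set.InjOn (fun u : ℝ => 1 / ((N : ℝ) * u)) (Set.Ioi (1 / (N * Y))) :=
    GID_inj hN hc'
  have hder : ∀ u ∈ Set.Ioi (1 / (N * Y)), HasDerivWithinAt (fun u : ℝ => 1 / ((N : ℝ) * u))
      (-(1 / (N * u ^ 2))) (Set.Ioi (1 / (N * Y))) u := by
    intro u hu
    exact (GID_deriv hN (hc'.trans hu)).hasDerivWithinAt
  have himg := AFE_image (c := Y) (c' := 1 / (N * Y)) (κ := N) hY hc' hN (by field_simp)
  rw [← himg, integral_image_eq_integral_abs_deriv_smul measurableSet_Ioi hder hinj]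
  refine setIntegral_congr_fun measurableSet_Ioi ?_
  intro u hu
  have hu0 : 0 < u := hc'.trans hu
  show |(-(1 / (N * u ^ 2)))| • ev f 0 (1 / (N * u)) = ev f 0 u
  rw [AFE_trans hf h1 hu0, abs_neg, abs_of_pos (by positivity), Complex.real_smul]
  push_cast
  rw [one_div]

/-- the coefficients `a_n / n` -/
theorem AFE_co {f : S2 N} (hf : IsNew f) (n : ℕ) :
    co f n = ((la f n / Real.sqrt n * n : ℝ) : ℂ) := by
  rcases Nat.eq_zero_or_pos n with rfl | hn
  · rw [co_zero]
    simp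
  · have hn' : (0 : ℝ) < n := by exact_mod_cast hn
    have h2 : la f n / Real.sqrt n * n = (co f n).re := by
      unfold la
      rw [div_div, Real.mul_self_sqrt hn'.le]
      field_simp
    rw [h2]
    apply Complex.ext
    · simp
    · simp [new_real hf n]

theorem AFE_bound {f : S2 N} (hf : IsNew f) :
    ∃ C : ℝ, 0 ≤ C ∧ ∀ n : ℕ, |la f n / Real.sqrt n| ≤ C := by
  obtain ⟨C, hC⟩ := co_bound f
  have hC0 : 0 ≤ C := by
    have := (norm_nonneg _).trans (hC 1)
    simpa using this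
  refine ⟨C, hC0, fun n => ?_⟩
  rcases Nat.eq_zero_or_pos n with rfl | hn
  · simpa using hC0
  · have hn' : (0 : ℝ) < n := by exact_mod_cast hn
    have h := hC n
    rw [AFE_co hf n, Complex.norm_real, Real.norm_eq_abs, abs_mul, abs_of_pos hn'] at h
    exact le_of_mul_le_mul_right h hn'

theorem AFE_tail {f : S2 N} (hf : IsNew f) {V : ℝ} (hV : 0 < V) :
    HasSum (fun n : ℕ => ((la f n / Real.sqrt n * Real.exp (-2 * Real.pi * n * V) : ℝ) : ℂ))
      (2 * Real.pi * ∫ v in Set.Ioi V, ev f 0 v) := by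
  have h := (GEL_int f 0 hV).mul_left (2 * (Real.pi : ℂ))
  have e : (fun n : ℕ => ((la f n / Real.sqrt n * Real.exp (-2 * Real.pi * n * V) : ℝ) : ℂ)) =
      fun n : ℕ => 2 * (Real.pi : ℂ) * (co f n *
        (Real.exp (-2 * Real.pi * n * V) / (2 * Real.pi * n) : ℝ) * GEL_e n 0) := ?_
  · rw [e]
    exact h
  funext n
  have he : GEL_e n 0 = 1 := by
    unfold GEL_e
    simp
  rw [he, mul_one]
  rcases Nat.eq_zero_or_pos n with rfl | hn
  · simp [co_zero]
  · have hn' : (0 : ℝ) < n := by exact_mod_cast hn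
    rw [AFE_co hf n]
    have h2 : la f n / Real.sqrt n * Real.exp (-2 * Real.pi * n * V) =
        2 * Real.pi * (la f n / Real.sqrt n * n *
          (Real.exp (-2 * Real.pi * n * V) / (2 * Real.pi * n))) := by
      have hpi := Real.pi_pos
      field_simp
    rw [h2]
    push_cast
    ring

/-- `L(f) = T(Y) + T(1/(NY))` -/
theorem AFE_two {f : S2 N} (hf : IsNew f) (h1 : co f N = 1) {Y : ℝ} (hY : 0 < Y) :
    HasSum (fun n : ℕ => ((la f n / Real.sqrt n * (Real.exp (-2 * Real.pi * n * (1 / (N * Y))) +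
      Real.exp (-2 * Real.pi * n * Y)) : ℝ) : ℂ)) (Lh f) := by
  have hN : (0 : ℝ) < N := by exact_mod_cast (Fact.out : N.Prime).pos
  rw [(lh_int f).2, AFE_split hf h1 hY, mul_add]
  convert (AFE_tail hf (V := 1 / (N * Y)) (by positivity)).add (AFE_tail hf hY) using 1
  funext n
  push_cast
  ring

end

theorem AFE_mv_nonneg (v : ℝ) : 0 ≤ mv v := ContDiffBump.nonneg_normed _ _

theorem AFE_mv_int : Integrable mv := ContDiffBump.integrable_normed _

theorem AFE_mv_one : ∫ v, mv v = 1 := ContDiffBump.integral_normed _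

theorem AFE_mv_cont : Continuous mv := ContDiffBump.continuous_normed _

theorem AFE_mv_supp {v : ℝ} (h : mv v ≠ 0) : |v - 1 / 2| < 1 / 20 := by
  have h1 : v ∈ Function.support mv := h
  have h2 : Function.support mv = Metric.ball (1 / 2 : ℝ) (1 / 20) := by
    unfold mv
    exact ContDiffBump.support_normed_eq _
  rw [h2, Metric.mem_ball, Real.dist_eq] at h1
  exact h1

theorem AFE_mv_symm (v : ℝ) : mv (1 - v) = mv v := by
  have h := ContDiffBump.normed_sub (μ := (volume : Measure ℝ))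
    (⟨1 / 40, 1 / 20, by norm_num, by norm_num⟩ : ContDiffBump (1 / 2 : ℝ)) (v - 1 / 2)
  have e1 : (1 / 2 : ℝ) - (v - 1 / 2) = 1 - v := by ring
  have e2 : (1 / 2 : ℝ) + (v - 1 / 2) = v := by ring
  rw [e1, e2] at h
  exact h

/-- integrability against `mv` -/
theorem AFE_int_mul {g : ℝ → ℝ} (hg : Continuous g) : Integrable (fun v => mv v * g v) := by
  have hc : HasCompactSupport mv := ContDiffBump.hasCompactSupport_normed _
  exact (AFE_mv_cont.mul hg).integrable_of_hasCompactSupport hc.mul_right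

theorem AFE_wt_cont {N : ℕ} (hN : 0 < N) (n : ℕ) :
    Continuous (fun v : ℝ => Real.exp (-2 * Real.pi * n * (N : ℝ) ^ (-v))) := by
  have hN' : (0 : ℝ) < N := by exact_mod_cast hN
  have h : Continuous (fun v : ℝ => (N : ℝ) ^ (-v)) :=
    Real.continuous_const_rpow hN'.ne' |>.comp continuous_neg
  fun_prop

theorem AFE_exp_le {N : ℕ} (hN : 1 ≤ N) (n : ℕ) {w : ℝ} (hw : w ≤ 1) :
    Real.exp (-2 * Real.pi * n * (N : ℝ) ^ (-w)) ≤ Real.exp (-(2 * Real.pi / N)) ^ n := by
  have hN' : (1 : ℝ) ≤ N := by exact_mod_cast hN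
  have hpi := Real.pi_pos
  have h1 : (N : ℝ) ^ (-(1 : ℝ)) ≤ (N : ℝ) ^ (-w) :=
    Real.rpow_le_rpow_of_exponent_le hN' (by linarith)
  rw [Real.rpow_neg_one] at h1
  rw [← Real.exp_nat_mul, Real.exp_le_exp]
  have h2 : 2 * Real.pi * n * (N : ℝ)⁻¹ ≤ 2 * Real.pi * n * (N : ℝ) ^ (-w) :=
    mul_le_mul_of_nonneg_left h1 (by positivity)
  have h3 : (n : ℝ) * -(2 * Real.pi / N) = -(2 * Real.pi * n * (N : ℝ)⁻¹) := by
    rw [div_eq_mul_inv]
    ring
  rw [h3]
  linarith

theorem AFE_wt_bound {N : ℕ} (hN : 1 ≤ N) (n : ℕ) :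
    |wt N n| ≤ Real.exp (-(2 * Real.pi / N)) ^ n := by
  have h0 : 0 ≤ wt N n := by
    unfold wt
    exact integral_nonneg fun v => mul_nonneg (AFE_mv_nonneg v) (Real.exp_pos _).le
  rw [abs_of_nonneg h0]
  unfold wt
  calc ∫ v : ℝ, mv v * Real.exp (-2 * Real.pi * n * (N : ℝ) ^ (-v))
      ≤ ∫ v : ℝ, mv v * Real.exp (-(2 * Real.pi / N)) ^ n := by
        refine integral_mono (AFE_int_mul (AFE_wt_cont hN n)) (AFE_mv_int.mul_const _) ?_
        intro v
        show mv v * Real.exp (-2 * Real.pi * n * (N : ℝ) ^ (-v)) ≤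
          mv v * Real.exp (-(2 * Real.pi / N)) ^ n
        by_cases h : mv v = 0
        · rw [h, zero_mul, zero_mul]
        · have h1 := abs_lt.mp (AFE_mv_supp h)
          exact mul_le_mul_of_nonneg_left (AFE_exp_le hN n (by linarith)) (AFE_mv_nonneg v)
    _ = Real.exp (-(2 * Real.pi / N)) ^ n := by
        rw [integral_mul_const, AFE_mv_one, one_mul]

theorem AFE_wt_symm (N n : ℕ) :
    ∫ v : ℝ, mv v * Real.exp (-2 * Real.pi * n * (N : ℝ) ^ (-(1 - v))) = wt N n := by
  have h := integral_sub_left_eq_self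
    (fun v : ℝ => mv v * Real.exp (-2 * Real.pi * n * (N : ℝ) ^ (-v))) volume (1 : ℝ)
  unfold wt
  rw [← h]
  refine integral_congr_ae (ae_of_all _ fun v => ?_)
  show _ = mv (1 - v) * _
  rw [AFE_mv_symm]

theorem afe_pr {N : ℕ} [Fact N.Prime] (hN : 3 ≤ N) {f : S2 N} (hf : IsNew f) (h1 : co f N = 1) :
    Summable (fun n : ℕ => la f n / Real.sqrt n * wt N n) ∧
    Lh f = ((2 * ∑' n : ℕ, la f n / Real.sqrt n * wt N n : ℝ) : ℂ) := by
  have hN1 : 1 ≤ N := by omega
  have hN' : (0 : ℝ) < N := by exact_mod_cast hN1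
  have hpi := Real.pi_pos
  obtain ⟨C, hC0, hC⟩ := AFE_bound hf
  have hq1 : Real.exp (-(2 * Real.pi / N)) < 1 := by
    rw [Real.exp_lt_one_iff]
    have : 0 < 2 * Real.pi / N := by positivity
    linarith
  have hgeo : Summable fun n : ℕ => Real.exp (-(2 * Real.pi / N)) ^ n :=
    summable_geometric_of_lt_one (Real.exp_pos _).le hq1
  have hsum : Summable (fun n : ℕ => la f n / Real.sqrt n * wt N n) := by
    refine Summable.of_norm_bounded (g := fun n => C * Real.exp (-(2 * Real.pi / N)) ^ n)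
      (hgeo.mul_left C) fun n => ?_
    rw [Real.norm_eq_abs, abs_mul]
    exact mul_le_mul (hC n) (AFE_wt_bound hN1 n) (abs_nonneg _) hC0
  refine ⟨hsum, ?_⟩
  -- the value is real
  set L : ℝ := (Lh f).re with hL
  have hreal : ∀ Y : ℝ, 0 < Y → HasSum (fun n : ℕ => la f n / Real.sqrt n *
      (Real.exp (-2 * Real.pi * n * (1 / (N * Y))) + Real.exp (-2 * Real.pi * n * Y))) L := by
    intro Y hY
    have h := ((Complex.hasSum_iff _ _).mp (AFE_two hf h1 hY)).1
    simpa only [Complex.ofReal_re] using h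
  have hLC : Lh f = (L : ℂ) := by
    have h := AFE_two hf h1 one_pos
    exact h.unique (Complex.hasSum_ofReal.mpr (hreal 1 one_pos))
  rw [hLC]
  congr 1
  set F : ℕ → ℝ → ℝ := fun n v => mv v * (la f n / Real.sqrt n *
      (Real.exp (-2 * Real.pi * n * (N : ℝ) ^ (-(1 - v))) +
        Real.exp (-2 * Real.pi * n * (N : ℝ) ^ (-v)))) with hF
  have hc1 : ∀ n : ℕ, Continuous (fun v : ℝ =>
      Real.exp (-2 * Real.pi * n * (N : ℝ) ^ (-(1 - v)))) := fun n =>
    (AFE_wt_cont hN1 n).comp (continuous_const.sub continuous_id)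
  have hFint : ∀ n, Integrable (F n) := fun n =>
    AFE_int_mul (((hc1 n).add (AFE_wt_cont hN1 n)).const_mul _)
  have hFval : ∀ n, ∫ v, F n v = 2 * (la f n / Real.sqrt n * wt N n) := by
    intro n
    have e : (fun v => F n v) = fun v => la f n / Real.sqrt n *
        (mv v * Real.exp (-2 * Real.pi * n * (N : ℝ) ^ (-(1 - v))) +
        mv v * Real.exp (-2 * Real.pi * n * (N : ℝ) ^ (-v))) := by
      funext v
      simp only [hF]
      ring
    rw [e, integral_const_mul, integral_add (AFE_int_mul (hc1 n)) (AFE_int_mul (AFE_wt_cont hN1 n)),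
      AFE_wt_symm]
    show _ * (_ + wt N n) = _
    ring
  have hFnorm : Summable fun n => ∫ v, ‖F n v‖ := by
    refine Summable.of_nonneg_of_le (fun n => integral_nonneg fun v => norm_nonneg _)
      (fun n => ?_) (hgeo.mul_left (2 * C))
    calc ∫ v, ‖F n v‖ ≤ ∫ v, mv v * (2 * C * Real.exp (-(2 * Real.pi / N)) ^ n) := by
          refine integral_mono (hFint n).norm (AFE_mv_int.mul_const _) ?_
          intro v
          show ‖F n v‖ ≤ mv v * (2 * C * Real.exp (-(2 * Real.pi / N)) ^ n)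
          simp only [hF]
          by_cases h : mv v = 0
          · rw [h, zero_mul, zero_mul, norm_zero]
          · have h2 := abs_lt.mp (AFE_mv_supp h)
            rw [norm_mul, Real.norm_eq_abs, abs_of_nonneg (AFE_mv_nonneg v), norm_mul]
            refine mul_le_mul_of_nonneg_left ?_ (AFE_mv_nonneg v)
            have e1 := AFE_exp_le hN1 n (w := 1 - v) (by linarith)
            have e2 := AFE_exp_le hN1 n (w := v) (by linarith)
            have e3 : ‖Real.exp (-2 * Real.pi * n * (N : ℝ) ^ (-(1 - v))) +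
                Real.exp (-2 * Real.pi * n * (N : ℝ) ^ (-v))‖ ≤
                2 * Real.exp (-(2 * Real.pi / N)) ^ n := by
              rw [Real.norm_eq_abs, abs_of_pos (by positivity)]
              linarith
            calc ‖la f n / Real.sqrt n‖ * _ ≤ C * (2 * Real.exp (-(2 * Real.pi / N)) ^ n) :=
                  mul_le_mul (hC n) e3 (norm_nonneg _) hC0
              _ = _ := by ring
      _ = 2 * C * Real.exp (-(2 * Real.pi / N)) ^ n := by
          rw [integral_mul_const, AFE_mv_one, one_mul]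
  have hmain := hasSum_integral_of_summable_integral_norm hFint hFnorm
  have htot : ∀ v, ∑' n, F n v = mv v * L := by
    intro v
    have hY : (0 : ℝ) < (N : ℝ) ^ (-v) := Real.rpow_pos_of_pos hN' _
    have h := (hreal _ hY).mul_left (mv v)
    have e : 1 / ((N : ℝ) * (N : ℝ) ^ (-v)) = (N : ℝ) ^ (-(1 - v)) := by
      have h3 : (N : ℝ) * (N : ℝ) ^ (-v) = (N : ℝ) ^ (1 - v) := by
        rw [sub_eq_add_neg, Real.rpow_add hN', Real.rpow_one]
      rw [h3, Real.rpow_neg hN'.le, one_div]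
    rw [e] at h
    exact h.tsum_eq
  simp only [htot, hFval] at hmain
  rw [integral_mul_const, AFE_mv_one, one_mul] at hmain
  rw [← hmain.tsum_eq, tsum_mul_left]

theorem afe : type_of% @afe_pr := @afe_pr

end Pool.Agent.LVB
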