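import Pool.Agent.Lib_helper41.LVB.Defs

/-! LVB block WTT: bounds for the weights -/

set_option autoImplicit false

namespace Pool.Agent.LVB

open Pool.Agent.LEV Complex MeasureTheory Filter Topology UpperHalfPlane ModularGroup ProbabilityTheory
open scoped MatrixGroups Modular ENNReal ModularForm ComplexConjugate ContDiff

/-- the bump function -/
noncomputable def WTT_b : ContDiffBump (1 / 2 : ℝ) := ⟨1 / 40, 1 / 20, by norm_num, by norm_num⟩

theorem WTT_nonneg (v : ℝ) : 0 ≤ mv v := WTT_b.nonneg_normed v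

theorem WTT_cont : Continuous mv := WTT_b.continuous_normed (μ := volume)

theorem WTT_cpt : HasCompactSupport mv := WTT_b.hasCompactSupport_normed (μ := volume)

theorem WTT_int : ∫ v, mv v = 1 := WTT_b.integral_normed (μ := volume)

theorem WTT_supp {v : ℝ} (h : mv v ≠ 0) : 9 / 20 < v ∧ v < 11 / 20 := by
  have h1 : v ∈ Function.support (WTT_b.normed volume) := h
  rw [WTT_b.support_normed_eq, Metric.mem_ball, Real.dist_eq] at h1
  have h2 : WTT_b.rOut = 1 / 20 := rfl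
  rw [h2, abs_lt] at h1
  constructor <;> linarith [h1.1, h1.2]

theorem WTT_integrable {g : ℝ → ℝ} (hg : Continuous g) : Integrable (fun v => mv v * g v) :=
  (WTT_cont.mul hg).integrable_of_hasCompactSupport WTT_cpt.mul_right

theorem WTT_gcont {N : ℕ} (hN : 0 < N) (n : ℕ) :
    Continuous (fun v : ℝ => Real.exp (-2 * Real.pi * n * (N : ℝ) ^ (-v))) := by
  have hN' : (N : ℝ) ≠ 0 := by exact_mod_cast hN.ne'
  have h : Continuous (fun v : ℝ => (N : ℝ) ^ (-v)) :=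
    continuous_const.rpow continuous_neg (fun v => Or.inl hN')
  fun_prop

theorem WTT_upper {N : ℕ} (hN : 0 < N) (n : ℕ) {c : ℝ}
    (h : ∀ v : ℝ, 9 / 20 < v → v < 11 / 20 → Real.exp (-2 * Real.pi * n * (N : ℝ) ^ (-v)) ≤ c) :
    wt N n ≤ c := by
  have h1 : wt N n ≤ ∫ v : ℝ, mv v * c := by
    unfold wt
    refine integral_mono (WTT_integrable (WTT_gcont hN n)) (WTT_integrable continuous_const) fun v => ?_
    by_cases hv : mv v = 0
    · simp [hv]
    · exact mul_le_mul_of_nonneg_left (h v (WTT_supp hv).1 (WTT_supp hv).2) (WTT_nonneg v)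
  rw [integral_mul_const, WTT_int, one_mul] at h1
  exact h1

theorem WTT_lower {N : ℕ} (hN : 0 < N) (n : ℕ) {c : ℝ}
    (h : ∀ v : ℝ, 9 / 20 < v → v < 11 / 20 → c ≤ Real.exp (-2 * Real.pi * n * (N : ℝ) ^ (-v))) :
    c ≤ wt N n := by
  have h1 : ∫ v : ℝ, mv v * c ≤ wt N n := by
    unfold wt
    refine integral_mono (WTT_integrable continuous_const) (WTT_integrable (WTT_gcont hN n)) fun v => ?_
    by_cases hv : mv v = 0
    · simp [hv]
    · exact mul_le_mul_of_nonneg_left (h v (WTT_supp hv).1 (WTT_supp hv).2) (WTT_nonneg v)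
  rw [integral_mul_const, WTT_int, one_mul] at h1
  exact h1

/-! block WTT -/

theorem wt_bounds_pr {N : ℕ} (hN : 3 ≤ N) (n : ℕ) : 0 ≤ wt N n ∧ wt N n ≤ 1 ∧
    wt N n ≤ Real.exp (-2 * Real.pi * n * (N : ℝ) ^ (-(11 / 20) : ℝ)) := by
  have hN0 : 0 < N := by omega
  have hN1 : (1 : ℝ) ≤ N := by exact_mod_cast hN0
  have hpi := Real.pi_pos
  refine ⟨?_, ?_, ?_⟩
  · unfold wt
    exact integral_nonneg fun v => mul_nonneg (WTT_nonneg v) (Real.exp_pos _).le
  · refine WTT_upper hN0 n fun v _ _ => ?_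
    rw [Real.exp_le_one_iff]
    have h1 : 0 ≤ 2 * Real.pi * n * (N : ℝ) ^ (-v) := by positivity
    linarith
  · refine WTT_upper hN0 n fun v _ hv => ?_
    rw [Real.exp_le_exp]
    have h1 : (N : ℝ) ^ (-(11 / 20) : ℝ) ≤ (N : ℝ) ^ (-v) :=
      Real.rpow_le_rpow_of_exponent_le hN1 (by linarith)
    have h2 : 2 * Real.pi * n * (N : ℝ) ^ (-(11 / 20) : ℝ) ≤ 2 * Real.pi * n * (N : ℝ) ^ (-v) :=
      mul_le_mul_of_nonneg_left h1 (by positivity)
    linarith

theorem wt_one_pr {ε : ℝ} (hε : 0 < ε) : ∃ N₀ : ℕ, ∀ N : ℕ, N₀ ≤ N → 1 - ε ≤ wt N 1 := by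
  have hpi := Real.pi_pos
  have ht : Tendsto (fun N : ℕ => 2 * Real.pi * (N : ℝ) ^ (-(9 / 20) : ℝ)) atTop (𝓝 (2 * Real.pi * 0)) :=
    ((tendsto_rpow_neg_atTop (by norm_num : (0 : ℝ) < 9 / 20)).comp
      tendsto_natCast_atTop_atTop).const_mul _
  rw [mul_zero] at ht
  obtain ⟨N₀, h⟩ := eventually_atTop.1 (ht.eventually (gt_mem_nhds hε))
  refine ⟨max N₀ 1, fun N hN => ?_⟩
  have hN1 : 1 ≤ N := (le_max_right _ _).trans hN
  have hN1' : (1 : ℝ) ≤ N := by exact_mod_cast hN1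
  have h2 := h N ((le_max_left _ _).trans hN)
  refine WTT_lower hN1 1 fun v hv _ => ?_
  have h3 : (N : ℝ) ^ (-v) ≤ (N : ℝ) ^ (-(9 / 20) : ℝ) :=
    Real.rpow_le_rpow_of_exponent_le hN1' (by linarith)
  have h4 : 2 * Real.pi * (N : ℝ) ^ (-v) ≤ 2 * Real.pi * (N : ℝ) ^ (-(9 / 20) : ℝ) :=
    mul_le_mul_of_nonneg_left h3 (by positivity)
  have h5 := Real.add_one_le_exp (-2 * Real.pi * ((1 : ℕ) : ℝ) * (N : ℝ) ^ (-v))
  rw [Nat.cast_one] at h5 ⊢
  linarith

theorem wt_bounds : type_of% @wt_bounds_pr := @wt_bounds_pr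

theorem wt_one : type_of% @wt_one_pr := @wt_one_pr

end Pool.Agent.LVB
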