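import Pool.Agent.Lib_helper41.LVB.Defs
import Pool.Agent.Lib_helper68.LEV.EIA
import Pool.Agent.Lib_helper68.LEV.QEX
import Pool.Agent.Lib_helper68.LEV.LSB
import Pool.Agent.Lib_helper68.LEV.HPO
import Pool.Agent.Lib_helper41.LVBF.WTT

/-! Theorem B, block AFT: truncation of the approximate functional equation. -/

set_option autoImplicit false

namespace Pool.Agent.LVB

open Pool.Agent.LEV Complex MeasureTheory Filter Topology UpperHalfPlane ModularGroup ProbabilityTheory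
open scoped MatrixGroups Modular ENNReal ModularForm ComplexConjugate ContDiff

/-- exponential decay against polynomials -/
theorem AFT_exp {u : ℝ} (hu : 0 < u) {n : ℕ} (hn : 1 ≤ n) :
    Real.exp (-(2 * Real.pi * n * u)) * (1 + (n : ℝ)) ^ 4 ≤ 16 / u ^ 6 * (1 / (n : ℝ) ^ 2) := by
  have hn1 : (1 : ℝ) ≤ n := by exact_mod_cast hn
  have hn0 : (0 : ℝ) < n := by linarith
  have hpi : 3 < Real.pi := Real.pi_gt_three
  have hy : 0 < 2 * Real.pi * n * u := by positivity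
  have h1 : (2 * Real.pi * n * u) ^ 6 / (Nat.factorial 6 : ℝ) ≤ Real.exp (2 * Real.pi * n * u) :=
    Real.pow_div_factorial_le_exp _ hy.le 6
  have h2 : (n * u) ^ 6 ≤ Real.exp (2 * Real.pi * n * u) := by
    refine le_trans ?_ h1
    have h3 : (2 * Real.pi * n * u) ^ 6 = (2 * Real.pi) ^ 6 * (n * u) ^ 6 := by ring
    rw [h3]
    have h4 : (720 : ℝ) ≤ (2 * Real.pi) ^ 6 := by
      calc (720 : ℝ) ≤ 6 ^ 6 := by norm_num
        _ ≤ (2 * Real.pi) ^ 6 := by
          apply pow_le_pow_left₀ (by norm_num); linarith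
    have h5 : ((Nat.factorial 6 : ℕ) : ℝ) = 720 := by norm_num [Nat.factorial]
    rw [h5, le_div_iff₀ (by norm_num)]
    have h6 : 0 ≤ (n * u) ^ 6 := by positivity
    nlinarith
  rw [Real.exp_neg]
  have h7 : (Real.exp (2 * Real.pi * n * u))⁻¹ ≤ ((n * u) ^ 6)⁻¹ :=
    inv_anti₀ (by positivity) h2
  have h8 : (1 + (n : ℝ)) ^ 4 ≤ 16 * (n : ℝ) ^ 4 := by
    calc (1 + (n : ℝ)) ^ 4 ≤ (2 * (n : ℝ)) ^ 4 := by
          apply pow_le_pow_left₀ (by positivity); linarith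
      _ = _ := by ring
  calc (Real.exp (2 * Real.pi * n * u))⁻¹ * (1 + (n : ℝ)) ^ 4
      ≤ ((n * u) ^ 6)⁻¹ * (16 * (n : ℝ) ^ 4) := by
        apply mul_le_mul h7 h8 (by positivity) (by positivity)
    _ = 16 / u ^ 6 * (1 / (n : ℝ) ^ 2) := by
        field_simp

theorem AFT_sum2 : ∑' n : ℕ, 1 / (n : ℝ) ^ 2 ≤ 2 := by
  have h := hasSum_zeta_two
  have h2 : Real.pi ^ 2 / 6 ≤ 2 := by
    have : Real.pi < 3.15 := Real.pi_lt_d2
    have h0 : 0 < Real.pi := Real.pi_pos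
    nlinarith
  rw [h.tsum_eq]; exact h2

/-- size -/
theorem AFT_lim (C : ℝ) : ∃ N₀ : ℕ, ∀ N : ℕ, N₀ ≤ N → 1 ≤ N ∧
    C * (Real.exp (-(N : ℝ) ^ (1 / 20 : ℝ)) * (N : ℝ) ^ 6) ≤ 1 := by
  have h1 : Tendsto (fun x : ℝ => C * (x ^ 120 * Real.exp (-x))) atTop (𝓝 (C * 0)) :=
    (Real.tendsto_pow_mul_exp_neg_atTop_nhds_zero 120).const_mul C
  have h2 : Tendsto (fun N : ℕ => (N : ℝ) ^ (1 / 20 : ℝ)) atTop atTop :=
    (tendsto_rpow_atTop (by norm_num)).comp tendsto_natCast_atTop_atTop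
  have h3 := (h1.comp h2)
  rw [mul_zero] at h3
  have h4 := (h3.eventually (ge_mem_nhds (show (0 : ℝ) < 1 by norm_num))).and (eventually_ge_atTop 1)
  obtain ⟨N₀, hN₀⟩ := eventually_atTop.mp h4
  refine ⟨N₀, fun N hN => ⟨(hN₀ N hN).2, ?_⟩⟩
  have h5 := (hN₀ N hN).1
  simp only [Function.comp_apply] at h5
  have h6 : ((N : ℝ) ^ (1 / 20 : ℝ)) ^ 120 = (N : ℝ) ^ 6 := by
    rw [← Real.rpow_natCast, ← Real.rpow_mul (Nat.cast_nonneg N)]
    norm_num
  rw [h6] at h5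
  rw [mul_comm (Real.exp _)]
  exact h5

/-- summability of the series of the central value -/
theorem AFT_summable {N : ℕ} [Fact N.Prime] (hN : 3 ≤ N) {f : S2 N} :
    Summable (fun n : ℕ => la f n / Real.sqrt n * wt N n) := by
  obtain ⟨C, hC⟩ := co_bound f
  have hN0 : (0 : ℝ) < N := by exact_mod_cast (by omega : 0 < N)
  have hu : 0 < (N : ℝ) ^ (-(11 / 20) : ℝ) := Real.rpow_pos_of_pos hN0 _
  have hC0 : 0 ≤ C := by
    have := (norm_nonneg _).trans (hC 1)
    simpa using this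
  set u : ℝ := (N : ℝ) ^ (-(11 / 20) : ℝ) with hudef
  refine Summable.of_norm_bounded (g := fun n : ℕ => C * (16 / u ^ 6) * (1 / (n : ℝ) ^ 2))
    ((Real.summable_one_div_nat_pow.mpr (by norm_num : 1 < 2)).mul_left _) (fun n => ?_)
  rcases Nat.eq_zero_or_pos n with rfl | hn
  · simp
  have hn1 : (1 : ℝ) ≤ n := by exact_mod_cast hn
  have hn0 : (0 : ℝ) < n := by linarith
  obtain ⟨hw0, -, hw⟩ := wt_bounds hN n
  have hw' : wt N n ≤ Real.exp (-(2 * Real.pi * n * u)) := by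
    refine hw.trans (le_of_eq ?_); congr 1; ring
  have h1 : |la f n| / Real.sqrt n ≤ C := by
    unfold la
    rw [abs_div, abs_of_nonneg (Real.sqrt_nonneg _), div_div, Real.mul_self_sqrt hn0.le,
      div_le_iff₀ hn0]
    exact (Complex.abs_re_le_norm _).trans (hC n)
  rw [Real.norm_eq_abs, abs_mul, abs_div, abs_of_nonneg (Real.sqrt_nonneg _), abs_of_nonneg hw0]
  have h2 := AFT_exp hu hn
  have h3 : Real.exp (-(2 * Real.pi * n * u)) ≤ Real.exp (-(2 * Real.pi * n * u)) * (1 + (n : ℝ)) ^ 4 := by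
    have : (1 : ℝ) ≤ (1 + (n : ℝ)) ^ 4 := one_le_pow₀ (by linarith)
    exact le_mul_of_one_le_right (Real.exp_pos _).le this
  calc |la f n| / Real.sqrt n * wt N n ≤ C * (16 / u ^ 6 * (1 / (n : ℝ) ^ 2)) := by
        apply mul_le_mul h1 (hw'.trans (h3.trans h2)) hw0 hC0
    _ = _ := by ring

/-- the tail -/
noncomputable def AFT_g (N n : ℕ) : ℝ := if X0 N < n then wt N n / Real.sqrt n else 0

theorem AFT_g_bound {N : ℕ} (hN : 3 ≤ N) (n : ℕ) :
    AFT_g N n ^ 2 * (1 + (n : ℝ)) ^ 4 ≤ Real.exp (-(N : ℝ) ^ (1 / 20 : ℝ)) *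
      (16 * (N : ℝ) ^ 4) * (1 / (n : ℝ) ^ 2) := by
  have hN1 : (1 : ℝ) ≤ N := by exact_mod_cast (by omega : 1 ≤ N)
  have hN0 : (0 : ℝ) < N := by linarith
  unfold AFT_g
  split_ifs with h
  · have hn : 1 ≤ n := by omega
    have hn1 : (1 : ℝ) ≤ n := by exact_mod_cast hn
    have hn0 : (0 : ℝ) < n := by linarith
    set u : ℝ := (N : ℝ) ^ (-(11 / 20) : ℝ) with hudef
    have hu : 0 < u := Real.rpow_pos_of_pos hN0 _
    obtain ⟨hw0, -, hw⟩ := wt_bounds hN n
    have hw' : wt N n ≤ Real.exp (-(2 * Real.pi * n * u)) := by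
      refine hw.trans (le_of_eq ?_); congr 1; ring
    have hX : (N : ℝ) ^ (3 / 5 : ℝ) < n := by
      have : X0 N + 1 ≤ n := h
      have h2 : (N : ℝ) ^ (3 / 5 : ℝ) < (X0 N : ℝ) + 1 := Nat.lt_floor_add_one _
      have h3 : ((X0 N : ℝ) + 1) ≤ n := by exact_mod_cast this
      linarith
    have hnu : (N : ℝ) ^ (1 / 20 : ℝ) ≤ n * u := by
      have h4 : (N : ℝ) ^ (1 / 20 : ℝ) = (N : ℝ) ^ (3 / 5 : ℝ) * u := by
        rw [hudef, ← Real.rpow_add hN0]; norm_num
      rw [h4]; exact mul_le_mul_of_nonneg_right hX.le hu.le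
    have hpi : 3 < Real.pi := Real.pi_gt_three
    have h5 : (wt N n / Real.sqrt n) ^ 2 ≤ Real.exp (-(2 * Real.pi * n * u)) ^ 2 := by
      apply pow_le_pow_left₀ (by positivity)
      refine (div_le_self hw0 ?_).trans hw'
      rw [Real.one_le_sqrt]; exact hn1
    have h6 : Real.exp (-(2 * Real.pi * n * u)) ≤ Real.exp (-(N : ℝ) ^ (1 / 20 : ℝ)) := by
      apply Real.exp_le_exp.mpr
      have : 0 ≤ (n : ℝ) * u := by positivity
      nlinarith
    have h7 := AFT_exp hu hn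
    have h8 : 16 / u ^ 6 ≤ 16 * (N : ℝ) ^ 4 := by
      have h9 : u ^ 6 = (N : ℝ) ^ (-(33 / 10) : ℝ) := by
        rw [hudef, ← Real.rpow_natCast, ← Real.rpow_mul hN0.le]; norm_num
      rw [h9, Real.rpow_neg hN0.le, div_eq_mul_inv, inv_inv]
      apply mul_le_mul_of_nonneg_left _ (by norm_num)
      have h10 : (N : ℝ) ^ 4 = (N : ℝ) ^ (4 : ℝ) := by norm_num
      rw [h10]
      exact Real.rpow_le_rpow_of_exponent_le hN1 (by norm_num)
    have hE : 0 < Real.exp (-(2 * Real.pi * n * u)) := Real.exp_pos _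
    calc (wt N n / Real.sqrt n) ^ 2 * (1 + (n : ℝ)) ^ 4
        ≤ Real.exp (-(2 * Real.pi * n * u)) ^ 2 * (1 + (n : ℝ)) ^ 4 :=
          mul_le_mul_of_nonneg_right h5 (by positivity)
      _ = Real.exp (-(2 * Real.pi * n * u)) *
          (Real.exp (-(2 * Real.pi * n * u)) * (1 + (n : ℝ)) ^ 4) := by ring
      _ ≤ Real.exp (-(N : ℝ) ^ (1 / 20 : ℝ)) * (16 / u ^ 6 * (1 / (n : ℝ) ^ 2)) := by
          apply mul_le_mul h6 h7 (by positivity) (Real.exp_pos _).le
      _ ≤ Real.exp (-(N : ℝ) ^ (1 / 20 : ℝ)) * (16 * (N : ℝ) ^ 4 * (1 / (n : ℝ) ^ 2)) := by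
          apply mul_le_mul_of_nonneg_left _ (Real.exp_pos _).le
          exact mul_le_mul_of_nonneg_right h8 (by positivity)
      _ = _ := by ring
  · simp only [ne_eq, OfNat.ofNat_ne_zero, not_false_eq_true, zero_pow, zero_mul]
    positivity

/-- truncation -/
theorem afe_tail_pr : ∃ N₀ : ℕ, ∀ (N : ℕ) [Fact N.Prime], N₀ ≤ N → ∀ {ι : Type} [Fintype ι]
    (f : ι → S2 N), Function.Injective f → (∀ i, IsNew (f i)) →
    ∑ i, om (f i) * (∑' n : ℕ, la (f i) n / Real.sqrt n * wt N n - St N (la (f i))) ^ 2 ≤ 1 / N ^ 2 := by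
  obtain ⟨C, hC0, hC⟩ := ls_inf
  obtain ⟨N₁, hN₁⟩ := AFT_lim (32 * C)
  refine ⟨max N₁ 3, ?_⟩
  intro N _ hN ι _ f hinj hnew
  have hN3 : 3 ≤ N := (le_max_right _ _).trans hN
  obtain ⟨-, hlim⟩ := hN₁ N ((le_max_left _ _).trans hN)
  have hN1 : (1 : ℝ) ≤ N := by exact_mod_cast (by omega : 1 ≤ N)
  have hN0 : (0 : ℝ) < N := by linarith
  have hX : X0 N < N := by
    have h1 : (X0 N : ℝ) ≤ (N : ℝ) ^ (3 / 5 : ℝ) := Nat.floor_le (Real.rpow_nonneg hN0.le _)
    have h2 : (N : ℝ) ^ (3 / 5 : ℝ) < (N : ℝ) ^ (1 : ℝ) := by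
      apply Real.rpow_lt_rpow_of_exponent_lt _ (by norm_num)
      exact_mod_cast (by omega : 1 < N)
    rw [Real.rpow_one] at h2
    exact_mod_cast h1.trans_lt h2
  have hS : Summable (fun n : ℕ => 1 / (n : ℝ) ^ 2) :=
    Real.summable_one_div_nat_pow.mpr (by norm_num : 1 < 2)
  have hgs : Summable (fun n : ℕ => AFT_g N n ^ 2 * (1 + (n : ℝ)) ^ 4) :=
    Summable.of_nonneg_of_le (fun n => by positivity) (fun n => AFT_g_bound hN3 n) (hS.mul_left _)
  have key := hC N f (fun i => new_ne_zero (hnew i))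
    (fun i j hij => new_orth (hnew i) (hnew j) (fun h => hij (hinj h))) (AFT_g N) hgs
  -- the right side
  have hR : ∑' n : ℕ, AFT_g N n ^ 2 * (1 + (n : ℝ) / N) ^ 2 ≤
      Real.exp (-(N : ℝ) ^ (1 / 20 : ℝ)) * (16 * (N : ℝ) ^ 4) * 2 := by
    have h0 : ∀ n : ℕ, AFT_g N n ^ 2 * (1 + (n : ℝ) / N) ^ 2 ≤ AFT_g N n ^ 2 * (1 + (n : ℝ)) ^ 4 := by
      intro n
      apply mul_le_mul_of_nonneg_left _ (sq_nonneg _)
      have h1 : (n : ℝ) / N ≤ n := div_le_self (Nat.cast_nonneg n) hN1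
      have h2 : (0 : ℝ) ≤ (n : ℝ) / N := by positivity
      calc (1 + (n : ℝ) / N) ^ 2 ≤ (1 + (n : ℝ)) ^ 2 := by
            apply pow_le_pow_left₀ (by positivity); linarith
        _ ≤ (1 + (n : ℝ)) ^ 4 := by
            apply pow_le_pow_right₀ _ (by norm_num)
            have : (0 : ℝ) ≤ n := Nat.cast_nonneg n
            linarith
    have h1 : ∀ n : ℕ, AFT_g N n ^ 2 * (1 + (n : ℝ) / N) ^ 2 ≤ Real.exp (-(N : ℝ) ^ (1 / 20 : ℝ)) *
      (16 * (N : ℝ) ^ 4) * (1 / (n : ℝ) ^ 2) := fun n => (h0 n).trans (AFT_g_bound hN3 n)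
    have h2 : Summable (fun n : ℕ => AFT_g N n ^ 2 * (1 + (n : ℝ) / N) ^ 2) :=
      Summable.of_nonneg_of_le (fun n => by positivity) h1 (hS.mul_left _)
    refine (h2.tsum_le_tsum h1 (hS.mul_left _)).trans ?_
    rw [tsum_mul_left]
    exact mul_le_mul_of_nonneg_left AFT_sum2 (by positivity)
  -- the identity
  have hid : ∀ i, ((∑' n : ℕ, la (f i) n / Real.sqrt n * wt N n - St N (la (f i)) : ℝ) : ℂ) =
      ∑' n : ℕ, (AFT_g N n : ℂ) * (co (f i) n / (Real.sqrt n : ℂ)) := by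
    intro i
    have hsum := AFT_summable hN3 (f := f i)
    have h1 : St N (la (f i)) = ∑ n ∈ Finset.range (X0 N + 1), la (f i) n / Real.sqrt n * wt N n := by
      have h2 : Finset.range (X0 N + 1) = insert 0 (Finset.Icc 1 (X0 N)) := by
        ext k; simp only [Finset.mem_range, Finset.mem_insert, Finset.mem_Icc]; omega
      rw [h2, Finset.sum_insert (by simp)]
      simp only [Nat.cast_zero, Real.sqrt_zero, div_zero, zero_mul, zero_add]
      unfold St
      apply Finset.sum_congr rfl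
      intro n hn
      rw [Finset.mem_Icc] at hn
      rw [um_new (hnew i) (new_real (hnew i)) (by omega)]
      · ring
      · have hNp : N.Prime := Fact.out
        apply Nat.Coprime.symm
        rw [hNp.coprime_iff_not_dvd]
        intro hd
        have := Nat.le_of_dvd (by omega) hd
        omega
    have h3 : ∑' n : ℕ, la (f i) n / Real.sqrt n * wt N n - St N (la (f i)) =
        ∑' n : ℕ, AFT_g N n * (la (f i) n) := by
      have h4 : ∑' n : ℕ, la (f i) n / Real.sqrt n * wt N n =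
          ∑' n : ℕ, ((if n ∈ Finset.range (X0 N + 1) then la (f i) n / Real.sqrt n * wt N n else 0) +
            AFT_g N n * (la (f i) n)) := by
        apply tsum_congr
        intro n
        unfold AFT_g
        by_cases hn : n < X0 N + 1
        · rw [if_pos (Finset.mem_range.mpr hn), if_neg (by omega)]; ring
        · rw [if_neg (by rw [Finset.mem_range]; exact hn), if_pos (by omega)]; ring
      have h5 : Summable (fun n : ℕ => if n ∈ Finset.range (X0 N + 1) then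
          la (f i) n / Real.sqrt n * wt N n else 0) :=
        summable_of_ne_finset_zero (s := Finset.range (X0 N + 1)) (fun n hn => if_neg hn)
      have h6 : Summable (fun n : ℕ => AFT_g N n * (la (f i) n)) := by
        refine (hsum.sub h5).congr (fun n => ?_)
        unfold AFT_g
        by_cases hn : n < X0 N + 1
        · rw [if_pos (Finset.mem_range.mpr hn), if_neg (by omega)]; ring
        · rw [if_neg (by rw [Finset.mem_range]; exact hn), if_pos (by omega)]; ring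
      rw [h4, h5.tsum_add h6, tsum_eq_sum (s := Finset.range (X0 N + 1)) (fun n hn => if_neg hn), h1,
        Finset.sum_congr rfl (fun n hn => if_pos hn)]
      ring
    rw [h3, Complex.ofReal_tsum]
    apply tsum_congr
    intro n
    unfold la
    have h7 : co (f i) n = ((co (f i) n).re : ℂ) := by
      apply Complex.ext
      · simp
      · simp [new_real (hnew i) n]
    rw [h7]
    push_cast
    simp
  have hsq : ∀ i, om (f i) * (∑' n : ℕ, la (f i) n / Real.sqrt n * wt N n - St N (la (f i))) ^ 2 =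
      1 / (4 * Real.pi) * (1 / nr (f i) * ‖∑' n : ℕ, (AFT_g N n : ℂ) * (co (f i) n / (Real.sqrt n : ℂ))‖ ^ 2) := by
    intro i
    rw [← hid i, Complex.norm_real, Real.norm_eq_abs, sq_abs]
    unfold om
    ring
  have hsum : ∑ i, om (f i) * (∑' n : ℕ, la (f i) n / Real.sqrt n * wt N n - St N (la (f i))) ^ 2 =
      1 / (4 * Real.pi) * ∑ i, (1 / nr (f i) *
        ‖∑' n : ℕ, (AFT_g N n : ℂ) * (co (f i) n / (Real.sqrt n : ℂ))‖ ^ 2) := by
    rw [Finset.mul_sum]; exact Finset.sum_congr rfl (fun i _ => hsq i)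
  rw [hsum]
  have h9 : 1 / (4 * Real.pi) ≤ 1 := by
    have hpi : 3 < Real.pi := Real.pi_gt_three
    rw [div_le_one (by positivity)]; linarith
  have h10 : C * (Real.exp (-(N : ℝ) ^ (1 / 20 : ℝ)) * (16 * (N : ℝ) ^ 4) * 2) ≤ 1 / N ^ 2 := by
    rw [le_div_iff₀ (by positivity)]
    calc C * (Real.exp (-(N : ℝ) ^ (1 / 20 : ℝ)) * (16 * (N : ℝ) ^ 4) * 2) * (N : ℝ) ^ 2
        = 32 * C * (Real.exp (-(N : ℝ) ^ (1 / 20 : ℝ)) * (N : ℝ) ^ 6) := by ring
      _ ≤ 1 := hlim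
  have h11 : 0 ≤ 1 / (4 * Real.pi) := by positivity
  calc 1 / (4 * Real.pi) * ∑ i, (1 / nr (f i) *
        ‖∑' n : ℕ, (AFT_g N n : ℂ) * (co (f i) n / (Real.sqrt n : ℂ))‖ ^ 2)
      ≤ 1 / (4 * Real.pi) * (C * ∑' n : ℕ, AFT_g N n ^ 2 * (1 + (n : ℝ) / N) ^ 2) :=
        mul_le_mul_of_nonneg_left key h11
    _ ≤ 1 * (C * (Real.exp (-(N : ℝ) ^ (1 / 20 : ℝ)) * (16 * (N : ℝ) ^ 4) * 2)) := by
        apply mul_le_mul h9 (mul_le_mul_of_nonneg_left hR hC0.le) _ (by norm_num)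
        apply mul_nonneg hC0.le
        exact tsum_nonneg (fun n => by positivity)
    _ ≤ 1 / N ^ 2 := by rw [one_mul]; exact h10

theorem afe_tail : type_of% @afe_tail_pr := @afe_tail_pr

end Pool.Agent.LVB
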