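import Pool.Agent.Lib_helper41.LVB.Defs
import Pool.Agent.Lib_helper68.LEV.MEX

/-! # Block ELF: the local Euler factor -/

namespace Pool.Agent.LVB

open Pool.Agent.LEV Complex MeasureTheory Filter Topology UpperHalfPlane ModularGroup ProbabilityTheory
open scoped MatrixGroups Modular ENNReal ModularForm ComplexConjugate ContDiff

theorem uu_le_pr {x : ℝ} (hx : |x| ≤ 2) (k : ℕ) : |Uu x k| ≤ k + 1 := MEX_le hx k

/-- `1 / √2` -/
noncomputable def ELF_r : ℝ := 1 / Real.sqrt 2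

theorem ELF_r_facts : 0 < ELF_r ∧ ELF_r < 1 ∧ ELF_r ^ 2 = 1 / 2 ∧ 1 / (1 - ELF_r) ^ 2 ≤ 12 := by
  have h2 : Real.sqrt 2 ^ 2 = 2 := Real.sq_sqrt (by norm_num)
  have h1 : 0 < Real.sqrt 2 := by positivity
  have hr : 0 < ELF_r := by unfold ELF_r; positivity
  have hsq : ELF_r ^ 2 = 1 / 2 := by
    unfold ELF_r
    rw [div_pow, h2]
    norm_num
  have hlt : ELF_r < 0.7072 := by
    nlinarith
  refine ⟨hr, by linarith, hsq, ?_⟩
  have h3 : 0 < 1 - ELF_r := by linarith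
  rw [div_le_iff₀ (by positivity)]
  nlinarith

theorem ELF_q {p : ℕ} (hp : p.Prime) {a : ℂ} (ha : ‖a‖ ≤ 1) :
    ‖a / (Real.sqrt p : ℂ)‖ ≤ ELF_r := by
  have h2 : (2 : ℝ) ≤ p := by exact_mod_cast hp.two_le
  have h3 : Real.sqrt 2 ≤ Real.sqrt p := Real.sqrt_le_sqrt h2
  have h1 : 0 < Real.sqrt 2 := by positivity
  rw [norm_div, Complex.norm_real, Real.norm_eq_abs, abs_of_nonneg (Real.sqrt_nonneg _)]
  unfold ELF_r
  exact div_le_div₀ (by norm_num) ha h1 h3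

theorem ELF_geo {r : ℝ} (h0 : 0 ≤ r) (h1 : r < 1) :
    HasSum (fun k : ℕ => ((k : ℝ) + 1) * r ^ k) (1 / (1 - r) ^ 2) := by
  have hn : ‖r‖ < 1 := by rwa [Real.norm_eq_abs, abs_of_nonneg h0]
  have e1 := hasSum_coe_mul_geometric_of_norm_lt_one hn
  have e2 := hasSum_geometric_of_norm_lt_one hn
  have e3 := e1.add e2
  have h3 : (1 - r) ≠ 0 := by linarith
  have e4 : r / (1 - r) ^ 2 + (1 - r)⁻¹ = 1 / (1 - r) ^ 2 := by
    field_simp
    ring
  rw [e4] at e3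
  have e5 : (fun k : ℕ => (k : ℝ) * r ^ k + r ^ k) = (fun k : ℕ => ((k : ℝ) + 1) * r ^ k) := by
    funext k
    ring
  rwa [e5] at e3

theorem ELF_bd {p : ℕ} (hp : p.Prime) {a : ℂ} (ha : ‖a‖ ≤ 1) {x : ℝ} (hx : |x| ≤ 2) (k : ℕ) :
    ‖(Uu x k : ℂ) * (a / (Real.sqrt p : ℂ)) ^ k‖ ≤ ((k : ℝ) + 1) * ELF_r ^ k := by
  rw [norm_mul, norm_pow, Complex.norm_real, Real.norm_eq_abs]
  exact mul_le_mul (uu_le_pr hx k) (pow_le_pow_left₀ (norm_nonneg _) (ELF_q hp ha) k)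
    (by positivity) (by positivity)

theorem el_sum_pr {p : ℕ} (hp : p.Prime) {a : ℂ} (ha : ‖a‖ ≤ 1) {x : ℝ} (hx : |x| ≤ 2) :
    HasSum (fun k : ℕ => (Uu x k : ℂ) * (a / (Real.sqrt p : ℂ)) ^ k) (el p a x) := by
  obtain ⟨hr0, hr1, -, -⟩ := ELF_r_facts
  set q : ℂ := a / (Real.sqrt p : ℂ) with hq
  set f : ℕ → ℂ := fun k => (Uu x k : ℂ) * q ^ k with hf
  have hs : Summable f := Summable.of_norm_bounded (ELF_geo hr0.le hr1).summable
    (fun k => ELF_bd hp ha hx k)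
  have hS := hs.hasSum
  have hp0 : (0 : ℝ) < p := by exact_mod_cast hp.pos
  have e1 : ∑' k, f k = 1 + ∑' k, f (k + 1) := by
    rw [hs.tsum_eq_zero_add]
    simp [hf, Uu]
  have hs1 : Summable (fun k => f (k + 1)) := (summable_nat_add_iff 1).2 hs
  have e2 : ∑' k, f (k + 1) = (x : ℂ) * q + ∑' k, f (k + 2) := by
    rw [hs1.tsum_eq_zero_add]
    simp [hf, Uu]
  have e3 : ∀ k, f (k + 2) = (x : ℂ) * q * f (k + 1) - q ^ 2 * f k := by
    intro k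
    simp only [hf, Uu]
    push_cast
    ring
  have e4 : ∑' k, f (k + 2) = (x : ℂ) * q * ∑' k, f (k + 1) - q ^ 2 * ∑' k, f k := by
    rw [tsum_congr e3, (hs1.mul_left _).tsum_sub (hs.mul_left _), tsum_mul_left, tsum_mul_left]
  have e5 : (∑' k, f k) * (1 - a * (x : ℂ) / (Real.sqrt p : ℂ) + a ^ 2 / (p : ℂ)) = 1 := by
    have hsq : ((Real.sqrt p : ℝ) : ℂ) ^ 2 = (p : ℂ) := by
      rw [← Complex.ofReal_pow, Real.sq_sqrt hp0.le]
      simp
    have h1 : a * (x : ℂ) / (Real.sqrt p : ℂ) = (x : ℂ) * q := by rw [hq]; ring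
    have h2 : a ^ 2 / (p : ℂ) = q ^ 2 := by rw [hq, div_pow, hsq]
    rw [h1, h2]
    have h3 : ∑' k, f (k + 1) = ∑' k, f k - 1 := by rw [e1]; ring
    rw [h3] at e2 e4
    rw [e4] at e2
    linear_combination e2
  have e6 : el p a x = ∑' k, f k := by
    unfold el
    exact (eq_inv_of_mul_eq_one_left e5).symm
  rw [e6]
  exact hS

theorem el_norm_pr {p : ℕ} (hp : p.Prime) {a : ℂ} (ha : ‖a‖ ≤ 1) {x : ℝ} (hx : |x| ≤ 2) :
    ‖el p a x‖ ≤ 12 := by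
  obtain ⟨hr0, hr1, -, h12⟩ := ELF_r_facts
  rw [← (el_sum_pr hp ha hx).tsum_eq]
  exact (tsum_of_norm_bounded (ELF_geo hr0.le hr1) (fun k => ELF_bd hp ha hx k)).trans h12

theorem el_meas_pr (p : ℕ) (a : ℂ) : Measurable (fun x : ℝ => el p a x) := by
  unfold el
  refine Measurable.inv ?_
  exact Continuous.measurable (by fun_prop)

theorem el_sum : type_of% @el_sum_pr := @el_sum_pr

theorem el_norm : type_of% @el_norm_pr := @el_norm_pr

theorem el_meas : type_of% @el_meas_pr := @el_meas_pr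

theorem uu_le : type_of% @uu_le_pr := @uu_le_pr

end Pool.Agent.LVB
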