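import Pool.Agent.Lib_helper41.LVB.Defs
import Pool.Agent.Lib_helper68.LEV.EQS
import Pool.Agent.Lib_helper68.LEV.MEX
import Pool.Agent.Lib_helper41.LVBF.ELF

/-! LVB, block ELM (cites el_sum, el_norm, el_meas, uu_le of block ELF). -/

set_option autoImplicit false

namespace Pool.Agent.LVB

open Pool.Agent.LEV Complex MeasureTheory Filter Topology UpperHalfPlane ModularGroup ProbabilityTheory
open scoped MatrixGroups Modular ENNReal ModularForm ComplexConjugate ContDiff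

theorem st_sub_pr {I I' : Finset ℕ} (h : I' ⊆ I) {P : Measure (ℕ → ℝ)} (hP : IsST I P) :
    IsST I' P where
  prob := hP.prob
  bdd := by
    filter_upwards [hP.bdd] with x hx p hp
    exact hx p (h hp)
  ind := by
    have h1 := hP.ind.precomp (g := fun p : I' => (⟨p, h p.2⟩ : I)) (fun a b hab => by
      have h2 : (a : ℕ) = b := congrArg (fun q : I => (q : ℕ)) hab
      exact Subtype.ext h2)
    exact h1
  mom := fun p hp k => hP.mom p (h hp) k

theorem ELM_meas (p k : ℕ) : Measurable (fun x : ℕ → ℝ => (Uu (x p) k : ℂ)) :=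
  Complex.measurable_ofReal.comp ((MEX_cont k).measurable.comp (measurable_pi_apply p))

theorem ELM_int {I : Finset ℕ} {P : Measure (ℕ → ℝ)} (hP : IsST I P) {p : ℕ} (hp : p ∈ I) (k : ℕ)
    {g : (ℕ → ℝ) → ℂ} (hg : AEStronglyMeasurable g P) {C : ℝ} (hC : ∀ᵐ x ∂P, ‖g x‖ ≤ C) :
    Integrable (fun x => (Uu (x p) k : ℂ) * g x) P := by
  have := hP.prob
  refine Integrable.of_bound ((ELM_meas p k).aestronglyMeasurable.mul hg) ((k + 1) * C) ?_
  filter_upwards [hP.bdd, hC] with x hx hx2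
  rw [norm_mul, Complex.norm_real, Real.norm_eq_abs]
  exact mul_le_mul (MEX_le (hx p hp) k) hx2 (norm_nonneg _) (by positivity)

theorem ELM_b {p : ℕ} (hpp : p.Prime) {a : ℂ} (ha : ‖a‖ ≤ 1) :
    ‖a / (Real.sqrt p : ℂ)‖ ^ 2 = ‖a‖ ^ 2 / p ∧ ‖a / (Real.sqrt p : ℂ)‖ < 1 := by
  have hp2 : (2 : ℝ) ≤ p := by exact_mod_cast hpp.two_le
  have h1 : ‖a / (Real.sqrt p : ℂ)‖ ^ 2 = ‖a‖ ^ 2 / p := by
    rw [norm_div, Complex.norm_real, Real.norm_eq_abs, abs_of_nonneg (Real.sqrt_nonneg _), div_pow,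
      Real.sq_sqrt (by linarith)]
  refine ⟨h1, ?_⟩
  have h2 : ‖a / (Real.sqrt p : ℂ)‖ ^ 2 < 1 := by
    rw [h1, div_lt_one (by linarith)]
    have := norm_nonneg a
    nlinarith
  have := norm_nonneg (a / (Real.sqrt p : ℂ))
  nlinarith

theorem ELM_summ {r : ℝ} (h0 : 0 ≤ r) (h1 : r < 1) (C : ℝ) :
    Summable (fun k : ℕ => r ^ k * (((k : ℝ) + 1) * C)) := by
  have hr : ‖r‖ < 1 := by rwa [Real.norm_eq_abs, abs_of_nonneg h0]
  have h2 := (summable_pow_mul_geometric_of_norm_lt_one 1 hr).add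
    (summable_geometric_of_lt_one h0 h1)
  have h3 := h2.mul_right C
  refine h3.congr fun k => ?_
  ring

theorem ELM_series {I : Finset ℕ} {P : Measure (ℕ → ℝ)} (hP : IsST I P) {p : ℕ} (hp : p ∈ I)
    (hpp : p.Prime) {a : ℂ} (ha : ‖a‖ ≤ 1) {g : (ℕ → ℝ) → ℂ} (hg : AEStronglyMeasurable g P)
    {C : ℝ} (hC : ∀ᵐ x ∂P, ‖g x‖ ≤ C) :
    HasSum (fun k : ℕ => (a / (Real.sqrt p : ℂ)) ^ k * ∫ x, (Uu (x p) k : ℂ) * g x ∂P)
      (∫ x, el p a (x p) * g x ∂P) := by
  have := hP.prob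
  obtain ⟨-, hb1⟩ := ELM_b hpp ha
  set b : ℂ := a / (Real.sqrt p : ℂ) with hb
  have hF : ∀ k : ℕ, Integrable (fun x : ℕ → ℝ => b ^ k * ((Uu (x p) k : ℂ) * g x)) P :=
    fun k => (ELM_int hP hp k hg hC).const_mul _
  have hS : Summable fun k : ℕ => ∫ x, ‖b ^ k * ((Uu (x p) k : ℂ) * g x)‖ ∂P := by
    refine Summable.of_nonneg_of_le (fun k => integral_nonneg fun x => norm_nonneg _)
      (fun k => ?_) (ELM_summ (norm_nonneg b) hb1 C)
    have h1 : ∫ x, ‖b ^ k * ((Uu (x p) k : ℂ) * g x)‖ ∂P ≤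
        ∫ x : ℕ → ℝ, ‖b‖ ^ k * (((k : ℝ) + 1) * C) ∂P := by
      refine integral_mono_ae (hF k).norm (integrable_const _) ?_
      filter_upwards [hP.bdd, hC] with x hx hx2
      rw [norm_mul, norm_pow, norm_mul, Complex.norm_real, Real.norm_eq_abs]
      exact mul_le_mul_of_nonneg_left
        (mul_le_mul (MEX_le (hx p hp) k) hx2 (norm_nonneg _) (by positivity)) (by positivity)
    refine h1.trans ?_
    rw [integral_const]
    simp
  have h := hasSum_integral_of_summable_integral_norm hF hS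
  have e : ∫ x, ∑' k, b ^ k * ((Uu (x p) k : ℂ) * g x) ∂P = ∫ x, el p a (x p) * g x ∂P := by
    refine integral_congr_ae ?_
    filter_upwards [hP.bdd] with x hx
    have h1 := (el_sum hpp ha (hx p hp)).mul_right (g x)
    rw [← h1.tsum_eq]
    refine tsum_congr fun k => ?_
    rw [← hb]
    ring
  rw [e] at h
  simpa only [integral_const_mul] using h

theorem ELM_orth {I : Finset ℕ} {P : Measure (ℕ → ℝ)} (hP : IsST I P) {p : ℕ} (hp : p ∈ I) :
    ∀ j k : ℕ, ∫ x, Uu (x p) j * Uu (x p) k ∂P = if j = k then 1 else 0 := by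
  have := hP.prob
  have hI : ∀ j k : ℕ, Integrable (fun x : ℕ → ℝ => Uu (x p) j * Uu (x p) k) P := by
    intro j k
    refine Integrable.of_bound ?_ (((j : ℝ) + 1) * (k + 1)) ?_
    · exact (((MEX_cont j).measurable.comp (measurable_pi_apply p)).mul
        ((MEX_cont k).measurable.comp (measurable_pi_apply p))).aestronglyMeasurable
    · filter_upwards [hP.bdd] with x hx
      rw [norm_mul, Real.norm_eq_abs, Real.norm_eq_abs]
      exact mul_le_mul (MEX_le (hx p hp) j) (MEX_le (hx p hp) k) (abs_nonneg _) (by positivity)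
  intro j
  induction j with
  | zero =>
    intro k
    have h1 : ∀ x : ℕ → ℝ, Uu (x p) 0 * Uu (x p) k = Uu (x p) k := fun x => by simp [Uu]
    simp_rw [h1]
    rw [hP.mom p hp k]
    simp [eq_comm]
  | succ j ih =>
    intro k
    cases k with
    | zero =>
      have h1 : ∀ x : ℕ → ℝ, Uu (x p) (j + 1) * Uu (x p) 0 = Uu (x p) (j + 1) :=
        fun x => by simp [Uu]
      simp_rw [h1]
      rw [hP.mom p hp (j + 1)]
    | succ k =>
      have h1 : ∀ x : ℕ → ℝ, Uu (x p) (j + 1) * Uu (x p) (k + 1) =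
          Uu (x p) j * Uu (x p) k + Uu (x p) (j + k + 2) := fun x => EQS_uu _ _ _
      have h2 : Integrable (fun x : ℕ → ℝ => Uu (x p) (j + k + 2)) P := by
        have := hI 0 (j + k + 2)
        refine this.congr (Eventually.of_forall fun x => ?_)
        show Uu (x p) 0 * _ = _
        simp only [Uu, one_mul]
      simp_rw [h1]
      rw [integral_add (hI j k) h2, ih k, hP.mom p hp (j + k + 2)]
      simp

theorem ELM_proj {I : Finset ℕ} {P : Measure (ℕ → ℝ)} (hP : IsST I P) {p : ℕ} (hp : p ∈ I)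
    (hpp : p.Prime) {a : ℂ} (ha : ‖a‖ ≤ 1) (j : ℕ) :
    ∫ x, el p a (x p) * (Uu (x p) j : ℂ) ∂P = (a / (Real.sqrt p : ℂ)) ^ j := by
  have h := ELM_series hP hp hpp ha (g := fun x => (Uu (x p) j : ℂ))
    (ELM_meas p j).aestronglyMeasurable (C := (j : ℝ) + 1) (by
      filter_upwards [hP.bdd] with x hx
      rw [Complex.norm_real, Real.norm_eq_abs]
      exact MEX_le (hx p hp) j)
  have h1 : ∀ k : ℕ, ∫ x, (Uu (x p) k : ℂ) * (Uu (x p) j : ℂ) ∂P = if k = j then 1 else 0 := by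
    intro k
    have h2 : ∀ x : ℕ → ℝ, (Uu (x p) k : ℂ) * (Uu (x p) j : ℂ) =
        ((Uu (x p) k * Uu (x p) j : ℝ) : ℂ) := fun x => by push_cast; rfl
    simp_rw [h2]
    rw [integral_complex_ofReal, ELM_orth hP hp k j]
    split_ifs <;> simp
  simp_rw [h1] at h
  have h3 : HasSum (fun k : ℕ => (a / (Real.sqrt p : ℂ)) ^ k * (if k = j then (1 : ℂ) else 0))
      ((a / (Real.sqrt p : ℂ)) ^ j * (if j = j then (1 : ℂ) else 0)) :=
    hasSum_single j fun k hk => by simp [hk]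
  have h4 := h.unique h3
  simpa using h4

theorem el_mean_pr {I : Finset ℕ} {P : Measure (ℕ → ℝ)} (hP : IsST I P) {p : ℕ} (hp : p ∈ I)
    (hpp : p.Prime) {a : ℂ} (ha : ‖a‖ ≤ 1) : ∫ x, el p a (x p) ∂P = 1 := by
  have h := ELM_proj hP hp hpp ha 0
  simpa [Uu] using h

theorem el_sq_pr {I : Finset ℕ} {P : Measure (ℕ → ℝ)} (hP : IsST I P) {p : ℕ} (hp : p ∈ I)
    (hpp : p.Prime) {a : ℂ} (ha : ‖a‖ ≤ 1) :
    ∫ x, ‖el p a (x p)‖ ^ 2 ∂P = (1 - ‖a‖ ^ 2 / p)⁻¹ := by
  obtain ⟨hb2, hb1⟩ := ELM_b hpp ha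
  have hm : Measurable (fun x : ℕ → ℝ => el p a (x p)) :=
    (el_meas p a).comp (measurable_pi_apply p)
  have h := ELM_series hP hp hpp ha (g := fun x => conj (el p a (x p)))
    ((Complex.continuous_conj.measurable.comp hm).aestronglyMeasurable) (C := 12) (by
      filter_upwards [hP.bdd] with x hx
      rw [RCLike.norm_conj]
      exact el_norm hpp ha (hx p hp))
  set b : ℂ := a / (Real.sqrt p : ℂ) with hb
  have h1 : ∀ k : ℕ, ∫ x, (Uu (x p) k : ℂ) * conj (el p a (x p)) ∂P = conj (b ^ k) := by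
    intro k
    rw [← ELM_proj hP hp hpp ha k, ← integral_conj]
    refine integral_congr_ae (Eventually.of_forall fun x => ?_)
    show _ = conj (el p a (x p) * (Uu (x p) k : ℂ))
    rw [map_mul, Complex.conj_ofReal, mul_comm]
  simp_rw [h1] at h
  have h2 : ∀ k : ℕ, b ^ k * conj (b ^ k) = (((‖b‖ ^ 2) ^ k : ℝ) : ℂ) := by
    intro k
    rw [Complex.mul_conj, Complex.normSq_eq_norm_sq, norm_pow]
    congr 1
    ring
  simp_rw [h2] at h
  have h3 : HasSum (fun k : ℕ => (‖b‖ ^ 2) ^ k) (1 - ‖b‖ ^ 2)⁻¹ := by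
    refine hasSum_geometric_of_lt_one (by positivity) ?_
    have := norm_nonneg b
    nlinarith
  have h4 := h.unique (Complex.hasSum_ofReal.2 h3)
  have h5 : ∫ x, el p a (x p) * conj (el p a (x p)) ∂P =
      ((∫ x, ‖el p a (x p)‖ ^ 2 ∂P : ℝ) : ℂ) := by
    rw [← integral_complex_ofReal]
    refine integral_congr_ae (Eventually.of_forall fun x => ?_)
    show el p a (x p) * conj (el p a (x p)) = ((‖el p a (x p)‖ ^ 2 : ℝ) : ℂ)
    rw [Complex.mul_conj, Complex.normSq_eq_norm_sq]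
  rw [h5] at h4
  have h6 := Complex.ofReal_injective h4
  rw [h6, hb2]

theorem st_sub : type_of% @st_sub_pr := @st_sub_pr

theorem el_mean : type_of% @el_mean_pr := @el_mean_pr

theorem el_sq : type_of% @el_sq_pr := @el_sq_pr

end Pool.Agent.LVB
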