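import Pool.Agent.Lib_helper41.LVB.Defs
import Pool.Agent.Lib_helper68.LEV.EQS
import Pool.Agent.Lib_helper68.LEV.HPO

/-! Block STO: orthonormality of the Hecke polynomials in the Sato-Tate model. -/

set_option autoImplicit false

namespace Pool.Agent.LVB

open Pool.Agent.LEV Complex MeasureTheory Filter Topology UpperHalfPlane ModularGroup ProbabilityTheory
open scoped MatrixGroups Modular ENNReal ModularForm ComplexConjugate ContDiff

section
variable {I : Finset ℕ} {P : Measure (ℕ → ℝ)}

theorem STO_intf (hP : IsST I P) {p : ℕ} (hp : p ∈ I) {φ : ℝ → ℝ} (hφ : Continuous φ) :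
    Integrable (fun x : ℕ → ℝ => φ (x p)) P := by
  have := hP.prob
  obtain ⟨C, hC⟩ := (isCompact_Icc (a := (-2 : ℝ)) (b := 2)).exists_bound_of_continuousOn
    hφ.continuousOn
  refine Integrable.of_bound (hφ.measurable.comp (measurable_pi_apply p)).aestronglyMeasurable C ?_
  filter_upwards [hP.bdd] with x hx
  exact hC _ (abs_le.mp (hx p hp))

theorem STO_one (hP : IsST I P) {p : ℕ} (hp : p ∈ I) (a : ℕ) :
    ∀ b, ∫ x, Uu (x p) a * Uu (x p) b ∂P = if a = b then 1 else 0 := by
  induction a with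
  | zero =>
    intro b
    have h := hP.mom p hp b
    simp only [Uu, one_mul]
    rw [h]
    exact if_congr (by constructor <;> (intro h; exact h.symm)) rfl rfl
  | succ a ih =>
    intro b
    rcases b with _ | b
    · have h := hP.mom p hp (a + 1)
      have h2 : ∀ x : ℕ → ℝ, Uu (x p) (a + 1) * Uu (x p) 0 = Uu (x p) (a + 1) := by
        intro x
        have : Uu (x p) 0 = 1 := rfl
        rw [this, mul_one]
      simp_rw [h2]
      rw [h]
    · simp_rw [EQS_uu]
      rw [integral_add (STO_intf hP hp (φ := fun y => Uu y a * Uu y b)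
        ((EQS_ucont a).mul (EQS_ucont b))) (STO_intf hP hp (EQS_ucont _)), ih b,
        hP.mom p hp (a + b + 2), if_neg (show a + b + 2 ≠ 0 by omega), add_zero]
      exact if_congr (by omega) rfl rfl

theorem STO_um_sub {n : ℕ} (h : n.primeFactors ⊆ I) (x : ℕ → ℝ) :
    Um n x = ∏ p ∈ I, Uu (x p) (n.factorization p) := by
  unfold Um
  refine Finset.prod_subset h fun p _ hp => ?_
  have : n.factorization p = 0 := by
    rw [← Finsupp.notMem_support_iff, Nat.support_factorization]
    exact hp
  rw [this]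
  rfl

theorem STO_orth (hP : IsST I P) {n n' : ℕ} (hn : n ≠ 0) (hn' : n' ≠ 0)
    (h : n.primeFactors ⊆ I) (h' : n'.primeFactors ⊆ I) :
    ∫ x, Um n x * Um n' x ∂P = if n = n' then 1 else 0 := by
  have := hP.prob
  have h1 : ∀ x : ℕ → ℝ, Um n x * Um n' x = ∏ p : I,
        (fun y : ℝ => Uu y (n.factorization p) * Uu y (n'.factorization p)) (x p) := by
    intro x
    rw [STO_um_sub h, STO_um_sub h', ← Finset.prod_mul_distrib,
      Finset.prod_coe_sort I (fun p => Uu (x p) (n.factorization p) *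
        Uu (x p) (n'.factorization p))]
  simp_rw [h1]
  rw [hP.ind.integral_fun_prod_comp (f := fun p : I => fun y : ℝ =>
      Uu y (n.factorization p) * Uu y (n'.factorization p))
    (fun p => (measurable_pi_apply (p : ℕ)).aemeasurable)
    (fun p => ((EQS_ucont _).mul (EQS_ucont _)).aestronglyMeasurable)]
  rw [Finset.prod_congr rfl fun (p : I) _ =>
    STO_one hP p.2 (n.factorization p) (n'.factorization p)]
  rw [Finset.prod_coe_sort I (fun p => if n.factorization p = n'.factorization p then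
    (1 : ℝ) else 0)]
  by_cases hnn : n = n'
  · subst hnn
    rw [if_pos rfl]
    exact Finset.prod_eq_one fun p _ => if_pos rfl
  · rw [if_neg hnn]
    obtain ⟨p, hp⟩ : ∃ p, n.factorization p ≠ n'.factorization p := by
      by_contra hcon
      push Not at hcon
      exact hnn (Nat.eq_of_factorization_eq hn hn' hcon)
    have hpI : p ∈ I := by
      by_contra hpI
      apply hp
      have e1 : n.factorization p = 0 := by
        rw [← Finsupp.notMem_support_iff, Nat.support_factorization]
        exact fun hh => hpI (h hh)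
      have e2 : n'.factorization p = 0 := by
        rw [← Finsupp.notMem_support_iff, Nat.support_factorization]
        exact fun hh => hpI (h' hh)
      rw [e1, e2]
    exact Finset.prod_eq_zero hpI (if_neg hp)

theorem STO_int (hP : IsST I P) {n n' : ℕ} (h : n.primeFactors ⊆ I)
    (h' : n'.primeFactors ⊆ I) : Integrable (fun x => Um n x * Um n' x) P := by
  have := hP.prob
  have hb : ∀ e : ℕ, ∃ C : ℝ, ∀ y : ℝ, |y| ≤ 2 → ‖Uu y e‖ ≤ C := by
    intro e
    obtain ⟨C, hC⟩ := (isCompact_Icc (a := (-2 : ℝ)) (b := 2)).exists_bound_of_continuousOn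
      (EQS_ucont e).continuousOn
    exact ⟨C, fun y hy => hC y (abs_le.mp hy)⟩
  choose C hC using hb
  have hm : ∀ n : ℕ, Measurable (fun x : ℕ → ℝ => Um n x) := by
    intro n
    unfold Um
    exact Finset.measurable_fun_prod _ fun p _ =>
      (EQS_ucont _).measurable.comp (measurable_pi_apply p)
  refine Integrable.of_bound ((hm n).mul (hm n')).aestronglyMeasurable
    ((∏ p ∈ n.primeFactors, C (n.factorization p)) *
      (∏ p ∈ n'.primeFactors, C (n'.factorization p))) ?_
  filter_upwards [hP.bdd] with x hx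
  unfold Um
  rw [norm_mul, norm_prod, norm_prod]
  have e1 : ∏ p ∈ n.primeFactors, ‖Uu (x p) (n.factorization p)‖ ≤
      ∏ p ∈ n.primeFactors, C (n.factorization p) :=
    Finset.prod_le_prod (fun p _ => norm_nonneg _) fun p hp => hC _ _ (hx p (h hp))
  have e2 : ∏ p ∈ n'.primeFactors, ‖Uu (x p) (n'.factorization p)‖ ≤
      ∏ p ∈ n'.primeFactors, C (n'.factorization p) :=
    Finset.prod_le_prod (fun p _ => norm_nonneg _) fun p hp => hC _ _ (hx p (h' hp))
  exact mul_le_mul e1 e2 (Finset.prod_nonneg fun p _ => norm_nonneg _)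
    ((Finset.prod_nonneg fun p _ => norm_nonneg _).trans e1)

theorem st_mean_pr {I : Finset ℕ} (hI : ∀ p ∈ I, p.Prime) {P : Measure (ℕ → ℝ)} (hP : IsST I P)
    {X : ℕ} (hX : 1 ≤ X) {c : ℕ → ℝ} (hc : ∀ m, c m ≠ 0 → 1 ≤ m ∧ m ≤ X ∧ m.primeFactors ⊆ I) :
    ∫ x, (∑ m ∈ Finset.Icc 1 X, c m * Um m x) ∂P = c 1 := by
  have := hP.prob
  have h1 : (Nat.primeFactors 1) ⊆ I := by simp
  have hterm : ∀ m ∈ Finset.Icc 1 X, Integrable (fun x => c m * Um m x) P ∧
      ∫ x, c m * Um m x ∂P = if m = 1 then c m else 0 := by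
    intro m hm
    by_cases h2 : c m = 0
    · simp only [h2, zero_mul, integral_zero, ite_self, and_true]
      exact integrable_const 0
    · obtain ⟨h3, h4, h5⟩ := hc m h2
      have h6 : ∀ x : ℕ → ℝ, c m * Um m x = c m * (Um m x * Um 1 x) := by
        intro x
        rw [HPO_um_one, mul_one]
      simp_rw [h6]
      refine ⟨(STO_int hP h5 h1).const_mul _, ?_⟩
      rw [integral_const_mul, STO_orth hP (by omega) (by omega) h5 h1, mul_ite, mul_one, mul_zero]
  rw [integral_finsetSum _ fun m hm => (hterm m hm).1,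
    Finset.sum_congr rfl fun m hm => (hterm m hm).2, Finset.sum_ite_eq',
    if_pos (Finset.mem_Icc.mpr ⟨le_rfl, hX⟩)]

theorem st_sq_pr {I : Finset ℕ} (hI : ∀ p ∈ I, p.Prime) {P : Measure (ℕ → ℝ)} (hP : IsST I P)
    {X : ℕ} {c : ℕ → ℝ} (hc : ∀ m, c m ≠ 0 → 1 ≤ m ∧ m ≤ X ∧ m.primeFactors ⊆ I) :
    ∫ x, (∑ m ∈ Finset.Icc 1 X, c m * Um m x) ^ 2 ∂P = ∑ m ∈ Finset.Icc 1 X, c m ^ 2 := by
  have := hP.prob
  have hterm : ∀ m ∈ Finset.Icc 1 X, ∀ n ∈ Finset.Icc 1 X,
      Integrable (fun x => c m * Um m x * (c n * Um n x)) P ∧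
      ∫ x, c m * Um m x * (c n * Um n x) ∂P = if m = n then c m * c n else 0 := by
    intro m hm n hn
    by_cases h2 : c m = 0
    · simp only [h2, zero_mul, integral_zero, ite_self, and_true]
      exact integrable_const 0
    by_cases h2' : c n = 0
    · simp only [h2', zero_mul, mul_zero, integral_zero, ite_self, and_true]
      exact integrable_const 0
    obtain ⟨h3, h4, h5⟩ := hc m h2
    obtain ⟨h3', h4', h5'⟩ := hc n h2'
    have h6 : ∀ x : ℕ → ℝ, c m * Um m x * (c n * Um n x) = (c m * c n) * (Um m x * Um n x) := by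
      intro x
      ring
    simp_rw [h6]
    refine ⟨(STO_int hP h5 h5').const_mul _, ?_⟩
    rw [integral_const_mul, STO_orth hP (by omega) (by omega) h5 h5', mul_ite, mul_one, mul_zero]
  simp_rw [sq, Finset.sum_mul_sum]
  rw [integral_finsetSum _ fun m hm => integrable_finsetSum _ fun n hn => (hterm m hm n hn).1]
  refine Finset.sum_congr rfl fun m hm => ?_
  rw [integral_finsetSum _ fun n hn => (hterm m hm n hn).1,
    Finset.sum_congr rfl fun n hn => (hterm m hm n hn).2, Finset.sum_ite_eq, if_pos hm]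

end

theorem st_mean : type_of% @st_mean_pr := @st_mean_pr

theorem st_sq : type_of% @st_sq_pr := @st_sq_pr

end Pool.Agent.LVB
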