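import Pool.Agent.Lib_helper41.LVB.Defs
import Pool.Agent.Lib_helper68.LEV.HPO

/-! Block HPM: products of Hecke polynomials. -/

set_option autoImplicit false

namespace Pool.Agent.LVB

open Pool.Agent.LEV Complex MeasureTheory Filter Topology UpperHalfPlane ModularGroup ProbabilityTheory
open scoped MatrixGroups Modular ENNReal ModularForm ComplexConjugate ContDiff

theorem hpoly_sum_pr {I : Finset ℕ} {X : ℕ} {J : Type} (s : Finset J) {G : J → (ℕ → ℝ) → ℝ}
    (hG : ∀ j ∈ s, HPoly I X (G j)) : HPoly I X (fun x => ∑ j ∈ s, G j x) := by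
  classical
  exact HPO_sum s G hG

theorem HPM_congr {I : Finset ℕ} {X : ℕ} {G H : (ℕ → ℝ) → ℝ} (h : ∀ x, G x = H x)
    (hG : HPoly I X G) : HPoly I X H := by
  obtain ⟨c, hc, hG⟩ := hG
  exact ⟨c, hc, fun x => by rw [← h, hG]⟩

/-- multiplication by a variable -/
theorem HPM_xp {J : Finset ℕ} {X p : ℕ} (hp : p.Prime) (hpJ : p ∈ J) {G : (ℕ → ℝ) → ℝ}
    (hG : HPoly J X G) : HPoly J (p * X) (fun x => x p * G x) := by
  obtain ⟨c, hc, h⟩ := hG
  have h1 : HPoly J (p * X) (fun x => ∑ m ∈ Finset.Icc 1 X, c m * (x p * Um m x)) := by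
    refine hpoly_sum_pr (G := fun m x => c m * (x p * Um m x)) _ fun m hm => ?_
    by_cases hcm : c m = 0
    · refine HPM_congr (G := fun _ => 0) (fun x => ?_) (HPO_zero _ _)
      rw [hcm, zero_mul]
    · obtain ⟨hm1, hm2, hm3⟩ := hc m hcm
      refine hpoly_smul_pr (G := fun x => x p * Um m x) ?_ _
      refine HPM_congr (G := fun x => Um (p * m) x + if p ∣ m then Um (m / p) x else 0)
        (fun x => (HPO_rec hp hm1 x).symm) ?_
      refine hpoly_add_pr (HPO_single (Nat.mul_pos hp.pos hm1) ?_ ?_) ?_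
      · exact Nat.mul_le_mul_left _ hm2
      · rw [Nat.primeFactors_mul hp.ne_zero (by omega), hp.primeFactors]
        exact Finset.union_subset (Finset.singleton_subset_iff.2 hpJ) hm3
      · by_cases hd : p ∣ m
        · simp only [if_pos hd]
          have h5 : m / p ∣ m := Nat.div_dvd_of_dvd hd
          refine HPO_single (Nat.div_pos (Nat.le_of_dvd hm1 hd) hp.pos) ?_ ?_
          · refine (Nat.le_of_dvd hm1 h5).trans (hm2.trans ?_)
            exact Nat.le_mul_of_pos_left _ hp.pos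
          · exact (Nat.primeFactors_mono h5 (by omega)).trans hm3
        · simp only [if_neg hd]
          exact HPO_zero _ _
  refine HPM_congr (fun x => ?_) h1
  rw [h x, Finset.mul_sum]
  exact Finset.sum_congr rfl fun m _ => by ring

/-- product of two basis functions -/
theorem HPM_um {J : Finset ℕ} {n : ℕ} (hn : 1 ≤ n) (hnJ : n.primeFactors ⊆ J) (m : ℕ) :
    1 ≤ m → m.primeFactors ⊆ J → HPoly J (m * n) (fun x => Um m x * Um n x) := by
  induction m using Nat.strong_induction_on with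
  | _ m ih =>
    intro hm hmJ
    rcases Nat.lt_or_ge 1 m with h1 | h1
    · obtain ⟨p, hp, m', rfl⟩ := Nat.exists_prime_and_dvd (n := m) (by omega)
      have hm' : 1 ≤ m' := by
        rcases Nat.eq_zero_or_pos m' with h | h
        · rw [h, mul_zero] at hm
          omega
        · exact h
      have hlt : m' < p * m' := by
        have := hp.two_le
        nlinarith
      have hpJ : p ∈ J := hmJ (Nat.mem_primeFactors.mpr ⟨hp, Dvd.intro _ rfl, by omega⟩)
      have hmJ' : m'.primeFactors ⊆ J :=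
        (Nat.primeFactors_mono (Dvd.intro_left _ rfl) (by omega)).trans hmJ
      have e1 := HPM_xp hp hpJ (ih m' hlt hm' hmJ')
      have e2 : HPoly J (p * (m' * n)) (fun x => (if p ∣ m' then Um (m' / p) x else 0) * Um n x) := by
        by_cases hd : p ∣ m'
        · simp only [if_pos hd]
          have h5 : m' / p ∣ m' := Nat.div_dvd_of_dvd hd
          have h6 : m' / p ≤ m' := Nat.le_of_dvd hm' h5
          have h7 : 1 ≤ m' / p := Nat.div_pos (Nat.le_of_dvd hm' hd) hp.pos
          refine hpoly_mono_pr ?_ (ih (m' / p) (by omega) h7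
            ((Nat.primeFactors_mono h5 (by omega)).trans hmJ'))
          calc m' / p * n ≤ m' * n := Nat.mul_le_mul_right _ h6
            _ ≤ p * (m' * n) := Nat.le_mul_of_pos_left _ hp.pos
        · simp only [if_neg hd]
          exact HPM_congr (fun x => by rw [zero_mul]) (HPO_zero _ _)
      have e3 := hpoly_add_pr e1 (hpoly_smul_pr e2 (-1))
      rw [mul_assoc]
      refine HPM_congr (fun x => ?_) e3
      have h8 := HPO_rec hp hm' x
      have h9 : Um (p * m') x = x p * Um m' x - if p ∣ m' then Um (m' / p) x else 0 := by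
        rw [h8]; ring
      rw [h9]
      ring
    · have h2 : m = 1 := by omega
      subst h2
      rw [one_mul]
      refine HPM_congr (fun x => ?_) (HPO_single hn le_rfl hnJ)
      rw [HPO_um_one, one_mul]

theorem hpoly_mul_pr {I I' : Finset ℕ} (hI : ∀ p ∈ I, p.Prime) (hI' : ∀ p ∈ I', p.Prime) {X Y : ℕ}
    {G H : (ℕ → ℝ) → ℝ} (hG : HPoly I X G) (hH : HPoly I' Y H) :
    HPoly (I ∪ I') (X * Y) (fun x => G x * H x) := by
  obtain ⟨c, hc, hG⟩ := hG
  obtain ⟨d, hd, hH⟩ := hH
  have h1 : HPoly (I ∪ I') (X * Y) (fun x => ∑ m ∈ Finset.Icc 1 X, ∑ n ∈ Finset.Icc 1 Y,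
      (c m * d n) * (Um m x * Um n x)) := by
    refine hpoly_sum_pr (G := fun m x => ∑ n ∈ Finset.Icc 1 Y,
      (c m * d n) * (Um m x * Um n x)) _ fun m hm => ?_
    refine hpoly_sum_pr (G := fun n x => (c m * d n) * (Um m x * Um n x)) _ fun n hn => ?_
    by_cases hcm : c m = 0
    · refine HPM_congr (G := fun _ => 0) (fun x => ?_) (HPO_zero _ _)
      rw [hcm]
      ring
    by_cases hdn : d n = 0
    · refine HPM_congr (G := fun _ => 0) (fun x => ?_) (HPO_zero _ _)
      rw [hdn]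
      ring
    obtain ⟨hm1, hm2, hm3⟩ := hc m hcm
    obtain ⟨hn1, hn2, hn3⟩ := hd n hdn
    exact hpoly_smul_pr (hpoly_mono_pr (Nat.mul_le_mul hm2 hn2)
      (HPM_um hn1 (hn3.trans Finset.subset_union_right) m hm1
        (hm3.trans Finset.subset_union_left))) _
  refine HPM_congr (fun x => ?_) h1
  rw [hG, hH, Finset.sum_mul_sum]
  exact Finset.sum_congr rfl fun m _ => Finset.sum_congr rfl fun n _ => by ring

theorem hpoly_ex_pr {I : Finset ℕ} (hI : ∀ p ∈ I, p.Prime) {Z : ℕ} (hZ1 : 1 ≤ Z) (hZ : ∀ p ∈ I, p ≤ Z)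
    (K : ℕ) : HPoly I (Z ^ (2 * K)) (mb1 I K) := by
  have h1 : HPoly I (Z ^ (2 * K)) (fun x => ∑ k ∈ Finset.range (2 * K + 1),
      (Real.exp (HB I / 2) / (k.factorial : ℝ)) *
        (∑ p ∈ I, (-(1 / Real.sqrt p)) * x p) ^ k) := by
    refine hpoly_sum_pr (G := fun k x => (Real.exp (HB I / 2) / (k.factorial : ℝ)) *
        (∑ p ∈ I, (-(1 / Real.sqrt p)) * x p) ^ k) _ fun k hk => ?_
    rw [Finset.mem_range] at hk
    exact hpoly_smul_pr (hpoly_mono_pr (Nat.pow_le_pow_right hZ1 (by omega))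
      (hpoly_pow_pr hI hZ (fun p => -(1 / Real.sqrt p)) k)) _
  refine HPM_congr (fun x => ?_) h1
  unfold mb1 ex PB
  rw [Finset.mul_sum]
  refine Finset.sum_congr rfl fun k _ => ?_
  have h2 : ∑ p ∈ I, (-(1 / Real.sqrt p)) * x p = -∑ p ∈ I, x p / Real.sqrt p := by
    rw [← Finset.sum_neg_distrib]
    exact Finset.sum_congr rfl fun p _ => by ring
  rw [h2]
  ring

theorem hpoly_mul : type_of% @hpoly_mul_pr := @hpoly_mul_pr

theorem hpoly_sum : type_of% @hpoly_sum_pr := @hpoly_sum_pr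

theorem hpoly_ex : type_of% @hpoly_ex_pr := @hpoly_ex_pr

end Pool.Agent.LVB
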