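import Pool.Agent.Lib_helper41.LVB.Defs
import Pool.Agent.Lib_helper41.LVBF.ELF
import Pool.Agent.Lib_helper41.LVBF.ELM

/-! Block SPL. -/

namespace Pool.Agent.LVB

open Pool.Agent.LEV Complex MeasureTheory Filter Topology UpperHalfPlane ModularGroup ProbabilityTheory
open scoped MatrixGroups Modular ENNReal ModularForm ComplexConjugate ContDiff

/-- `G` depends measurably on the coordinates in `I` only -/
def SPL_Dep {𝕜 : Type} [RCLike 𝕜] (I : Finset ℕ) (G : (ℕ → ℝ) → 𝕜) : Prop :=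
  ∃ Φ : (I → ℝ) → 𝕜, Measurable Φ ∧ ∀ x, G x = Φ (fun p => x p)

section

variable {𝕜 : Type} [RCLike 𝕜]

theorem SPL_meas {I : Finset ℕ} {G : (ℕ → ℝ) → 𝕜} (h : SPL_Dep I G) : Measurable G := by
  obtain ⟨Φ, hΦ, e⟩ := h
  have : G = fun x => Φ (fun p : I => x p) := funext e
  rw [this]
  exact hΦ.comp (measurable_pi_lambda _ fun p => measurable_pi_apply _)

theorem SPL_mono {I I' : Finset ℕ} (hI : I ⊆ I') {G : (ℕ → ℝ) → 𝕜} (h : SPL_Dep I G) :
    SPL_Dep I' G := by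
  obtain ⟨Φ, hΦ, e⟩ := h
  exact ⟨fun y => Φ (fun p : I => y ⟨p, hI p.2⟩),
    hΦ.comp (measurable_pi_lambda _ fun p => measurable_pi_apply _), fun x => e x⟩

theorem SPL_mul {I : Finset ℕ} {G H : (ℕ → ℝ) → 𝕜} (hG : SPL_Dep I G) (hH : SPL_Dep I H) :
    SPL_Dep I (fun x => G x * H x) := by
  obtain ⟨Φ, hΦ, e⟩ := hG
  obtain ⟨Ψ, hΨ, e'⟩ := hH
  exact ⟨fun y => Φ y * Ψ y, hΦ.mul hΨ, fun x => congrArg₂ (· * ·) (e x) (e' x)⟩

theorem SPL_prod {ι : Type} (s : Finset ι) {I : ι → Finset ℕ} {G : ι → (ℕ → ℝ) → 𝕜}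
    (h : ∀ i ∈ s, SPL_Dep (I i) (G i)) : SPL_Dep (s.biUnion I) (fun x => ∏ i ∈ s, G i x) := by
  classical
  induction s using Finset.induction_on with
  | empty => exact ⟨fun _ => 1, measurable_const, fun x => by simp⟩
  | insert j s hj ih =>
    have h1 := ih fun i hi => h i (Finset.mem_insert_of_mem hi)
    have h2 := h j (Finset.mem_insert_self _ _)
    have e : (fun x => ∏ i ∈ insert j s, G i x) = fun x => G j x * ∏ i ∈ s, G i x := by
      funext x
      rw [Finset.prod_insert hj]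
    rw [e, Finset.biUnion_insert]
    exact SPL_mul (SPL_mono Finset.subset_union_left h2) (SPL_mono Finset.subset_union_right h1)

theorem SPL_pair {Q : Finset ℕ} {P : Measure (ℕ → ℝ)} (hP : IsST Q P) {I1 I2 : Finset ℕ}
    (h1 : I1 ⊆ Q) (h2 : I2 ⊆ Q) (hd : Disjoint I1 I2) {G1 G2 : (ℕ → ℝ) → 𝕜}
    (hG1 : SPL_Dep I1 G1) (hG2 : SPL_Dep I2 G2) :
    ∫ x, G1 x * G2 x ∂P = (∫ x, G1 x ∂P) * ∫ x, G2 x ∂P := by
  classical
  have m1 := SPL_meas hG1
  have m2 := SPL_meas hG2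
  obtain ⟨Φ, hΦ, e1⟩ := hG1
  obtain ⟨Ψ, hΨ, e2⟩ := hG2
  set S : Finset Q := Finset.univ.filter fun p => p.1 ∈ I1 with hS
  set T : Finset Q := Finset.univ.filter fun p => p.1 ∈ I2 with hT
  have hST : Disjoint S T := by
    rw [Finset.disjoint_left]
    intro p hp hq
    rw [hS, Finset.mem_filter] at hp
    rw [hT, Finset.mem_filter] at hq
    exact Finset.disjoint_left.1 hd hp.2 hq.2
  have hi := hP.ind.indepFun_finset S T hST (fun i => measurable_pi_apply _)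
  have hmS : ∀ p : I1, (⟨p.1, h1 p.2⟩ : Q) ∈ S := fun p => by
    rw [hS, Finset.mem_filter]
    exact ⟨Finset.mem_univ _, p.2⟩
  have hmT : ∀ p : I2, (⟨p.1, h2 p.2⟩ : Q) ∈ T := fun p => by
    rw [hT, Finset.mem_filter]
    exact ⟨Finset.mem_univ _, p.2⟩
  have hΦ' : Measurable (fun y : S → ℝ => Φ (fun p : I1 => y ⟨⟨p.1, h1 p.2⟩, hmS p⟩)) :=
    hΦ.comp (measurable_pi_lambda _ fun p => measurable_pi_apply _)
  have hΨ' : Measurable (fun y : T → ℝ => Ψ (fun p : I2 => y ⟨⟨p.1, h2 p.2⟩, hmT p⟩)) :=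
    hΨ.comp (measurable_pi_lambda _ fun p => measurable_pi_apply _)
  have hi2 := hi.comp hΦ' hΨ'
  have f1 : G1 = (fun y : S → ℝ => Φ (fun p : I1 => y ⟨⟨p.1, h1 p.2⟩, hmS p⟩)) ∘
      (fun (a : ℕ → ℝ) (i : S) => a i.1.1) := funext e1
  have f2 : G2 = (fun y : T → ℝ => Ψ (fun p : I2 => y ⟨⟨p.1, h2 p.2⟩, hmT p⟩)) ∘
      (fun (a : ℕ → ℝ) (i : T) => a i.1.1) := funext e2
  have hi3 : IndepFun G1 G2 P := by
    rw [f1, f2]
    exact hi2
  exact hi3.integral_mul_eq_mul_integral m1.aestronglyMeasurable m2.aestronglyMeasurable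

theorem SPL_fam {Q : Finset ℕ} {P : Measure (ℕ → ℝ)} (hP : IsST Q P) {ι : Type} (s : Finset ι)
    {I : ι → Finset ℕ} (hI : ∀ i ∈ s, I i ⊆ Q)
    (hd : ∀ i ∈ s, ∀ j ∈ s, i ≠ j → Disjoint (I i) (I j)) {G : ι → (ℕ → ℝ) → 𝕜}
    (h : ∀ i ∈ s, SPL_Dep (I i) (G i)) :
    ∫ x, ∏ i ∈ s, G i x ∂P = ∏ i ∈ s, ∫ x, G i x ∂P := by
  classical
  have := hP.prob
  induction s using Finset.induction_on with
  | empty => simp
  | insert j s hj ih =>
    have h1 := ih (fun i hi => hI i (Finset.mem_insert_of_mem hi))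
      (fun i hi k hk => hd i (Finset.mem_insert_of_mem hi) k (Finset.mem_insert_of_mem hk))
      (fun i hi => h i (Finset.mem_insert_of_mem hi))
    have h2 := SPL_prod s (I := I) (G := G) fun i hi => h i (Finset.mem_insert_of_mem hi)
    have hdis : Disjoint (I j) (s.biUnion I) := by
      rw [Finset.disjoint_biUnion_right]
      intro i hi
      exact hd j (Finset.mem_insert_self _ _) i (Finset.mem_insert_of_mem hi)
        (fun e => hj (e ▸ hi))
    have hsub : s.biUnion I ⊆ Q := Finset.biUnion_subset.2 fun i hi =>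
      hI i (Finset.mem_insert_of_mem hi)
    have h3 := SPL_pair hP (hI j (Finset.mem_insert_self _ _)) hsub hdis
      (h j (Finset.mem_insert_self _ _)) h2
    have e : (fun x => ∏ i ∈ insert j s, G i x) = fun x => G j x * ∏ i ∈ s, G i x := by
      funext x
      rw [Finset.prod_insert hj]
    rw [e, h3, h1, Finset.prod_insert hj]

end

theorem SPL_ex_cont (K : ℕ) : Continuous (ex K) := by
  unfold ex
  fun_prop

theorem SPL_el_meas (p : ℕ) (a : ℂ) : Measurable (fun x : ℝ => el p a x) := by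
  unfold el
  refine Measurable.inv ?_
  exact (by fun_prop : Continuous fun x : ℝ =>
    (1 - a * (x : ℂ) / (Real.sqrt p : ℂ) + a ^ 2 / (p : ℂ))).measurable

theorem SPL_pb (I : Finset ℕ) (x : ℕ → ℝ) : PB I x = ∑ p : I, x p / Real.sqrt (p : ℕ) :=
  (Finset.sum_coe_sort I fun p => x p / Real.sqrt p).symm

theorem SPL_dep_mb (I : Finset ℕ) (K : ℕ) : SPL_Dep I (fun x => mb1 I K x) := by
  refine ⟨fun y => Real.exp (HB I / 2) * ex K (-(∑ p : I, y p / Real.sqrt (p : ℕ))), ?_, fun x => ?_⟩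
  · exact measurable_const.mul ((SPL_ex_cont K).measurable.comp
      (by fun_prop : Continuous fun y : I → ℝ =>
        -(∑ p : I, y p / Real.sqrt (p : ℕ))).measurable)
  · show mb1 I K x = _
    rw [mb1, SPL_pb]

theorem SPL_dep_mbc (I : Finset ℕ) (K : ℕ) : SPL_Dep I (fun x => (mb1 I K x : ℂ)) := by
  obtain ⟨Φ, hΦ, e⟩ := SPL_dep_mb I K
  exact ⟨fun y => (Φ y : ℂ), Complex.measurable_ofReal.comp hΦ,
    fun x => congrArg (fun t : ℝ => (t : ℂ)) (e x)⟩

theorem SPL_dep_el (I : Finset ℕ) (a : ℕ → ℂ) :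
    SPL_Dep I (fun x => ∏ p ∈ I, el p (a p) (x p)) := by
  refine ⟨fun y => ∏ p : I, el p (a p) (y p), ?_, fun x => ?_⟩
  · refine Finset.measurable_prod _ fun p _ => ?_
    exact (SPL_el_meas p (a p)).comp (measurable_pi_apply p)
  · exact (Finset.prod_coe_sort I fun p => el p (a p) (x p)).symm

theorem SPL_dep_sq {I : Finset ℕ} {G : (ℕ → ℝ) → ℂ} (h : SPL_Dep I G) :
    SPL_Dep I (fun x => ‖G x‖ ^ 2) := by
  obtain ⟨Φ, hΦ, e⟩ := h
  exact ⟨fun y => ‖Φ y‖ ^ 2, hΦ.norm.pow_const 2, fun x => congrArg (fun t : ℂ => ‖t‖ ^ 2) (e x)⟩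

theorem SPL_mb_bd (I : Finset ℕ) (K : ℕ) : ∃ C : ℝ, 0 ≤ C ∧ ∀ x : ℕ → ℝ, (∀ p ∈ I, |x p| ≤ 2) →
    |mb1 I K x| ≤ C := by
  set M : ℝ := ∑ p ∈ I, 2 / Real.sqrt p with hM
  have hM0 : 0 ≤ M := Finset.sum_nonneg fun p _ => by positivity
  obtain ⟨C, hC⟩ := (isCompact_Icc (a := -M) (b := M)).exists_bound_of_continuousOn
    (SPL_ex_cont K).continuousOn
  refine ⟨Real.exp (HB I / 2) * |C|, by positivity, fun x hx => ?_⟩
  rw [mb1, abs_mul, abs_of_pos (Real.exp_pos _)]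
  refine mul_le_mul_of_nonneg_left ?_ (Real.exp_nonneg _)
  have h1 : |PB I x| ≤ M := by
    refine (Finset.abs_sum_le_sum_abs _ _).trans (Finset.sum_le_sum fun p hp => ?_)
    rw [abs_div, abs_of_nonneg (Real.sqrt_nonneg _)]
    exact div_le_div_of_nonneg_right (hx p hp) (Real.sqrt_nonneg _)
  rw [abs_le] at h1
  have h2 := hC (-PB I x) ⟨by linarith [h1.2], by linarith [h1.1]⟩
  rw [Real.norm_eq_abs] at h2
  exact h2.trans (le_abs_self _)

/-- independence of the blocks -/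
theorem mol_split_pr {Q : Finset ℕ} (hQ : ∀ p ∈ Q, p.Prime) {P : Measure (ℕ → ℝ)} (hP : IsST Q P)
    {J : ℕ} {B : ℕ → Finset ℕ} (hB : ∀ i < J, B i ⊆ Q)
    (hd : ∀ i < J, ∀ j < J, i ≠ j → Disjoint (B i) (B j)) (K : ℕ → ℕ) {a : ℕ → ℂ}
    (ha : ∀ p ∈ Q, ‖a p‖ ≤ 1) :
    Integrable (fun x => (mol J B K x : ℂ) * ∏ p ∈ Q, el p (a p) (x p)) P ∧
    Integrable (fun x => mol J B K x ^ 2 * ‖∏ p ∈ Q, el p (a p) (x p)‖ ^ 2) P ∧
    ∫ x, (mol J B K x : ℂ) * ∏ p ∈ Q, el p (a p) (x p) ∂P =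
      ∏ i ∈ Finset.range J, ∫ x, (mb1 (B i) (K i) x : ℂ) * ∏ p ∈ B i, el p (a p) (x p) ∂P ∧
    ∫ x, mol J B K x ^ 2 * ‖∏ p ∈ Q, el p (a p) (x p)‖ ^ 2 ∂P =
      (∏ p ∈ Q \ (Finset.range J).biUnion B, (1 - ‖a p‖ ^ 2 / p)⁻¹) *
        ∏ i ∈ Finset.range J, ∫ x, mb1 (B i) (K i) x ^ 2 * ‖∏ p ∈ B i, el p (a p) (x p)‖ ^ 2 ∂P := by
  classical
  have := hP.prob
  set U : Finset ℕ := (Finset.range J).biUnion B with hU
  have hUQ : U ⊆ Q := Finset.biUnion_subset.2 fun i hi => hB i (Finset.mem_range.1 hi)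
  have hpd : Set.PairwiseDisjoint (Finset.range J : Set ℕ) B := by
    intro i hi j hj hij
    exact hd i (Finset.mem_range.1 (Finset.mem_coe.1 hi)) j
      (Finset.mem_range.1 (Finset.mem_coe.1 hj)) hij
  -- factorization of the product over `Q`
  have hfac : ∀ x : ℕ → ℝ, ∏ p ∈ Q, el p (a p) (x p) =
      (∏ i ∈ Finset.range J, ∏ p ∈ B i, el p (a p) (x p)) * ∏ p ∈ Q \ U, el p (a p) (x p) := by
    intro x
    rw [← Finset.prod_biUnion hpd, ← hU, mul_comm, Finset.prod_sdiff hUQ]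
  -- measurability
  have hmel : Measurable (fun x : ℕ → ℝ => ∏ p ∈ Q, el p (a p) (x p)) :=
    SPL_meas (SPL_dep_el Q a)
  have hmmol : Measurable (fun x : ℕ → ℝ => mol J B K x) := by
    unfold mol
    exact Finset.measurable_prod _ fun i _ => SPL_meas (SPL_dep_mb (B i) (K i))
  -- boundedness
  choose Cb hCb0 hCb using fun i : ℕ => SPL_mb_bd (B i) (K i)
  have hbmol : ∀ x : ℕ → ℝ, (∀ p ∈ Q, |x p| ≤ 2) →
      |mol J B K x| ≤ ∏ i ∈ Finset.range J, Cb i := by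
    intro x hx
    rw [mol, Finset.abs_prod]
    refine Finset.prod_le_prod (fun _ _ => abs_nonneg _) fun i hi => ?_
    exact hCb i x fun p hp => hx p (hB i (Finset.mem_range.1 hi) hp)
  have hbel : ∀ x : ℕ → ℝ, (∀ p ∈ Q, |x p| ≤ 2) →
      ‖∏ p ∈ Q, el p (a p) (x p)‖ ≤ (12 : ℝ) ^ Q.card := by
    intro x hx
    rw [norm_prod, ← Finset.prod_const]
    exact Finset.prod_le_prod (fun _ _ => norm_nonneg _) fun p hp =>
      el_norm (hQ p hp) (ha p hp) (hx p hp)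
  have hM0 : 0 ≤ ∏ i ∈ Finset.range J, Cb i := Finset.prod_nonneg fun i _ => hCb0 i
  refine ⟨?_, ?_, ?_, ?_⟩
  · refine Integrable.of_bound
      ((Complex.measurable_ofReal.comp hmmol).mul hmel).aestronglyMeasurable
      ((∏ i ∈ Finset.range J, Cb i) * (12 : ℝ) ^ Q.card) ?_
    filter_upwards [hP.bdd] with x hx
    rw [norm_mul, Complex.norm_real, Real.norm_eq_abs]
    exact mul_le_mul (hbmol x hx) (hbel x hx) (norm_nonneg _) hM0
  · refine Integrable.of_bound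
      ((hmmol.pow_const 2).mul (hmel.norm.pow_const 2)).aestronglyMeasurable
      ((∏ i ∈ Finset.range J, Cb i) ^ 2 * ((12 : ℝ) ^ Q.card) ^ 2) ?_
    filter_upwards [hP.bdd] with x hx
    rw [Real.norm_of_nonneg (by positivity), ← sq_abs]
    exact mul_le_mul (pow_le_pow_left₀ (abs_nonneg _) (hbmol x hx) 2)
      (pow_le_pow_left₀ (norm_nonneg _) (hbel x hx) 2) (by positivity) (by positivity)
  · have e1 : (fun x => (mol J B K x : ℂ) * ∏ p ∈ Q, el p (a p) (x p)) =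
        fun x => (∏ i ∈ Finset.range J, ((mb1 (B i) (K i) x : ℂ) *
          ∏ p ∈ B i, el p (a p) (x p))) * ∏ p ∈ Q \ U, el p (a p) (x p) := by
      funext x
      rw [hfac, Finset.prod_mul_distrib, mol, Complex.ofReal_prod]
      ring
    have dF : ∀ i ∈ Finset.range J, SPL_Dep (B i) (fun x => (mb1 (B i) (K i) x : ℂ) *
        ∏ p ∈ B i, el p (a p) (x p)) := fun i _ =>
      SPL_mul (SPL_dep_mbc (B i) (K i)) (SPL_dep_el (B i) a)
    rw [e1, SPL_pair hP hUQ Finset.sdiff_subset Finset.disjoint_sdiff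
      (SPL_prod (Finset.range J) dF) (SPL_dep_el (Q \ U) a),
      SPL_fam hP (Finset.range J) (fun i hi => hB i (Finset.mem_range.1 hi))
        (fun i hi j hj => hd i (Finset.mem_range.1 hi) j (Finset.mem_range.1 hj)) dF]
    have e2 : ∫ x, ∏ p ∈ Q \ U, el p (a p) (x p) ∂P = 1 := by
      rw [SPL_fam hP (Q \ U) (I := fun p => {p}) (G := fun p x => el p (a p) (x p))
        (fun p hp => Finset.singleton_subset_iff.2 (Finset.sdiff_subset hp))
        (fun p _ q _ hpq => Finset.disjoint_singleton.2 hpq) (fun p _ =>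
          ⟨fun y => el p (a p) (y ⟨p, Finset.mem_singleton_self p⟩),
            (SPL_el_meas p (a p)).comp (measurable_pi_apply _), fun x => rfl⟩)]
      refine Finset.prod_eq_one fun p hp => ?_
      exact el_mean hP (Finset.sdiff_subset hp) (hQ p (Finset.sdiff_subset hp))
        (ha p (Finset.sdiff_subset hp))
    rw [e2, mul_one]
  · have e1 : (fun x => mol J B K x ^ 2 * ‖∏ p ∈ Q, el p (a p) (x p)‖ ^ 2) =
        fun x => (∏ p ∈ Q \ U, ‖el p (a p) (x p)‖ ^ 2) *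
          ∏ i ∈ Finset.range J, (mb1 (B i) (K i) x ^ 2 *
          ‖∏ p ∈ B i, el p (a p) (x p)‖ ^ 2) := by
      funext x
      rw [hfac, Finset.prod_mul_distrib, mol, norm_mul, mul_pow, norm_prod, norm_prod,
        ← Finset.prod_pow, ← Finset.prod_pow, ← Finset.prod_pow]
      ring
    have dF : ∀ i ∈ Finset.range J, SPL_Dep (B i) (fun x => mb1 (B i) (K i) x ^ 2 *
        ‖∏ p ∈ B i, el p (a p) (x p)‖ ^ 2) := fun i _ => by
      have h1 := SPL_mul (SPL_dep_mb (B i) (K i)) (SPL_dep_mb (B i) (K i))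
      have h2 := SPL_mul h1 (SPL_dep_sq (SPL_dep_el (B i) a))
      have e : (fun x => mb1 (B i) (K i) x ^ 2 * ‖∏ p ∈ B i, el p (a p) (x p)‖ ^ 2) =
          fun x => mb1 (B i) (K i) x * mb1 (B i) (K i) x *
            ‖∏ p ∈ B i, el p (a p) (x p)‖ ^ 2 := by
        funext x
        ring
      rw [e]
      exact h2
    have dG : ∀ p ∈ Q \ U, SPL_Dep {p} (fun x => ‖el p (a p) (x p)‖ ^ 2) := fun p _ =>
      ⟨fun y => ‖el p (a p) (y ⟨p, Finset.mem_singleton_self p⟩)‖ ^ 2,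
        (((SPL_el_meas p (a p)).comp (measurable_pi_apply _)).norm).pow_const 2, fun x => rfl⟩
    have hbU : (Q \ U).biUnion (fun p => {p}) = Q \ U := Finset.biUnion_singleton_eq_self
    have dG' := SPL_prod (Q \ U) (I := fun p => {p}) dG
    rw [hbU] at dG'
    rw [e1, SPL_pair hP Finset.sdiff_subset hUQ Finset.sdiff_disjoint dG'
      (SPL_prod (Finset.range J) dF),
      SPL_fam hP (Finset.range J) (fun i hi => hB i (Finset.mem_range.1 hi))
        (fun i hi j hj => hd i (Finset.mem_range.1 hi) j (Finset.mem_range.1 hj)) dF,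
      SPL_fam hP (Q \ U) (I := fun p => {p})
        (fun p hp => Finset.singleton_subset_iff.2 (Finset.sdiff_subset hp))
        (fun p _ q _ hpq => Finset.disjoint_singleton.2 hpq) dG]
    congr 1
    refine Finset.prod_congr rfl fun p hp => ?_
    exact el_sq hP (Finset.sdiff_subset hp) (hQ p (Finset.sdiff_subset hp))
      (ha p (Finset.sdiff_subset hp))

theorem mol_split : type_of% @mol_split_pr := @mol_split_pr

end Pool.Agent.LVB
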