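import Pool.Agent.Lib_helper41.LVB.Defs
import Pool.Agent.Lib_helper68.LEV.MEX

/-! LVB block STE: the Sato-Tate model exists -/

set_option autoImplicit false

namespace Pool.Agent.LVB

open Pool.Agent.LEV Complex MeasureTheory Filter Topology UpperHalfPlane ModularGroup ProbabilityTheory
open scoped MatrixGroups Modular ENNReal ModularForm ComplexConjugate ContDiff

theorem STE_one : ∃ μ : Measure ℝ, IsProbabilityMeasure μ ∧
    (∀ᵐ x ∂μ, |x| ≤ 2) ∧ ∀ k : ℕ, ∫ x, Uu x k ∂μ = if k = 0 then 1 else 0 := by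
  have := MEX_prob
  have hcm : Measurable (fun y : ℝ => 2 * Real.cos y) := by fun_prop
  refine ⟨MEX_st.map (fun y => 2 * Real.cos y), Measure.isProbabilityMeasure_map hcm.aemeasurable, ?_,
    fun k => ?_⟩
  · rw [ae_map_iff hcm.aemeasurable (measurableSet_le (by fun_prop) (by fun_prop))]
    exact Eventually.of_forall fun y => MEX_cos y
  · rw [integral_map hcm.aemeasurable (MEX_cont k).aestronglyMeasurable]
    have h := MEX_orth k 0
    simp only [Uu, mul_one] at h
    exact h

/-! block STE -/

theorem st_exists_pr (I : Finset ℕ) (hI : ∀ p ∈ I, p.Prime) : ∃ P : Measure (ℕ → ℝ), IsST I P := by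
  obtain ⟨μ, h1, h2, h3⟩ := STE_one
  refine ⟨Measure.infinitePi (fun _ : ℕ => μ), ?_, ?_, ?_, ?_⟩
  · infer_instance
  · have h1' : ∀ p ∈ I, ∀ᵐ x ∂(Measure.infinitePi (fun _ : ℕ => μ)), |x p| ≤ 2 := by
      intro p _
      have h4 := (measurePreserving_eval_infinitePi (fun _ : ℕ => μ) p).quasiMeasurePreserving.ae h2
      exact h4
    exact (Finset.eventually_all I).2 h1'
  · have h4 : iIndepFun (fun n (x : ℕ → ℝ) => x n) (Measure.infinitePi (fun _ : ℕ => μ)) :=
      iIndepFun_infinitePi (X := fun _ (x : ℝ) => x) (fun _ => measurable_id)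
    exact h4.precomp Subtype.val_injective
  · intro p _ k
    rw [← h3 k]
    have h4 := (measurePreserving_eval_infinitePi (fun _ : ℕ => μ) p).map_eq
    conv_rhs => rw [← h4]
    rw [integral_map (measurePreserving_eval_infinitePi (fun _ : ℕ => μ) p).measurable.aemeasurable
      (MEX_cont k).aestronglyMeasurable]

theorem st_exists : type_of% @st_exists_pr := @st_exists_pr

end Pool.Agent.LVB
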