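import Pool.Agent.Lib_helper41.LVB.Defs
import Pool.Agent.Lib_helper68.LEV.LSD
import Pool.Agent.Lib_helper68.LEV.EIA

namespace Pool.Agent.LVB

open Pool.Agent.LEV Complex MeasureTheory Filter Topology UpperHalfPlane ModularGroup ProbabilityTheory
open scoped MatrixGroups Modular ENNReal ModularForm ComplexConjugate ContDiff

theorem LSG_real {N : ℕ} [Fact N.Prime] {f : S2 N} (hf : IsNew f) (n : ℕ) :
    co f n / (Real.sqrt n : ℂ) = ((la f n : ℝ) : ℂ) := by
  have h : co f n = (((co f n).re : ℝ) : ℂ) := by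
    apply Complex.ext
    · simp
    · simp [new_real hf n]
  rw [la]
  push_cast
  rw [← h]

theorem LSG_ls : ∃ C : ℝ, 0 < C ∧ ∀ (N : ℕ) [Fact N.Prime] {ι : Type} [Fintype ι] (f : ι → S2 N),
    Function.Injective f → (∀ i, IsNew (f i)) → ∀ (X : ℕ) (b : ℕ → ℝ),
      ∑ i, om (f i) * (∑ n ∈ Finset.Icc 1 X, b n * la (f i) n) ^ 2 ≤
        C * (1 + X / N) * ∑ n ∈ Finset.Icc 1 X, b n ^ 2 := by
  obtain ⟨C, hC, h⟩ := large_sieve
  refine ⟨C / (4 * Real.pi), by positivity, ?_⟩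
  intro N _ ι _ f hi hn X b
  have h1 := h N f (fun i => new_ne_zero (hn i))
    (fun i j hij => new_orth (hn i) (hn j) (fun e => hij (hi e))) X (fun n => (b n : ℂ))
  have h2 : ∀ i, ‖∑ n ∈ Finset.Icc 1 X, (b n : ℂ) * (co (f i) n / (Real.sqrt n : ℂ))‖ ^ 2 =
      (∑ n ∈ Finset.Icc 1 X, b n * la (f i) n) ^ 2 := by
    intro i
    have : (∑ n ∈ Finset.Icc 1 X, (b n : ℂ) * (co (f i) n / (Real.sqrt n : ℂ))) =
        ((∑ n ∈ Finset.Icc 1 X, b n * la (f i) n : ℝ) : ℂ) := by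
      push_cast
      exact Finset.sum_congr rfl fun n _ => by rw [LSG_real (hn i)]
    rw [this, Complex.norm_real, Real.norm_eq_abs, sq_abs]
  simp only [h2] at h1
  have h3 : ∀ n, ‖(b n : ℂ)‖ ^ 2 = b n ^ 2 := by
    intro n
    rw [Complex.norm_real, Real.norm_eq_abs, sq_abs]
  simp only [h3] at h1
  have h4 : ∀ i, om (f i) * (∑ n ∈ Finset.Icc 1 X, b n * la (f i) n) ^ 2 =
      1 / (4 * Real.pi) * (1 / nr (f i) * (∑ n ∈ Finset.Icc 1 X, b n * la (f i) n) ^ 2) := by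
    intro i
    rw [om]
    have := Real.pi_pos
    field_simp
  simp only [h4]
  rw [← Finset.mul_sum]
  calc 1 / (4 * Real.pi) * ∑ i, 1 / nr (f i) * (∑ n ∈ Finset.Icc 1 X, b n * la (f i) n) ^ 2
      ≤ 1 / (4 * Real.pi) * (C * (1 + X / N) * ∑ n ∈ Finset.Icc 1 X, b n ^ 2) :=
        mul_le_mul_of_nonneg_left h1 (by positivity)
    _ = _ := by ring

theorem LSG_om_nonneg {N : ℕ} [Fact N.Prime] {f : S2 N} (hf : IsNew f) : 0 ≤ om f := by
  rw [om]
  have := nr_pos (new_ne_zero hf)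
  positivity

/-- the general large sieve inequality for one coefficient and for squares -/
theorem ls_one_pr : ∃ C : ℝ, 0 < C ∧ ∀ (N : ℕ) [Fact N.Prime] {ι : Type} [Fintype ι] (f : ι → S2 N),
    Function.Injective f → (∀ i, IsNew (f i)) → ∀ n : ℕ, 1 ≤ n →
      ∑ i, om (f i) * la (f i) n ^ 2 ≤ C * (1 + n / N) := by
  obtain ⟨C, hC, h⟩ := LSG_ls
  refine ⟨C, hC, ?_⟩
  intro N _ ι _ f hi hn n hn1
  have h1 := h N f hi hn n (fun m => if m = n then 1 else 0)
  have h2 : ∀ i, (∑ m ∈ Finset.Icc 1 n, (if m = n then (1 : ℝ) else 0) * la (f i) m) =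
      la (f i) n := by
    intro i
    rw [Finset.sum_eq_single n]
    · simp
    · intro m _ hm
      simp [hm]
    · intro hm
      exact absurd (Finset.mem_Icc.2 ⟨hn1, le_refl n⟩) hm
  have h3 : (∑ m ∈ Finset.Icc 1 n, (if m = n then (1 : ℝ) else 0) ^ 2) = 1 := by
    rw [Finset.sum_eq_single n]
    · simp
    · intro m _ hm
      simp [hm]
    · intro hm
      exact absurd (Finset.mem_Icc.2 ⟨hn1, le_refl n⟩) hm
  simp only [h2, h3, mul_one] at h1
  exact h1

theorem LSG_geom {x : ℝ} (h0 : 0 ≤ x) (h1 : x < 1) (n : ℕ) :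
    ∑ j ∈ Finset.range n, x ^ j ≤ (1 - x)⁻¹ := by
  rw [← tsum_geometric_of_lt_one h0 h1]
  exact (summable_geometric_of_lt_one h0 h1).sum_le_tsum _ (fun j _ => by positivity)

theorem LSG_geom' {x : ℝ} (h0 : 0 ≤ x) (h1 : x < 1) (L : ℕ) :
    ∑ j ∈ Finset.range (L + 1), x ^ (L - j) ≤ (1 - x)⁻¹ := by
  have h2 := Finset.sum_range_reflect (fun j => x ^ j) (L + 1)

  refine le_trans (le_of_eq ?_) (LSG_geom h0 h1 (L + 1))
  rw [← h2]
  refine Finset.sum_congr rfl fun j _ => ?_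
  simp only [Nat.add_sub_cancel]

theorem sq_sieve_pr : ∃ C : ℝ, 0 < C ∧ ∀ (N : ℕ) [Fact N.Prime] {ι : Type} [Fintype ι] (f : ι → S2 N),
    Function.Injective f → (∀ i, IsNew (f i)) → ∀ (D X : ℕ), 1 ≤ D → X ≤ N → ∀ g : ℕ → ℝ,
      (∀ d, 1 ≤ d → |g d| ≤ 1 / d) →
      ∑ i, om (f i) * (∑ d ∈ Finset.Icc D X, g d * la (f i) (d ^ 2)) ^ 2 ≤ C * (1 / D + X / N) := by
  obtain ⟨C, hC, h⟩ := LSG_ls
  refine ⟨96 * C, by positivity, ?_⟩
  intro N _ ι _ f hi hn D X hD hXN g hg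
  have hNp : (0 : ℝ) < N := by exact_mod_cast (Fact.out : N.Prime).pos
  have hDp : (0 : ℝ) < D := by exact_mod_cast hD
  rcases lt_or_ge X D with hXD | hXD
  · rw [Finset.Icc_eq_empty (by omega)]
    simp only [Finset.sum_empty]
    have : 0 ≤ 96 * C * (1 / (D : ℝ) + X / N) := by positivity
    simpa using this
  set L := Nat.log 2 (X / D) with hL
  have hXD1 : X / D ≠ 0 := (Nat.div_pos hXD hD).ne'
  -- block index
  set J : ℕ → ℕ := fun d => Nat.log 2 (d / D) with hJ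
  set Bl : ℕ → Finset ℕ := fun j => (Finset.Icc D X).filter (fun d => J d = j) with hBl
  have hmaps : ∀ d ∈ Finset.Icc D X, J d ∈ Finset.range (L + 1) := by
    intro d hd
    rw [Finset.mem_range, Nat.lt_succ_iff]
    exact Nat.log_mono_right (Nat.div_le_div_right (Finset.mem_Icc.1 hd).2)
  have hsplit : ∀ F : ℕ → ℝ, ∑ d ∈ Finset.Icc D X, F d =
      ∑ j ∈ Finset.range (L + 1), ∑ d ∈ Bl j, F d := by
    intro F
    exact (Finset.sum_fiberwise_of_maps_to hmaps F).symm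
  have hmem : ∀ j d, d ∈ Bl j → D * 2 ^ j ≤ d ∧ d < D * 2 ^ (j + 1) ∧ d ≤ X ∧ D ≤ d := by
    intro j d hd
    obtain ⟨hd1, hd2⟩ := Finset.mem_filter.1 hd
    obtain ⟨hd3, hd4⟩ := Finset.mem_Icc.1 hd1
    have hdD : d / D ≠ 0 := (Nat.div_pos hd3 hD).ne'
    have h1 : 2 ^ j ≤ d / D := by
      rw [← hd2]
      exact Nat.pow_log_le_self 2 hdD
    have h2 : d / D < 2 ^ (j + 1) := by
      rw [← hd2]
      exact Nat.lt_pow_succ_log_self (by norm_num) _
    refine ⟨?_, ?_, hd4, hd3⟩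
    · calc D * 2 ^ j ≤ D * (d / D) := Nat.mul_le_mul_left _ h1
        _ ≤ d := Nat.mul_div_le d D
    · exact (Nat.div_lt_iff_lt_mul hD).1 h2 |>.trans_eq (Nat.mul_comm _ _)
  -- the bound for one block
  have hblock : ∀ j ∈ Finset.range (L + 1),
      ∑ i, om (f i) * (∑ d ∈ Bl j, g d * la (f i) (d ^ 2)) ^ 2 ≤
        C * ((1 / 2) ^ j * (1 / D) + 4 * ((1 / 2) ^ (L - j) * (X / N))) := by
    intro j hj
    have hjL : j ≤ L := Nat.lt_succ_iff.1 (Finset.mem_range.1 hj)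
    set Y : ℕ := (D * 2 ^ (j + 1)) ^ 2 with hY
    set im : Finset ℕ := (Bl j).image (fun d => d ^ 2) with him
    have hinj : Set.InjOn (fun d : ℕ => d ^ 2) (Bl j : Set ℕ) := by
      intro a _ b _ hab
      exact Nat.pow_left_injective (n := 2) (by norm_num) hab
    have hsub : im ⊆ Finset.Icc 1 Y := by
      intro n hn'
      obtain ⟨d, hd, rfl⟩ := Finset.mem_image.1 hn'
      obtain ⟨h1, h2, h3, h4⟩ := hmem j d hd
      refine Finset.mem_Icc.2 ⟨Nat.one_le_iff_ne_zero.2 (pow_ne_zero 2 (by omega)), ?_⟩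
      exact Nat.pow_le_pow_left h2.le 2
    set b : ℕ → ℝ := fun n => if n ∈ im then g (Nat.sqrt n) else 0 with hb
    have hsum : ∀ F : ℕ → ℝ, ∑ n ∈ Finset.Icc 1 Y, b n * F n = ∑ d ∈ Bl j, g d * F (d ^ 2) := by
      intro F
      rw [← Finset.sum_subset hsub (f := fun n => b n * F n)]
      · rw [him, Finset.sum_image hinj]
        refine Finset.sum_congr rfl fun d hd => ?_
        have : d ^ 2 ∈ im := Finset.mem_image.2 ⟨d, hd, rfl⟩
        simp only [hb, if_pos this, Nat.sqrt_eq']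
      · intro n _ hn'
        simp only [hb, if_neg hn', zero_mul]
    have hsq : ∑ n ∈ Finset.Icc 1 Y, b n ^ 2 = ∑ d ∈ Bl j, g d ^ 2 := by
      rw [← Finset.sum_subset hsub (f := fun n => b n ^ 2)]
      · rw [him, Finset.sum_image hinj]
        refine Finset.sum_congr rfl fun d hd => ?_
        have : d ^ 2 ∈ im := Finset.mem_image.2 ⟨d, hd, rfl⟩
        simp only [hb, if_pos this, Nat.sqrt_eq']
      · intro n _ hn'
        simp only [hb, if_neg hn']
        norm_num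
    have h1 := h N f hi hn Y b
    simp only [hsum, hsq] at h1
    refine h1.trans ?_
    have hP : (0 : ℝ) < D * 2 ^ j := by positivity
    have hcard : ∑ d ∈ Bl j, g d ^ 2 ≤ 1 / (D * 2 ^ j) := by
      have hc : ((Bl j).card : ℝ) ≤ D * 2 ^ j := by
        have hs : Bl j ⊆ Finset.Ico (D * 2 ^ j) (D * 2 ^ (j + 1)) := by
          intro d hd
          obtain ⟨h1, h2, _, _⟩ := hmem j d hd
          exact Finset.mem_Ico.2 ⟨h1, h2⟩
        have h2 := Finset.card_le_card hs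
        rw [Nat.card_Ico] at h2
        have h3 : D * 2 ^ (j + 1) - D * 2 ^ j = D * 2 ^ j := by
          have e3 : D * 2 ^ (j + 1) = D * 2 ^ j + D * 2 ^ j := by ring
          rw [e3, Nat.add_sub_cancel]
        rw [h3] at h2
        exact_mod_cast h2
      have hle : ∀ d ∈ Bl j, g d ^ 2 ≤ 1 / (D * 2 ^ j) ^ 2 := by
        intro d hd
        obtain ⟨h1, h2, h3, h4⟩ := hmem j d hd
        have h5 : |g d| ≤ 1 / (D * 2 ^ j) := by
          refine (hg d (by omega)).trans ?_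
          refine one_div_le_one_div_of_le hP ?_
          exact_mod_cast h1
        rw [← sq_abs, ← one_div_pow]
        exact pow_le_pow_left₀ (abs_nonneg _) h5 2
      calc ∑ d ∈ Bl j, g d ^ 2 ≤ ∑ d ∈ Bl j, 1 / ((D : ℝ) * 2 ^ j) ^ 2 := Finset.sum_le_sum hle
        _ = (Bl j).card * (1 / ((D : ℝ) * 2 ^ j) ^ 2) := by rw [Finset.sum_const, nsmul_eq_mul]
        _ ≤ (D * 2 ^ j) * (1 / ((D : ℝ) * 2 ^ j) ^ 2) :=
            mul_le_mul_of_nonneg_right hc (by positivity)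
        _ = 1 / (D * 2 ^ j) := by field_simp
    have hYr : ((Y : ℕ) : ℝ) = 4 * (D * 2 ^ j) ^ 2 := by
      rw [hY]
      push_cast
      rw [pow_succ]
      ring
    have hDX : (D : ℝ) * 2 ^ j ≤ (1 / 2) ^ (L - j) * X := by
      have h2 : D * 2 ^ L ≤ X := by
        calc D * 2 ^ L ≤ D * (X / D) := Nat.mul_le_mul_left _ (Nat.pow_log_le_self 2 hXD1)
          _ ≤ X := Nat.mul_div_le X D
      have h3 : (D : ℝ) * 2 ^ L ≤ X := by exact_mod_cast h2
      have h4 : (2 : ℝ) ^ L = 2 ^ j * 2 ^ (L - j) := by rw [← pow_add, Nat.add_sub_cancel' hjL]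
      have h5 : (1 / 2 : ℝ) ^ (L - j) * 2 ^ (L - j) = 1 := by rw [← mul_pow]; norm_num
      calc (D : ℝ) * 2 ^ j = (1 / 2) ^ (L - j) * (D * 2 ^ L) := by
            rw [h4]; linear_combination (-(D : ℝ) * 2 ^ j) * h5
        _ ≤ (1 / 2) ^ (L - j) * X := mul_le_mul_of_nonneg_left h3 (by positivity)
    calc C * (1 + (Y : ℝ) / N) * ∑ d ∈ Bl j, g d ^ 2
        ≤ C * (1 + (Y : ℝ) / N) * (1 / (D * 2 ^ j)) :=
          mul_le_mul_of_nonneg_left hcard (by positivity)
      _ = C * ((1 / 2) ^ j * (1 / D) + 4 * ((D * 2 ^ j) / N)) := by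
          rw [hYr]
          have : (1 / 2 : ℝ) ^ j = 1 / 2 ^ j := by rw [one_div_pow]
          rw [this]
          field_simp
      _ ≤ C * ((1 / 2) ^ j * (1 / D) + 4 * ((1 / 2) ^ (L - j) * (X / N))) := by
          refine mul_le_mul_of_nonneg_left ?_ hC.le
          have : ((D : ℝ) * 2 ^ j) / N ≤ (1 / 2) ^ (L - j) * (X / N) := by
            rw [← mul_div_assoc]
            exact div_le_div_of_nonneg_right hDX hNp.le
          linarith
  -- weights
  set w : ℕ → ℝ := fun j => (3 / 2 : ℝ) ^ (min j (L - j)) with hw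
  have hwpos : ∀ j, 0 < w j := fun j => by positivity
  have hwinv : ∑ j ∈ Finset.range (L + 1), (w j)⁻¹ ≤ 6 := by
    have h1 : ∀ j ∈ Finset.range (L + 1), (w j)⁻¹ ≤ (2 / 3 : ℝ) ^ j + (2 / 3) ^ (L - j) := by
      intro j _
      have e : (w j)⁻¹ = (2 / 3 : ℝ) ^ (min j (L - j)) := by
        simp only [hw]
        rw [← inv_pow]
        norm_num
      rw [e]
      rcases min_cases j (L - j) with ⟨h2, _⟩ | ⟨h2, _⟩
      · rw [h2]
        have : (0 : ℝ) ≤ (2 / 3) ^ (L - j) := by positivity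
        linarith
      · rw [h2]
        have : (0 : ℝ) ≤ (2 / 3) ^ j := by positivity
        linarith
    refine (Finset.sum_le_sum h1).trans ?_
    rw [Finset.sum_add_distrib]
    have h2 := LSG_geom (x := 2 / 3) (by norm_num) (by norm_num) (L + 1)
    have h3 := LSG_geom' (x := 2 / 3) (by norm_num) (by norm_num) L
    norm_num at h2 h3 ⊢
    linarith
  have hCS : ∀ i, (∑ d ∈ Finset.Icc D X, g d * la (f i) (d ^ 2)) ^ 2 ≤
      6 * ∑ j ∈ Finset.range (L + 1), w j * (∑ d ∈ Bl j, g d * la (f i) (d ^ 2)) ^ 2 := by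
    intro i
    rw [hsplit]
    have h1 := Finset.sum_sq_le_sum_mul_sum_of_sq_eq_mul (Finset.range (L + 1))
      (r := fun j => ∑ d ∈ Bl j, g d * la (f i) (d ^ 2))
      (f := fun j => (w j)⁻¹)
      (g := fun j => w j * (∑ d ∈ Bl j, g d * la (f i) (d ^ 2)) ^ 2)
      (fun j _ => (inv_pos.2 (hwpos j)).le)
      (fun j _ => mul_nonneg (hwpos j).le (sq_nonneg _))
      (fun j _ => by
        have := (hwpos j).ne'
        field_simp)
    refine h1.trans (mul_le_mul_of_nonneg_right hwinv ?_)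
    exact Finset.sum_nonneg fun j _ => mul_nonneg (hwpos j).le (sq_nonneg _)
  have hfin : ∑ i, om (f i) * (∑ d ∈ Finset.Icc D X, g d * la (f i) (d ^ 2)) ^ 2 ≤
      6 * ∑ j ∈ Finset.range (L + 1), w j *
        ∑ i, om (f i) * (∑ d ∈ Bl j, g d * la (f i) (d ^ 2)) ^ 2 := by
    calc ∑ i, om (f i) * (∑ d ∈ Finset.Icc D X, g d * la (f i) (d ^ 2)) ^ 2
        ≤ ∑ i, om (f i) * (6 * ∑ j ∈ Finset.range (L + 1),
            w j * (∑ d ∈ Bl j, g d * la (f i) (d ^ 2)) ^ 2) :=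
          Finset.sum_le_sum fun i _ => mul_le_mul_of_nonneg_left (hCS i) (LSG_om_nonneg (hn i))
      _ = 6 * ∑ j ∈ Finset.range (L + 1), w j *
        ∑ i, om (f i) * (∑ d ∈ Bl j, g d * la (f i) (d ^ 2)) ^ 2 := by
          simp only [Finset.mul_sum]
          rw [Finset.sum_comm]
          refine Finset.sum_congr rfl fun j _ => Finset.sum_congr rfl fun i _ => ?_
          ring
  refine hfin.trans ?_
  have hlast : ∑ j ∈ Finset.range (L + 1), w j *
      ∑ i, om (f i) * (∑ d ∈ Bl j, g d * la (f i) (d ^ 2)) ^ 2 ≤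
      C * (4 * (1 / D) + 16 * (X / N)) := by
    have h1 : ∀ j ∈ Finset.range (L + 1), w j *
        ∑ i, om (f i) * (∑ d ∈ Bl j, g d * la (f i) (d ^ 2)) ^ 2 ≤
        C * ((3 / 4) ^ j * (1 / D) + 4 * ((3 / 4) ^ (L - j) * (X / N))) := by
      intro j hj
      refine (mul_le_mul_of_nonneg_left (hblock j hj) (hwpos j).le).trans ?_
      have h2 : w j * (1 / 2) ^ j ≤ (3 / 4) ^ j := by
        calc w j * (1 / 2) ^ j ≤ (3 / 2) ^ j * (1 / 2) ^ j :=
              mul_le_mul_of_nonneg_right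
                (pow_le_pow_right₀ (by norm_num) (min_le_left _ _)) (by positivity)
          _ = (3 / 4) ^ j := by rw [← mul_pow]; norm_num
      have h3 : w j * (1 / 2) ^ (L - j) ≤ (3 / 4) ^ (L - j) := by
        calc w j * (1 / 2) ^ (L - j) ≤ (3 / 2) ^ (L - j) * (1 / 2) ^ (L - j) :=
              mul_le_mul_of_nonneg_right
                (pow_le_pow_right₀ (by norm_num) (min_le_right _ _)) (by positivity)
          _ = (3 / 4) ^ (L - j) := by rw [← mul_pow]; norm_num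
      calc w j * (C * ((1 / 2) ^ j * (1 / D) + 4 * ((1 / 2) ^ (L - j) * (X / N))))
          = C * ((w j * (1 / 2) ^ j) * (1 / D) + 4 * ((w j * (1 / 2) ^ (L - j)) * (X / N))) := by
            ring
        _ ≤ C * ((3 / 4) ^ j * (1 / D) + 4 * ((3 / 4) ^ (L - j) * (X / N))) := by
            refine mul_le_mul_of_nonneg_left ?_ hC.le
            have h4 := mul_le_mul_of_nonneg_right h2 (by positivity : (0 : ℝ) ≤ 1 / D)
            have h5 := mul_le_mul_of_nonneg_right h3 (by positivity : (0 : ℝ) ≤ (X : ℝ) / N)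
            linarith
    refine (Finset.sum_le_sum h1).trans ?_
    rw [← Finset.mul_sum]
    refine mul_le_mul_of_nonneg_left ?_ hC.le
    rw [Finset.sum_add_distrib, ← Finset.sum_mul, ← Finset.mul_sum, ← Finset.sum_mul]
    have h2 := LSG_geom (x := 3 / 4) (by norm_num) (by norm_num) (L + 1)
    have h3 := LSG_geom' (x := 3 / 4) (by norm_num) (by norm_num) L
    norm_num at h2 h3
    have h4 := mul_le_mul_of_nonneg_right h2 (by positivity : (0 : ℝ) ≤ 1 / D)
    have h5 := mul_le_mul_of_nonneg_right h3 (by positivity : (0 : ℝ) ≤ (X : ℝ) / N)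
    linarith
  calc 6 * ∑ j ∈ Finset.range (L + 1), w j *
        ∑ i, om (f i) * (∑ d ∈ Bl j, g d * la (f i) (d ^ 2)) ^ 2
      ≤ 6 * (C * (4 * (1 / D) + 16 * (X / N))) := by linarith
    _ ≤ 96 * C * (1 / D + X / N) := by
        have : 0 ≤ C * (1 / (D : ℝ)) := by positivity
        nlinarith

theorem ls_one : type_of% @ls_one_pr := @ls_one_pr

theorem sq_sieve : type_of% @sq_sieve_pr := @sq_sieve_pr

end Pool.Agent.LVB
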