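import Pool.Agent.Lib_helper41.LVB.Defs
import Pool.Agent.Lib_helper68.LEV.EIA
import Pool.Agent.Lib_helper68.LEV.HPO
import Pool.Agent.Lib_helper68.LEV.EQS

namespace Pool.Agent.LVB

open Pool.Agent.LEV Complex MeasureTheory Filter Topology UpperHalfPlane ModularGroup ProbabilityTheory
open scoped MatrixGroups Modular ENNReal ModularForm ComplexConjugate ContDiff

/-- the square of a Chebyshev polynomial -/
theorem LSQ_uu (x : ℝ) (r : ℕ) : Uu x r ^ 2 = ∑ j ∈ Finset.range (r + 1), Uu x (j * 2) := by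
  induction r with
  | zero => simp [Uu]
  | succ r ih =>
    rw [Finset.sum_range_succ, ← ih, sq, EQS_uu, sq]
    have : r + r + 2 = (r + 1) * 2 := by ring
    rw [this]

theorem LSQ_div (g : ℕ → ℝ) {a b : ℕ} (hab : a.Coprime b) :
    ∑ d ∈ (a * b).divisors, g d = ∑ d ∈ a.divisors, ∑ e ∈ b.divisors, g (d * e) := by
  classical
  have h1 : (a * b).divisors = (a.divisors ×ˢ b.divisors).image (fun p : ℕ × ℕ => p.1 * p.2) := by
    rw [Nat.divisors_mul, Finset.mul_def]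
  rw [h1, Finset.sum_image hab.mul_injOn_divisors, Finset.sum_product]

section
variable {N : ℕ} [Fact N.Prime]

theorem LSQ_sq {f : S2 N} (hf : IsNew f) {n : ℕ} (hn : 0 < n) (hnN : n.Coprime N) :
    la f n ^ 2 = ∑ d ∈ n.divisors, la f (d ^ 2) := by
  have hr := new_real hf
  induction n using Nat.recOnPosPrimePosCoprime with
  | prime_pow p r hp hr' =>
    have hpN : p ≠ N := by
      rintro rfl
      have h1 : (p ^ r).Coprime p := hnN
      have h2 : p.Coprime p := (Nat.coprime_pow_left_iff hr' p p).1 h1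
      rw [Nat.coprime_self] at h2
      exact hp.ne_one h2
    rw [HPO_la_pow hf hr hp hpN, LSQ_uu, Nat.sum_divisors_prime_pow hp]
    refine Finset.sum_congr rfl fun j _ => ?_
    rw [← pow_mul, HPO_la_pow hf hr hp hpN]
  | zero => omega
  | one => simp [HPO_la_one hf]
  | coprime a b ha hb hab iha ihb =>
    rw [HPO_la_mul hf hr hab, mul_pow, iha (by omega) (Nat.Coprime.coprime_mul_right hnN),
      ihb (by omega) (Nat.Coprime.coprime_mul_left hnN), LSQ_div _ hab, Finset.sum_mul_sum]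
    refine Finset.sum_congr rfl fun d hd => Finset.sum_congr rfl fun e he => ?_
    have hde : d.Coprime e := Nat.Coprime.coprime_dvd_left (Nat.dvd_of_mem_divisors hd)
      (Nat.Coprime.coprime_dvd_right (Nat.dvd_of_mem_divisors he) hab)
    rw [mul_pow, HPO_la_mul hf hr (hde.pow 2 2)]

/-- the square of a coefficient -/
theorem la_sq_pr {f : S2 N} (hf : IsNew f) {n : ℕ} (hn : 0 < n) (hnN : n < N) :
    la f n ^ 2 = ∑ d ∈ n.divisors, la f (d ^ 2) := by
  refine LSQ_sq hf hn ?_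
  rw [Nat.coprime_comm, (Fact.out : N.Prime).coprime_iff_not_dvd]
  intro h
  exact absurd (Nat.le_of_dvd hn h) (not_le.2 hnN)

omit [Fact N.Prime] in
theorem LSQ_rough_mul {z a b : ℕ} : rough z (a * b) ↔ rough z a ∧ rough z b := by
  constructor
  · intro h
    exact ⟨fun p hp hd => h p hp (hd.mul_right b), fun p hp hd => h p hp (hd.mul_left a)⟩
  · rintro ⟨h1, h2⟩ p hp hd
    rcases (Nat.Prime.dvd_mul hp).1 hd with h | h
    · exact h1 p hp h
    · exact h2 p hp h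

open Classical in
/-- sums over rough numbers -/
theorem rough_sum_pr {f : S2 N} (hf : IsNew f) {z X : ℕ} (hX : X < N) (w : ℕ → ℝ) :
    ∑ n ∈ (Finset.Icc 1 X).filter (fun n => rough z n), la f n ^ 2 * w n =
      ∑ d ∈ (Finset.Icc 1 X).filter (fun d => rough z d), la f (d ^ 2) *
        ∑ m ∈ (Finset.Icc 1 X).filter (fun m => rough z m ∧ d * m ≤ X), w (d * m) := by
  have h1 : ∀ n ∈ (Finset.Icc 1 X).filter (fun n => rough z n), la f n ^ 2 * w n =
      ∑ d ∈ n.divisors, la f (d ^ 2) * w n := by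
    intro n hn
    obtain ⟨h2, h3⟩ := Finset.mem_Icc.1 (Finset.mem_filter.1 hn).1
    rw [la_sq_pr hf h2 (by omega), Finset.sum_mul]
  rw [Finset.sum_congr rfl h1]
  simp only [Finset.mul_sum]
  rw [Finset.sum_sigma', Finset.sum_sigma']
  refine Finset.sum_bij' (fun x _ => ⟨x.2, x.1 / x.2⟩) (fun x _ => ⟨x.1 * x.2, x.1⟩) ?_ ?_ ?_ ?_ ?_
  · rintro ⟨n, d⟩ hx
    simp only [Finset.mem_sigma, Finset.mem_filter, Finset.mem_Icc, Nat.mem_divisors] at hx ⊢
    obtain ⟨⟨⟨h2, h3⟩, h4⟩, ⟨m, rfl⟩, h6⟩ := hx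
    have hd : 0 < d := Nat.pos_of_ne_zero fun h => by simp [h] at h6
    have hm : 0 < m := Nat.pos_of_ne_zero fun h => by simp [h] at h6
    rw [Nat.mul_div_cancel_left m hd]
    obtain ⟨h7, h8⟩ := LSQ_rough_mul.1 h4
    have h9 : d ≤ d * m := Nat.le_mul_of_pos_right d hm
    have h10 : m ≤ d * m := Nat.le_mul_of_pos_left m hd
    exact ⟨⟨⟨hd, by omega⟩, h7⟩, ⟨hm, by omega⟩, h8, h3⟩
  · rintro ⟨d, m⟩ hx
    simp only [Finset.mem_sigma, Finset.mem_filter, Finset.mem_Icc, Nat.mem_divisors] at hx ⊢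
    obtain ⟨⟨⟨h2, h3⟩, h4⟩, ⟨h5, h6⟩, h7, h8⟩ := hx
    have h9 : 0 < d * m := Nat.mul_pos h2 h5
    exact ⟨⟨⟨h9, h8⟩, LSQ_rough_mul.2 ⟨h4, h7⟩⟩, ⟨m, rfl⟩, h9.ne'⟩
  · rintro ⟨n, d⟩ hx
    simp only [Finset.mem_sigma, Finset.mem_filter, Finset.mem_Icc, Nat.mem_divisors] at hx
    obtain ⟨-, h5, -⟩ := hx
    simp only
    rw [Nat.mul_div_cancel' h5]
  · rintro ⟨d, m⟩ hx
    simp only [Finset.mem_sigma, Finset.mem_filter, Finset.mem_Icc] at hx
    obtain ⟨⟨⟨h2, h3⟩, h4⟩, -⟩ := hx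
    simp only
    rw [Nat.mul_div_cancel_left m h2]
  · rintro ⟨n, d⟩ hx
    simp only [Finset.mem_sigma, Finset.mem_filter, Finset.mem_Icc, Nat.mem_divisors] at hx
    obtain ⟨-, h5, -⟩ := hx
    simp only
    rw [Nat.mul_div_cancel' h5]

end

theorem la_sq : type_of% @la_sq_pr := @la_sq_pr

theorem rough_sum : type_of% @rough_sum_pr := @rough_sum_pr

end Pool.Agent.LVB
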