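import Pool.Agent.Lib_helper41.LVB.Defs
import Pool.Agent.Lib_helper68.LEV.FRU
import Pool.Agent.Lib_helper68.LEV.CNT

/-! block TWS: the strips at the two cusps are disjoint modulo `Γ₀(N)` -/

namespace Pool.Agent.LVB

open Pool.Agent.LEV Complex MeasureTheory Filter Topology UpperHalfPlane ModularGroup ProbabilityTheory
open scoped MatrixGroups Modular ENNReal ModularForm ComplexConjugate ContDiff

section
variable {N : ℕ} [Fact N.Prime]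

/-- the strip -/
def TWS_S (Y : ℝ) : Set ℍ := {z : ℍ | 0 ≤ z.re ∧ z.re < 1 ∧ Y ≤ z.im}

theorem TWS_ms (Y : ℝ) : MeasurableSet (TWS_S Y) := by
  refine (measurableSet_le measurable_const UpperHalfPlane.continuous_re.measurable).inter
    ((measurableSet_lt UpperHalfPlane.continuous_re.measurable measurable_const).inter
      (measurableSet_le measurable_const UpperHalfPlane.continuous_im.measurable))

/-- an element with `c = 0` relating two points of the strip is `± 1` -/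
theorem TWS_pm {γ : SL(2, ℤ)} {u : ℍ} (hc : γ 1 0 = 0) (h1 : 0 ≤ u.re) (h2 : u.re < 1)
    (h3 : 0 ≤ (γ • u).re) (h4 : (γ • u).re < 1) : γ = 1 ∨ γ = -1 := by
  have hdet := γ.det_coe
  rw [Matrix.det_fin_two, hc, mul_zero, sub_zero] at hdet
  have h11 : IsUnit (γ 1 1 : ℤ) := IsUnit.of_mul_eq_one (γ 0 0 : ℤ) (by rw [mul_comm]; exact hdet)
  rcases Int.isUnit_iff.1 h11 with h11 | h11
  · left
    refine CNT_same (g := 1) (g' := γ) (z := u) ⟨by rw [hc]; simp, by rw [h11]; simp⟩ ?_ ?_ h3 h4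
    · rw [one_smul]; exact h1
    · rw [one_smul]; exact h2
  · right
    have h5 : -γ = 1 := by
      have hs : (-γ) • u = γ • u := ModularGroup.SL_neg_smul γ u
      refine CNT_same (g := 1) (g' := -γ) (z := u) ⟨?_, ?_⟩ ?_ ?_ ?_ ?_
      · simp [hc]
      · simp [h11]
      · rw [one_smul]; exact h1
      · rw [one_smul]; exact h2
      · rw [hs]; exact h3
      · rw [hs]; exact h4
    rw [← h5, neg_neg]

theorem TWS_N0 : (0 : ℝ) < N := by exact_mod_cast (Fact.out : N.Prime).pos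

/-- an element of `Γ₀(N)` relating two high points has `c = 0` -/
theorem TWS_c {γ : SL(2, ℤ)} (hγ : γ ∈ CongruenceSubgroup.Gamma0 N) {u : ℍ}
    (h1 : 1 / (N : ℝ) < u.im) (h2 : 1 / (N : ℝ) < (γ • u).im) : γ 1 0 = 0 := by
  by_contra hc
  have hN : (0 : ℝ) < N := TWS_N0
  have hge : (N : ℤ) ≤ |γ 1 0| := Int.le_of_dvd (abs_pos.2 hc) ((dvd_abs _ _).2 (FRU_dvd hγ))
  have hgeR : (N : ℝ) ≤ |((γ 1 0 : ℤ) : ℝ)| := by
    rw [← Int.cast_abs]; exact_mod_cast hge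
  rw [GL2.RSA_im_smul] at h2
  have him : |((γ 1 0 : ℤ) : ℝ)| * u.im ≤ ‖((γ 1 0 : ℤ) * (u : ℂ) + (γ 1 1 : ℤ))‖ := by
    have h3 := Complex.abs_im_le_norm (((γ 1 0 : ℤ) : ℂ) * (u : ℂ) + ((γ 1 1 : ℤ) : ℂ))
    have h4 : (((γ 1 0 : ℤ) : ℂ) * (u : ℂ) + ((γ 1 1 : ℤ) : ℂ)).im = ((γ 1 0 : ℤ) : ℝ) * u.im := by
      simp
    rw [h4, abs_mul, abs_of_pos u.im_pos] at h3
    exact h3
  have hu := u.im_pos
  have h5 : (N : ℝ) * u.im ≤ ‖((γ 1 0 : ℤ) * (u : ℂ) + (γ 1 1 : ℤ))‖ :=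
    (mul_le_mul_of_nonneg_right hgeR hu.le).trans him
  have h6 : (1 : ℝ) < N * u.im := by
    rw [div_lt_iff₀ hN] at h1
    linarith
  have h7 : ((N : ℝ) * u.im) ^ 2 ≤ ‖((γ 1 0 : ℤ) * (u : ℂ) + (γ 1 1 : ℤ))‖ ^ 2 :=
    pow_le_pow_left₀ (by positivity) h5 2
  have h8 : 0 < ((N : ℝ) * u.im) ^ 2 := by positivity
  have h9 : u.im / ‖((γ 1 0 : ℤ) * (u : ℂ) + (γ 1 1 : ℤ))‖ ^ 2 ≤ u.im / ((N : ℝ) * u.im) ^ 2 :=
    div_le_div_of_nonneg_left hu.le h8 h7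
  have h10 : u.im / ((N : ℝ) * u.im) ^ 2 < 1 / N := by
    rw [div_lt_div_iff₀ h8 hN]
    nlinarith
  linarith

/-- at most two elements map a point to the high strip -/
theorem TWS_two {Y : ℝ} (hY : 1 / (N : ℝ) < Y) (z : ℍ) :
    ∑' γ : CongruenceSubgroup.Gamma0 N,
      (TWS_S Y).indicator (fun _ => (1 : ℝ≥0∞)) ((γ : SL(2, ℤ)) • z) ≤ 2 := by
  classical
  by_cases h : ∃ γ : CongruenceSubgroup.Gamma0 N, (γ : SL(2, ℤ)) • z ∈ TWS_S Y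
  · obtain ⟨γ₀, h0⟩ := h
    have hneg : (-(γ₀ : SL(2, ℤ))) ∈ CongruenceSubgroup.Gamma0 N := by
      have := γ₀.2
      rw [CongruenceSubgroup.Gamma0_mem] at this ⊢
      simp [this]
    set s : Finset (CongruenceSubgroup.Gamma0 N) := {γ₀, ⟨-(γ₀ : SL(2, ℤ)), hneg⟩} with hs
    rw [tsum_eq_sum (s := s)]
    · calc ∑ γ ∈ s, (TWS_S Y).indicator (fun _ => (1 : ℝ≥0∞)) ((γ : SL(2, ℤ)) • z)
          ≤ ∑ γ ∈ s, 1 := by
            refine Finset.sum_le_sum fun γ _ => ?_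
            by_cases hz : (γ : SL(2, ℤ)) • z ∈ TWS_S Y
            · rw [Set.indicator_of_mem hz]
            · rw [Set.indicator_of_notMem hz]
              exact zero_le_one
        _ = (s.card : ℝ≥0∞) := by simp
        _ ≤ 2 := by exact_mod_cast Finset.card_le_two
    · intro γ hγ
      rw [Set.indicator_of_notMem]
      intro hm
      apply hγ
      set δ : SL(2, ℤ) := (γ : SL(2, ℤ)) * (γ₀ : SL(2, ℤ))⁻¹ with hδ
      have hδm : δ ∈ CongruenceSubgroup.Gamma0 N := mul_mem γ.2 (inv_mem γ₀.2)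
      have hδz : δ • ((γ₀ : SL(2, ℤ)) • z) = (γ : SL(2, ℤ)) • z := by
        rw [hδ, mul_smul, inv_smul_smul]
      have hc : δ 1 0 = 0 := by
        refine TWS_c hδm (u := (γ₀ : SL(2, ℤ)) • z) (lt_of_lt_of_le hY h0.2.2) ?_
        rw [hδz]
        exact lt_of_lt_of_le hY hm.2.2
      have hpm := TWS_pm (γ := δ) (u := (γ₀ : SL(2, ℤ)) • z) hc h0.1 h0.2.1
        (by rw [hδz]; exact hm.1) (by rw [hδz]; exact hm.2.1)
      have hγe : (γ : SL(2, ℤ)) = δ * γ₀ := by rw [hδ]; group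
      rw [hs, Finset.mem_insert, Finset.mem_singleton]
      rcases hpm with h1 | h1
      · left
        apply Subtype.ext
        rw [hγe, h1, one_mul]
      · right
        apply Subtype.ext
        show (γ : SL(2, ℤ)) = -(γ₀ : SL(2, ℤ))
        rw [hγe, h1, neg_mul, one_mul]
  · have h0 : ∀ γ : CongruenceSubgroup.Gamma0 N,
        (TWS_S Y).indicator (fun _ => (1 : ℝ≥0∞)) ((γ : SL(2, ℤ)) • z) = 0 := by
      intro γ
      rw [Set.indicator_of_notMem]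
      intro hm
      exact h ⟨γ, hm⟩
    simp_rw [h0]
    simp

/-- no point is in both translates -/
theorem TWS_disj {Y₁ Y₂ : ℝ} (h2 : 1 / (N : ℝ) < Y₂)
    (h12 : 1 / (N : ℝ) < Y₁ * Y₂) (z : ℍ) (γ γ' : CongruenceSubgroup.Gamma0 N)
    (hm : (γ : SL(2, ℤ)) • z ∈ TWS_S Y₁) (hm' : wz N ((γ' : SL(2, ℤ)) • z) ∈ TWS_S Y₂) : False := by
  have hN : (0 : ℝ) < N := TWS_N0
  set u : ℍ := (γ : SL(2, ℤ)) • z with hu
  set δ : SL(2, ℤ) := (γ' : SL(2, ℤ)) * (γ : SL(2, ℤ))⁻¹ with hδ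
  have hδm : δ ∈ CongruenceSubgroup.Gamma0 N := mul_mem γ'.2 (inv_mem γ.2)
  have hδz : δ • u = (γ' : SL(2, ℤ)) • z := by
    rw [hδ, hu, mul_smul, inv_smul_smul]
  rw [← hδz] at hm'
  have hm1 : Y₁ ≤ u.im := hm.2.2
  have him := hm'.2.2
  clear_value u
  rw [FRU_wz_im, GL2.RSA_im_smul, GL2.RSA_coe_smul, norm_div] at him
  set A : ℝ := ‖((δ 0 0 : ℤ) * (u : ℂ) + (δ 0 1 : ℤ))‖ with hA
  set D : ℝ := ‖((δ 1 0 : ℤ) * (u : ℂ) + (δ 1 1 : ℤ))‖ with hD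
  have hD0 : 0 < D := norm_pos_iff.2 (GL2.RSA_denom_ne δ u)
  have hupos := u.im_pos
  have ha : (δ 0 0 : ℤ) ≠ 0 := by
    intro h0
    have hdet := δ.det_coe
    rw [Matrix.det_fin_two, h0, zero_mul, zero_sub] at hdet
    have hd : (N : ℤ) ∣ 1 := by
      rw [← hdet]
      exact (dvd_neg).2 (Dvd.dvd.mul_left (FRU_dvd hδm) _)
    have hN1 : (1 : ℤ) < N := by exact_mod_cast (Fact.out : N.Prime).one_lt
    have := Int.le_of_dvd one_pos hd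
    linarith
  have ha1 : (1 : ℝ) ≤ |((δ 0 0 : ℤ) : ℝ)| := by
    rw [← Int.cast_abs]
    exact_mod_cast Int.one_le_abs ha
  have hAu : u.im ≤ A := by
    have h3 := Complex.abs_im_le_norm (((δ 0 0 : ℤ) : ℂ) * (u : ℂ) + ((δ 0 1 : ℤ) : ℂ))
    have h4 : (((δ 0 0 : ℤ) : ℂ) * (u : ℂ) + ((δ 0 1 : ℤ) : ℂ)).im = ((δ 0 0 : ℤ) : ℝ) * u.im := by
      simp
    rw [h4, abs_mul, abs_of_pos hupos] at h3
    calc u.im = 1 * u.im := (one_mul _).symm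
      _ ≤ |((δ 0 0 : ℤ) : ℝ)| * u.im := mul_le_mul_of_nonneg_right ha1 hupos.le
      _ ≤ A := h3
  have hA0 : 0 < A := lt_of_lt_of_le hupos hAu
  have e1 : u.im / D ^ 2 / (N * (A / D) ^ 2) = u.im / (N * A ^ 2) := by
    field_simp
  rw [e1] at him
  have h3 : u.im / (N * A ^ 2) ≤ u.im / (N * u.im ^ 2) := by
    apply div_le_div_of_nonneg_left hupos.le (by positivity)
    exact mul_le_mul_of_nonneg_left (pow_le_pow_left₀ hupos.le hAu 2) hN.le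
  have h4 : Y₂ ≤ u.im / (N * u.im ^ 2) := him.trans h3
  have h5 : u.im / (N * u.im ^ 2) = 1 / (N * u.im) := by
    field_simp
  rw [h5, le_div_iff₀ (by positivity)] at h4
  have h6 : Y₁ ≤ u.im := hm1
  have hY2 : 0 < Y₂ := lt_trans (by positivity) h2
  rw [div_lt_iff₀ hN] at h12
  have h7 : Y₁ * Y₂ * N ≤ u.im * Y₂ * N := by
    apply mul_le_mul_of_nonneg_right _ hN.le
    exact mul_le_mul_of_nonneg_right h6 hY2.le
  nlinarith

/-- the involution as an equivalence -/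
noncomputable def TWS_equiv (N : ℕ) [Fact N.Prime] :
    CongruenceSubgroup.Gamma0 N ≃ CongruenceSubgroup.Gamma0 N where
  toFun := FRU_inv N
  invFun := FRU_inv N
  left_inv := FRU_inv_inv
  right_inv := FRU_inv_inv

/-- the weight of the two strips -/
noncomputable def TWS_F (N : ℕ) [Fact N.Prime] (Y₁ Y₂ : ℝ) (z : ℍ) : ℝ≥0∞ :=
  (TWS_S Y₁).indicator (fun _ => (1 : ℝ≥0∞)) z +
    (TWS_S Y₂).indicator (fun _ => (1 : ℝ≥0∞)) (wz N z)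

theorem TWS_F_meas (Y₁ Y₂ : ℝ) : Measurable (TWS_F N Y₁ Y₂) := by
  unfold TWS_F
  refine (measurable_const.indicator (TWS_ms Y₁)).add ?_
  exact (measurable_const.indicator (TWS_ms Y₂)).comp (FRU_mp N).measurable

theorem TWS_sum {Y₁ Y₂ : ℝ} (h1 : 1 / (N : ℝ) < Y₁) (h2 : 1 / (N : ℝ) < Y₂)
    (h12 : 1 / (N : ℝ) < Y₁ * Y₂) (z : ℍ) :
    ∑' γ : CongruenceSubgroup.Gamma0 N, TWS_F N Y₁ Y₂ ((γ : SL(2, ℤ)) • z) ≤ 2 := by
  unfold TWS_F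
  rw [ENNReal.tsum_add]
  have hB : ∑' γ : CongruenceSubgroup.Gamma0 N,
      (TWS_S Y₂).indicator (fun _ => (1 : ℝ≥0∞)) (wz N ((γ : SL(2, ℤ)) • z)) ≤ 2 := by
    have e : ∀ γ : CongruenceSubgroup.Gamma0 N,
        (TWS_S Y₂).indicator (fun _ => (1 : ℝ≥0∞)) (wz N ((γ : SL(2, ℤ)) • z)) =
        (fun γ' : CongruenceSubgroup.Gamma0 N => (TWS_S Y₂).indicator (fun _ => (1 : ℝ≥0∞))
          ((γ' : SL(2, ℤ)) • wz N z)) (TWS_equiv N γ) := by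
      intro γ
      rw [FRU_smul]
      rfl
    rw [tsum_congr e, (TWS_equiv N).tsum_eq (fun γ' : CongruenceSubgroup.Gamma0 N =>
      (TWS_S Y₂).indicator (fun _ => (1 : ℝ≥0∞)) ((γ' : SL(2, ℤ)) • wz N z))]
    exact TWS_two h2 _
  by_cases h : ∃ γ : CongruenceSubgroup.Gamma0 N, (γ : SL(2, ℤ)) • z ∈ TWS_S Y₁
  · obtain ⟨γ₀, h0⟩ := h
    have h3 : ∀ γ : CongruenceSubgroup.Gamma0 N,
        (TWS_S Y₂).indicator (fun _ => (1 : ℝ≥0∞)) (wz N ((γ : SL(2, ℤ)) • z)) = 0 := by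
      intro γ
      rw [Set.indicator_of_notMem]
      intro hm
      exact TWS_disj h2 h12 z γ₀ γ h0 hm
    simp_rw [h3]
    rw [tsum_zero, add_zero]
    exact TWS_two h1 z
  · have h0 : ∀ γ : CongruenceSubgroup.Gamma0 N,
        (TWS_S Y₁).indicator (fun _ => (1 : ℝ≥0∞)) ((γ : SL(2, ℤ)) • z) = 0 := by
      intro γ
      rw [Set.indicator_of_notMem]
      intro hm
      exact h ⟨γ, hm⟩
    simp_rw [h0]
    rw [tsum_zero, zero_add]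
    exact hB

/-- the strips at the two cusps are disjoint modulo `Γ₀(N)` -/
theorem two_strips_pr {W : S2 N →ₗ[ℂ] S2 N} (hW : IsFricke W) (g : S2 N) {Y₁ Y₂ : ℝ}
    (h1 : 1 / (N : ℝ) < Y₁) (h2 : 1 / (N : ℝ) < Y₂) (h12 : 1 / (N : ℝ) < Y₁ * Y₂) :
    (∫⁻ z in {z : ℍ | 0 ≤ z.re ∧ z.re < 1 ∧ Y₁ ≤ z.im}, ‖g z‖ₑ ^ 2 * ENNReal.ofReal (z.im ^ 2)) +
      (∫⁻ z in {z : ℍ | 0 ≤ z.re ∧ z.re < 1 ∧ Y₂ ≤ z.im}, ‖W g z‖ₑ ^ 2 * ENNReal.ofReal (z.im ^ 2)) ≤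
      ENNReal.ofReal (nr g) := by
  obtain ⟨ψ, hm, _, _, hs, hψ, _⟩ := fun_exists (N := N)
  have hhm := FRU_h_meas g
  have hFm := TWS_F_meas (N := N) Y₁ Y₂
  -- the left side
  have e1 : ∫⁻ z in {z : ℍ | 0 ≤ z.re ∧ z.re < 1 ∧ Y₁ ≤ z.im},
      ‖g z‖ₑ ^ 2 * ENNReal.ofReal (z.im ^ 2) =
      ∫⁻ z : ℍ, FRU_h g z * (TWS_S Y₁).indicator (fun _ => (1 : ℝ≥0∞)) z := by
    have : ∫⁻ z in TWS_S Y₁, FRU_h g z =
        ∫⁻ z : ℍ, FRU_h g z * (TWS_S Y₁).indicator (fun _ => (1 : ℝ≥0∞)) z := by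
      rw [← lintegral_indicator (TWS_ms Y₁)]
      apply lintegral_congr
      intro z
      by_cases hz : z ∈ TWS_S Y₁
      · rw [Set.indicator_of_mem hz, Set.indicator_of_mem hz, mul_one]
      · rw [Set.indicator_of_notMem hz, Set.indicator_of_notMem hz, mul_zero]
    exact this
  have e2 : ∫⁻ z in {z : ℍ | 0 ≤ z.re ∧ z.re < 1 ∧ Y₂ ≤ z.im},
      ‖W g z‖ₑ ^ 2 * ENNReal.ofReal (z.im ^ 2) =
      ∫⁻ z : ℍ, FRU_h g z * (TWS_S Y₂).indicator (fun _ => (1 : ℝ≥0∞)) (wz N z) := by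
    have h3 : ∫⁻ z in TWS_S Y₂, FRU_h (W g) z =
        ∫⁻ z : ℍ, FRU_h g (wz N z) * (TWS_S Y₂).indicator (fun _ => (1 : ℝ≥0∞)) z := by
      rw [← lintegral_indicator (TWS_ms Y₂)]
      apply lintegral_congr
      intro z
      by_cases hz : z ∈ TWS_S Y₂
      · rw [Set.indicator_of_mem hz, Set.indicator_of_mem hz, mul_one, FRU_hW hW]
      · rw [Set.indicator_of_notMem hz, Set.indicator_of_notMem hz, mul_zero]
    have hmm : Measurable (fun z : ℍ => FRU_h g z *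
        (TWS_S Y₂).indicator (fun _ => (1 : ℝ≥0∞)) (wz N z)) :=
      hhm.mul ((measurable_const.indicator (TWS_ms Y₂)).comp (FRU_mp N).measurable)
    have h4 := (FRU_mp N).lintegral_comp hmm
    rw [← h4]
    simp only [FRU_wz_wz]
    exact h3
  have hm1 : Measurable (fun z : ℍ => FRU_h g z * (TWS_S Y₁).indicator (fun _ => (1 : ℝ≥0∞)) z) :=
    hhm.mul (measurable_const.indicator (TWS_ms Y₁))
  rw [e1, e2, ← lintegral_add_left hm1]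
  have e3 : ∫⁻ z : ℍ, (FRU_h g z * (TWS_S Y₁).indicator (fun _ => (1 : ℝ≥0∞)) z +
      FRU_h g z * (TWS_S Y₂).indicator (fun _ => (1 : ℝ≥0∞)) (wz N z)) =
      ∫⁻ z : ℍ, ∑' γ : CongruenceSubgroup.Gamma0 N,
        FRU_h g z * TWS_F N Y₁ Y₂ z * ψ ((γ : SL(2, ℤ)) • z) := by
    apply lintegral_congr_ae
    filter_upwards [hs] with z hz
    rw [ENNReal.tsum_mul_left, hz, mul_one]
    unfold TWS_F
    rw [mul_add]
  have m1 : ∀ γ : SL(2, ℤ), Measurable (fun z : ℍ => FRU_h g z * TWS_F N Y₁ Y₂ z * ψ (γ • z)) :=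
    fun γ => (hhm.mul hFm).mul (hm.comp (FUN_ms _))
  have m2 : ∀ γ : SL(2, ℤ), Measurable (fun z : ℍ => FRU_h g z * ψ z * TWS_F N Y₁ Y₂ (γ • z)) :=
    fun γ => (hhm.mul hm).mul (hFm.comp (FUN_ms _))
  rw [e3, lintegral_tsum fun γ : CongruenceSubgroup.Gamma0 N => (m1 γ).aemeasurable]
  have e4 : ∀ γ : CongruenceSubgroup.Gamma0 N,
      ∫⁻ z : ℍ, FRU_h g z * TWS_F N Y₁ Y₂ z * ψ ((γ : SL(2, ℤ)) • z) =
      ∫⁻ z : ℍ, FRU_h g z * ψ z * TWS_F N Y₁ Y₂ ((γ : SL(2, ℤ))⁻¹ • z) := by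
    intro γ
    rw [← FUN_lint (γ : SL(2, ℤ)) (m2 _)]
    apply lintegral_congr
    intro z
    rw [FRU_h_inv g _ γ.2, inv_smul_smul]
    ring
  rw [tsum_congr e4]
  have e5 : ∑' γ : CongruenceSubgroup.Gamma0 N,
      ∫⁻ z : ℍ, FRU_h g z * ψ z * TWS_F N Y₁ Y₂ ((γ : SL(2, ℤ))⁻¹ • z) =
      ∫⁻ z : ℍ, ∑' γ : CongruenceSubgroup.Gamma0 N,
        FRU_h g z * ψ z * TWS_F N Y₁ Y₂ ((γ : SL(2, ℤ))⁻¹ • z) := by
    rw [lintegral_tsum fun γ : CongruenceSubgroup.Gamma0 N => (m2 _).aemeasurable]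
  rw [e5]
  have e6 : ∀ z : ℍ, ∑' γ : CongruenceSubgroup.Gamma0 N,
      FRU_h g z * ψ z * TWS_F N Y₁ Y₂ ((γ : SL(2, ℤ))⁻¹ • z) ≤ FRU_h g z * ψ z * 2 := by
    intro z
    rw [ENNReal.tsum_mul_left]
    gcongr
    have h5 : ∑' γ : CongruenceSubgroup.Gamma0 N, TWS_F N Y₁ Y₂ ((γ : SL(2, ℤ))⁻¹ • z) =
        ∑' γ : CongruenceSubgroup.Gamma0 N, TWS_F N Y₁ Y₂ ((γ : SL(2, ℤ)) • z) := by
      rw [← (Equiv.inv (CongruenceSubgroup.Gamma0 N)).tsum_eq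
        (fun γ : CongruenceSubgroup.Gamma0 N => TWS_F N Y₁ Y₂ ((γ : SL(2, ℤ)) • z))]
      rfl
    rw [h5]
    exact TWS_sum h1 h2 h12 z
  refine (lintegral_mono e6).trans ?_
  have hm2 : Measurable (fun z : ℍ => FRU_h g z * ψ z) := hhm.mul hm
  rw [lintegral_mul_const _ hm2, mul_comm, ← FRU_en g hψ, ← nr_en]

end

theorem two_strips : type_of% @two_strips_pr := @two_strips_pr

end Pool.Agent.LVB
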