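import Pool.Agent.Lib_helper41.LVB.Defs
import Pool.Agent.Lib_helper68.LEV.LSC
import Pool.Agent.Lib_helper41.LVBF.TWS

/-! Block CFT: coefficients at the two cusps. Cites `two_strips` (TWS). -/

namespace Pool.Agent.LVB

open Pool.Agent.LEV Complex MeasureTheory Filter Topology UpperHalfPlane ModularGroup ProbabilityTheory
open scoped MatrixGroups Modular ENNReal ModularForm ComplexConjugate ContDiff

section
variable {N : ℕ} [Fact N.Prime]

theorem CFT_term {x E : ℝ} {n : ℝ} (hn : 0 < n) {t : ℝ} (ht : t ≤ E) :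
    x ^ 2 / n ≤ 4 * Real.pi * Real.exp E * (x ^ 2 / (4 * Real.pi * n) * Real.exp (-t)) := by
  have h3 : 1 ≤ Real.exp E * Real.exp (-t) := by
    rw [← Real.exp_add]
    exact Real.one_le_exp (by linarith)
  have h6 : 0 ≤ x ^ 2 / n := by positivity
  calc x ^ 2 / n = x ^ 2 / n * 1 := (mul_one _).symm
    _ ≤ x ^ 2 / n * (Real.exp E * Real.exp (-t)) := mul_le_mul_of_nonneg_left h3 h6
    _ = 4 * Real.pi * Real.exp E * (x ^ 2 / (4 * Real.pi * n) * Real.exp (-t)) := by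
        have := Real.pi_pos.ne'
        field_simp

theorem coef_two_pr {W : S2 N →ₗ[ℂ] S2 N} (hW : IsFricke W) (g : S2 N) {ν : ℝ} (h0 : 0 < ν)
    (h1 : ν < 1) {X : ℕ} (hX1 : 1 ≤ X) (hX : (X : ℝ) ≤ ν ^ 2 * N) :
    ∑ n ∈ Finset.Icc 1 X, ‖co g n‖ ^ 2 / n + ‖co (W g) 1‖ ^ 2 ≤
      4 * Real.pi * Real.exp (8 * Real.pi * ν) * nr g := by
  have hN : (0 : ℝ) < N := by exact_mod_cast (Fact.out : N.Prime).pos
  have hpi := Real.pi_pos
  have hX1' : (1 : ℝ) ≤ X := by exact_mod_cast hX1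
  have hνN : 1 < ν * N := by nlinarith
  have hY1 : 0 < 1 / (ν * N) := by positivity
  have hY2 : 0 < 2 * ν := by positivity
  have a1 : 1 / (N : ℝ) < 1 / (ν * N) := by
    apply one_div_lt_one_div_of_lt (by positivity)
    nlinarith
  have a2 : 1 / (N : ℝ) < 2 * ν := by
    rw [div_lt_iff₀ hN]
    nlinarith
  have a3 : 1 / (N : ℝ) < 1 / (ν * N) * (2 * ν) := by
    have e : 1 / (ν * N) * (2 * ν) = 2 / N := by field_simp
    rw [e]
    exact div_lt_div_of_pos_right (by norm_num) hN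
  have hm := two_strips hW g a1 a2 a3
  obtain ⟨s1, e1⟩ := strip_sum g hY1
  obtain ⟨s2, e2⟩ := strip_sum (W g) hY2
  have n1 : 0 ≤ ∑' n : ℕ, ‖co g n‖ ^ 2 / (4 * Real.pi * n) *
      Real.exp (-4 * Real.pi * n * (1 / (ν * N))) := tsum_nonneg fun n => by positivity
  have n2 : 0 ≤ ∑' n : ℕ, ‖co (W g) n‖ ^ 2 / (4 * Real.pi * n) *
      Real.exp (-4 * Real.pi * n * (2 * ν)) := tsum_nonneg fun n => by positivity
  rw [e1, e2, ← ENNReal.ofReal_add n1 n2, ENNReal.ofReal_le_ofReal_iff (LSC_nr_nonneg g)] at hm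
  have f1 := s1.sum_le_tsum (Finset.Icc 1 X) (fun n _ => by positivity)
  have f2 := s2.sum_le_tsum {1} (fun n _ => by positivity)
  rw [Finset.sum_singleton] at f2
  have t1 : ∑ n ∈ Finset.Icc 1 X, ‖co g n‖ ^ 2 / n ≤ 4 * Real.pi * Real.exp (8 * Real.pi * ν) *
      ∑ n ∈ Finset.Icc 1 X, ‖co g n‖ ^ 2 / (4 * Real.pi * n) *
        Real.exp (-4 * Real.pi * n * (1 / (ν * N))) := by
    rw [Finset.mul_sum]
    refine Finset.sum_le_sum fun n hn => ?_
    obtain ⟨b1, b2⟩ := Finset.mem_Icc.mp hn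
    have hn0 : (0 : ℝ) < n := by exact_mod_cast b1
    have hnX : (n : ℝ) ≤ ν ^ 2 * N := le_trans (by exact_mod_cast b2) hX
    have e : -4 * Real.pi * n * (1 / (ν * N)) = -(4 * Real.pi * (n / (ν * N))) := by ring
    rw [e]
    refine CFT_term hn0 ?_
    have b3 : (n : ℝ) / (ν * N) ≤ ν := by
      rw [div_le_iff₀ (by positivity)]
      linarith [show ν * (ν * N) = ν ^ 2 * N by ring]
    nlinarith
  have t2 : ‖co (W g) 1‖ ^ 2 ≤ 4 * Real.pi * Real.exp (8 * Real.pi * ν) *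
      (‖co (W g) 1‖ ^ 2 / (4 * Real.pi * (1 : ℕ)) * Real.exp (-4 * Real.pi * (1 : ℕ) * (2 * ν))) := by
    have e : -4 * Real.pi * ((1 : ℕ) : ℝ) * (2 * ν) = -(8 * Real.pi * ν) := by
      push_cast; ring
    rw [e]
    have := CFT_term (x := ‖co (W g) 1‖) (E := 8 * Real.pi * ν) (n := ((1 : ℕ) : ℝ)) (by norm_num)
      (le_refl (8 * Real.pi * ν))
    refine le_trans (le_of_eq ?_) this
    rw [Nat.cast_one, div_one]
  have hc : 0 ≤ 4 * Real.pi * Real.exp (8 * Real.pi * ν) := by positivity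
  calc ∑ n ∈ Finset.Icc 1 X, ‖co g n‖ ^ 2 / n + ‖co (W g) 1‖ ^ 2
      ≤ 4 * Real.pi * Real.exp (8 * Real.pi * ν) *
      (∑ n ∈ Finset.Icc 1 X, ‖co g n‖ ^ 2 / (4 * Real.pi * n) *
        Real.exp (-4 * Real.pi * n * (1 / (ν * N))) + ‖co (W g) 1‖ ^ 2 / (4 * Real.pi * (1 : ℕ)) *
        Real.exp (-4 * Real.pi * (1 : ℕ) * (2 * ν))) := by
        rw [mul_add]
        exact add_le_add t1 t2
    _ ≤ 4 * Real.pi * Real.exp (8 * Real.pi * ν) * nr g :=
        mul_le_mul_of_nonneg_left ((add_le_add f1 f2).trans hm) hc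

end

theorem coef_two : type_of% @coef_two_pr := @coef_two_pr

end Pool.Agent.LVB
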