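import Pool.Agent.Lib_helper41.LVB.Defs
import Pool.Agent.Lib_helper68.LEV.LSD
import Pool.Agent.Lib_helper68.LEV.EIA
import Pool.Agent.Lib_helper41.LVBF.CFT

namespace Pool.Agent.LVB

open Pool.Agent.LEV Complex MeasureTheory Filter Topology UpperHalfPlane ModularGroup ProbabilityTheory
open scoped MatrixGroups Modular ENNReal ModularForm ComplexConjugate ContDiff

section
variable {N : ℕ} [Fact N.Prime]

theorem LSS_co {f : S2 N} (hf : IsNew f) (n : ℕ) (hn : 1 ≤ n) :
    co f n / (Real.sqrt n : ℂ) = (la f n : ℂ) := by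
  have h1 : co f n = ((co f n).re : ℂ) := by
    apply Complex.ext
    · simp
    · simp [new_real hf n]
  unfold la
  rw [h1]
  push_cast
  simp

theorem LSS_se {f : S2 N} (hf : IsNew f) : co f N = (se f : ℂ) := by
  apply Complex.ext
  · simp [se]
  · simp [new_real hf N]

/-- the sharp large sieve inequality -/
theorem ls_sharp_pr {ι : Type} [Fintype ι] (f : ι → S2 N) (hi : Function.Injective f)
    (hn : ∀ i, IsNew (f i)) {ν : ℝ} (h0 : 0 < ν) (h1 : ν < 1) {X : ℕ} (hX1 : 1 ≤ X)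
    (hX : (X : ℝ) ≤ ν ^ 2 * N) (b : ℕ → ℝ) (c : ℝ) :
    ∑ i, om (f i) * (∑ n ∈ Finset.Icc 1 X, b n * la (f i) n + c * se (f i)) ^ 2 ≤
      Real.exp (8 * Real.pi * ν) * (∑ n ∈ Finset.Icc 1 X, b n ^ 2 + c ^ 2) := by
  have hpi := Real.pi_pos
  have hnr : ∀ i, 0 < nr (f i) := fun i => nr_pos (new_ne_zero (hn i))
  have ho : ∀ i j, i ≠ j → pet (f i) (f j) = 0 := fun i j hij =>
    new_orth (hn i) (hn j) (fun h => hij (hi h))
  obtain ⟨W, hW⟩ := fricke_exists (N := N)
  set v : ι → ℝ := fun i => ∑ n ∈ Finset.Icc 1 X, b n * la (f i) n + c * se (f i) with hv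
  set S : ℝ := ∑ i, om (f i) * v i ^ 2 with hS
  have hom : ∀ i, 0 < om (f i) := fun i => by
    have := hnr i
    unfold om
    positivity
  have hS0 : 0 ≤ S := Finset.sum_nonneg (fun i _ => mul_nonneg (hom i).le (sq_nonneg _))
  set d : ι → ℂ := fun i => ((om (f i) * v i : ℝ) : ℂ) with hd
  set F : S2 N := ∑ i, d i • f i with hF
  have hnF : nr F = S / (4 * Real.pi) := by
    rw [hF, LSD_nr_sum f ho d, hS, Finset.sum_div]
    apply Finset.sum_congr rfl
    intro i _
    simp only [hd]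
    rw [Complex.norm_real, Real.norm_eq_abs, sq_abs]
    unfold om
    have := (hnr i).ne'
    field_simp
  have hcoF : ∀ n, 1 ≤ n → co F n / (Real.sqrt n : ℂ) =
      ((∑ i, om (f i) * v i * la (f i) n : ℝ) : ℂ) := by
    intro n hn1
    have e1 : co F n = ∑ i, d i * co (f i) n := by
      rw [hF, LSD_co_sum]
      exact Finset.sum_congr rfl (fun i _ => co_smul _ _ _)
    rw [e1, Finset.sum_div]
    push_cast
    apply Finset.sum_congr rfl
    intro i _
    rw [mul_div_assoc, LSS_co (hn i) n hn1]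
    simp only [hd]
    push_cast
    ring
  have hWF : co (W F) 1 = ((-∑ i, om (f i) * v i * se (f i) : ℝ) : ℂ) := by
    have e1 : W F = ∑ i, d i • W (f i) := by
      rw [hF, map_sum]
      exact Finset.sum_congr rfl (fun i _ => map_smul _ _ _)
    rw [e1, LSD_co_sum]
    push_cast
    rw [← Finset.sum_neg_distrib]
    apply Finset.sum_congr rfl
    intro i _
    rw [co_smul, (new_fricke (hn i) hW).1, co_smul, (hn i).one, LSS_se (hn i)]
    simp only [hd]
    push_cast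
    ring
  -- `S` as a bilinear form
  have hSF : S = ∑ n ∈ Finset.Icc 1 X, b n * (∑ i, om (f i) * v i * la (f i) n) +
      c * (∑ i, om (f i) * v i * se (f i)) := by
    have e1 : S = ∑ i, (∑ n ∈ Finset.Icc 1 X, b n * (om (f i) * v i * la (f i) n) +
        c * (om (f i) * v i * se (f i))) := by
      rw [hS]
      apply Finset.sum_congr rfl
      intro i _
      have e2 : om (f i) * v i ^ 2 = om (f i) * v i * v i := by ring
      rw [e2]
      conv_lhs => rw [hv]
      simp only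
      rw [mul_add, Finset.mul_sum]
      congr 1
      · apply Finset.sum_congr rfl
        intro n _
        ring
      · ring
    rw [e1, Finset.sum_add_distrib, Finset.sum_comm, Finset.mul_sum]
    congr 1
    apply Finset.sum_congr rfl
    intro n _
    rw [Finset.mul_sum]
  have hco2 := coef_two hW F h0 h1 hX1 hX
  rw [hnF] at hco2
  have e3 : ∑ n ∈ Finset.Icc 1 X, ‖co F n‖ ^ 2 / n =
      ∑ n ∈ Finset.Icc 1 X, (∑ i, om (f i) * v i * la (f i) n) ^ 2 := by
    apply Finset.sum_congr rfl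
    intro n hn'
    have hn1 := (Finset.mem_Icc.mp hn').1
    have h2 := congrArg (fun z : ℂ => ‖z‖ ^ 2) (hcoF n hn1)
    simp only [norm_div, Complex.norm_real, Real.norm_eq_abs, div_pow, sq_abs] at h2
    rw [Real.sq_sqrt (Nat.cast_nonneg n)] at h2
    exact h2
  have e4 : ‖co (W F) 1‖ ^ 2 = (∑ i, om (f i) * v i * se (f i)) ^ 2 := by
    rw [hWF, Complex.norm_real, Real.norm_eq_abs, sq_abs, neg_sq]
  rw [e3, e4] at hco2
  have e5 : 4 * Real.pi * Real.exp (8 * Real.pi * ν) * (S / (4 * Real.pi)) =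
      Real.exp (8 * Real.pi * ν) * S := by field_simp
  rw [e5] at hco2
  -- Cauchy-Schwarz
  set p : ℕ → ℝ := fun n => ∑ i, om (f i) * v i * la (f i) n with hp
  set q : ℝ := ∑ i, om (f i) * v i * se (f i) with hq
  have hCS1 : (∑ n ∈ Finset.Icc 1 X, b n * p n) ^ 2 ≤
      (∑ n ∈ Finset.Icc 1 X, b n ^ 2) * ∑ n ∈ Finset.Icc 1 X, p n ^ 2 :=
    Finset.sum_mul_sq_le_sq_mul_sq _ _ _
  have hB0 : 0 ≤ ∑ n ∈ Finset.Icc 1 X, b n ^ 2 := Finset.sum_nonneg fun _ _ => sq_nonneg _
  have hP0 : 0 ≤ ∑ n ∈ Finset.Icc 1 X, p n ^ 2 := Finset.sum_nonneg fun _ _ => sq_nonneg _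
  have hCS : S ^ 2 ≤ (∑ n ∈ Finset.Icc 1 X, b n ^ 2 + c ^ 2) *
      (Real.exp (8 * Real.pi * ν) * S) := by
    refine le_trans ?_ (mul_le_mul_of_nonneg_left hco2 (by positivity))
    rw [hSF]
    generalize (∑ n ∈ Finset.Icc 1 X, b n * p n) = u at hCS1
    generalize (∑ n ∈ Finset.Icc 1 X, b n ^ 2) = B at hCS1 hB0
    generalize (∑ n ∈ Finset.Icc 1 X, p n ^ 2) = Q at hCS1 hP0
    -- `(u + c q)^2 ≤ (B + c^2)(Q + q^2)`
    have h3 : 2 * u * (c * q) ≤ B * q ^ 2 + c ^ 2 * Q := by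
      have h4 : (u * (c * q)) ^ 2 ≤ (B * q ^ 2) * (c ^ 2 * Q) := by nlinarith [sq_nonneg (c * q)]
      have h5 : 0 ≤ B * q ^ 2 := by positivity
      have h6 : 0 ≤ c ^ 2 * Q := by positivity
      have h7 : (2 * u * (c * q)) ^ 2 ≤ (B * q ^ 2 + c ^ 2 * Q) ^ 2 := by
        nlinarith [sq_nonneg (B * q ^ 2 - c ^ 2 * Q)]
      exact (le_abs_self _).trans (abs_le_of_sq_le_sq h7 (by positivity))
    nlinarith
  exact LSD_dual hS0 (Real.exp_pos _).le (by positivity) hCS

end

theorem ls_sharp : type_of% @ls_sharp_pr := @ls_sharp_pr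

end Pool.Agent.LVB
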