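import Pool.Agent.Lib_helper41.LVB.Defs
import Pool.Agent.Lib_helper68.LEV.MRT

/-! block ROU: the number of rough integers -/

namespace Pool.Agent.LVB

open Pool.Agent.LEV Complex MeasureTheory Filter Topology UpperHalfPlane ModularGroup ProbabilityTheory
open scoped MatrixGroups Modular ENNReal ModularForm ComplexConjugate ContDiff

/-- the product of the primes up to `z` -/
def ROU_P (z : ℕ) : ℕ := ∏ p ∈ (Finset.Icc 1 z).filter Nat.Prime, p

theorem ROU_P_pos (z : ℕ) : 0 < ROU_P z := by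
  unfold ROU_P
  exact Finset.prod_pos fun p hp => (Finset.mem_filter.1 hp).2.pos

theorem ROU_primeFactors (z : ℕ) : (ROU_P z).primeFactors = (Finset.Icc 1 z).filter Nat.Prime := by
  unfold ROU_P
  exact Nat.primeFactors_prod fun p hp => (Finset.mem_filter.1 hp).2

theorem ROU_rough (z m : ℕ) (h : Nat.Coprime (ROU_P z) m) : rough z m := by
  intro p hp hpm
  by_contra hz
  have h1 : p ∣ ROU_P z := by
    have : p ∈ (ROU_P z).primeFactors := by
      rw [ROU_primeFactors, Finset.mem_filter, Finset.mem_Icc]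
      exact ⟨⟨hp.one_lt.le, by omega⟩, hp⟩
    exact Nat.dvd_of_mem_primeFactors this
  have h2 := Nat.dvd_gcd h1 hpm
  rw [h] at h2
  exact hp.one_lt.ne' (Nat.dvd_one.1 h2)

/-- the number of integers coprime to `P` in `k` blocks -/
theorem ROU_blocks (P k : ℕ) :
    ((Finset.Ico 1 (1 + k * P)).filter (fun m => Nat.Coprime P m)).card = k * Nat.totient P := by
  induction k with
  | zero => simp
  | succ k ih =>
    have e : Finset.Ico 1 (1 + (k + 1) * P) =
        Finset.Ico 1 (1 + k * P) ∪ Finset.Ico (1 + k * P) (1 + k * P + P) := by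
      rw [Finset.Ico_union_Ico_eq_Ico (by omega) (by omega)]
      congr 1
      ring
    rw [e, Finset.filter_union, Finset.card_union_of_disjoint, ih, Nat.filter_coprime_Ico_eq_totient]
    · ring
    · apply Finset.disjoint_filter_filter
      exact Finset.Ico_disjoint_Ico_consecutive _ _ _

/-- telescoping -/
theorem ROU_tele (z : ℕ) (hz : 1 ≤ z) :
    ∑ n ∈ Finset.Icc 2 z, 1 / ((n : ℝ) * (n - 1)) = 1 - 1 / z := by
  induction z, hz using Nat.le_induction with
  | base => simp
  | succ z hz ih =>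
    rw [← Finset.insert_Icc_right_eq_Icc_add_one (by omega), Finset.sum_insert (by simp), ih]
    have h0 : (z : ℝ) ≠ 0 := by
      have : (0 : ℝ) < z := by exact_mod_cast hz
      exact this.ne'
    have h1 : (z : ℝ) + 1 ≠ 0 := by
      have : (0 : ℝ) < z := by exact_mod_cast hz
      linarith
    push_cast
    rw [show (z : ℝ) + 1 - 1 = z by ring]
    field_simp
    ring

theorem ROU_prod {C : ℝ} (hC : ∀ x : ℝ, 2 ≤ x →
    |∑ p ∈ (Finset.Icc 1 ⌊x⌋₊).filter Nat.Prime, 1 / (p : ℝ) - Real.log (Real.log x)| ≤ C)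
    (z : ℕ) (hz : 2 ≤ z) :
    Real.exp (-(C + 1)) / Real.log z ≤ (Nat.totient (ROU_P z) : ℝ) / ROU_P z := by
  have hz2 : (2 : ℝ) ≤ z := by exact_mod_cast hz
  have hlog : 0 < Real.log z := Real.log_pos (by linarith)
  have hP : (0 : ℝ) < ROU_P z := by exact_mod_cast ROU_P_pos z
  have h1 : (Nat.totient (ROU_P z) : ℝ) / ROU_P z =
      ∏ p ∈ (Finset.Icc 1 z).filter Nat.Prime, (1 - (p : ℝ)⁻¹) := by
    have h := congrArg (fun x : ℚ => (x : ℝ)) (Nat.totient_eq_mul_prod_factors (ROU_P z))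
    push_cast at h
    rw [h, ROU_primeFactors, mul_comm, mul_div_assoc, div_self hP.ne', mul_one]
  have h2 : ∏ p ∈ (Finset.Icc 1 z).filter Nat.Prime, (1 + 1 / ((p : ℝ) - 1)) ≤
      Real.exp (C + 1) * Real.log z := by
    calc ∏ p ∈ (Finset.Icc 1 z).filter Nat.Prime, (1 + 1 / ((p : ℝ) - 1))
        ≤ ∏ p ∈ (Finset.Icc 1 z).filter Nat.Prime,
            Real.exp (1 / (p : ℝ) + 1 / ((p : ℝ) * (p - 1))) := by
          refine Finset.prod_le_prod ?_ ?_
          · intro p hp
            have hp2 : (2 : ℝ) ≤ p := by exact_mod_cast (Finset.mem_filter.1 hp).2.two_le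
            have : 0 < (p : ℝ) - 1 := by linarith
            positivity
          · intro p hp
            have hp2 : (2 : ℝ) ≤ p := by exact_mod_cast (Finset.mem_filter.1 hp).2.two_le
            have h3 : (p : ℝ) - 1 ≠ 0 := by linarith
            have h4 : (p : ℝ) ≠ 0 := by linarith
            have h5 : 1 / (p : ℝ) + 1 / ((p : ℝ) * (p - 1)) = 1 / ((p : ℝ) - 1) := by
              field_simp
              ring
            rw [h5, add_comm]
            exact Real.add_one_le_exp _
      _ = Real.exp (∑ p ∈ (Finset.Icc 1 z).filter Nat.Prime, 1 / (p : ℝ) +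
            ∑ p ∈ (Finset.Icc 1 z).filter Nat.Prime, 1 / ((p : ℝ) * (p - 1))) := by
          rw [← Finset.sum_add_distrib, Real.exp_sum]
      _ ≤ Real.exp ((Real.log (Real.log z) + C) + 1) := by
          apply Real.exp_le_exp.2
          have h6 := (abs_le.1 (hC z hz2)).2
          rw [Nat.floor_natCast] at h6
          have h7 : ∑ p ∈ (Finset.Icc 1 z).filter Nat.Prime, 1 / ((p : ℝ) * (p - 1)) ≤
              ∑ n ∈ Finset.Icc 2 z, 1 / ((n : ℝ) * (n - 1)) := by
            refine Finset.sum_le_sum_of_subset_of_nonneg ?_ ?_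
            · intro p hp
              rw [Finset.mem_filter, Finset.mem_Icc] at hp
              rw [Finset.mem_Icc]
              exact ⟨hp.2.two_le, hp.1.2⟩
            · intro n hn _
              rw [Finset.mem_Icc] at hn
              have : (2 : ℝ) ≤ n := by exact_mod_cast hn.1
              have : 0 < (n : ℝ) - 1 := by linarith
              positivity
          rw [ROU_tele z (by omega)] at h7
          have h8 : (0 : ℝ) ≤ 1 / z := by positivity
          linarith
      _ = Real.exp (C + 1) * Real.log z := by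
          rw [show Real.log (Real.log z) + C + 1 = (C + 1) + Real.log (Real.log z) by ring,
            Real.exp_add, Real.exp_log hlog]
  have h3 : (∏ p ∈ (Finset.Icc 1 z).filter Nat.Prime, (1 + 1 / ((p : ℝ) - 1))) *
      ∏ p ∈ (Finset.Icc 1 z).filter Nat.Prime, (1 - (p : ℝ)⁻¹) = 1 := by
    rw [← Finset.prod_mul_distrib]
    refine Finset.prod_eq_one fun p hp => ?_
    have hp2 : (2 : ℝ) ≤ p := by exact_mod_cast (Finset.mem_filter.1 hp).2.two_le
    have h5 : (p : ℝ) - 1 ≠ 0 := by linarith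
    have h6 : (p : ℝ) ≠ 0 := by linarith
    field_simp
    ring
  have h4 : 0 < ∏ p ∈ (Finset.Icc 1 z).filter Nat.Prime, (1 - (p : ℝ)⁻¹) := by
    refine Finset.prod_pos fun p hp => ?_
    have hp2 : (2 : ℝ) ≤ p := by exact_mod_cast (Finset.mem_filter.1 hp).2.two_le
    rw [sub_pos]
    exact inv_lt_one_of_one_lt₀ (by linarith)
  rw [h1, div_le_iff₀ hlog, Real.exp_neg]
  have h5 : 1 ≤ Real.exp (C + 1) * Real.log z *
      ∏ p ∈ (Finset.Icc 1 z).filter Nat.Prime, (1 - (p : ℝ)⁻¹) := by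
    exact h3.symm.le.trans (mul_le_mul_of_nonneg_right h2 h4.le)
  rw [inv_le_iff_one_le_mul₀ (Real.exp_pos _)]
  linarith

open Classical in
theorem rough_count_pr : ∃ c : ℝ, 0 < c ∧ ∀ z : ℕ, 2 ≤ z → ∃ T₀ : ℕ, ∀ t : ℕ, T₀ ≤ t →
    c * t / Real.log z ≤ (((Finset.Icc 1 t).filter (fun m => rough z m)).card : ℝ) := by
  obtain ⟨C, hC⟩ := mertens_two
  refine ⟨Real.exp (-(C + 1)) / 2, by positivity, ?_⟩
  intro z hz
  refine ⟨2 * ROU_P z, ?_⟩
  intro t ht
  have hP : 0 < ROU_P z := ROU_P_pos z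
  have hPr : (0 : ℝ) < ROU_P z := by exact_mod_cast hP
  have hφ : (0 : ℝ) ≤ Nat.totient (ROU_P z) := Nat.cast_nonneg _
  have h1 := ROU_prod hC z hz
  have h2 : ((t / ROU_P z) * Nat.totient (ROU_P z) : ℕ) ≤
      ((Finset.Icc 1 t).filter (fun m => rough z m)).card := by
    rw [← ROU_blocks]
    apply Finset.card_le_card
    intro m hm
    rw [Finset.mem_filter, Finset.mem_Ico] at hm
    rw [Finset.mem_filter, Finset.mem_Icc]
    have := Nat.div_mul_le_self t (ROU_P z)
    exact ⟨⟨hm.1.1, by omega⟩, ROU_rough z m hm.2⟩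
  have h3 : (t : ℝ) / (2 * ROU_P z) ≤ ((t / ROU_P z : ℕ) : ℝ) := by
    have h4 : (t : ℝ) / ROU_P z - 1 ≤ ((t / ROU_P z : ℕ) : ℝ) := by
      have h5 := Nat.lt_mul_of_div_lt (Nat.lt_succ_self (t / ROU_P z)) hP
      have h6 : (t : ℝ) < ((Nat.succ (t / ROU_P z) * ROU_P z : ℕ) : ℝ) := by exact_mod_cast h5
      push_cast at h6
      rw [sub_le_iff_le_add, div_le_iff₀ hPr]
      exact h6.le
    have h7 : (1 : ℝ) ≤ t / (2 * ROU_P z) := by
      rw [one_le_div (by positivity)]
      exact_mod_cast ht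
    have h8 : (t : ℝ) / ROU_P z = 2 * (t / (2 * ROU_P z)) := by
      field_simp
    linarith
  have h4 : (((t / ROU_P z) * Nat.totient (ROU_P z) : ℕ) : ℝ) ≤
      (((Finset.Icc 1 t).filter (fun m => rough z m)).card : ℝ) := by exact_mod_cast h2
  refine le_trans ?_ h4
  have ht0 : (0 : ℝ) ≤ t := Nat.cast_nonneg _
  calc Real.exp (-(C + 1)) / 2 * t / Real.log z
      = t / 2 * (Real.exp (-(C + 1)) / Real.log z) := by ring
    _ ≤ t / 2 * ((Nat.totient (ROU_P z) : ℝ) / ROU_P z) :=
        mul_le_mul_of_nonneg_left h1 (by positivity)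
    _ = t / (2 * ROU_P z) * Nat.totient (ROU_P z) := by
        field_simp
    _ ≤ ((t / ROU_P z : ℕ) : ℝ) * Nat.totient (ROU_P z) := mul_le_mul_of_nonneg_right h3 hφ
    _ = (((t / ROU_P z) * Nat.totient (ROU_P z) : ℕ) : ℝ) := by push_cast; rfl

theorem rough_count : type_of% @rough_count_pr := @rough_count_pr

end Pool.Agent.LVB
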