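import Pool.Agent.Lib_helper41.LVB.Defs
import Pool.Agent.Lib_helper68.LEV.KGB

/-! LVB block KAL: the kernel of all newforms at good points -/

set_option autoImplicit false

namespace Pool.Agent.LVB

open Pool.Agent.LEV Complex MeasureTheory Filter Topology UpperHalfPlane ModularGroup ProbabilityTheory
open scoped MatrixGroups Modular ENNReal ModularForm ComplexConjugate ContDiff

section
variable {N : ℕ} [Fact N.Prime]

/-- the linear functional -/
noncomputable def KAL_l (q : PX N) (w : ℍ) : S2 N →ₗ[ℂ] ℂ where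
  toFun g := fam g q w * (w.im : ℂ)
  map_add' g g' := by
    rw [KGB_fam_add]
    ring
  map_smul' a g := by
    rw [RingHom.id_apply, smul_eq_mul, KGB_fam_smul]
    ring

theorem KAL_norm (q : PX N) (w : ℍ) (g : S2 N) :
    ‖KAL_l q w g‖ ^ 2 = ‖fam g q w‖ ^ 2 * w.im ^ 2 := by
  change ‖fam g q w * (w.im : ℂ)‖ ^ 2 = _
  rw [norm_mul, mul_pow, Complex.norm_real, Real.norm_eq_abs, sq_abs]

theorem KAL_PMat : PMat 1 = {(1, 0, 1)} := by
  decide

theorem KAL_pm (q : PX N) : pm (1, 0, 1) q = q := by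
  cases q with
  | none => rfl
  | some x =>
    change some ((((1 : ℕ) : ZMod N) * x + ((0 : ℕ) : ZMod N)) / ((1 : ℕ) : ZMod N)) = some x
    rw [Nat.cast_one, Nat.cast_zero, one_mul, add_zero, div_one]

theorem KAL_hz (w : ℍ) : hz (1, 0, 1) w = w := by
  unfold hz
  simp

/-- one sign -/
theorem KAL_half {ι : Type} [Fintype ι] (f : ι → S2 N) (hi : Function.Injective f)
    (hn : ∀ i, IsNew (f i)) {e : ℂ} (he : e = 1 ∨ e = -1) (h1 : ∀ i, co (f i) N = e) (q : PX N)
    (w : ℍ) {ρ : ℝ} (hρ0 : 0 < ρ) (hρ1 : ρ < 1) (hgood : Good 1 ρ q w) :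
    ∑ i, ‖fam (f i) q w‖ ^ 2 * w.im ^ 2 / nr (f i) ≤ 1 / (8 * Real.pi * ρ ^ 2) := by
  obtain ⟨W, hW⟩ := fricke_exists (N := N)
  have hB : (0 : ℝ) ≤ 1 / (8 * Real.pi * ρ ^ 2) := by positivity
  have key := kern_gen f (fun i => new_ne_zero (hn i))
    (fun i j hij => new_orth (hn i) (hn j) (fun h => hij (hi h))) (KAL_l q w) hB ?_
  · refine le_trans (le_of_eq ?_) key
    refine Finset.sum_congr rfl fun i _ => ?_
    rw [KAL_norm]
  · intro g hg
    have hWg : W g = (-e) • g := by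
      refine Submodule.span_induction (p := fun g _ => W g = (-e) • g) ?_ ?_ ?_ ?_ hg
      · rintro _ ⟨i, rfl⟩
        have h2 := (new_fricke (hn i) hW).1
        rw [h1 i] at h2
        exact h2
      · rw [map_zero, smul_zero]
      · intro a b _ _ ha hb
        rw [map_add, ha, hb, smul_add]
      · intro a b _ hb
        rw [map_smul, hb, smul_comm]
    have hWg' : W g = g ∨ W g = -g := by
      rcases he with he | he
      · right
        rw [hWg, he, _root_.neg_smul, one_smul]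
      · left
        rw [hWg, he, neg_neg, one_smul]
    have hN : 1 < N := (Fact.out : N.Prime).one_lt
    have h2 := good_discs hW g hWg' w q hρ0 hρ1 hN hgood
    rw [Finset.Icc_self, Finset.sum_singleton, KAL_PMat, Finset.sum_singleton, KAL_pm, KAL_hz] at h2
    rw [KAL_norm]
    have h4 : 1 / (4 * Real.pi * ρ ^ 2) * nr g = 2 * (1 / (8 * Real.pi * ρ ^ 2) * nr g) := by
      have : Real.pi ≠ 0 := Real.pi_ne_zero
      have : ρ ≠ 0 := hρ0.ne'
      field_simp
      ring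
    rw [h4] at h2
    linarith

/-! block KAL -/

/-- the kernel of all newforms at good points -/
theorem kern_all_pr {ι : Type} [Fintype ι] (f : ι → S2 N) (hi : Function.Injective f)
    (hn : ∀ i, IsNew (f i)) (q : PX N) (w : ℍ) {ρ : ℝ} (hρ0 : 0 < ρ) (hρ1 : ρ < 1)
    (hgood : Good 1 ρ q w) :
    ∑ i, ‖fam (f i) q w‖ ^ 2 * w.im ^ 2 / nr (f i) ≤ 1 / (4 * Real.pi * ρ ^ 2) := by
  classical
  obtain ⟨W, hW⟩ := fricke_exists (N := N)
  have hs : ∀ i, co (f i) N = 1 ∨ co (f i) N = -1 := fun i => (new_fricke (hn i) hW).2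
  have hA := KAL_half (fun i : {i : ι // co (f i) N = 1} => f i.1)
    (fun i j h => Subtype.ext (hi h)) (fun i => hn i.1) (Or.inl rfl) (fun i => i.2) q w hρ0 hρ1 hgood
  have hB := KAL_half (fun i : {i : ι // ¬ co (f i) N = 1} => f i.1)
    (fun i j h => Subtype.ext (hi h)) (fun i => hn i.1) (Or.inr rfl)
    (fun i => (hs i.1).resolve_left i.2) q w hρ0 hρ1 hgood
  have hsum : ∑ i, ‖fam (f i) q w‖ ^ 2 * w.im ^ 2 / nr (f i) =
      ∑ i : {i : ι // co (f i) N = 1}, ‖fam (f i.1) q w‖ ^ 2 * w.im ^ 2 / nr (f i.1) +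
      ∑ i : {i : ι // ¬ co (f i) N = 1}, ‖fam (f i.1) q w‖ ^ 2 * w.im ^ 2 / nr (f i.1) :=
    (Fintype.sum_subtype_add_sum_subtype (fun i => co (f i) N = 1)
      (fun i => ‖fam (f i) q w‖ ^ 2 * w.im ^ 2 / nr (f i))).symm
  have h4 : 1 / (4 * Real.pi * ρ ^ 2) = 1 / (8 * Real.pi * ρ ^ 2) + 1 / (8 * Real.pi * ρ ^ 2) := by
    have : Real.pi ≠ 0 := Real.pi_ne_zero
    have : ρ ≠ 0 := hρ0.ne'
    field_simp
    ring
  rw [hsum, h4]
  exact add_le_add hA hB

end

theorem kern_all : type_of% @kern_all_pr := @kern_all_pr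

end Pool.Agent.LVB
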