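import Pool.Agent.Lib_helper41.LVB.Defs
import Pool.Agent.Lib_helper68.LEV.FUN
import Pool.Agent.Lib_helper68.LEV.LSC

/-! Block USR: a set in the strip, unfolded to the fundamental domain. -/

namespace Pool.Agent.LVB

open Pool.Agent.LEV Complex MeasureTheory Filter Topology UpperHalfPlane ModularGroup ProbabilityTheory
open scoped MatrixGroups Modular ENNReal ModularForm ComplexConjugate ContDiff

section
variable {N : ℕ} [Fact N.Prime]

theorem USR_ne_neg (g : SL(2, ℤ)) : g ≠ -g := by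
  intro h
  have h1 : (g : Matrix (Fin 2) (Fin 2) ℤ) = -(g : Matrix (Fin 2) (Fin 2) ℤ) := by
    have := congrArg (fun x : SL(2, ℤ) => (x : Matrix (Fin 2) (Fin 2) ℤ)) h
    simpa using this
  have h2 : ∀ i j, (g : Matrix (Fin 2) (Fin 2) ℤ) i j = 0 := by
    intro i j
    have := congrFun (congrFun h1 i) j
    simp only [Matrix.neg_apply] at this
    omega
  have h3 := g.det_coe
  rw [Matrix.det_fin_two, h2 0 0, h2 0 1] at h3
  simp at h3

omit [Fact N.Prime] in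
/-- the height argument -/
theorem USR_im {h : SL(2, ℤ)} {N : ℕ} (hN : 0 < N) (hd : (N : ℤ) ∣ h 1 0) (hc : h 1 0 ≠ 0) {u : ℍ}
    (hu : 1 / (N : ℝ) < u.im) : (h • u).im < 1 / (N : ℝ) := by
  have hN' : (0 : ℝ) < N := by exact_mod_cast hN
  have h1 : (N : ℝ) ≤ |((h 1 0 : ℤ) : ℝ)| := by
    have := Int.le_of_dvd (abs_pos.mpr hc) ((dvd_abs _ _).mpr hd)
    exact_mod_cast this
  rw [Pool.Agent.GL2.RSA_im_smul]
  have h2 : ((h 1 0 : ℤ) : ℝ) * u.im = (((h 1 0 : ℤ) * (u : ℂ) + (h 1 1 : ℤ)) : ℂ).im := by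
    simp
  have h3 : |((h 1 0 : ℤ) : ℝ) * u.im| ≤ ‖(((h 1 0 : ℤ) * (u : ℂ) + (h 1 1 : ℤ)) : ℂ)‖ := by
    rw [h2]; exact Complex.abs_im_le_norm _
  rw [abs_mul, abs_of_pos u.im_pos] at h3
  have h4 : (N : ℝ) * u.im ≤ ‖(((h 1 0 : ℤ) * (u : ℂ) + (h 1 1 : ℤ)) : ℂ)‖ :=
    (mul_le_mul_of_nonneg_right h1 u.im_pos.le).trans h3
  have h5 : 0 < (N : ℝ) * u.im := mul_pos hN' u.im_pos
  have h6 : ((N : ℝ) * u.im) ^ 2 ≤ ‖(((h 1 0 : ℤ) * (u : ℂ) + (h 1 1 : ℤ)) : ℂ)‖ ^ 2 :=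
    pow_le_pow_left₀ h5.le h4 2
  have h7 : 1 < (N : ℝ) * u.im := by
    rw [div_lt_iff₀ hN'] at hu
    linarith
  calc u.im / ‖(((h 1 0 : ℤ) * (u : ℂ) + (h 1 1 : ℤ)) : ℂ)‖ ^ 2 ≤ u.im / ((N : ℝ) * u.im) ^ 2 :=
        div_le_div_of_nonneg_left u.im_pos.le (by positivity) h6
    _ = 1 / (N * ((N : ℝ) * u.im)) := by
        have := u.im_pos.ne'
        field_simp
    _ < 1 / (N : ℝ) := by
        apply one_div_lt_one_div_of_lt hN'
        nlinarith

theorem USR_uniq {A : Set ℍ} (hs : ∀ z ∈ A, 0 ≤ z.re ∧ z.re < 1 ∧ 1 / (N : ℝ) < z.im)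
    {g g' : SL(2, ℤ)} {q : PX N} {z : ℍ} (h : pa g⁻¹ (OnePoint.infty : PX N) = q)
    (h' : pa g'⁻¹ (OnePoint.infty : PX N) = q) (hz : g • z ∈ A) (hz' : g' • z ∈ A) :
    g' = g ∨ g' = -g := by
  obtain ⟨a1, a2, a3⟩ := hs _ hz
  obtain ⟨b1, b2, b3⟩ := hs _ hz'
  have hd := CNT_gamma h h'
  have hNp : 0 < N := (Fact.out : N.Prime).pos
  have e10 : (g' * g⁻¹ : SL(2, ℤ)) 1 0 = g' 1 0 * g 1 1 - g' 1 1 * g 1 0 := by
    rw [Matrix.SpecialLinearGroup.coe_mul, Matrix.SpecialLinearGroup.SL2_inv_expl]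
    simp [Matrix.mul_apply, Fin.sum_univ_two]
    ring
  have hsm : (g' * g⁻¹) • (g • z) = g' • z := by rw [mul_smul, inv_smul_smul]
  have hz0 : g 1 0 * g' 1 1 - g' 1 0 * g 1 1 = 0 := by
    by_contra hne
    have hd2 : (N : ℤ) ∣ (g' * g⁻¹ : SL(2, ℤ)) 1 0 := by
      rw [e10]
      have e : g' 1 0 * g 1 1 - g' 1 1 * g 1 0 = -(g 1 0 * g' 1 1 - g' 1 0 * g 1 1) := by ring
      rw [e]
      exact (dvd_neg).2 hd
    have hc2 : (g' * g⁻¹ : SL(2, ℤ)) 1 0 ≠ 0 := by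
      rw [e10]
      intro h0
      apply hne
      linarith
    have := USR_im hNp hd2 hc2 a3
    rw [hsm] at this
    exact absurd this (not_lt.mpr b3.le)
  have hcop : IsCoprime (g 1 0) (g 1 1) := by
    have := g.det_coe
    rw [Matrix.det_fin_two] at this
    exact ⟨-g 0 1, g 0 0, by linarith⟩
  have hcop' : IsCoprime (g' 1 0) (g' 1 1) := by
    have := g'.det_coe
    rw [Matrix.det_fin_two] at this
    exact ⟨-g' 0 1, g' 0 0, by linarith⟩
  have he : g 1 0 * g' 1 1 = g' 1 0 * g 1 1 := by linarith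
  by_cases hsg : CNT_sgn (g 1 0) (g 1 1) = CNT_sgn (g' 1 0) (g' 1 1)
  · left
    exact CNT_same (CNT_row hcop hcop' he hsg) a1 a2 b1 b2
  · right
    have hn0 : (-g' : SL(2, ℤ)) 1 0 = -g' 1 0 := rfl
    have hn1 : (-g' : SL(2, ℤ)) 1 1 = -g' 1 1 := rfl
    have hsn : CNT_sgn (g 1 0) (g 1 1) = CNT_sgn (-g' 1 0) (-g' 1 1) := by
      have hx : ∀ c d : ℤ, IsCoprime c d → CNT_sgn (-c) (-d) = !CNT_sgn c d := by
        intro c d hcd
        obtain ⟨u, v, huv⟩ := hcd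
        unfold CNT_sgn
        rw [← decide_not, decide_eq_decide]
        by_cases hc : c = 0
        · by_cases hd : d = 0
          · rw [hc, hd] at huv; omega
          · omega
        · omega
      rw [hx _ _ hcop']
      revert hsg
      cases CNT_sgn (g 1 0) (g 1 1) <;> cases CNT_sgn (g' 1 0) (g' 1 1) <;> simp
    have hr := CNT_row hcop (c' := -g' 1 0) (d' := -g' 1 1) (by
      obtain ⟨u, v, huv⟩ := hcop'
      exact ⟨-u, -v, by linarith⟩) (by linarith) hsn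
    have hsmn : (-g') • z = g' • z := ModularGroup.SL_neg_smul g' z
    have := CNT_same (g := g) (g' := -g') (z := z) (by rw [hn0, hn1]; exact hr) a1 a2
      (by rw [hsmn]; exact b1) (by rw [hsmn]; exact b2)
    rw [← this, neg_neg]

/-- the set of points with a representative in `A` -/
def USR_B (N : ℕ) [Fact N.Prime] (A : Set ℍ) (q : PX N) : Set ℍ :=
  {z : ℍ | ∃ g : SL(2, ℤ), pa g⁻¹ (OnePoint.infty : PX N) = q ∧ g • z ∈ A}

theorem USR_B_meas {A : Set ℍ} (hA : MeasurableSet A) (q : PX N) :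
    MeasurableSet (USR_B N A q) := by
  have e : USR_B N A q = ⋃ g ∈ {g : SL(2, ℤ) | pa g⁻¹ (OnePoint.infty : PX N) = q},
      (fun z : ℍ => g • z) ⁻¹' A := by
    ext z
    simp [USR_B]
  rw [e]
  exact MeasurableSet.biUnion (Set.to_countable _) fun g _ => FUN_ms g hA

open Classical in
theorem USR_count {A : Set ℍ} (hs : ∀ z ∈ A, 0 ≤ z.re ∧ z.re < 1 ∧ 1 / (N : ℝ) < z.im)
    (q : PX N) (z : ℍ) (c : ℝ≥0∞) :
    ∑' g : SL(2, ℤ), (if pa g⁻¹ (OnePoint.infty : PX N) = q ∧ g • z ∈ A then c else 0) =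
      2 * (USR_B N A q).indicator (fun _ => c) z := by
  by_cases hz : z ∈ USR_B N A q
  · rw [Set.indicator_of_mem hz]
    obtain ⟨g, hg, hgz⟩ := hz
    have hneg : pa (-g)⁻¹ (OnePoint.infty : PX N) = q := by
      have e : (-g)⁻¹ = -g⁻¹ := by
        rw [inv_eq_iff_mul_eq_one, neg_mul_neg, mul_inv_cancel]
      rw [e, pa_neg, hg]
    have hsmn : (-g) • z = g • z := ModularGroup.SL_neg_smul g z
    rw [tsum_eq_sum (s := {g, -g})]
    · rw [Finset.sum_pair (USR_ne_neg g), if_pos ⟨hg, hgz⟩, if_pos ⟨hneg, by rw [hsmn]; exact hgz⟩,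
        two_mul]
    · intro g' hg'
      rw [if_neg]
      rintro ⟨k1, k2⟩
      apply hg'
      rcases USR_uniq hs hg k1 hgz k2 with h | h
      · rw [h]; simp
      · rw [h]; simp
  · rw [Set.indicator_of_notMem hz, mul_zero, ENNReal.tsum_eq_zero]
    intro g
    rw [if_neg]
    rintro ⟨k1, k2⟩
    exact hz ⟨g, k1, k2⟩

theorem unfold_set_pr {A : Set ℍ} (hA : MeasurableSet A)
    (hs : ∀ z ∈ A, 0 ≤ z.re ∧ z.re < 1 ∧ 1 / (N : ℝ) < z.im) :
    ∃ A' : PX N → Set ℍ, (∀ q, MeasurableSet (A' q) ∧ A' q ⊆ 𝒟ᵒ) ∧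
      ∀ h : ℍ → ℝ≥0∞, Measurable h →
        (∀ γ ∈ CongruenceSubgroup.Gamma0 N, ∀ z, h (γ • z) = h z) →
        ∑ q : PX N, ∫⁻ z in A' q, h ((sg q)⁻¹ • z) = ∫⁻ z in A, h z := by
  classical
  refine ⟨fun q => USR_B N A q ∩ 𝒟ᵒ, fun q => ⟨(USR_B_meas hA q).inter isOpen_fdo.measurableSet,
    Set.inter_subset_right⟩, fun h hm hi => ?_⟩
  have hGm : Measurable (A.indicator h) := hm.indicator hA
  have hkey : ∀ (g : SL(2, ℤ)) (z : ℍ),
      h ((sg (pa g⁻¹ (OnePoint.infty : PX N)))⁻¹ • z) = h (g • z) := by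
    intro g z
    have h1 := hi _ (FUN_mem (N := N) g⁻¹) (g • z)
    rw [← h1, smul_smul]
    congr 2
    group
  have hpt : ∀ z : ℍ, ∑' g : SL(2, ℤ), A.indicator h (g • z) =
      2 * ∑ q : PX N, (USR_B N A q).indicator (fun z => h ((sg q)⁻¹ • z)) z := by
    intro z
    have e1 : ∀ g : SL(2, ℤ), A.indicator h (g • z) = ∑ q : PX N,
        (if pa g⁻¹ (OnePoint.infty : PX N) = q ∧ g • z ∈ A then h ((sg q)⁻¹ • z) else 0) := by
      intro g
      by_cases hg : g • z ∈ A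
      · rw [Set.indicator_of_mem hg, Finset.sum_eq_single (pa g⁻¹ (OnePoint.infty : PX N))]
        · rw [if_pos ⟨rfl, hg⟩, hkey]
        · intro q _ hq
          rw [if_neg]
          rintro ⟨h, -⟩
          exact hq h.symm
        · intro h
          exact absurd (Finset.mem_univ _) h
      · rw [Set.indicator_of_notMem hg, Finset.sum_eq_zero]
        intro q _
        rw [if_neg]
        rintro ⟨-, h⟩
        exact hg h
    simp_rw [e1]
    rw [Summable.tsum_finsetSum (fun q _ => ENNReal.summable), Finset.mul_sum]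
    refine Finset.sum_congr rfl fun q _ => ?_
    rw [USR_count hs q z]
    by_cases hz : z ∈ USR_B N A q
    · rw [Set.indicator_of_mem hz, Set.indicator_of_mem hz]
    · rw [Set.indicator_of_notMem hz, Set.indicator_of_notMem hz]
  have hun := Pool.Agent.GL2.RSA_unfold (A.indicator h) hGm
  have hmq : ∀ q : PX N, Measurable ((USR_B N A q).indicator (fun z => h ((sg q)⁻¹ • z))) :=
    fun q => (hm.comp (FUN_ms _)).indicator (USR_B_meas hA q)
  simp_rw [hpt] at hun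
  rw [lintegral_const_mul _ (Finset.measurable_fun_sum _ fun q _ => hmq q),
    lintegral_finsetSum _ fun q _ => hmq q, lintegral_indicator hA] at hun
  have h2 := (ENNReal.mul_right_inj (by norm_num) (by norm_num)).mp hun
  rw [← h2]
  refine Finset.sum_congr rfl fun q _ => ?_
  rw [setLIntegral_indicator (USR_B_meas hA q)]

end

theorem unfold_set : type_of% @unfold_set_pr := @unfold_set_pr

end Pool.Agent.LVB
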