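import Pool.Agent.Lib_helper41.LVB.Defs
import Pool.Agent.Lib_helper68.LEV.UBT
import Pool.Agent.Lib_helper68.LEV.FRU
import Pool.Agent.Lib_helper68.LEV.LSC
import Pool.Agent.Lib_helper68.LEV.EIB
import Pool.Agent.Lib_helper68.LEV.Fin1
import Pool.Agent.Lib_helper41.LVBF.KAL
import Pool.Agent.Lib_helper41.LVBF.USR

/-! block STM: the harmonic second moments of the coefficients have full mass on average
(cites kern_all, unfold_set of WantedA) -/

namespace Pool.Agent.LVB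

open Pool.Agent.LEV Complex MeasureTheory Filter Topology UpperHalfPlane ModularGroup ProbabilityTheory
open scoped MatrixGroups Modular ENNReal ModularForm ComplexConjugate ContDiff

/-! ### the sets -/

/-- the strip -/
def STM_S (y : ℝ) : Set ℍ := {z : ℍ | 0 ≤ z.re ∧ z.re < 1 ∧ y ≤ z.im}

/-- the truncated strip -/
def STM_A (a : ℝ) : Set ℍ := STM_S a \ STM_S (2 * a)

theorem STM_S_ms (y : ℝ) : MeasurableSet (STM_S y) := by
  refine (measurableSet_le measurable_const UpperHalfPlane.continuous_re.measurable).inter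
    ((measurableSet_lt UpperHalfPlane.continuous_re.measurable measurable_const).inter
      (measurableSet_le measurable_const UpperHalfPlane.continuous_im.measurable))

theorem STM_A_ms (a : ℝ) : MeasurableSet (STM_A a) := (STM_S_ms a).diff (STM_S_ms _)

theorem STM_sub {a : ℝ} (ha : 0 < a) : STM_S (2 * a) ⊆ STM_S a := by
  rintro z ⟨h1, h2, h3⟩
  exact ⟨h1, h2, by linarith⟩

theorem STM_add {a : ℝ} (ha : 0 < a) (h : ℍ → ℝ≥0∞) :
    (∫⁻ z in STM_S (2 * a), h z) + (∫⁻ z in STM_A a, h z) = ∫⁻ z in STM_S a, h z := by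
  have h1 := lintegral_inter_add_sdiff (μ := (volume : Measure ℍ)) h (STM_S a) (STM_S_ms (2 * a))
  rw [Set.inter_eq_self_of_subset_right (STM_sub ha)] at h1
  exact h1

theorem STM_vol_S {y : ℝ} (hy : 0 < y) : (volume : Measure ℍ) (STM_S y) = ENNReal.ofReal (1 / y) := by
  rw [← setLIntegral_one, ← lintegral_indicator (STM_S_ms y)]
  set Sc : Set ℂ := {z : ℂ | 0 ≤ z.re ∧ z.re < 1 ∧ y ≤ z.im} with hSc
  have h1 : ∀ w : ℍ, (STM_S y).indicator (fun _ => (1 : ℝ≥0∞)) w =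
      Sc.indicator (fun _ => (1 : ℝ≥0∞)) (w : ℂ) := by
    intro w
    by_cases hw : w ∈ STM_S y
    · rw [Set.indicator_of_mem hw, Set.indicator_of_mem (by exact hw)]
    · rw [Set.indicator_of_notMem hw, Set.indicator_of_notMem (by exact hw)]
  rw [lintegral_congr h1, Pool.Agent.GL2.RSA_lint, ← lintegral_indicator
    (isOpen_lt continuous_const Complex.continuous_im).measurableSet]
  set F : ℝ × ℝ → ℝ≥0∞ := fun p => (Set.Ico (0 : ℝ) 1).indicator (fun _ => (1 : ℝ≥0∞)) p.1 *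
    (Set.Ici y).indicator (fun t => ENNReal.ofReal (1 / t ^ 2)) p.2 with hF
  have h2 : ∫⁻ z : ℂ, {z : ℂ | 0 < z.im}.indicator (fun z =>
      Sc.indicator (fun _ => (1 : ℝ≥0∞)) z * ENNReal.ofReal (1 / z.im ^ 2)) z =
      ∫⁻ p : ℝ × ℝ, F p := by
    rw [(Complex.volume_preserving_equiv_real_prod.symm).lintegral_map_equiv]
    apply lintegral_congr
    rintro ⟨x, t⟩
    have e : Complex.measurableEquivRealProd.symm (x, t) = (⟨x, t⟩ : ℂ) := rfl
    rw [e, hF]
    simp only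
    by_cases hx : x ∈ Set.Ico (0 : ℝ) 1
    · by_cases ht : t ∈ Set.Ici y
      · have ht0 : 0 < t := lt_of_lt_of_le hy ht
        rw [Set.indicator_of_mem (by exact ht0), Set.indicator_of_mem (by exact ⟨hx.1, hx.2, ht⟩),
          Set.indicator_of_mem hx, Set.indicator_of_mem ht]
      · rw [Set.indicator_of_notMem ht, mul_zero]
        by_cases ht0 : 0 < t
        · rw [Set.indicator_of_mem (by exact ht0),
            Set.indicator_of_notMem (by exact fun h => ht h.2.2), zero_mul]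
        · rw [Set.indicator_of_notMem (by exact ht0)]
    · rw [Set.indicator_of_notMem hx, zero_mul]
      by_cases ht0 : 0 < t
      · rw [Set.indicator_of_mem (by exact ht0),
          Set.indicator_of_notMem (by exact fun h => hx ⟨h.1, h.2.1⟩), zero_mul]
      · rw [Set.indicator_of_notMem (by exact ht0)]
  have hm1 : AEMeasurable ((Set.Ico (0 : ℝ) 1).indicator (fun _ => (1 : ℝ≥0∞))) volume :=
    (measurable_const.indicator measurableSet_Ico).aemeasurable
  have hm2 : AEMeasurable ((Set.Ici y).indicator (fun t : ℝ => ENNReal.ofReal (1 / t ^ 2))) volume :=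
    ((by fun_prop : Measurable (fun t : ℝ => ENNReal.ofReal (1 / t ^ 2))).indicator
      measurableSet_Ici).aemeasurable
  rw [h2, Measure.volume_eq_prod, hF, lintegral_prod_mul hm1 hm2, lintegral_indicator
    measurableSet_Ico, setLIntegral_one, Real.volume_Ico, sub_zero, ENNReal.ofReal_one, one_mul,
    lintegral_indicator measurableSet_Ici, setLIntegral_congr (Ioi_ae_eq_Ici).symm, UBT_int_y hy]

theorem STM_vol {a : ℝ} (ha : 0 < a) :
    (volume : Measure ℍ) (STM_A a) = ENNReal.ofReal (1 / (2 * a)) := by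
  have h1 := STM_add ha (fun _ => 1)
  rw [setLIntegral_one, setLIntegral_one, setLIntegral_one, STM_vol_S ha,
    STM_vol_S (by linarith : 0 < 2 * a)] at h1
  have h2 : ENNReal.ofReal (1 / a) = ENNReal.ofReal (1 / (2 * a)) + ENNReal.ofReal (1 / (2 * a)) := by
    rw [← ENNReal.ofReal_add (by positivity) (by positivity)]
    congr 1
    field_simp
    norm_num
  rw [h2] at h1
  exact (ENNReal.add_right_inj ENNReal.ofReal_ne_top).1 h1

section
variable {N : ℕ} [Fact N.Prime]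

/-! ### the mass -/

/-- the second moment of one form -/
noncomputable def STM_m (f : S2 N) (K : ℝ) : ℝ := ∑' n : ℕ, la f n ^ 2 *
  (Real.exp (-4 * Real.pi * n * K / N) - Real.exp (-8 * Real.pi * n * K / N))

theorem STM_mass {f : S2 N} (hf : IsNew f) {K : ℝ} (hK : 0 < K) :
    (∫⁻ z in STM_A (K / N), FRU_h f z) = ENNReal.ofReal (1 / (4 * Real.pi) * STM_m f K) := by
  have hN : (0 : ℝ) < N := by exact_mod_cast (Fact.out : N.Prime).pos
  have ha : 0 < K / N := div_pos hK hN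
  obtain ⟨s1, e1⟩ := strip_sum f ha
  obtain ⟨s2, e2⟩ := strip_sum f (by linarith : 0 < 2 * (K / N))
  have h1 := STM_add ha (FRU_h f)
  have e1' : ∫⁻ z in STM_S (K / N), FRU_h f z = _ := e1
  have e2' : ∫⁻ z in STM_S (2 * (K / N)), FRU_h f z = _ := e2
  rw [e1', e2'] at h1
  set A1 := ∑' n : ℕ, ‖co f n‖ ^ 2 / (4 * Real.pi * n) * Real.exp (-4 * Real.pi * n * (K / N))
    with hA1
  set A2 := ∑' n : ℕ, ‖co f n‖ ^ 2 / (4 * Real.pi * n) *
    Real.exp (-4 * Real.pi * n * (2 * (K / N))) with hA2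
  have h2 : A1 - A2 = 1 / (4 * Real.pi) * STM_m f K := by
    rw [hA1, hA2, ← s1.tsum_sub s2, STM_m, ← tsum_mul_left]
    refine tsum_congr fun n => ?_
    have e3 : ‖co f n‖ ^ 2 / (4 * Real.pi * n) = 1 / (4 * Real.pi) * la f n ^ 2 := by
      unfold la
      rw [div_pow, Real.sq_sqrt (Nat.cast_nonneg n)]
      have h3 : ‖co f n‖ ^ 2 = (co f n).re ^ 2 := by
        rw [← Complex.normSq_eq_norm_sq, Complex.normSq_apply, new_real hf n]
        ring
      rw [h3]
      ring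
    rw [e3]
    have e4 : -4 * Real.pi * n * (K / N) = -4 * Real.pi * n * K / N := by ring
    have e5 : -4 * Real.pi * n * (2 * (K / N)) = -8 * Real.pi * n * K / N := by ring
    rw [e4, e5]
    ring
  have hA2n : 0 ≤ A2 := tsum_nonneg fun n => by positivity
  have hm0 : 0 ≤ STM_m f K := by
    unfold STM_m
    refine tsum_nonneg fun n => mul_nonneg (sq_nonneg _) ?_
    rw [sub_nonneg]
    apply Real.exp_le_exp.2
    apply div_le_div_of_nonneg_right _ hN.le
    have : 0 ≤ Real.pi * n * K := by positivity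
    linarith
  have h3 : ENNReal.ofReal A1 = ENNReal.ofReal A2 + ENNReal.ofReal (1 / (4 * Real.pi) * STM_m f K) := by
    rw [← ENNReal.ofReal_add hA2n (by positivity), ← h2]
    congr 1
    ring
  rw [h3] at h1
  exact (ENNReal.add_right_inj ENNReal.ofReal_ne_top).1 h1

theorem STM_m_nonneg (f : S2 N) {K : ℝ} (hK : 0 < K) : 0 ≤ STM_m f K := by
  have hN : (0 : ℝ) < N := by exact_mod_cast (Fact.out : N.Prime).pos
  unfold STM_m
  refine tsum_nonneg fun n => mul_nonneg (sq_nonneg _) ?_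
  rw [sub_nonneg]
  apply Real.exp_le_exp.2
  apply div_le_div_of_nonneg_right _ hN.le
  have : 0 ≤ Real.pi * n * K := by positivity
  linarith

/-! ### the weight `X = 1` -/

/-- the coefficients -/
def STM_c (m : ℕ) : ℝ := if m = 1 then 1 else 0

theorem STM_tau {f : S2 N} (hf : IsNew f) : tau f 1 STM_c = 1 := by
  unfold tau STM_c la
  rw [Finset.Icc_self, Finset.sum_singleton, hf.one]
  simp

theorem STM_PMat : PMat 1 = {(1, 0, 1)} := by
  decide

theorem STM_QP : QP 1 STM_c = 1 := by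
  unfold QP STM_c
  rw [Finset.Icc_self, Finset.sum_singleton, STM_PMat]
  have : ({1} : Finset ℕ).filter (fun k => 1 * k ^ 2 ≤ 1) = {1} := by decide
  rw [this]
  simp

/-! ### the number of newforms -/

theorem STM_card {δ : ℝ} (hδ : 0 < δ) : ∃ N₀ : ℕ, ∀ (N : ℕ) [Fact N.Prime], N₀ ≤ N →
    ∀ {ι : Type} [Fintype ι] (f : ι → S2 N), AllNew f → (1 / 12 - δ) * N ≤ (Fintype.card ι : ℝ) := by
  obtain ⟨N₀, h⟩ := DIMK.dim_pm (half_pos hδ)
  refine ⟨N₀, fun N _ hN ι _ f hf => ?_⟩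
  obtain ⟨W, hW⟩ := fricke_exists (N := N)
  haveI : FiniteDimensional ℂ (S2 N) := DIMK.fin_dim
  have h1 := h N hN W hW (-1) (Or.inr rfl)
  have h2 := h N hN W hW 1 (Or.inl rfl)
  set V1 := LinearMap.ker (W - (-1 : ℂ) • (1 : S2 N →ₗ[ℂ] S2 N)) with hV1
  set V2 := LinearMap.ker (W - (1 : ℂ) • (1 : S2 N →ₗ[ℂ] S2 N)) with hV2
  have hdis : Disjoint V1 V2 := by
    rw [Submodule.disjoint_def]
    intro x hx1 hx2
    rw [hV1, LinearMap.mem_ker] at hx1
    rw [hV2, LinearMap.mem_ker] at hx2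
    have e1 : W x - (-1 : ℂ) • x = 0 := hx1
    have e2 : W x - (1 : ℂ) • x = 0 := hx2
    have e3 : (2 : ℂ) • x = 0 := by
      have : (2 : ℂ) • x = (W x - (-1 : ℂ) • x) - (W x - (1 : ℂ) • x) := by
        module
      rw [this, e1, e2, sub_zero]
    exact (smul_eq_zero.1 e3).resolve_left two_ne_zero
  have h3 := Submodule.finrank_add_finrank_le_of_disjoint hdis
  obtain ⟨hfin, hcard⟩ := new_count (N := N)
  have h4 : Fintype.card ι = {g : S2 N | IsNew g}.ncard := by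
    have hrange : {g : S2 N | IsNew g} = Set.range f := by
      ext g
      exact hf.2 g
    rw [hrange, ← Nat.card_eq_fintype_card, ← Nat.card_range_of_injective hf.1,
      Nat.card_coe_set_eq]
  rw [h4, hcard]
  have h5 : ((Module.finrank ℂ V1 : ℕ) : ℝ) + ((Module.finrank ℂ V2 : ℕ) : ℝ) ≤
      ((Module.finrank ℂ (S2 N) : ℕ) : ℝ) := by exact_mod_cast h3
  linarith

/-! ### the kernel -/

/-- the kernel of the newforms -/
noncomputable def STM_U {ι : Type} [Fintype ι] (f : ι → S2 N) (q : PX N) (z : ℍ) : ℝ :=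
  ∑ i, ‖fam (f i) q z‖ ^ 2 * z.im ^ 2 / nr (f i)

/-- the invariant function -/
noncomputable def STM_h {ι : Type} [Fintype ι] (f : ι → S2 N) (z : ℍ) : ℝ≥0∞ :=
  ∑ i, ENNReal.ofReal (1 / nr (f i)) * FRU_h (f i) z

theorem STM_h_meas {ι : Type} [Fintype ι] (f : ι → S2 N) : Measurable (STM_h f) := by
  unfold STM_h
  exact Finset.measurable_sum _ fun i _ => (FRU_h_meas (f i)).const_mul _

theorem STM_h_inv {ι : Type} [Fintype ι] (f : ι → S2 N) (γ : SL(2, ℤ))
    (hγ : γ ∈ CongruenceSubgroup.Gamma0 N) (z : ℍ) : STM_h f (γ • z) = STM_h f z := by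
  unfold STM_h
  refine Finset.sum_congr rfl fun i _ => ?_
  rw [FRU_h_inv (f i) γ hγ]

theorem STM_hU {ι : Type} [Fintype ι] (f : ι → S2 N) (hn : ∀ i, IsNew (f i)) (q : PX N) (z : ℍ) :
    STM_h f ((sg q)⁻¹ • z) = ENNReal.ofReal (STM_U f q z) := by
  have hnrpos : ∀ i, 0 < nr (f i) := fun i => nr_pos (new_ne_zero (hn i))
  unfold STM_h STM_U
  rw [ENNReal.ofReal_sum_of_nonneg fun i _ => by have := hnrpos i; positivity]
  refine Finset.sum_congr rfl fun i _ => ?_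
  have h0 : 0 ≤ 1 / nr (f i) := by have := hnrpos i; positivity
  rw [← FRU_fam, show ‖fam (f i) q z‖ ^ 2 * z.im ^ 2 / nr (f i) =
    1 / nr (f i) * (‖fam (f i) q z‖ ^ 2 * z.im ^ 2) by ring,
    ENNReal.ofReal_mul h0, ENNReal.ofReal_mul (by positivity), ENNReal.ofReal_pow (norm_nonneg _),
    ofReal_norm]

/-- total mass -/
theorem STM_total {ι : Type} [Fintype ι] (f : ι → S2 N) (hn : ∀ i, IsNew (f i)) :
    ∑ q : PX N, ∫⁻ z in 𝒟ᵒ, STM_h f ((sg q)⁻¹ • z) = ENNReal.ofReal (Fintype.card ι : ℝ) := by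
  have hnrpos : ∀ i, 0 < nr (f i) := fun i => nr_pos (new_ne_zero (hn i))
  obtain ⟨ψ, hm, _, _, hs, hψ, _⟩ := fun_exists (N := N)
  rw [hψ _ (STM_h_meas f) (STM_h_inv f)]
  unfold STM_h
  simp_rw [Finset.sum_mul]
  have hmi : ∀ i, Measurable fun z : ℍ => ENNReal.ofReal (1 / nr (f i)) * FRU_h (f i) z * ψ z :=
    fun i => ((FRU_h_meas (f i)).const_mul _).mul hm
  rw [lintegral_finsetSum _ fun i _ => hmi i, Finset.mul_sum]
  have h1 : ∀ i, 2 * ∫⁻ z : ℍ, ENNReal.ofReal (1 / nr (f i)) * FRU_h (f i) z * ψ z = 1 := by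
    intro i
    have h2 := FRU_en (f i) hψ
    rw [← nr_en] at h2
    have h3 : ∫⁻ z : ℍ, ENNReal.ofReal (1 / nr (f i)) * FRU_h (f i) z * ψ z =
        ENNReal.ofReal (1 / nr (f i)) * ∫⁻ z : ℍ, FRU_h (f i) z * ψ z := by
      have hmf : Measurable fun z : ℍ => FRU_h (f i) z * ψ z := (FRU_h_meas (f i)).mul hm
      rw [← lintegral_const_mul _ hmf]
      simp_rw [mul_assoc]
    rw [h3, mul_left_comm, ← h2, ← ENNReal.ofReal_mul (by have := hnrpos i; positivity),
      one_div_mul_cancel (hnrpos i).ne', ENNReal.ofReal_one]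
  rw [Finset.sum_congr rfl fun i _ => h1 i, Finset.sum_const, Finset.card_univ, nsmul_eq_mul,
    mul_one, ENNReal.ofReal_natCast]

/-- the part below height `Y` outside the sets `A' q` -/
theorem STM_low {ι : Type} [Fintype ι] (f : ι → S2 N) (hn : ∀ i, IsNew (f i))
    {A' : PX N → Set ℍ} (hA' : ∀ q, MeasurableSet (A' q) ∧ A' q ⊆ 𝒟ᵒ)
    {Y g b B : ℝ} (hg : 0 ≤ g) (hb : 0 ≤ b) (hB : 0 ≤ B) (ρ : ℝ)
    (hgood : ∀ w : ℍ, w ∈ 𝒟ᵒ → w.im ≤ Y → ∀ q : PX N, Good 1 ρ q w → STM_U f q w ≤ g)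
    (hbad : ∀ w : ℍ, w ∈ 𝒟ᵒ → w.im ≤ Y → ∀ q : PX N, STM_U f q w ≤ b)
    (hcount : ∀ w : ℍ, w ∈ 𝒟ᵒ → w.im ≤ Y → ({q : PX N | ¬ Good 1 ρ q w}.ncard : ℝ) ≤ B) :
    ∑ q : PX N, ∫⁻ z in (𝒟ᵒ ∩ {z : ℍ | z.im ≤ Y}) \ A' q, STM_h f ((sg q)⁻¹ • z) ≤
      ENNReal.ofReal g * (∑ q : PX N, (volume : Measure ℍ) (𝒟ᵒ \ A' q)) +
        ENNReal.ofReal (B * b * (Real.pi / 3)) := by
  classical
  have hmo : MeasurableSet (𝒟ᵒ ∩ {z : ℍ | z.im ≤ Y} : Set ℍ) :=
    isOpen_fdo.measurableSet.inter (measurableSet_le UpperHalfPlane.continuous_im.measurable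
      measurable_const)
  have hme : ∀ q, MeasurableSet ((𝒟ᵒ ∩ {z : ℍ | z.im ≤ Y}) \ A' q : Set ℍ) :=
    fun q => hmo.diff (hA' q).1
  have hmd : ∀ q, MeasurableSet (𝒟ᵒ \ A' q : Set ℍ) := fun q => isOpen_fdo.measurableSet.diff (hA' q).1
  -- pointwise bound
  have hpt : ∀ z : ℍ, ∑ q : PX N, ((𝒟ᵒ ∩ {z : ℍ | z.im ≤ Y}) \ A' q : Set ℍ).indicator
      (fun z => STM_h f ((sg q)⁻¹ • z)) z ≤
      ∑ q : PX N, (𝒟ᵒ \ A' q : Set ℍ).indicator (fun _ => ENNReal.ofReal g) z +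
        (𝒟ᵒ : Set ℍ).indicator (fun _ => ENNReal.ofReal (B * b)) z := by
    intro z
    by_cases hz : z ∈ (𝒟ᵒ ∩ {z : ℍ | z.im ≤ Y} : Set ℍ)
    · have hz1 : z ∈ 𝒟ᵒ := hz.1
      have hz2 : z.im ≤ Y := hz.2
      rw [Set.indicator_of_mem hz1]
      have h1 : ∀ q : PX N, ((𝒟ᵒ ∩ {z : ℍ | z.im ≤ Y}) \ A' q : Set ℍ).indicator
          (fun z => STM_h f ((sg q)⁻¹ • z)) z ≤
          (𝒟ᵒ \ A' q : Set ℍ).indicator (fun _ => ENNReal.ofReal g) z +
            if ¬ Good 1 ρ q z then ENNReal.ofReal b else 0 := by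
        intro q
        by_cases hq : z ∈ A' q
        · rw [Set.indicator_of_notMem (by exact fun h => h.2 hq)]
          exact zero_le
        · rw [Set.indicator_of_mem (by exact ⟨hz, hq⟩), Set.indicator_of_mem (by exact ⟨hz1, hq⟩),
            STM_hU f hn]
          by_cases hG : Good 1 ρ q z
          · refine (ENNReal.ofReal_le_ofReal (hgood z hz1 hz2 q hG)).trans ?_
            exact le_self_add
          · rw [if_pos hG]
            refine (ENNReal.ofReal_le_ofReal (hbad z hz1 hz2 q)).trans ?_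
            exact le_add_self
      refine (Finset.sum_le_sum fun q _ => h1 q).trans ?_
      rw [Finset.sum_add_distrib]
      refine add_le_add le_rfl ?_
      rw [← Finset.sum_filter, Finset.sum_const, nsmul_eq_mul, ← ENNReal.ofReal_natCast,
        ← ENNReal.ofReal_mul (Nat.cast_nonneg _)]
      refine ENNReal.ofReal_le_ofReal (mul_le_mul_of_nonneg_right ?_ hb)
      refine le_trans (le_of_eq ?_) (hcount z hz1 hz2)
      rw [← Set.ncard_coe_finset]
      congr 2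
      ext q
      simp
    · have h1 : ∀ q : PX N, ((𝒟ᵒ ∩ {z : ℍ | z.im ≤ Y}) \ A' q : Set ℍ).indicator
          (fun z => STM_h f ((sg q)⁻¹ • z)) z = 0 := by
        intro q
        exact Set.indicator_of_notMem (by exact fun h => hz h.1) _
      simp_rw [h1]
      rw [Finset.sum_const_zero]
      exact zero_le
  have hmq : ∀ q : PX N, Measurable (fun z : ℍ => STM_h f ((sg q)⁻¹ • z)) :=
    fun q => (STM_h_meas f).comp (FUN_ms _)
  have e1 : ∑ q : PX N, ∫⁻ z in (𝒟ᵒ ∩ {z : ℍ | z.im ≤ Y}) \ A' q, STM_h f ((sg q)⁻¹ • z) =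
      ∫⁻ z : ℍ, ∑ q : PX N, ((𝒟ᵒ ∩ {z : ℍ | z.im ≤ Y}) \ A' q : Set ℍ).indicator
        (fun z => STM_h f ((sg q)⁻¹ • z)) z := by
    rw [lintegral_finsetSum _ fun q _ => (hmq q).indicator (hme q)]
    refine Finset.sum_congr rfl fun q _ => ?_
    rw [lintegral_indicator (hme q)]
  rw [e1]
  refine (lintegral_mono hpt).trans ?_
  have hmi : ∀ q : PX N, Measurable ((𝒟ᵒ \ A' q : Set ℍ).indicator fun _ => ENNReal.ofReal g) :=
    fun q => measurable_const.indicator (hmd q)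
  rw [lintegral_add_left (Finset.measurable_sum _ fun q _ => hmi q),
    lintegral_finsetSum _ fun q _ => hmi q, lintegral_indicator isOpen_fdo.measurableSet,
    setLIntegral_const, Finset.mul_sum]
  refine add_le_add (le_of_eq (Finset.sum_congr rfl fun q _ => ?_)) ?_
  · rw [lintegral_indicator (hmd q), setLIntegral_const]
  · rw [ENNReal.ofReal_mul (p := B * b) (q := Real.pi / 3) (by positivity)]
    exact mul_le_mul_right UBT_vol _

end

/-- the harmonic second moments of the coefficients have full mass on average -/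
theorem strip_mass_pr {K : ℝ} (hK : 2 ≤ K) {ε : ℝ} (hε : 0 < ε) : ∃ N₀ : ℕ, ∀ (N : ℕ) [Fact N.Prime],
    N₀ ≤ N → ∀ {ι : Type} [Fintype ι] (f : ι → S2 N), AllNew f →
      N / (8 * Real.pi * K) - ε * N ≤ ∑ i, om (f i) * ∑' n : ℕ, la (f i) n ^ 2 *
        (Real.exp (-4 * Real.pi * n * K / N) - Real.exp (-8 * Real.pi * n * K / N)) := by
  set ρ : ℝ := 1 / Real.sqrt (1 + 3 * ε) with hρ
  have hs1 : 1 < Real.sqrt (1 + 3 * ε) := by
    rw [Real.lt_sqrt (by norm_num)]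
    linarith
  have hρ0 : 0 < ρ := by positivity
  have hρ1 : ρ < 1 := (div_lt_one (by linarith)).2 hs1
  have hρ2 : 1 / ρ ^ 2 = 1 + 3 * ε := by
    rw [hρ, div_pow, Real.sq_sqrt (by linarith)]
    field_simp
  obtain ⟨C₁, hC₁, hbc⟩ := bad_count hρ0 hρ1
  obtain ⟨C₂, hC₂, hkb⟩ := kern_bad
  obtain ⟨C₃, hC₃, hcp⟩ := cusp_part
  obtain ⟨N₁, hN₁⟩ := STM_card (by positivity : 0 < ε / 8)
  have hev := (UBT_rpow (K := C₁) (by norm_num : (0 : ℝ) < 1 / 2 - 22 / 3000)).and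
    ((UBT_rpow (K := 16 * C₁ * C₂ / ε) (by norm_num : (0 : ℝ) < 11 / 60)).and
      ((UBT_rpow (K := 8 * C₃ / ε) (by norm_num : (0 : ℝ) < 1 / 500)).and
        (tendsto_natCast_atTop_atTop.eventually_ge_atTop (1 + 1 / (3 * ε)))))
  obtain ⟨N₀, hN₀⟩ := eventually_atTop.1 hev
  refine ⟨max N₀ N₁, ?_⟩
  intro N _ hN ι _ f hf
  obtain ⟨hE1, hE2, hE3, hE4⟩ := hN₀ N ((le_max_left _ _).trans hN)
  have hcard := hN₁ N ((le_max_right _ _).trans hN) f hf
  have hi : Function.Injective f := hf.1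
  have hn : ∀ i, IsNew (f i) := fun i => (hf.2 (f i)).2 ⟨i, rfl⟩
  have hNp : N.Prime := Fact.out
  have hNR : (2 : ℝ) ≤ N := by exact_mod_cast hNp.two_le
  have hN0 : (0 : ℝ) < N := by linarith
  have hN1 : (1 : ℝ) ≤ N := by linarith
  have hpi := Real.pi_pos
  have hK0 : 0 < K := by linarith
  set Y : ℝ := (N : ℝ) ^ (1 / 300 : ℝ) with hY
  have hY1 : 1 ≤ Y := Real.one_le_rpow hN1 (by norm_num)
  have hY0 : 0 < Y := by linarith
  have hYN : Y ≤ N := by
    calc Y ≤ (N : ℝ) ^ (1 : ℝ) := Real.rpow_le_rpow_of_exponent_le hN1 (by norm_num)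
      _ = N := Real.rpow_one _
  have hXY : ((1 : ℕ) : ℝ) ≤ Y := by rw [Nat.cast_one]; exact hY1
  have hXltN : 1 < N := hNp.one_lt
  have hnrpos : ∀ i, 0 < nr (f i) := fun i => nr_pos (new_ne_zero (hn i))
  -- sizes
  have hXN : (1 : ℝ) ≤ (N : ℝ) ^ (1 / 3000 : ℝ) := Real.one_le_rpow hN1 (by norm_num)
  have hXYp : (1 : ℝ) * Y ≤ (N : ℝ) ^ (11 / 3000 : ℝ) := by
    calc (1 : ℝ) * Y ≤ (N : ℝ) ^ (1 / 3000 : ℝ) * (N : ℝ) ^ (1 / 300 : ℝ) :=
          mul_le_mul_of_nonneg_right hXN hY0.le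
      _ = (N : ℝ) ^ (11 / 3000 : ℝ) := by
          rw [← Real.rpow_add hN0]
          norm_num
  have hsz1 : C₁ * (((1 : ℕ) : ℝ) * Y) ^ 2 ≤ Real.sqrt N := by
    rw [Nat.cast_one]
    have h2 : ((1 : ℝ) * Y) ^ 2 ≤ (N : ℝ) ^ (22 / 3000 : ℝ) := by
      calc ((1 : ℝ) * Y) ^ 2 ≤ ((N : ℝ) ^ (11 / 3000 : ℝ)) ^ 2 :=
            pow_le_pow_left₀ (by positivity) hXYp 2
        _ = (N : ℝ) ^ (22 / 3000 : ℝ) := by
            rw [← Real.rpow_natCast, ← Real.rpow_mul hN0.le]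
            norm_num
    calc C₁ * ((1 : ℝ) * Y) ^ 2 ≤ (N : ℝ) ^ (1 / 2 - 22 / 3000 : ℝ) * (N : ℝ) ^ (22 / 3000 : ℝ) :=
          mul_le_mul hE1 h2 (by positivity) (by positivity)
      _ = (N : ℝ) ^ (1 / 2 : ℝ) := by
          rw [← Real.rpow_add hN0]
          norm_num
      _ = Real.sqrt N := (Real.sqrt_eq_rpow _).symm
  have hmemfd : ∀ w : ℍ, w ∈ 𝒟ᵒ → w ∈ 𝒟 := fun w hw => ⟨hw.1.le, hw.2.le⟩
  -- the unfolding
  obtain ⟨A', hA', hunf⟩ := unfold_set (N := N) (A := STM_A (K / N)) (STM_A_ms _) (by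
    rintro z ⟨⟨h1, h2, h3⟩, _⟩
    refine ⟨h1, h2, lt_of_lt_of_le ?_ h3⟩
    apply div_lt_div_of_pos_right _ hN0
    linarith)
  have hmass := hunf (STM_h f) (STM_h_meas f) (STM_h_inv f)
  have hvol := hunf (fun _ => 1) measurable_const (fun _ _ _ => rfl)
  simp only [setLIntegral_one] at hvol
  rw [STM_vol (div_pos hK0 hN0)] at hvol
  -- the three bounds
  set g : ℝ := 1 / (4 * Real.pi * ρ ^ 2) with hg
  set b : ℝ := C₂ * Y with hb
  set B : ℝ := C₁ * (((1 : ℕ) : ℝ) * Y) ^ 12 * (N : ℝ) ^ (3 / 4 : ℝ) with hB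
  have hg0 : 0 ≤ g := by positivity
  have hb0 : 0 ≤ b := by positivity
  have hB0 : 0 ≤ B := by positivity
  have hlow := STM_low f hn hA' (Y := Y) hg0 hb0 hB0 ρ
    (fun w _ _ q hgd => kern_all f hi hn q w hρ0 hρ1 hgd)
    (fun w hw hwY q => by
      have h1 := hkb N f hi hn hXltN STM_c q w (hmemfd w hw)
      rw [STM_QP, mul_one, Nat.cast_one, one_pow, mul_one] at h1
      have h2 : STM_U f q w = ∑ i, tau (f i) 1 STM_c ^ 2 * (‖fam (f i) q w‖ ^ 2 * w.im ^ 2) /
          nr (f i) := by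
        unfold STM_U
        refine Finset.sum_congr rfl fun i _ => ?_
        rw [STM_tau (hn i), one_pow, one_mul]
      rw [h2, hb]
      exact h1.trans (mul_le_mul_of_nonneg_left hwY hC₂.le))
    (fun w hw hwY => hbc N 1 Y le_rfl hY1 hsz1 w (hmemfd w hw) hwY)
  have hcusp := hcp N f hi hn hXltN STM_c (by
    intro m hm
    unfold STM_c
    rw [if_neg (by omega)]) Y hXY hY1 hYN
  rw [STM_QP, mul_one, Nat.cast_one, one_pow, mul_one] at hcusp
  -- the cusp part in terms of the kernel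
  have hcusp2 : ∑ q : PX N, ∫⁻ z in 𝒟ᵒ ∩ {z : ℍ | Y < z.im}, STM_h f ((sg q)⁻¹ • z) ≤
      ENNReal.ofReal (C₃ * (N / Y)) := by
    refine le_trans (le_of_eq ?_) hcusp
    have e1 : ∀ q : PX N, ∫⁻ z in 𝒟ᵒ ∩ {z : ℍ | Y < z.im}, STM_h f ((sg q)⁻¹ • z) =
        ∑ i, ENNReal.ofReal (1 / nr (f i)) * ∫⁻ z in 𝒟ᵒ ∩ {z : ℍ | Y < z.im},
          ‖fam (f i) q z‖ₑ ^ 2 * ENNReal.ofReal (z.im ^ 2) := by
      intro q
      unfold STM_h
      have hm1 : ∀ i, Measurable fun z : ℍ => FRU_h (f i) ((sg q)⁻¹ • z) :=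
        fun i => (FRU_h_meas (f i)).comp (FUN_ms (sg q)⁻¹)
      have hm2 : ∀ i, Measurable fun z : ℍ =>
          ENNReal.ofReal (1 / nr (f i)) * FRU_h (f i) ((sg q)⁻¹ • z) :=
        fun i => (hm1 i).const_mul _
      rw [lintegral_finsetSum _ fun i _ => hm2 i]
      refine Finset.sum_congr rfl fun i _ => ?_
      rw [lintegral_const_mul _ (hm1 i)]
      simp_rw [FRU_fam]
    rw [Finset.sum_congr rfl fun q _ => e1 q, Finset.sum_comm]
    refine Finset.sum_congr rfl fun i _ => ?_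
    rw [STM_tau (hn i), one_pow, Finset.mul_sum]
  -- splitting
  have hsplit : ENNReal.ofReal (Fintype.card ι : ℝ) ≤
      (∫⁻ z in STM_A (K / N), STM_h f z) +
      ((ENNReal.ofReal g * (∑ q : PX N, (volume : Measure ℍ) (𝒟ᵒ \ A' q)) +
        ENNReal.ofReal (B * b * (Real.pi / 3))) + ENNReal.ofReal (C₃ * (N / Y))) := by
    rw [← STM_total f hn, ← hmass]
    refine le_trans ?_ (add_le_add le_rfl (add_le_add hlow hcusp2))
    rw [← Finset.sum_add_distrib, ← Finset.sum_add_distrib]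
    refine Finset.sum_le_sum fun q _ => ?_
    have hset : (𝒟ᵒ : Set ℍ) ⊆ A' q ∪ (((𝒟ᵒ ∩ {z : ℍ | z.im ≤ Y}) \ A' q) ∪
        (𝒟ᵒ ∩ {z : ℍ | Y < z.im})) := by
      intro z hz
      by_cases h1 : z ∈ A' q
      · exact Or.inl h1
      · by_cases h2 : z.im ≤ Y
        · exact Or.inr (Or.inl ⟨⟨hz, h2⟩, h1⟩)
        · exact Or.inr (Or.inr ⟨hz, not_le.1 h2⟩)
    refine (lintegral_mono_set hset).trans ?_
    refine (lintegral_union_le _ _ _).trans ?_
    exact add_le_add le_rfl (lintegral_union_le _ _ _)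
  -- the volume of the complement
  have hvol2 : (∑ q : PX N, (volume : Measure ℍ) (𝒟ᵒ \ A' q)) ≤
      ENNReal.ofReal ((N + 1) * (Real.pi / 3) - 1 / (2 * (K / N))) := by
    have h1 : (∑ q : PX N, (volume : Measure ℍ) (𝒟ᵒ \ A' q)) + ENNReal.ofReal (1 / (2 * (K / N))) ≤
        ENNReal.ofReal ((N + 1) * (Real.pi / 3)) := by
      rw [← hvol, ← Finset.sum_add_distrib]
      have h2 : ∀ q : PX N, (volume : Measure ℍ) (𝒟ᵒ \ A' q) + (volume : Measure ℍ) (A' q) =
          (volume : Measure ℍ) 𝒟ᵒ := by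
        intro q
        rw [add_comm, ← measure_union Set.disjoint_sdiff_right
          (isOpen_fdo.measurableSet.diff (hA' q).1), Set.union_sdiff_cancel (hA' q).2]
      rw [Finset.sum_congr rfl fun q _ => h2 q, Finset.sum_const, Finset.card_univ, card_PX,
        nsmul_eq_mul, ENNReal.ofReal_mul (by positivity)]
      have h3 : ((N + 1 : ℕ) : ℝ≥0∞) = ENNReal.ofReal ((N : ℝ) + 1) := by
        rw [← ENNReal.ofReal_natCast]
        push_cast
        rfl
      rw [h3]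
      exact mul_le_mul_right UBT_vol _
    rw [ENNReal.ofReal_sub _ (by positivity)]
    exact ENNReal.le_sub_of_add_le_right ENNReal.ofReal_ne_top h1
  -- the mass
  have hmass2 : (∫⁻ z in STM_A (K / N), STM_h f z) =
      ENNReal.ofReal (∑ i, om (f i) * STM_m (f i) K) := by
    unfold STM_h
    rw [lintegral_finsetSum _ fun i _ =>
      (FRU_h_meas (f i)).const_mul (ENNReal.ofReal (1 / nr (f i))),
      ENNReal.ofReal_sum_of_nonneg fun i _ => by
        have h1 := hnrpos i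
        have h2 := STM_m_nonneg (f i) hK0
        unfold om
        positivity]
    refine Finset.sum_congr rfl fun i _ => ?_
    have h1 := hnrpos i
    rw [lintegral_const_mul _ (FRU_h_meas (f i)), STM_mass (hn i) hK0,
      ← ENNReal.ofReal_mul (by positivity)]
    congr 1
    unfold om
    field_simp
  have hKN : 1 / (2 * (K / N)) = N / (2 * K) := by field_simp
  rw [hKN] at hvol2
  have hV0 : 0 ≤ (N + 1) * (Real.pi / 3) - N / (2 * K) := by
    have h1 : (N : ℝ) / (2 * K) ≤ N / 4 := by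
      apply div_le_div_of_nonneg_left hN0.le (by norm_num)
      linarith
    have h2 : (1 : ℝ) ≤ Real.pi / 3 := by linarith [Real.pi_gt_three]
    nlinarith
  have hM0 : 0 ≤ ∑ i, om (f i) * STM_m (f i) K := by
    refine Finset.sum_nonneg fun i _ => ?_
    have h1 := hnrpos i
    have h2 := STM_m_nonneg (f i) hK0
    unfold om
    positivity
  have hP1 : 0 ≤ B * b * (Real.pi / 3) := by positivity
  have hP2 : 0 ≤ C₃ * (N / Y) := by positivity
  have hfin : (Fintype.card ι : ℝ) ≤ (∑ i, om (f i) * STM_m (f i) K) +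
      ((g * ((N + 1) * (Real.pi / 3) - N / (2 * K)) + B * b * (Real.pi / 3)) + C₃ * (N / Y)) := by
    have h1 := hsplit.trans (add_le_add le_rfl (add_le_add (add_le_add
      (mul_le_mul_right hvol2 _) le_rfl) le_rfl))
    rw [hmass2, ← ENNReal.ofReal_mul hg0, ← ENNReal.ofReal_add (by positivity) hP1,
      ← ENNReal.ofReal_add (by positivity) hP2, ← ENNReal.ofReal_add hM0 (by positivity),
      ENNReal.ofReal_le_ofReal_iff (by positivity)] at h1
    exact h1
  -- numerical estimates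
  have hm2 : B * b * (Real.pi / 3) ≤ ε / 8 * N := by
    have e1 : B * b * (Real.pi / 3) =
        C₁ * C₂ * (((1 : ℝ) * Y) ^ 12 * ((1 : ℝ) ^ 5 * Y)) * (N : ℝ) ^ (3 / 4 : ℝ) *
          (Real.pi / 3) := by
      rw [hB, hb, Nat.cast_one]; ring
    rw [e1]
    exact UBT_num2 hε (by linarith) hC₂ hN1 le_rfl hY1 hXYp hE2
  have hm3 : C₃ * (N / Y) ≤ ε / 8 * N := by
    have h1 := UBT_num3 hε hC₃ hN1 le_rfl hXN hE3
    rw [one_pow, mul_one] at h1
    exact h1
  have hm1 : g * ((N + 1) * (Real.pi / 3) - N / (2 * K)) ≤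
      (1 / 12 + ε / 2) * N - N / (8 * Real.pi * K) := by
    have e2 : g = (1 + 3 * ε) / (4 * Real.pi) := by
      rw [hg, ← hρ2]
      field_simp
    have e3 : g * ((N + 1) * (Real.pi / 3) - N / (2 * K)) =
        (N + 1) * (1 + 3 * ε) / 12 - (1 + 3 * ε) * (N / (8 * Real.pi * K)) := by
      rw [e2]
      field_simp
      ring
    rw [e3]
    have h3 : 1 + 3 * ε ≤ 3 * ε * N := by
      have h4 := mul_le_mul_of_nonneg_left hE4 (by positivity : (0 : ℝ) ≤ 3 * ε)
      have h5 : 3 * ε * (1 + 1 / (3 * ε)) = 1 + 3 * ε := by field_simp; ring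
      linarith
    have h6 : 0 ≤ N / (8 * Real.pi * K) := by positivity
    have h7 : 0 ≤ ε * (N / (8 * Real.pi * K)) := by positivity
    nlinarith
  have hgoal : (∑ i, om (f i) * STM_m (f i) K) = ∑ i, om (f i) * ∑' n : ℕ, la (f i) n ^ 2 *
        (Real.exp (-4 * Real.pi * n * K / N) - Real.exp (-8 * Real.pi * n * K / N)) := rfl
  rw [← hgoal]
  have hεN : 0 < ε * N := by positivity
  nlinarith

theorem strip_mass : type_of% @strip_mass_pr := @strip_mass_pr

end Pool.Agent.LVB
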