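import Pool.Agent.Lib_helper41.LVB.Defs
import Pool.Agent.Lib_helper68.LEV.LSC
import Pool.Agent.Lib_helper68.LEV.PET
import Pool.Agent.Lib_helper68.LEV.EIA
import Pool.Agent.Lib_helper41.LVBF.LSG
import Pool.Agent.Lib_helper41.LVBF.LSQ
import Pool.Agent.Lib_helper41.LVBF.LSS
import Pool.Agent.Lib_helper41.LVBF.ROU
import Pool.Agent.Lib_helper41.LVBF.STM

namespace Pool.Agent.LVB

open Pool.Agent.LEV Complex MeasureTheory Filter Topology UpperHalfPlane ModularGroup ProbabilityTheory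
open scoped MatrixGroups Modular ENNReal ModularForm ComplexConjugate ContDiff

theorem MAS_la_one {N : ℕ} [Fact N.Prime] {f : S2 N} (hf : IsNew f) : la f 1 = 1 := by
  rw [la, hf.one]
  simp

theorem MAS_la_sq {N : ℕ} [Fact N.Prime] {f : S2 N} (hf : IsNew f) (n : ℕ) :
    ‖co f n‖ ^ 2 / n = la f n ^ 2 := by
  have h : co f n = (((co f n).re : ℝ) : ℂ) := by
    apply Complex.ext
    · simp
    · simp [new_real hf n]
  rw [la, div_pow, Real.sq_sqrt (Nat.cast_nonneg n)]
  conv_lhs => rw [h]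
  rw [Complex.norm_real, Real.norm_eq_abs, sq_abs]

theorem MAS_om {N : ℕ} [Fact N.Prime] {f : S2 N} (hf : IsNew f) : 0 ≤ om f := by
  rw [om]
  have := nr_pos (new_ne_zero hf)
  positivity

/-- the weight -/
noncomputable def MAS_W (y : ℝ) (n : ℕ) : ℝ := Real.exp (-(n * y)) - Real.exp (-(2 * (n * y)))

theorem MAS_W_nonneg {y : ℝ} (hy : 0 < y) (n : ℕ) : 0 ≤ MAS_W y n := by
  have : (0 : ℝ) ≤ n * y := by positivity
  exact sub_nonneg.2 (Real.exp_le_exp.2 (by linarith))

theorem MAS_W_le {y : ℝ} (n : ℕ) : MAS_W y n ≤ Real.exp (-(n * y)) :=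
  sub_le_self _ (Real.exp_pos _).le

theorem MAS_W_ge {y : ℝ} (n : ℕ) : Real.exp (-(2 * (n * y))) * (n * y) ≤ MAS_W y n := by
  have h1 : (n * y : ℝ) + 1 ≤ Real.exp (n * y) := Real.add_one_le_exp _
  have h2 : Real.exp (-(n * y)) = Real.exp (-(2 * (n * y))) * Real.exp (n * y) := by
    rw [← Real.exp_add]
    congr 1
    ring
  rw [MAS_W, h2]
  have h3 := Real.exp_pos (-(2 * (n * y)))
  nlinarith

theorem MAS_exp_lt {y : ℝ} (hy : 0 < y) : Real.exp (-y) < 1 := by
  rw [Real.exp_lt_one_iff] <;> linarith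

theorem MAS_summ {y : ℝ} (hy : 0 < y) : Summable fun n : ℕ => Real.exp (-(n * y)) := by
  have h := summable_geometric_of_lt_one (Real.exp_pos (-y)).le (MAS_exp_lt hy)
  refine h.congr fun n => ?_
  rw [← Real.exp_nat_mul]
  congr 1
  ring

theorem MAS_tsum {y : ℝ} (hy : 0 < y) : ∑' n : ℕ, Real.exp (-(n * y)) = (1 - Real.exp (-y))⁻¹ := by
  rw [← tsum_geometric_of_lt_one (Real.exp_pos (-y)).le (MAS_exp_lt hy)]
  refine tsum_congr fun n => ?_
  rw [← Real.exp_nat_mul]
  congr 1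
  ring

/-- total weight -/
theorem MAS_W_sum {y : ℝ} (hy : 0 < y) (s : Finset ℕ) : ∑ n ∈ s, MAS_W y n ≤ 1 / (2 * y) := by
  have h1 := MAS_summ hy
  have h2 := MAS_summ (y := 2 * y) (by linarith)
  have h2' : Summable fun n : ℕ => Real.exp (-(2 * (n * y))) :=
    h2.congr fun n => by congr 1; ring
  have h3 : Summable (MAS_W y) := h1.sub h2'
  refine (h3.sum_le_tsum s fun n _ => MAS_W_nonneg hy n).trans ?_
  have h4 : ∑' n : ℕ, MAS_W y n = (1 - Real.exp (-y))⁻¹ - (1 - Real.exp (-(2 * y)))⁻¹ := by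
    have h5 : ∑' n : ℕ, Real.exp (-(2 * (n * y))) = (1 - Real.exp (-(2 * y)))⁻¹ := by
      rw [← MAS_tsum (y := 2 * y) (by linarith)]
      exact tsum_congr fun n => by congr 1; ring
    rw [← MAS_tsum hy, ← h5]
    exact h1.tsum_sub h2'
  rw [h4]
  set u := Real.exp (-y) with hu
  have hu0 : 0 < u := Real.exp_pos _
  have hu1 : u < 1 := MAS_exp_lt hy
  have hu2 : Real.exp (-(2 * y)) = u ^ 2 := by
    rw [hu, ← Real.exp_nat_mul]
    congr 1
    push_cast
    ring
  rw [hu2]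
  have hs : y ≤ Real.sinh y := Real.self_le_sinh_iff.2 hy.le
  have hs2 : Real.sinh y = (1 - u ^ 2) / (2 * u) := by
    rw [Real.sinh_eq, ← hu]
    have : Real.exp y = u⁻¹ := by rw [hu, Real.exp_neg, inv_inv]
    rw [this]
    field_simp
  rw [hs2] at hs
  have h6 : (1 - u)⁻¹ - (1 - u ^ 2)⁻¹ = u / (1 - u ^ 2) := by
    have h7 : 1 - u ≠ 0 := by linarith
    have h8 : (1 : ℝ) - u ^ 2 ≠ 0 := by nlinarith
    rw [inv_sub_inv h7 h8]
    rw [div_eq_div_iff (mul_ne_zero h7 h8) h8]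
    ring
  rw [h6]
  have h9 : 0 < 1 - u ^ 2 := by nlinarith
  rw [div_le_div_iff₀ h9 (by positivity)]
  rw [le_div_iff₀ (by positivity)] at hs
  nlinarith

/-- geometric sums -/
theorem MAS_geo {x : ℝ} (hx : 0 < x) (s : Finset ℕ) (hs : ∀ n ∈ s, 1 ≤ n) :
    ∑ n ∈ s, Real.exp (-(n * x)) ≤ 1 / x := by
  have h1 := MAS_summ hx
  have h2 : ∑ n ∈ insert 0 s, Real.exp (-(n * x)) ≤ (1 - Real.exp (-x))⁻¹ := by
    rw [← MAS_tsum hx]
    exact h1.sum_le_tsum _ fun n _ => (Real.exp_pos _).le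
  have h0 : (0 : ℕ) ∉ s := fun h => by simpa using hs 0 h
  rw [Finset.sum_insert h0] at h2
  simp only [Nat.cast_zero, zero_mul, neg_zero, Real.exp_zero] at h2
  have h3 : (1 - Real.exp (-x))⁻¹ - 1 ≤ 1 / x := by
    have h4 : 0 < 1 - Real.exp (-x) := by linarith [MAS_exp_lt hx]
    have h5 : x + 1 ≤ Real.exp x := Real.add_one_le_exp x
    have h6 : Real.exp (-x) * Real.exp x = 1 := by rw [← Real.exp_add]; simp
    have h7 : (1 - Real.exp (-x))⁻¹ - 1 = Real.exp (-x) / (1 - Real.exp (-x)) := by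
      field_simp
      ring
    rw [h7, div_le_div_iff₀ h4 hx]
    have h8 := Real.exp_pos (-x)
    nlinarith
  linarith

/-- the tail -/
theorem MAS_tail {y B : ℝ} (hy : 0 < y) (hB : 0 < B) (hyB : 4 ≤ y * B) {n₀ : ℕ} {q : ℝ}
    (hq : 2 * q ≤ n₀ * y) (hn₀ : 1 ≤ n₀) :
    (Summable fun k : ℕ => (1 + ((k + n₀ : ℕ) : ℝ) / B) * Real.exp (-(((k + n₀ : ℕ) : ℝ) * y))) ∧
    ∑' k : ℕ, (1 + ((k + n₀ : ℕ) : ℝ) / B) * Real.exp (-(((k + n₀ : ℕ) : ℝ) * y)) ≤
      Real.exp (-q) * (8 / y) := by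
  have hle : ∀ k : ℕ, (1 + ((k + n₀ : ℕ) : ℝ) / B) * Real.exp (-(((k + n₀ : ℕ) : ℝ) * y)) ≤
      Real.exp (-q) * (2 * Real.exp (-(((k + n₀ : ℕ) : ℝ) * (y / 4)))) := by
    intro k
    set n : ℝ := ((k + n₀ : ℕ) : ℝ) with hn
    have hn0 : 0 ≤ n := Nat.cast_nonneg _
    have hnn : (n₀ : ℝ) ≤ n := by rw [hn]; push_cast; linarith [(Nat.cast_nonneg k : (0 : ℝ) ≤ k)]
    have h1 : Real.exp (-(n * y)) = Real.exp (-(n * y / 2)) * (Real.exp (-(n * (y / 4))) *
        Real.exp (-(n * (y / 4)))) := by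
      rw [← Real.exp_add, ← Real.exp_add]
      congr 1
      ring
    have h2 : Real.exp (-(n * y / 2)) ≤ Real.exp (-q) := by
      refine Real.exp_le_exp.2 ?_
      have : (n₀ : ℝ) * y ≤ n * y := mul_le_mul_of_nonneg_right hnn hy.le
      linarith
    have h3 : (1 + n / B) * Real.exp (-(n * (y / 4))) ≤ 2 := by
      have h4 : n * (y / 4) + 1 ≤ Real.exp (n * (y / 4)) := Real.add_one_le_exp _
      have h5 : Real.exp (-(n * (y / 4))) * Real.exp (n * (y / 4)) = 1 := by
        rw [← Real.exp_add]; simp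
      have h6 : n / B ≤ n * (y / 4) := by
        rw [div_le_iff₀ hB]
        nlinarith
      have h7 := Real.exp_pos (-(n * (y / 4)))
      have h8 : 1 + n / B ≤ Real.exp (n * (y / 4)) := by linarith
      calc (1 + n / B) * Real.exp (-(n * (y / 4)))
          ≤ Real.exp (n * (y / 4)) * Real.exp (-(n * (y / 4))) :=
            mul_le_mul_of_nonneg_right h8 h7.le
        _ = 1 := by rw [mul_comm]; exact h5
        _ ≤ 2 := by norm_num
    calc (1 + n / B) * Real.exp (-(n * y))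
        = Real.exp (-(n * y / 2)) * (((1 + n / B) * Real.exp (-(n * (y / 4)))) *
            Real.exp (-(n * (y / 4)))) := by rw [h1]; ring
      _ ≤ Real.exp (-q) * (2 * Real.exp (-(n * (y / 4)))) := by
          refine mul_le_mul h2 (mul_le_mul_of_nonneg_right h3 (Real.exp_pos _).le)
            (by positivity) (Real.exp_pos _).le
  have hS : Summable fun k : ℕ => Real.exp (-(((k + n₀ : ℕ) : ℝ) * (y / 4))) :=
    (summable_nat_add_iff (f := fun n : ℕ => Real.exp (-((n : ℝ) * (y / 4)))) n₀).2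
      (MAS_summ (by positivity))
  have hS2 := (hS.mul_left 2).mul_left (Real.exp (-q))
  have hS3 : Summable fun k : ℕ => (1 + ((k + n₀ : ℕ) : ℝ) / B) *
      Real.exp (-(((k + n₀ : ℕ) : ℝ) * y)) :=
    Summable.of_nonneg_of_le (fun k => by positivity) hle hS2
  refine ⟨hS3, (hS3.tsum_le_tsum hle hS2).trans ?_⟩
  rw [tsum_mul_left, tsum_mul_left]
  refine mul_le_mul_of_nonneg_left ?_ (Real.exp_pos _).le
  have h9 : ∑' k : ℕ, Real.exp (-(((k + n₀ : ℕ) : ℝ) * (y / 4))) ≤ 1 / (y / 4) := by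
    refine hS.tsum_le_of_sum_le fun s => ?_
    have h10 := MAS_geo (x := y / 4) (by positivity) (s.image (fun k => k + n₀)) (by
      intro n hn
      obtain ⟨k, _, rfl⟩ := Finset.mem_image.1 hn
      omega)
    rw [Finset.sum_image (fun a _ b _ h => Nat.add_right_cancel h)] at h10
    exact h10
  calc 2 * ∑' k : ℕ, Real.exp (-(((k + n₀ : ℕ) : ℝ) * (y / 4))) ≤ 2 * (1 / (y / 4)) := by linarith
    _ = 8 / y := by field_simp; ring

theorem MAS_log : Tendsto (fun w : ℕ => Real.log ((w ^ 2 : ℕ) : ℝ) ^ 2 / w) atTop (𝓝 0) := by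
  have h := (Real.isLittleO_pow_log_id_atTop (n := 2)).tendsto_div_nhds_zero
  have h1 := (h.comp tendsto_natCast_atTop_atTop).const_mul (4 : ℝ)
  rw [mul_zero] at h1
  refine h1.congr fun w => ?_
  simp only [Function.comp_apply, id]
  push_cast
  rw [Real.log_pow]
  push_cast
  ring

/-- the harmonic mass tends to one -/
theorem mass_one_pr {ε : ℝ} (hε : 0 < ε) : ∃ N₀ : ℕ, ∀ (N : ℕ) [Fact N.Prime],
    N₀ ≤ N → ∀ {ι : Type} [Fintype ι] (f : ι → S2 N), AllNew f → 1 - ε ≤ ∑ i, om (f i) := by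
  classical
  obtain ⟨C₁, hC₁, hls⟩ := ls_one
  obtain ⟨C₂, hC₂, hsq⟩ := sq_sieve
  obtain ⟨c₁, hc₁, hrc⟩ := rough_count
  have hpi := Real.pi_pos
  -- constants
  set κ : ℝ := Real.exp (-(8 * Real.pi)) * Real.pi * c₁ ^ 2 / 4 with hκ
  have hκp : 0 < κ := by positivity
  set c₃ : ℝ := Real.sqrt (Real.exp (8 * Real.pi) * C₂) with hc₃
  have hc₃0 : 0 ≤ c₃ := Real.sqrt_nonneg _
  set c₄ : ℝ := Real.exp (8 * Real.pi) + C₁ + c₃ with hc₄
  have hc₄0 : 0 < c₄ := by positivity
  -- choice of `z = w ^ 2`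
  obtain ⟨w, hw2, hwε⟩ : ∃ w : ℕ, 2 ≤ w ∧ c₃ / κ * (Real.log ((w ^ 2 : ℕ) : ℝ) ^ 2 / w) ≤ ε / 4 := by
    have h1 : Tendsto (fun w : ℕ => c₃ / κ * (Real.log ((w ^ 2 : ℕ) : ℝ) ^ 2 / w)) atTop (𝓝 0) := by
      simpa using MAS_log.const_mul (c₃ / κ)
    obtain ⟨w, hw⟩ := ((h1.eventually (gt_mem_nhds (by positivity : (0 : ℝ) < ε / 4))).and
      (eventually_ge_atTop 2)).exists
    exact ⟨w, hw.2, hw.1.le⟩
  set z : ℕ := w ^ 2 with hz
  have hwr : (2 : ℝ) ≤ w := by exact_mod_cast hw2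
  have hz2 : 2 ≤ z := by
    have : w ≤ w ^ 2 := Nat.le_self_pow (by norm_num) w
    omega
  have hzr : (2 : ℝ) ≤ z := by exact_mod_cast hz2
  have hlz : 0 < Real.log z := Real.log_pos (by linarith)
  obtain ⟨T₀, hT₀⟩ := hrc z hz2
  set Λ : ℝ := Real.log z ^ 2 / κ with hΛ
  have hΛp : 0 < Λ := by positivity
  -- choice of `k`
  obtain ⟨k, hk2, hkε⟩ : ∃ k : ℕ, 2 ≤ k ∧ Λ * (c₄ / k) ≤ ε / 4 := by
    obtain ⟨k, hk⟩ := exists_nat_ge (4 * Λ * c₄ / ε + 2)
    have hk2 : (2 : ℝ) ≤ k := le_trans (by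
      have : 0 ≤ 4 * Λ * c₄ / ε := by positivity
      linarith) hk
    refine ⟨k, by exact_mod_cast hk2, ?_⟩
    have hkp : (0 : ℝ) < k := by linarith
    have h1 : 4 * Λ * c₄ / ε ≤ k := by linarith
    rw [div_le_iff₀ hε] at h1
    rw [← mul_div_assoc, div_le_iff₀ hkp]
    linarith
  have hkr : (2 : ℝ) ≤ k := by exact_mod_cast hk2
  have hkp : (0 : ℝ) < k := by linarith
  -- choice of `ε₁`
  set ε₁ : ℝ := ε / (4 * Λ * k ^ 4) with hε₁
  have hε₁p : 0 < ε₁ := by positivity
  obtain ⟨N₁, hN₁⟩ := strip_mass (K := (k : ℝ) ^ 4) (by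
    have : (2 : ℝ) ^ 4 ≤ (k : ℝ) ^ 4 := pow_le_pow_left₀ (by norm_num) hkr 4
    linarith) hε₁p
  refine ⟨max N₁ (k ^ 4 * (T₀ + 2)), ?_⟩
  intro N _ hN ι _ f hf
  have hNN₁ : N₁ ≤ N := le_trans (le_max_left _ _) hN
  have hNk : k ^ 4 * (T₀ + 2) ≤ N := le_trans (le_max_right _ _) hN
  have hNp : (0 : ℝ) < N := by exact_mod_cast (Fact.out : N.Prime).pos
  have hi := hf.1
  have hn : ∀ i, IsNew (f i) := fun i => (hf.2 (f i)).2 ⟨i, rfl⟩
  have hom : ∀ i, 0 ≤ om (f i) := fun i => MAS_om (hn i)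
  have hmass := hN₁ N hNN₁ f hf
  -- parameters
  set y : ℝ := 4 * Real.pi * k ^ 4 / N with hy
  have hyp : 0 < y := by positivity
  set B : ℝ := N / k ^ 4 with hB
  have hBp : 0 < B := by positivity
  have hyB : y * B = 4 * Real.pi := by rw [hy, hB]; field_simp
  set X : ℕ := N / k ^ 2 with hX
  set t : ℕ := N / k ^ 4 with ht
  have hk4 : 0 < k ^ 4 := by positivity
  have hk2' : 0 < k ^ 2 := by positivity
  have htT : T₀ + 2 ≤ t := (Nat.le_div_iff_mul_le hk4).2 (by rw [mul_comm]; exact hNk)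
  have htX : t ≤ X := Nat.div_le_div_left (Nat.pow_le_pow_right (by omega) (by norm_num)) hk2'
  have hX1 : 1 ≤ X := by omega
  have hXN : X < N := Nat.div_lt_self (Fact.out : N.Prime).pos (by
    have : 2 ^ 2 ≤ k ^ 2 := Nat.pow_le_pow_left hk2 2
    omega)
  have hXr : (X : ℝ) ≤ N / k ^ 2 := by
    have := @Nat.cast_div_le ℝ _ _ _ N (k ^ 2)
    push_cast at this
    exact this
  have htB : (t : ℝ) ≤ B := by
    have := @Nat.cast_div_le ℝ _ _ _ N (k ^ 4)
    push_cast at this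
    exact this
  have htB2 : B ≤ 2 * t := by
    have h1 : N < (t + 1) * k ^ 4 := by
      have := Nat.lt_div_mul_add (a := N) hk4
      rw [Nat.add_mul, one_mul]
      exact this
    have h2 : (N : ℝ) ≤ (t + 1) * k ^ 4 := by exact_mod_cast h1.le
    have h3 : (1 : ℝ) ≤ t := by exact_mod_cast (by omega : 1 ≤ t)
    rw [hB, div_le_iff₀ (by positivity)]
    have h4 : (0 : ℝ) < k ^ 4 := by positivity
    have h5 : ((t : ℝ) + 1) * k ^ 4 ≤ 2 * t * k ^ 4 :=
      mul_le_mul_of_nonneg_right (by linarith only [h3]) h4.le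
    exact h2.trans h5
  -- the weights
  have hW : ∀ n : ℕ, Real.exp (-4 * Real.pi * n * (k : ℝ) ^ 4 / N) -
      Real.exp (-8 * Real.pi * n * (k : ℝ) ^ 4 / N) = MAS_W y n := by
    intro n
    rw [MAS_W, hy]
    congr 2 <;> ring
  simp only [hW] at hmass
  -- summability
  have hsum : ∀ i, Summable fun n : ℕ => la (f i) n ^ 2 * Real.exp (-(n * y)) := by
    intro i
    have h1 := (strip_sum (f i) (y := (k : ℝ) ^ 4 / N) (by positivity)).1
    refine (h1.mul_left (4 * Real.pi)).congr fun n => ?_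
    rw [← MAS_la_sq (hn i) n, hy]
    rcases Nat.eq_zero_or_pos n with h0 | h0
    · subst h0; simp
    · have h2 : (0 : ℝ) < n := by exact_mod_cast h0
      have h3 : -4 * Real.pi * (n : ℝ) * ((k : ℝ) ^ 4 / N) = -(n * (4 * Real.pi * k ^ 4 / N)) := by
        ring
      rw [h3]
      field_simp
  have hsumW : ∀ i, Summable fun n : ℕ => la (f i) n ^ 2 * MAS_W y n := by
    intro i
    refine Summable.of_nonneg_of_le (fun n => mul_nonneg (sq_nonneg _) (MAS_W_nonneg hyp n))
      (fun n => mul_le_mul_of_nonneg_left (MAS_W_le n) (sq_nonneg _)) (hsum i)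
  set Q : ℕ → ℝ := fun n => ∑ i, om (f i) * la (f i) n ^ 2 with hQ
  have hQ0 : ∀ n, 0 ≤ Q n := fun n => Finset.sum_nonneg fun i _ => mul_nonneg (hom i) (sq_nonneg _)
  -- split of the mass
  have hsplit : ∑ i, om (f i) * ∑' n : ℕ, la (f i) n ^ 2 * MAS_W y n =
      ∑ n ∈ Finset.range (X + 1), Q n * MAS_W y n +
        ∑' j : ℕ, Q (j + (X + 1)) * MAS_W y (j + (X + 1)) := by
    have h1 : ∀ i, ∑' n : ℕ, la (f i) n ^ 2 * MAS_W y n =
        ∑ n ∈ Finset.range (X + 1), la (f i) n ^ 2 * MAS_W y n +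
          ∑' j : ℕ, la (f i) (j + (X + 1)) ^ 2 * MAS_W y (j + (X + 1)) := fun i =>
      ((hsumW i).sum_add_tsum_nat_add (X + 1)).symm
    simp only [h1, mul_add, Finset.sum_add_distrib]
    congr 1
    · simp only [Finset.mul_sum]
      rw [Finset.sum_comm]
      refine Finset.sum_congr rfl fun n _ => ?_
      rw [hQ, Finset.sum_mul]
      exact Finset.sum_congr rfl fun i _ => by ring
    · have h2 : ∀ i, Summable fun j : ℕ => om (f i) * (la (f i) (j + (X + 1)) ^ 2 *
          MAS_W y (j + (X + 1))) := fun i =>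
        ((summable_nat_add_iff (f := fun n => la (f i) n ^ 2 * MAS_W y n) (X + 1)).2
          (hsumW i)).mul_left _
      simp only [← tsum_mul_left]
      rw [← Summable.tsum_finsetSum fun i _ => h2 i]
      refine tsum_congr fun j => ?_
      rw [hQ, Finset.sum_mul]
      exact Finset.sum_congr rfl fun i _ => by ring
  -- the tail
  have htail : ∑' j : ℕ, Q (j + (X + 1)) * MAS_W y (j + (X + 1)) ≤
      C₁ * (Real.exp (-(2 * Real.pi * k ^ 2)) * (8 / y)) := by
    obtain ⟨h1, h2⟩ := MAS_tail (y := y) (B := N) hyp hNp (by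
      have : y * N = 4 * Real.pi * k ^ 4 := by rw [hy]; field_simp
      rw [this]
      have h3 : (1 : ℝ) ≤ k ^ 4 := one_le_pow₀ (by linarith)
      have h4 := Real.pi_gt_three
      nlinarith only [h3, h4]) (n₀ := X + 1) (q := 2 * Real.pi * k ^ 2) (by
      have h3 : N < (X + 1) * k ^ 2 := by
        have := Nat.lt_div_mul_add (a := N) hk2'
        rw [Nat.add_mul, one_mul]
        exact this
      have h4 : (N : ℝ) ≤ ((X + 1 : ℕ) : ℝ) * k ^ 2 := by exact_mod_cast h3.le
      have h5 : ((X + 1 : ℕ) : ℝ) * y = 4 * Real.pi * k ^ 2 * ((((X + 1 : ℕ) : ℝ) * k ^ 2) / N) := by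
        rw [hy]; ring
      rw [h5]
      have h6 : 1 ≤ (((X + 1 : ℕ) : ℝ) * k ^ 2) / N := by
        rw [le_div_iff₀ hNp, one_mul]
        exact h4
      have h7 : 0 ≤ 4 * Real.pi * (k : ℝ) ^ 2 := by positivity
      nlinarith only [h6, h7]) (by omega)
    have h3 : ∀ j : ℕ, Q (j + (X + 1)) * MAS_W y (j + (X + 1)) ≤
        C₁ * ((1 + ((j + (X + 1) : ℕ) : ℝ) / N) * Real.exp (-(((j + (X + 1) : ℕ) : ℝ) * y))) := by
      intro j
      have h4 := hls N f hi hn (j + (X + 1)) (by omega)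
      calc Q (j + (X + 1)) * MAS_W y (j + (X + 1))
          ≤ (C₁ * (1 + ((j + (X + 1) : ℕ) : ℝ) / N)) *
              Real.exp (-(((j + (X + 1) : ℕ) : ℝ) * y)) :=
            mul_le_mul h4 (MAS_W_le _) (MAS_W_nonneg hyp _) (by positivity)
        _ = _ := by ring
    have h5 : Summable fun j : ℕ => Q (j + (X + 1)) * MAS_W y (j + (X + 1)) :=
      Summable.of_nonneg_of_le (fun j => mul_nonneg (hQ0 _) (MAS_W_nonneg hyp _)) h3
        (h1.mul_left C₁)
    refine (h5.tsum_le_tsum h3 (h1.mul_left C₁)).trans ?_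
    rw [tsum_mul_left]
    exact mul_le_mul_of_nonneg_left h2 hC₁.le
  -- main part
  set E8 : ℝ := Real.exp (8 * Real.pi * (1 / k)) with hE8
  have hE8a : E8 ≤ Real.exp (8 * Real.pi) := by
    refine Real.exp_le_exp.2 ?_
    have : (1 : ℝ) / k ≤ 1 := by rw [div_le_one hkp]; linarith only [hkr]
    nlinarith only [this, hpi]
  have hE8b : 1 ≤ E8 := Real.one_le_exp (by positivity)
  have hE8c : E8 - 1 ≤ Real.exp (8 * Real.pi) * (8 * Real.pi * (1 / k)) := by
    have h1 : 1 - 8 * Real.pi * (1 / k) ≤ Real.exp (-(8 * Real.pi * (1 / k))) := by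
      have := Real.add_one_le_exp (-(8 * Real.pi * (1 / (k : ℝ))))
      linarith
    have h2 : E8 * Real.exp (-(8 * Real.pi * (1 / k))) = 1 := by
      rw [hE8, ← Real.exp_add]; simp
    have h3 : E8 * (1 - 8 * Real.pi * (1 / k)) ≤ 1 := by
      calc E8 * (1 - 8 * Real.pi * (1 / k)) ≤ E8 * Real.exp (-(8 * Real.pi * (1 / k))) :=
            mul_le_mul_of_nonneg_left h1 (by linarith)
        _ = 1 := h2
    have h4 : E8 * (8 * Real.pi * (1 / k)) ≤ Real.exp (8 * Real.pi) * (8 * Real.pi * (1 / k)) :=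
      mul_le_mul_of_nonneg_right hE8a (by positivity)
    linarith only [h3, h4]
  have hQE : ∀ n, 1 ≤ n → n ≤ X → Q n ≤ E8 := by
    intro n hn1 hnX
    have h1 := ls_sharp f hi hn (ν := 1 / (k : ℝ)) (by positivity) (by
      rw [div_lt_one hkp]; linarith) hX1 (by
      calc (X : ℝ) ≤ N / k ^ 2 := hXr
        _ = (1 / (k : ℝ)) ^ 2 * N := by field_simp) (fun m => if m = n then 1 else 0) 0
    have h2 : ∀ i, (∑ m ∈ Finset.Icc 1 X, (if m = n then (1 : ℝ) else 0) * la (f i) m) =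
        la (f i) n := by
      intro i
      rw [Finset.sum_eq_single n]
      · simp
      · intro m _ hm
        simp [hm]
      · intro hm
        exact absurd (Finset.mem_Icc.2 ⟨hn1, hnX⟩) hm
    have h3 : (∑ m ∈ Finset.Icc 1 X, (if m = n then (1 : ℝ) else 0) ^ 2) = 1 := by
      rw [Finset.sum_eq_single n]
      · simp
      · intro m _ hm
        simp [hm]
      · intro hm
        exact absurd (Finset.mem_Icc.2 ⟨hn1, hnX⟩) hm
    simp only [h2, h3, zero_mul, add_zero] at h1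
    norm_num at h1
    rw [hQ, hE8]
    simpa using h1
  set M : ℝ := ∑ i, om (f i) with hM
  have hM1 : M = Q 1 := by
    rw [hQ, hM]
    refine Finset.sum_congr rfl fun i _ => ?_
    rw [MAS_la_one (hn i)]
    ring
  have hM0 : 0 ≤ M := Finset.sum_nonneg fun i _ => hom i
  have hME : M ≤ E8 := by rw [hM1]; exact hQE 1 (le_refl _) hX1
  have hicc : ∑ n ∈ Finset.range (X + 1), Q n * MAS_W y n = ∑ n ∈ Finset.Icc 1 X, Q n * MAS_W y n := by
    have h2 : Finset.range (X + 1) = insert 0 (Finset.Icc 1 X) := by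
      ext m; simp only [Finset.mem_range, Finset.mem_insert, Finset.mem_Icc]; omega
    rw [h2, Finset.sum_insert (by simp)]
    simp [MAS_W]
  -- the error
  set Err : ℝ := (E8 - 1) * (1 / (2 * y)) + ε₁ * N +
    C₁ * (Real.exp (-(2 * Real.pi * k ^ 2)) * (8 / y)) with hErr
  have h8 : (N : ℝ) / (8 * Real.pi * k ^ 4) = 1 / (2 * y) := by
    rw [hy]; field_simp; ring
  have hA : ∑ n ∈ Finset.Icc 1 X, (E8 - Q n) * MAS_W y n ≤ Err := by
    have h1 : ∑ n ∈ Finset.Icc 1 X, (E8 - Q n) * MAS_W y n =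
        E8 * ∑ n ∈ Finset.Icc 1 X, MAS_W y n - ∑ n ∈ Finset.Icc 1 X, Q n * MAS_W y n := by
      rw [Finset.mul_sum, ← Finset.sum_sub_distrib]
      exact Finset.sum_congr rfl fun n _ => by ring
    have h2 := MAS_W_sum hyp (Finset.Icc 1 X)
    have h3 : E8 * ∑ n ∈ Finset.Icc 1 X, MAS_W y n ≤ E8 * (1 / (2 * y)) :=
      mul_le_mul_of_nonneg_left h2 (by linarith)
    rw [hsplit, hicc, h8] at hmass
    rw [h1, hErr]
    linarith
  have hB' : ∑ n ∈ (Finset.Icc 1 X).filter (fun n => rough z n), (E8 - Q n) * MAS_W y n ≤ Err := by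
    refine le_trans ?_ hA
    refine Finset.sum_le_sum_of_subset_of_nonneg (Finset.filter_subset _ _) ?_
    intro n hn' _
    obtain ⟨h1, h2⟩ := Finset.mem_Icc.1 hn'
    exact mul_nonneg (sub_nonneg.2 (hQE n h1 h2)) (MAS_W_nonneg hyp n)
  -- the sums over multiples
  set G : ℕ → ℝ := fun d => ∑ m ∈ (Finset.Icc 1 X).filter (fun m => rough z m ∧ d * m ≤ X),
    MAS_W y (d * m) with hG
  set R : ℝ := ∑ n ∈ (Finset.Icc 1 X).filter (fun n => rough z n), MAS_W y n with hR
  have hG1 : G 1 = R := by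
    rw [hG, hR]
    simp only [one_mul]
    refine Finset.sum_congr ?_ fun _ _ => rfl
    ext m
    simp only [Finset.mem_filter, Finset.mem_Icc]
    tauto
  have hG0 : ∀ d, 0 ≤ G d := fun d => Finset.sum_nonneg fun m _ => MAS_W_nonneg hyp _
  have hGd : ∀ d : ℕ, 1 ≤ d → y * G d ≤ 1 / d := by
    intro d hd
    have hd0 : (0 : ℝ) < d := by exact_mod_cast hd
    have h1 : G d ≤ 1 / (d * y) := by
      rw [hG]
      refine le_trans (Finset.sum_le_sum fun m _ => MAS_W_le (d * m)) ?_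
      have h2 := MAS_geo (x := d * y) (by positivity)
        ((Finset.Icc 1 X).filter (fun m => rough z m ∧ d * m ≤ X))
        (fun m hm => (Finset.mem_Icc.1 (Finset.mem_filter.1 hm).1).1)
      refine le_trans (le_of_eq ?_) h2
      refine Finset.sum_congr rfl fun m _ => ?_
      congr 1
      push_cast
      ring
    calc y * G d ≤ y * (1 / (d * y)) := mul_le_mul_of_nonneg_left h1 hyp.le
      _ = 1 / d := by field_simp
  set g : ℕ → ℝ := fun d => if rough z d then y * G d else 0 with hg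
  have hgb : ∀ d, 1 ≤ d → |g d| ≤ 1 / d := by
    intro d hd
    rw [hg]
    simp only
    split_ifs
    · rw [abs_of_nonneg (mul_nonneg hyp.le (hG0 d))]
      exact hGd d hd
    · rw [abs_zero]; positivity
  have hL := hsq N f hi hn (z + 1) X (by omega) hXN.le g hgb
  set S : ι → ℝ := fun i => ∑ d ∈ Finset.Icc (z + 1) X, g d * la (f i) (d ^ 2) with hS
  have hdec : ∀ i, ∑ n ∈ (Finset.Icc 1 X).filter (fun n => rough z n),
      la (f i) n ^ 2 * MAS_W y n = R + 1 / y * S i := by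
    intro i
    have h1 := rough_sum (hn i) (z := z) hXN (MAS_W y)
    rw [h1]
    have h2 : (1 : ℕ) ∈ (Finset.Icc 1 X).filter (fun d => rough z d) := by
      refine Finset.mem_filter.2 ⟨Finset.mem_Icc.2 ⟨le_refl _, hX1⟩, ?_⟩
      intro p hp hp1
      exact absurd (Nat.dvd_one.1 hp1) hp.one_lt.ne'
    rw [← Finset.add_sum_erase _ _ h2]
    congr 1
    · rw [one_pow, MAS_la_one (hn i), one_mul]
      exact hG1
    · rw [hS, Finset.mul_sum]
      have h3 : ∑ d ∈ Finset.Icc (z + 1) X, 1 / y * (g d * la (f i) (d ^ 2)) =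
          ∑ d ∈ (Finset.Icc (z + 1) X).filter (fun d => rough z d),
            la (f i) (d ^ 2) * G d := by
        rw [Finset.sum_filter]
        refine Finset.sum_congr rfl fun d _ => ?_
        rw [hg]
        simp only
        split_ifs
        · field_simp
        · ring
      rw [h3]
      refine Finset.sum_congr ?_ fun d _ => rfl
      ext d
      simp only [Finset.mem_erase, Finset.mem_filter, Finset.mem_Icc]
      constructor
      · rintro ⟨h4, ⟨h5, h6⟩, h7⟩
        refine ⟨⟨?_, h6⟩, h7⟩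
        obtain ⟨p, hp, hpd⟩ := Nat.exists_prime_and_dvd h4
        have h8 := h7 p hp hpd
        have h9 := Nat.le_of_dvd (by omega) hpd
        omega
      · rintro ⟨⟨h4, h5⟩, h6⟩
        exact ⟨by omega, ⟨by omega, h5⟩, h6⟩
  have hQR : ∑ n ∈ (Finset.Icc 1 X).filter (fun n => rough z n), Q n * MAS_W y n =
      M * R + 1 / y * ∑ i, om (f i) * S i := by
    have h1 : ∑ n ∈ (Finset.Icc 1 X).filter (fun n => rough z n), Q n * MAS_W y n =
        ∑ i, om (f i) * ∑ n ∈ (Finset.Icc 1 X).filter (fun n => rough z n),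
          la (f i) n ^ 2 * MAS_W y n := by
      simp only [Finset.mul_sum]
      rw [Finset.sum_comm]
      refine Finset.sum_congr rfl fun n _ => ?_
      rw [hQ, Finset.sum_mul]
      exact Finset.sum_congr rfl fun i _ => by ring
    rw [h1]
    have hA1 : ∑ i, om (f i) * R = M * R := by rw [← Finset.sum_mul]
    have hB1 : ∑ i, om (f i) * (1 / y * S i) = 1 / y * ∑ i, om (f i) * S i := by
      rw [Finset.mul_sum]
      exact Finset.sum_congr rfl fun i _ => mul_left_comm _ _ _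
    simp only [hdec, mul_add, Finset.sum_add_distrib]
    rw [hA1, hB1]
  -- Cauchy-Schwarz
  have hCS : |∑ i, om (f i) * S i| ≤ c₃ * (1 / w + 1 / k) := by
    have h1 : (∑ i, om (f i) * S i) ^ 2 ≤ M * ∑ i, om (f i) * S i ^ 2 := by
      have := Finset.sum_sq_le_sum_mul_sum_of_sq_eq_mul Finset.univ
        (r := fun i => om (f i) * S i) (f := fun i => om (f i)) (g := fun i => om (f i) * S i ^ 2)
        (fun i _ => hom i) (fun i _ => mul_nonneg (hom i) (sq_nonneg _)) (fun i _ => by ring)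
      exact this
    have h2 : 1 / ((z + 1 : ℕ) : ℝ) + X / N ≤ (1 / w + 1 / k) ^ 2 := by
      have hwp : (0 : ℝ) < w := by linarith
      have h3 : 1 / ((z + 1 : ℕ) : ℝ) ≤ (1 / w) ^ 2 := by
        rw [one_div_pow]
        refine one_div_le_one_div_of_le (by positivity) ?_
        rw [hz]
        push_cast
        linarith
      have h4 : (X : ℝ) / N ≤ (1 / k) ^ 2 := by
        rw [div_le_iff₀ hNp]
        calc (X : ℝ) ≤ N / k ^ 2 := hXr
          _ = (1 / k) ^ 2 * N := by field_simp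
      have h5 : 0 ≤ 1 / (w : ℝ) * (1 / k) := by positivity
      have h6 : (1 / (w : ℝ) + 1 / k) ^ 2 = (1 / w) ^ 2 + 2 * (1 / w * (1 / k)) + (1 / k) ^ 2 := by
        ring
      rw [h6]
      linarith only [h3, h4, h5]
    have h3 : (∑ i, om (f i) * S i) ^ 2 ≤ (c₃ * (1 / w + 1 / k)) ^ 2 := by
      refine h1.trans ?_
      have h4 : M ≤ Real.exp (8 * Real.pi) := hME.trans hE8a
      have h5 : ∑ i, om (f i) * S i ^ 2 ≤ C₂ * (1 / w + 1 / k) ^ 2 :=
        hL.trans (mul_le_mul_of_nonneg_left h2 hC₂.le)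
      calc M * ∑ i, om (f i) * S i ^ 2 ≤ Real.exp (8 * Real.pi) * (C₂ * (1 / w + 1 / k) ^ 2) :=
            mul_le_mul h4 h5 (Finset.sum_nonneg fun i _ => mul_nonneg (hom i) (sq_nonneg _))
              (Real.exp_pos _).le
        _ = (c₃ * (1 / w + 1 / k)) ^ 2 := by
            rw [mul_pow, hc₃, Real.sq_sqrt (by positivity)]
            ring
    exact abs_le_of_sq_le_sq h3 (by positivity)
  -- lower bound for `R`
  have hRlow : κ * B / Real.log z ^ 2 ≤ R := by
    set δ : ℝ := c₁ / (2 * Real.log z) with hδ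
    have hδp : 0 < δ := by positivity
    have htp : (0 : ℝ) < t := by exact_mod_cast (by omega : 0 < t)
    set a : ℕ := ⌊δ * t⌋₊ with ha
    have hcount := hT₀ t (by omega)
    set F : Finset ℕ := ((Finset.Icc 1 t).filter (fun m => rough z m)).filter (fun m => a < m)
      with hF
    have hFc : δ * t ≤ (F.card : ℝ) := by
      have h1 : ((Finset.Icc 1 t).filter (fun m => rough z m)).card ≤ F.card + a := by
        have h2 := Finset.card_filter_add_card_filter_not (s := (Finset.Icc 1 t).filter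
          (fun m => rough z m)) (fun m => a < m)
        have h3 : (((Finset.Icc 1 t).filter (fun m => rough z m)).filter
            (fun m => ¬ a < m)).card ≤ a := by
          have h4 : ((Finset.Icc 1 t).filter (fun m => rough z m)).filter
              (fun m => ¬ a < m) ⊆ Finset.Icc 1 a := by
            intro m hm
            obtain ⟨h5, h6⟩ := Finset.mem_filter.1 hm
            have h7 := (Finset.mem_Icc.1 (Finset.mem_filter.1 h5).1).1
            exact Finset.mem_Icc.2 ⟨h7, by omega⟩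
          have := Finset.card_le_card h4
          rwa [Nat.card_Icc, Nat.add_sub_cancel] at this
        rw [hF]
        omega
      have h2 : (((Finset.Icc 1 t).filter (fun m => rough z m)).card : ℝ) ≤ F.card + a := by
        exact_mod_cast h1
      have h3 : (a : ℝ) ≤ δ * t := Nat.floor_le (by positivity)
      have h4 : c₁ * t / Real.log z = 2 * (δ * t) := by
        rw [hδ]; field_simp
      rw [h4] at hcount
      linarith
    have hFW : ∀ m ∈ F, Real.exp (-(8 * Real.pi)) * (2 * Real.pi * δ) ≤ MAS_W y m := by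
      intro m hm
      obtain ⟨h1, h2⟩ := Finset.mem_filter.1 hm
      obtain ⟨h3, h4⟩ := Finset.mem_Icc.1 (Finset.mem_filter.1 h1).1
      have h5 : (m : ℝ) ≤ t := by exact_mod_cast h4
      have h6 : δ * t < m := by
        have := (Nat.floor_lt (by positivity)).1 h2
        exact this
      have h7 : (m : ℝ) * y ≤ 4 * Real.pi := by
        rw [← hyB]
        calc (m : ℝ) * y ≤ B * y := mul_le_mul_of_nonneg_right (h5.trans htB) hyp.le
          _ = y * B := mul_comm _ _
      have h8 : 2 * Real.pi * δ ≤ m * y := by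
        have h9 : 2 * Real.pi ≤ t * y := by
          have : 4 * Real.pi ≤ 2 * (t * y) := by
            rw [← hyB]
            calc y * B ≤ y * (2 * t) := mul_le_mul_of_nonneg_left htB2 hyp.le
              _ = 2 * (t * y) := by ring
          linarith
        calc 2 * Real.pi * δ ≤ (t * y) * δ := mul_le_mul_of_nonneg_right h9 hδp.le
          _ = (δ * t) * y := by ring
          _ ≤ m * y := mul_le_mul_of_nonneg_right h6.le hyp.le
      refine le_trans ?_ (MAS_W_ge m)
      refine mul_le_mul (Real.exp_le_exp.2 (by linarith)) h8 (by positivity) (Real.exp_pos _).le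
    have hFsub : F ⊆ (Finset.Icc 1 X).filter (fun n => rough z n) := by
      intro m hm
      obtain ⟨h1, h2⟩ := Finset.mem_filter.1 hm
      obtain ⟨h3, h4⟩ := Finset.mem_filter.1 h1
      obtain ⟨h5, h6⟩ := Finset.mem_Icc.1 h3
      exact Finset.mem_filter.2 ⟨Finset.mem_Icc.2 ⟨h5, by omega⟩, h4⟩
    calc κ * B / Real.log z ^ 2 ≤ (δ * t) * (Real.exp (-(8 * Real.pi)) * (2 * Real.pi * δ)) := by
          have h1 : κ * B / Real.log z ^ 2 =
              Real.exp (-(8 * Real.pi)) * Real.pi * δ ^ 2 * B := by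
            rw [hκ, hδ]; field_simp; ring
          rw [h1]
          have h2 : 0 ≤ Real.exp (-(8 * Real.pi)) * Real.pi * δ ^ 2 := by positivity
          calc Real.exp (-(8 * Real.pi)) * Real.pi * δ ^ 2 * B
              ≤ Real.exp (-(8 * Real.pi)) * Real.pi * δ ^ 2 * (2 * t) :=
                mul_le_mul_of_nonneg_left htB2 h2
            _ = (δ * t) * (Real.exp (-(8 * Real.pi)) * (2 * Real.pi * δ)) := by ring
      _ ≤ F.card * (Real.exp (-(8 * Real.pi)) * (2 * Real.pi * δ)) :=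
          mul_le_mul_of_nonneg_right hFc (by positivity)
      _ = ∑ m ∈ F, Real.exp (-(8 * Real.pi)) * (2 * Real.pi * δ) := by
          rw [Finset.sum_const, nsmul_eq_mul]
      _ ≤ ∑ m ∈ F, MAS_W y m := Finset.sum_le_sum hFW
      _ ≤ R := Finset.sum_le_sum_of_subset_of_nonneg hFsub fun m _ _ => MAS_W_nonneg hyp m
  have hRp : 0 < R := lt_of_lt_of_le (by positivity) hRlow
  -- combine
  have hfin : (E8 - M) * R ≤ Err + 1 / y * (c₃ * (1 / w + 1 / k)) := by
    have h1 : ∑ n ∈ (Finset.Icc 1 X).filter (fun n => rough z n), (E8 - Q n) * MAS_W y n =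
        E8 * R - (M * R + 1 / y * ∑ i, om (f i) * S i) := by
      rw [← hQR, hR, Finset.mul_sum, ← Finset.sum_sub_distrib]
      exact Finset.sum_congr rfl fun n _ => by ring
    rw [h1] at hB'
    have h2 : 1 / y * ∑ i, om (f i) * S i ≤ 1 / y * (c₃ * (1 / w + 1 / k)) :=
      mul_le_mul_of_nonneg_left ((le_abs_self _).trans hCS) (by positivity)
    linarith
  have hyi : 1 / y = B / (4 * Real.pi) := by
    rw [← hyB]; field_simp
  have hRHS : Err + 1 / y * (c₃ * (1 / w + 1 / k)) ≤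
      B * (c₄ / k + ε₁ * k ^ 4 + c₃ / w) := by
    have hN' : (N : ℝ) = B * k ^ 4 := by rw [hB]; field_simp
    have h1 : (E8 - 1) * (1 / (2 * y)) ≤ B * (Real.exp (8 * Real.pi) / k) := by
      have e : 1 / (2 * y) = B / (8 * Real.pi) := by
        have : 1 / (2 * y) = (1 / y) / 2 := by field_simp
        rw [this, hyi]; ring
      rw [e]
      calc (E8 - 1) * (B / (8 * Real.pi))
          ≤ (Real.exp (8 * Real.pi) * (8 * Real.pi * (1 / k))) * (B / (8 * Real.pi)) :=
            mul_le_mul_of_nonneg_right hE8c (by positivity)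
        _ = B * (Real.exp (8 * Real.pi) / k) := by field_simp
    have h2 : C₁ * (Real.exp (-(2 * Real.pi * k ^ 2)) * (8 / y)) ≤ B * (C₁ / k) := by
      have e : 8 / y = 8 * (B / (4 * Real.pi)) := by rw [← hyi]; ring
      rw [e]
      have h3 : Real.exp (-(2 * Real.pi * k ^ 2)) ≤ 1 / k := by
        have h4 : 2 * Real.pi * (k : ℝ) ^ 2 + 1 ≤ Real.exp (2 * Real.pi * k ^ 2) :=
          Real.add_one_le_exp _
        rw [Real.exp_neg, ← one_div]
        refine one_div_le_one_div_of_le hkp (le_trans ?_ h4)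
        have h6 := Real.pi_gt_three
        have h7 : (k : ℝ) ≤ k ^ 2 + 1 := by nlinarith only [sq_nonneg ((k : ℝ) - 1), hkp]
        have h8 : (k : ℝ) ^ 2 ≤ 2 * Real.pi * k ^ 2 := by nlinarith only [sq_nonneg (k : ℝ), h6]
        linarith only [h7, h8]
      have h5 : 8 * (B / (4 * Real.pi)) ≤ B := by
        have h6 := Real.pi_gt_three
        have h7 : 8 * (B / (4 * Real.pi)) = B * (2 / Real.pi) := by field_simp; ring
        rw [h7]
        have h8 : 2 / Real.pi ≤ 1 := by rw [div_le_one hpi]; linarith only [h6]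
        exact mul_le_of_le_one_right hBp.le h8
      calc C₁ * (Real.exp (-(2 * Real.pi * k ^ 2)) * (8 * (B / (4 * Real.pi))))
          ≤ C₁ * ((1 / k) * B) := mul_le_mul_of_nonneg_left
            (mul_le_mul h3 h5 (by positivity) (by positivity)) hC₁.le
        _ = B * (C₁ / k) := by ring
    have h3 : 1 / y * (c₃ * (1 / w + 1 / k)) ≤ B * (c₃ / w + c₃ / k) := by
      rw [hyi]
      have h4 : B / (4 * Real.pi) ≤ B := by
        refine div_le_self hBp.le ?_
        have := Real.pi_gt_three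
        linarith
      calc B / (4 * Real.pi) * (c₃ * (1 / w + 1 / k)) ≤ B * (c₃ * (1 / w + 1 / k)) :=
            mul_le_mul_of_nonneg_right h4 (by positivity)
        _ = B * (c₃ / w + c₃ / k) := by ring
    have h4 : ε₁ * (N : ℝ) = B * (ε₁ * k ^ 4) := by rw [hN']; ring
    rw [hErr, h4]
    have h5 : B * (c₄ / k + ε₁ * k ^ 4 + c₃ / w) = B * (Real.exp (8 * Real.pi) / k) +
        B * (ε₁ * k ^ 4) + B * (C₁ / k) + B * (c₃ / w + c₃ / k) := by
      rw [hc₄]; ring
    rw [h5]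
    linarith
  -- conclusion
  have hlast : E8 - M ≤ Λ * (c₄ / k + ε₁ * k ^ 4 + c₃ / w) := by
    rcases le_or_gt (E8 - M) 0 with h0 | h0
    · refine h0.trans ?_
      have : (0 : ℝ) < w := by linarith
      positivity
    · have h1 : (E8 - M) * (κ * B / Real.log z ^ 2) ≤ B * (c₄ / k + ε₁ * k ^ 4 + c₃ / w) :=
        (mul_le_mul_of_nonneg_left hRlow h0.le).trans (hfin.trans hRHS)
      have h2 : 0 < κ * B / Real.log z ^ 2 := by positivity
      refine le_of_mul_le_mul_right (h1.trans (le_of_eq ?_)) h2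
      rw [hΛ]
      field_simp
  have hs1 : Λ * (ε₁ * k ^ 4) = ε / 4 := by rw [hε₁]; field_simp
  have hs2 : Λ * (c₃ / w) ≤ ε / 4 := by
    refine le_trans (le_of_eq ?_) hwε
    rw [hΛ]
    field_simp
  have hs3 : Λ * (c₄ / k + ε₁ * k ^ 4 + c₃ / w) ≤ 3 * ε / 4 := by
    rw [mul_add, mul_add, hs1]
    linarith
  linarith

theorem mass_one : type_of% @mass_one_pr := @mass_one_pr

end Pool.Agent.LVB
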