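import Pool.Agent.Lib_helper41.LVB.Defs
import Pool.Agent.Lib_helper68.LEV.HPO
import Pool.Agent.Lib_helper68.LEV.EIA
import Pool.Agent.Lib_helper41.LVBF.LSS
import Pool.Agent.Lib_helper41.LVBF.STO

/-! LVB block TRA: transfer of the second moment to the random model.
Cites ls_sharp (LSS) and st_sq (STO) from WantedA. -/

set_option autoImplicit false

namespace Pool.Agent.LVB

open Pool.Agent.LEV Complex MeasureTheory Filter Topology UpperHalfPlane ModularGroup ProbabilityTheory
open scoped MatrixGroups Modular ENNReal ModularForm ComplexConjugate ContDiff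

section
variable {N : ℕ} [Fact N.Prime]

/-! block TRA -/

/-- transfer of the second moment to the random model -/
theorem transfer_pr {ι : Type} [Fintype ι] (f : ι → S2 N) (hi : Function.Injective f)
    (hn : ∀ i, IsNew (f i)) {ν : ℝ} (h0 : 0 < ν) (h1 : ν < 1) {X : ℕ} (hX1 : 1 ≤ X)
    (hX : (X : ℝ) ≤ ν ^ 2 * N) {I : Finset ℕ} (hI : ∀ p ∈ I, p.Prime ∧ p < N)
    {P : Measure (ℕ → ℝ)} (hP : IsST I P) {G : (ℕ → ℝ) → ℝ} (hG : HPoly I X G) (c : ℝ) :
    ∑ i, om (f i) * (G (la (f i)) + c * se (f i)) ^ 2 ≤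
      Real.exp (8 * Real.pi * ν) * (∫ x, G x ^ 2 ∂P + c ^ 2) := by
  obtain ⟨b, hb, hG'⟩ := hG
  have e1 : ∀ i, G (la (f i)) = ∑ m ∈ Finset.Icc 1 X, b m * la (f i) m := by
    intro i
    rw [hG' (la (f i))]
    refine Finset.sum_congr rfl fun m _ => ?_
    by_cases hcz : b m = 0
    · rw [hcz, zero_mul, zero_mul]
    · obtain ⟨g1, g2, g3⟩ := hb m hcz
      have hco : m.Coprime N := by
        rw [Nat.coprime_comm, (Fact.out : N.Prime).coprime_iff_not_dvd]
        intro hd
        have : N ∈ m.primeFactors := Nat.mem_primeFactors.mpr ⟨Fact.out, hd, by omega⟩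
        exact absurd (hI N (g3 this)).2 (lt_irrefl _)
      rw [um_new (hn i) (new_real (hn i)) (by omega) hco]
  have e2 : ∫ x, G x ^ 2 ∂P = ∑ m ∈ Finset.Icc 1 X, b m ^ 2 := by
    rw [← st_sq (fun p hp => (hI p hp).1) hP hb]
    exact integral_congr_ae (Filter.Eventually.of_forall fun x => by simp only [hG' x])
  rw [e2]
  simp_rw [e1]
  exact ls_sharp f hi hn h0 h1 hX1 hX b c

end

theorem transfer : type_of% @transfer_pr := @transfer_pr

end Pool.Agent.LVB
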