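import Pool.Agent.Lib_helper41.LVB.Defs
import Pool.Agent.Lib_helper68.LEV.EIA
import Pool.Agent.Lib_helper68.LEV.FRK
import Pool.Agent.Lib_helper68.LEV.PET
import Pool.Agent.Lib_helper41.LVBF.MAS
import Pool.Agent.Lib_helper41.LVBF.STO
import Pool.Agent.Lib_helper41.LVBF.TRA

/-! Block TRM (cites transfer, mass_one, st_mean, st_sq). -/

namespace Pool.Agent.LVB

open Pool.Agent.LEV Complex MeasureTheory Filter Topology UpperHalfPlane ModularGroup ProbabilityTheory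
open scoped MatrixGroups Modular ENNReal ModularForm ComplexConjugate ContDiff

theorem TRM_disc {a b c : ℝ} (h : ∀ t : ℝ, 0 ≤ a * t ^ 2 + 2 * b * t + c) : b ^ 2 ≤ a * c := by
  have h2 := discrim_le_zero (K := ℝ) (a := a) (b := 2 * b) (c := c) (fun t => by
    have := h t
    nlinarith)
  unfold discrim at h2
  nlinarith

theorem TRM_um_one (x : ℕ → ℝ) : Um 1 x = 1 := by
  unfold Um
  simp

theorem TRM_se {N : ℕ} [Fact N.Prime] {f : S2 N} (hf : IsNew f) : se f ^ 2 = 1 := by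
  obtain ⟨W, hW⟩ := fricke_exists (N := N)
  rcases (new_fricke hf hW).2 with h | h <;> simp [se, h]

theorem TRM_final {δ ε M m q b e : ℝ} (hδ0 : 0 < δ) (hδ1 : δ ≤ 1) (hδ2 : δ ≤ ε / 2)
    (hδ3 : δ ≤ ε ^ 2 / 16) (hM1 : 1 ≤ M) (hM : M ≤ 1 + δ) (hq : 1 - δ ≤ q) (hq2 : q ≤ M) (hm : 0 ≤ m)
    (hb : b ^ 2 ≤ m ^ 2) (h : (M * b - e) ^ 2 ≤ (M - q) * (M * m ^ 2)) (hε : 0 < ε) :
    |e - b| ≤ ε * m := by
  have h1 : (M * b - e) ^ 2 ≤ (ε / 2 * m) ^ 2 := by
    have h3 : (M - q) * M ≤ ε ^ 2 / 4 := by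
      have : (M - q) * M ≤ (2 * δ) * 2 := by
        apply mul_le_mul <;> linarith
      nlinarith
    calc (M * b - e) ^ 2 ≤ (M - q) * (M * m ^ 2) := h
      _ = ((M - q) * M) * m ^ 2 := by ring
      _ ≤ (ε ^ 2 / 4) * m ^ 2 := by gcongr
      _ = _ := by ring
  have h2 : |M * b - e| ≤ ε / 2 * m := abs_le_of_sq_le_sq h1 (by positivity)
  have h3 : |b| ≤ m := abs_le_of_sq_le_sq hb hm
  have h4 : |e - b| ≤ |M * b - e| + |(M - 1) * b| := by
    have : e - b = -(M * b - e) + (M - 1) * b := by ring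
    rw [this]
    exact (abs_add_le _ _).trans (by rw [abs_neg])
  have h5 : |(M - 1) * b| ≤ ε / 2 * m := by
    rw [abs_mul, abs_of_nonneg (by linarith)]
    exact mul_le_mul (by linarith) h3 (abs_nonneg _) (by positivity)
  linarith

theorem transfer_mean_pr {ε : ℝ} (hε : 0 < ε) : ∃ (ν : ℝ) (N₀ : ℕ), 0 < ν ∧ ∀ (N : ℕ) [Fact N.Prime],
    N₀ ≤ N → ∀ {ι : Type} [Fintype ι] (f : ι → S2 N), AllNew f → ∀ {X : ℕ},
    (X : ℝ) ≤ ν ^ 2 * N → ∀ {I : Finset ℕ}, (∀ p ∈ I, p.Prime ∧ p < N) →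
    ∀ {P : Measure (ℕ → ℝ)}, IsST I P → ∀ {G : (ℕ → ℝ) → ℝ}, HPoly I X G →
      |∑ i, om (f i) * G (la (f i)) - ∫ x, G x ∂P| ≤ ε * Real.sqrt (∫ x, G x ^ 2 ∂P) ∧
      |∑ i, om (f i) * (se (f i) * G (la (f i)))| ≤ ε * Real.sqrt (∫ x, G x ^ 2 ∂P) := by
  -- parameters
  obtain ⟨δ, hδ0, hδ1, hδ2, hδ3⟩ : ∃ δ : ℝ, 0 < δ ∧ δ ≤ 1 ∧ δ ≤ ε / 2 ∧ δ ≤ ε ^ 2 / 16 :=
    ⟨min 1 (min (ε / 2) (ε ^ 2 / 16)), by positivity, min_le_left _ _,
      (min_le_right _ _).trans (min_le_left _ _), (min_le_right _ _).trans (min_le_right _ _)⟩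
  obtain ⟨ν, hν0, hν1, hνM⟩ : ∃ ν : ℝ, 0 < ν ∧ ν < 1 ∧ Real.exp (8 * Real.pi * ν) ≤ 1 + δ := by
    refine ⟨min (1 / 2) (Real.log (1 + δ) / (8 * Real.pi)), ?_, ?_, ?_⟩
    · have := Real.log_pos (show (1 : ℝ) < 1 + δ by linarith)
      have := Real.pi_pos
      positivity
    · exact (min_le_left _ _).trans_lt (by norm_num)
    · rw [← Real.le_log_iff_exp_le (by linarith)]
      have h := min_le_right (1 / 2) (Real.log (1 + δ) / (8 * Real.pi))
      rw [le_div_iff₀ (by positivity)] at h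
      linarith
  obtain ⟨N₁, hN₁⟩ := mass_one hδ0
  refine ⟨ν, max N₁ ⌈1 / ν ^ 2⌉₊, hν0, fun N _ hN ι _ f hf X hX I hI P hP G hG => ?_⟩
  have hn : ∀ i, IsNew (f i) := fun i => (hf.2 (f i)).mpr ⟨i, rfl⟩
  have hmass := hN₁ N ((le_max_left _ _).trans hN) f hf
  have hN2 : (1 : ℝ) ≤ ν ^ 2 * N := by
    have h1 : (1 / ν ^ 2 : ℝ) ≤ N := (Nat.le_ceil _).trans (by exact_mod_cast (le_max_right _ _).trans hN)
    rw [div_le_iff₀ (by positivity)] at h1
    linarith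
  have hIp : ∀ p ∈ I, p.Prime := fun p hp => (hI p hp).1
  set M : ℝ := Real.exp (8 * Real.pi * ν) with hMdef
  have hM1 : 1 ≤ M := Real.one_le_exp (by have := Real.pi_pos; positivity)
  -- reduce to `1 ≤ X`
  obtain ⟨X', hX1', hX', hG'⟩ : ∃ X' : ℕ, 1 ≤ X' ∧ (X' : ℝ) ≤ ν ^ 2 * N ∧ HPoly I X' G := by
    rcases Nat.eq_zero_or_pos X with h0 | h0
    · refine ⟨1, le_rfl, by simpa using hN2, ?_⟩
      obtain ⟨c, hc, hGc⟩ := hG
      refine ⟨fun _ => 0, fun m hm => absurd rfl hm, fun x => ?_⟩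
      rw [hGc x]
      subst h0
      simp
    · exact ⟨X, h0, hX, hG⟩
  obtain ⟨c, hc, hGc⟩ := hG'
  have hGe : G = fun x => ∑ m ∈ Finset.Icc 1 X', c m * Um m x := funext hGc
  have hmean : ∫ x, G x ∂P = c 1 := by
    rw [hGe]
    exact st_mean hIp hP hX1' hc
  have hsq : ∫ x, G x ^ 2 ∂P = ∑ m ∈ Finset.Icc 1 X', c m ^ 2 := by
    rw [hGe]
    exact st_sq hIp hP hc
  have hsq0 : 0 ≤ ∫ x, G x ^ 2 ∂P := integral_nonneg fun x => sq_nonneg _
  have hb2 : (∫ x, G x ∂P) ^ 2 ≤ ∫ x, G x ^ 2 ∂P := by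
    rw [hmean, hsq]
    exact Finset.single_le_sum (f := fun m => c m ^ 2) (fun m _ => sq_nonneg _)
      (Finset.mem_Icc.mpr ⟨le_rfl, hX1'⟩)
  -- shifted polynomials
  have hshift : ∀ t : ℝ, HPoly I X' (fun x => G x + t) ∧
      ∫ x, (G x + t) ^ 2 ∂P = ∫ x, G x ^ 2 ∂P + 2 * t * ∫ x, G x ∂P + t ^ 2 := by
    intro t
    have hc' : ∀ m, c m + (if m = 1 then t else 0) ≠ 0 → 1 ≤ m ∧ m ≤ X' ∧ m.primeFactors ⊆ I := by
      intro m hm
      by_cases h1 : m = 1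
      · subst h1
        exact ⟨le_rfl, hX1', by simp⟩
      · rw [if_neg h1, add_zero] at hm
        exact hc m hm
    have he : ∀ x, G x + t = ∑ m ∈ Finset.Icc 1 X', (c m + (if m = 1 then t else 0)) * Um m x := by
      intro x
      rw [hGc x]
      simp only [add_mul, Finset.sum_add_distrib, ite_mul, zero_mul]
      rw [Finset.sum_ite_eq' (Finset.Icc 1 X') 1, if_pos (Finset.mem_Icc.mpr ⟨le_rfl, hX1'⟩),
        TRM_um_one, mul_one]
    refine ⟨⟨_, hc', he⟩, ?_⟩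
    have h2 : ∫ x, (G x + t) ^ 2 ∂P = ∑ m ∈ Finset.Icc 1 X', (c m + (if m = 1 then t else 0)) ^ 2 := by
      simp only [he]
      exact st_sq hIp hP hc'
    rw [h2, hmean, hsq]
    have h3 : ∀ m, (c m + (if m = 1 then t else 0)) ^ 2 =
        c m ^ 2 + (if m = 1 then 2 * t * c 1 + t ^ 2 else 0) := by
      intro m
      split_ifs with h
      · subst h; ring
      · ring
    simp only [h3, Finset.sum_add_distrib]
    rw [Finset.sum_ite_eq' (Finset.Icc 1 X') 1, if_pos (Finset.mem_Icc.mpr ⟨le_rfl, hX1'⟩)]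
    ring
  set E1 : ℝ := ∑ i, om (f i) * G (la (f i)) with hE1
  set E2 : ℝ := ∑ i, om (f i) * G (la (f i)) ^ 2 with hE2
  set E3 : ℝ := ∑ i, om (f i) * (se (f i) * G (la (f i))) with hE3
  set Q : ℝ := ∑ i, om (f i) with hQ
  set m2 : ℝ := ∫ x, G x ^ 2 ∂P with hm2
  have hE20 : 0 ≤ E2 := by
    refine Finset.sum_nonneg fun i _ => mul_nonneg ?_ (sq_nonneg _)
    unfold om
    have : 0 < nr (f i) := nr_pos (new_ne_zero (hn i))
    have := Real.pi_pos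
    positivity
  have key1 : ∀ t : ℝ, E2 + 2 * t * E1 + t ^ 2 * Q ≤ M * (m2 + 2 * t * ∫ x, G x ∂P + t ^ 2) := by
    intro t
    have h := transfer f hf.1 hn hν0 hν1 hX1' hX' hI hP (hshift t).1 0
    rw [(hshift t).2] at h
    have h4 : ∑ i, om (f i) * (G (la (f i)) + t + 0 * se (f i)) ^ 2 = E2 + 2 * t * E1 + t ^ 2 * Q := by
      rw [hE1, hE2, hQ, Finset.mul_sum, Finset.mul_sum, ← Finset.sum_add_distrib,
        ← Finset.sum_add_distrib]
      exact Finset.sum_congr rfl fun i _ => by ring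
    rw [h4] at h
    linarith
  have key2 : ∀ t : ℝ, E2 + 2 * t * E3 + t ^ 2 * Q ≤ M * (m2 + t ^ 2) := by
    intro t
    have h := transfer f hf.1 hn hν0 hν1 hX1' hX' hI hP ⟨c, hc, hGc⟩ t
    have h4 : ∑ i, om (f i) * (G (la (f i)) + t * se (f i)) ^ 2 = E2 + 2 * t * E3 + t ^ 2 * Q := by
      rw [hE3, hE2, hQ, Finset.mul_sum, Finset.mul_sum, ← Finset.sum_add_distrib,
        ← Finset.sum_add_distrib]
      refine Finset.sum_congr rfl fun i _ => ?_
      have := TRM_se (hn i)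
      linear_combination om (f i) * t ^ 2 * this
    rw [h4] at h
    exact h
  have hQM : Q ≤ M := by
    have h := transfer f hf.1 hn hν0 hν1 (X := 1) le_rfl (by simpa using hN2) hI hP
      (G := fun _ => 0) ⟨fun _ => 0, fun m hm => absurd rfl hm, fun x => by simp⟩ 1
    have h4 : ∑ i, om (f i) * ((0 : ℝ) + 1 * se (f i)) ^ 2 = Q := by
      rw [hQ]
      refine Finset.sum_congr rfl fun i _ => ?_
      have := TRM_se (hn i)
      linear_combination om (f i) * this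
    simp only [h4] at h
    simpa using h
  have d1 := TRM_disc (a := M - Q) (b := M * (∫ x, G x ∂P) - E1) (c := M * m2 - E2) (fun t => by
    have := key1 t
    nlinarith)
  have d2 := TRM_disc (a := M - Q) (b := -E3) (c := M * m2 - E2) (fun t => by
    have := key2 t
    nlinarith)
  have hms : m2 = Real.sqrt m2 ^ 2 := (Real.sq_sqrt hsq0).symm
  have d1' : (M * (∫ x, G x ∂P) - E1) ^ 2 ≤ (M - Q) * (M * Real.sqrt m2 ^ 2) := by
    rw [← hms]
    refine d1.trans (mul_le_mul_of_nonneg_left (by linarith) (by linarith))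
  have d2' : (M * 0 - E3) ^ 2 ≤ (M - Q) * (M * Real.sqrt m2 ^ 2) := by
    rw [← hms]
    have : (M * 0 - E3) ^ 2 = (-E3) ^ 2 := by ring
    rw [this]
    refine d2.trans (mul_le_mul_of_nonneg_left (by linarith) (by linarith))
  constructor
  · exact TRM_final hδ0 hδ1 hδ2 hδ3 hM1 hνM hmass hQM (Real.sqrt_nonneg _) (by rw [← hms]; exact hb2)
      d1' hε
  · have := TRM_final hδ0 hδ1 hδ2 hδ3 hM1 hνM hmass hQM (Real.sqrt_nonneg _) (b := 0)
      (by rw [← hms]; simpa using hsq0) d2' hε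
    simpa using this

theorem transfer_mean : type_of% @transfer_mean_pr := @transfer_mean_pr

end Pool.Agent.LVB
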