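import Pool.Agent.Lib_helper41.LVB.Defs

/-! # Block EXT: the truncated exponential series -/

namespace Pool.Agent.LVB

open Pool.Agent.LEV Complex MeasureTheory Filter Topology UpperHalfPlane ModularGroup ProbabilityTheory
open scoped MatrixGroups Modular ENNReal ModularForm ComplexConjugate ContDiff

/-- Taylor polynomials with an arbitrary number of terms -/
noncomputable def EXT_f (n : ℕ) (t : ℝ) : ℝ := ∑ k ∈ Finset.range n, t ^ k / (k.factorial : ℝ)

theorem EXT_deriv (n : ℕ) (t : ℝ) : HasDerivAt (EXT_f (n + 1)) (EXT_f n t) t := by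
  have e : EXT_f (n + 1) = fun t => (∑ k ∈ Finset.range n, t ^ (k + 1) / ((k + 1).factorial : ℝ)) + 1 := by
    funext t
    simp [EXT_f, Finset.sum_range_succ']
  rw [e]
  have h : HasDerivAt (fun t : ℝ => ∑ k ∈ Finset.range n, t ^ (k + 1) / ((k + 1).factorial : ℝ))
      (∑ k ∈ Finset.range n, t ^ k / (k.factorial : ℝ)) t := by
    refine HasDerivAt.fun_sum fun k _ => ?_
    have h1 := (hasDerivAt_pow (k + 1) t).div_const ((k + 1).factorial : ℝ)
    have h4 : ((k + 1 : ℕ) : ℝ) * t ^ (k + 1 - 1) / ((k + 1).factorial : ℝ) =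
        t ^ k / (k.factorial : ℝ) := by
      rw [Nat.factorial_succ]
      push_cast
      have h2 : (k.factorial : ℝ) ≠ 0 := by exact_mod_cast k.factorial_ne_zero
      have h3 : ((k : ℝ) + 1) ≠ 0 := by positivity
      field_simp
    rwa [h4] at h1
  simpa [EXT_f] using h.add_const (1 : ℝ)

theorem EXT_alt (n : ℕ) : (∀ t : ℝ, t ≤ 0 → EXT_f (2 * n) t ≤ Real.exp t) ∧
    (∀ t : ℝ, t ≤ 0 → Real.exp t ≤ EXT_f (2 * n + 1) t) := by
  have up : ∀ m, (∀ t : ℝ, t ≤ 0 → EXT_f m t ≤ Real.exp t) →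
      ∀ t : ℝ, t ≤ 0 → Real.exp t ≤ EXT_f (m + 1) t := by
    intro m hm t ht
    have hanti : AntitoneOn (fun t => EXT_f (m + 1) t - Real.exp t) (Set.Iic 0) := by
      refine antitoneOn_of_deriv_nonpos (convex_Iic 0) ?_ ?_ ?_
      · exact fun x _ => ((EXT_deriv m x).sub (Real.hasDerivAt_exp x)).continuousAt.continuousWithinAt
      · exact fun x _ => ((EXT_deriv m x).sub (Real.hasDerivAt_exp x)).differentiableAt.differentiableWithinAt
      · intro x hx
        rw [interior_Iic] at hx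
        have hd : deriv (fun t => EXT_f (m + 1) t - Real.exp t) x = EXT_f m x - Real.exp x :=
          ((EXT_deriv m x).sub (Real.hasDerivAt_exp x)).deriv
        rw [hd]
        have := hm x (le_of_lt hx)
        linarith
    have h := hanti (show t ∈ Set.Iic (0 : ℝ) from ht) (Set.mem_Iic.2 (le_refl (0 : ℝ))) ht
    have h0 : EXT_f (m + 1) 0 = 1 := by simp [EXT_f, Finset.sum_range_succ']
    simp only [h0, Real.exp_zero, sub_self] at h
    linarith
  have dn : ∀ m, (∀ t : ℝ, t ≤ 0 → Real.exp t ≤ EXT_f m t) →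
      ∀ t : ℝ, t ≤ 0 → EXT_f (m + 1) t ≤ Real.exp t := by
    intro m hm t ht
    have hmono : MonotoneOn (fun t => EXT_f (m + 1) t - Real.exp t) (Set.Iic 0) := by
      refine monotoneOn_of_deriv_nonneg (convex_Iic 0) ?_ ?_ ?_
      · exact fun x _ => ((EXT_deriv m x).sub (Real.hasDerivAt_exp x)).continuousAt.continuousWithinAt
      · exact fun x _ => ((EXT_deriv m x).sub (Real.hasDerivAt_exp x)).differentiableAt.differentiableWithinAt
      · intro x hx
        rw [interior_Iic] at hx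
        have hd : deriv (fun t => EXT_f (m + 1) t - Real.exp t) x = EXT_f m x - Real.exp x :=
          ((EXT_deriv m x).sub (Real.hasDerivAt_exp x)).deriv
        rw [hd]
        have := hm x (le_of_lt hx)
        linarith
    have h := hmono (show t ∈ Set.Iic (0 : ℝ) from ht) (Set.mem_Iic.2 (le_refl (0 : ℝ))) ht
    have h0 : EXT_f (m + 1) 0 = 1 := by simp [EXT_f, Finset.sum_range_succ']
    simp only [h0, Real.exp_zero, sub_self] at h
    linarith
  induction n with
  | zero =>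
    have h0 : ∀ t : ℝ, t ≤ 0 → EXT_f (2 * 0) t ≤ Real.exp t := by
      intro t _
      simp [EXT_f, (Real.exp_pos t).le]
    exact ⟨h0, up 0 h0⟩
  | succ n ih =>
    have h1 := dn _ ih.2
    exact ⟨h1, up _ h1⟩

theorem ex_pos_pr (K : ℕ) (t : ℝ) : 0 < ex K t := by
  rcases le_or_gt t 0 with h | h
  · exact lt_of_lt_of_le (Real.exp_pos t) ((EXT_alt K).2 t h)
  · unfold ex
    rw [Finset.sum_range_succ']
    have : 0 ≤ ∑ k ∈ Finset.range (2 * K), t ^ (k + 1) / ((k + 1).factorial : ℝ) :=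
      Finset.sum_nonneg fun k _ => by positivity
    simp only [pow_zero, Nat.factorial_zero, Nat.cast_one, div_one]
    linarith

theorem EXT_hasSum (t : ℝ) : HasSum (fun n : ℕ => t ^ n / (n.factorial : ℝ)) (Real.exp t) := by
  have h := NormedSpace.expSeries_div_hasSum_exp t
  rwa [← Real.exp_eq_exp_ℝ] at h

theorem ex_le_pr (K : ℕ) (t : ℝ) : ex K t ≤ Real.exp |t| := by
  unfold ex
  calc ∑ k ∈ Finset.range (2 * K + 1), t ^ k / (k.factorial : ℝ)
      ≤ ∑ k ∈ Finset.range (2 * K + 1), |t| ^ k / (k.factorial : ℝ) := by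
        refine Finset.sum_le_sum fun k _ => ?_
        have h1 : t ^ k ≤ |t| ^ k := by
          rw [← abs_pow]
          exact le_abs_self _
        exact div_le_div_of_nonneg_right h1 (by positivity)
    _ ≤ Real.exp |t| :=
        sum_le_hasSum _ (fun k _ => by positivity) (EXT_hasSum |t|)

theorem ex_near_pr (K : ℕ) (t : ℝ) :
    |ex K t - Real.exp t| ≤ Real.exp (-(2 * K + 1)) * Real.exp (Real.exp 1 * |t|) := by
  have h1 := (EXT_hasSum t)
  have h2 : HasSum (fun n : ℕ => t ^ (n + (2 * K + 1)) / ((n + (2 * K + 1)).factorial : ℝ))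
      (Real.exp t - ex K t) := by
    have := (hasSum_nat_add_iff' (2 * K + 1)).2 h1
    exact this
  have h3 : HasSum (fun n : ℕ => Real.exp (-(2 * K + 1)) * ((Real.exp 1 * |t|) ^ n / (n.factorial : ℝ)))
      (Real.exp (-(2 * K + 1)) * Real.exp (Real.exp 1 * |t|)) :=
    (EXT_hasSum (Real.exp 1 * |t|)).mul_left _
  rw [abs_sub_comm, ← Real.norm_eq_abs, ← h2.tsum_eq]
  have hs : Summable (fun n : ℕ => Real.exp (-(2 * K + 1)) *
      ((Real.exp 1 * |t|) ^ (n + (2 * K + 1)) / ((n + (2 * K + 1)).factorial : ℝ))) :=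
    (summable_nat_add_iff (2 * K + 1)).2 h3.summable
  have hterm : ∀ n : ℕ, ‖t ^ (n + (2 * K + 1)) / ((n + (2 * K + 1)).factorial : ℝ)‖ ≤
      Real.exp (-(2 * K + 1)) *
      ((Real.exp 1 * |t|) ^ (n + (2 * K + 1)) / ((n + (2 * K + 1)).factorial : ℝ)) := by
    intro n
    rw [norm_div, norm_pow, Real.norm_eq_abs, Real.norm_eq_abs, Nat.abs_cast, mul_pow,
      ← Real.exp_nat_mul]
    have h4 : 1 ≤ Real.exp (-(2 * K + 1)) * Real.exp (((n + (2 * K + 1) : ℕ) : ℝ) * 1) := by
      rw [← Real.exp_add]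
      apply Real.one_le_exp
      push_cast
      have : (0 : ℝ) ≤ n := Nat.cast_nonneg _
      linarith
    have h5 : 0 ≤ |t| ^ (n + (2 * K + 1)) / ((n + (2 * K + 1)).factorial : ℝ) := by positivity
    calc |t| ^ (n + (2 * K + 1)) / ((n + (2 * K + 1)).factorial : ℝ)
        = 1 * (|t| ^ (n + (2 * K + 1)) / ((n + (2 * K + 1)).factorial : ℝ)) := by ring
      _ ≤ (Real.exp (-(2 * K + 1)) * Real.exp (((n + (2 * K + 1) : ℕ) : ℝ) * 1)) *
          (|t| ^ (n + (2 * K + 1)) / ((n + (2 * K + 1)).factorial : ℝ)) :=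
          mul_le_mul_of_nonneg_right h4 h5
      _ = _ := by ring
  calc ‖∑' n : ℕ, t ^ (n + (2 * K + 1)) / ((n + (2 * K + 1)).factorial : ℝ)‖
      ≤ ∑' n : ℕ, Real.exp (-(2 * K + 1)) *
      ((Real.exp 1 * |t|) ^ (n + (2 * K + 1)) / ((n + (2 * K + 1)).factorial : ℝ)) :=
        tsum_of_norm_bounded hs.hasSum hterm
    _ ≤ ∑' n : ℕ, Real.exp (-(2 * K + 1)) * ((Real.exp 1 * |t|) ^ n / (n.factorial : ℝ)) := by
        rw [← h3.summable.sum_add_tsum_nat_add (2 * K + 1)]
        have : 0 ≤ ∑ n ∈ Finset.range (2 * K + 1),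
            Real.exp (-(2 * K + 1)) * ((Real.exp 1 * |t|) ^ n / (n.factorial : ℝ)) :=
          Finset.sum_nonneg fun k _ => by positivity
        linarith
    _ = _ := h3.tsum_eq

theorem ex_pos : type_of% @ex_pos_pr := @ex_pos_pr

theorem ex_le : type_of% @ex_le_pr := @ex_le_pr

theorem ex_near : type_of% @ex_near_pr := @ex_near_pr

end Pool.Agent.LVB
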