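import Pool.Agent.Lib_helper41.LVB.Defs
import Pool.Agent.Lib_helper41.LVBF.ELF

/-! LVB, block LOC (helper29). Cites el_norm, el_meas (block ELF). -/

namespace Pool.Agent.LVB

open Pool.Agent.LEV Complex MeasureTheory Filter Topology UpperHalfPlane ModularGroup ProbabilityTheory
open scoped MatrixGroups Modular ENNReal ModularForm ComplexConjugate ContDiff

/-- products of second order expansions -/
theorem LOC_mul {f g f0 f1 f2 g0 g1 g2 : ℂ} {t M : ℝ} (ht0 : 0 ≤ t) (ht1 : t ≤ 1) (hM : 1 ≤ M)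
    (hf0 : ‖f0‖ ≤ M) (hf1 : ‖f1‖ ≤ M) (hf2 : ‖f2‖ ≤ M)
    (hg0 : ‖g0‖ ≤ M) (hg1 : ‖g1‖ ≤ M) (hg2 : ‖g2‖ ≤ M)
    (hf : ‖f - (f0 + f1 * t + f2 * t ^ 2)‖ ≤ M * t ^ 3)
    (hg : ‖g - (g0 + g1 * t + g2 * t ^ 2)‖ ≤ M * t ^ 3) :
    ‖f * g - (f0 * g0 + (f0 * g1 + f1 * g0) * t + (f0 * g2 + f1 * g1 + f2 * g0) * t ^ 2)‖ ≤
        (10 * M ^ 2) * t ^ 3 ∧
      ‖f0 * g0‖ ≤ 10 * M ^ 2 ∧ ‖f0 * g1 + f1 * g0‖ ≤ 10 * M ^ 2 ∧
      ‖f0 * g2 + f1 * g1 + f2 * g0‖ ≤ 10 * M ^ 2 := by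
  have hM0 : 0 ≤ M := by linarith
  have hprod : ∀ {u v : ℂ}, ‖u‖ ≤ M → ‖v‖ ≤ M → ‖u * v‖ ≤ M ^ 2 := by
    intro u v hu hv
    rw [norm_mul, pow_two]
    exact mul_le_mul hu hv (norm_nonneg _) hM0
  have ht3 : 0 ≤ t ^ 3 := pow_nonneg ht0 3
  have ht31 : t ^ 3 ≤ 1 := pow_le_one₀ ht0 ht1
  have ht21 : t ^ 2 ≤ 1 := pow_le_one₀ ht0 ht1
  have hnt : ‖(t : ℂ)‖ = t := by rw [Complex.norm_real, Real.norm_eq_abs, abs_of_nonneg ht0]
  have hnt2 : ‖(t : ℂ) ^ 2‖ = t ^ 2 := by rw [norm_pow, hnt]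
  have hnt3 : ‖(t : ℂ) ^ 3‖ = t ^ 3 := by rw [norm_pow, hnt]
  have hP : ∀ {u0 u1 u2 : ℂ}, ‖u0‖ ≤ M → ‖u1‖ ≤ M → ‖u2‖ ≤ M →
      ‖u0 + u1 * t + u2 * t ^ 2‖ ≤ 3 * M := by
    intro u0 u1 u2 h0 h1 h2
    have e1 : ‖u1 * (t : ℂ)‖ ≤ M := by
      rw [norm_mul, hnt]
      exact (mul_le_mul h1 ht1 ht0 hM0).trans (by rw [mul_one])
    have e2 : ‖u2 * (t : ℂ) ^ 2‖ ≤ M := by
      rw [norm_mul, hnt2]
      exact (mul_le_mul h2 ht21 (sq_nonneg t) hM0).trans (by rw [mul_one])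
    calc ‖u0 + u1 * t + u2 * t ^ 2‖ ≤ ‖u0‖ + ‖u1 * (t : ℂ)‖ + ‖u2 * (t : ℂ) ^ 2‖ := norm_add₃_le
      _ ≤ 3 * M := by linarith
  have hPf := hP hf0 hf1 hf2
  have hPg := hP hg0 hg1 hg2
  have hgn : ‖g‖ ≤ 4 * M := by
    have e1 : g = (g - (g0 + g1 * t + g2 * t ^ 2)) + (g0 + g1 * t + g2 * t ^ 2) := by ring
    rw [e1]
    refine (norm_add_le _ _).trans ?_
    nlinarith
  refine ⟨?_, ?_, ?_, ?_⟩
  · have e1 : f * g - (f0 * g0 + (f0 * g1 + f1 * g0) * t + (f0 * g2 + f1 * g1 + f2 * g0) * t ^ 2) =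
        (f - (f0 + f1 * t + f2 * t ^ 2)) * g +
        (f0 + f1 * t + f2 * t ^ 2) * (g - (g0 + g1 * t + g2 * t ^ 2)) +
        (f1 * g2 + f2 * g1 + f2 * g2 * t) * (t : ℂ) ^ 3 := by ring
    rw [e1]
    have h1 : ‖(f - (f0 + f1 * t + f2 * t ^ 2)) * g‖ ≤ M * t ^ 3 * (4 * M) := by
      rw [norm_mul]
      exact mul_le_mul hf hgn (norm_nonneg _) (mul_nonneg hM0 ht3)
    have h2 : ‖(f0 + f1 * t + f2 * t ^ 2) * (g - (g0 + g1 * t + g2 * t ^ 2))‖ ≤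
        3 * M * (M * t ^ 3) := by
      rw [norm_mul]
      exact mul_le_mul hPf hg (norm_nonneg _) (by linarith)
    have h3 : ‖(f1 * g2 + f2 * g1 + f2 * g2 * t) * (t : ℂ) ^ 3‖ ≤ 3 * M ^ 2 * t ^ 3 := by
      rw [norm_mul, hnt3]
      refine mul_le_mul_of_nonneg_right ?_ ht3
      have e2 : ‖f2 * g2 * (t : ℂ)‖ ≤ M ^ 2 := by
        rw [norm_mul, hnt]
        exact (mul_le_mul (hprod hf2 hg2) ht1 ht0 (sq_nonneg M)).trans (by rw [mul_one])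
      calc ‖f1 * g2 + f2 * g1 + f2 * g2 * t‖ ≤ ‖f1 * g2‖ + ‖f2 * g1‖ + ‖f2 * g2 * (t : ℂ)‖ :=
            norm_add₃_le
        _ ≤ 3 * M ^ 2 := by linarith [hprod hf1 hg2, hprod hf2 hg1]
    calc _ ≤ ‖(f - (f0 + f1 * t + f2 * t ^ 2)) * g‖ +
          ‖(f0 + f1 * t + f2 * t ^ 2) * (g - (g0 + g1 * t + g2 * t ^ 2))‖ +
          ‖(f1 * g2 + f2 * g1 + f2 * g2 * t) * (t : ℂ) ^ 3‖ := norm_add₃_le
      _ ≤ M * t ^ 3 * (4 * M) + 3 * M * (M * t ^ 3) + 3 * M ^ 2 * t ^ 3 := by linarith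
      _ = _ := by ring
  · have := hprod hf0 hg0
    nlinarith [sq_nonneg M]
  · have h1 := norm_add_le (f0 * g1) (f1 * g0)
    nlinarith [hprod hf0 hg1, hprod hf1 hg0, sq_nonneg M]
  · have h1 : ‖f0 * g2 + f1 * g1 + f2 * g0‖ ≤ ‖f0 * g2‖ + ‖f1 * g1‖ + ‖f2 * g0‖ := norm_add₃_le
    nlinarith [hprod hf0 hg2, hprod hf1 hg1, hprod hf2 hg0, sq_nonneg M]

/-- the basic constant -/
noncomputable def LOC_M : ℝ := 4096 * Real.exp 16

theorem LOC_M_ge : 4096 ≤ LOC_M := by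
  have := Real.one_le_exp (x := 16) (by norm_num)
  unfold LOC_M
  linarith

theorem LOC_exp1 {s t : ℝ} (hs : |s| ≤ 16) (ht0 : 0 ≤ t) (ht1 : t ≤ 1) :
    ‖((Real.exp (s * t) : ℝ) : ℂ) - (1 + (s : ℂ) * t + ((s : ℂ) ^ 2 / 2) * t ^ 2)‖ ≤
      LOC_M * t ^ 3 := by
  have h := Complex.norm_exp_sub_sum_le_norm_mul_exp ((s * t : ℝ) : ℂ) 3
  have e1 : ∑ m ∈ Finset.range 3, ((s * t : ℝ) : ℂ) ^ m / (m.factorial : ℂ) =
      1 + (s : ℂ) * t + ((s : ℂ) ^ 2 / 2) * t ^ 2 := by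
    simp [Finset.sum_range_succ, Nat.factorial]
    ring
  rw [e1, ← Complex.ofReal_exp, Complex.norm_real, Real.norm_eq_abs] at h
  refine h.trans ?_
  have h2 : |s * t| ≤ 16 * t := by
    rw [abs_mul, abs_of_nonneg ht0]
    exact mul_le_mul_of_nonneg_right hs ht0
  have h3 : |s * t| ≤ 16 := h2.trans (by linarith)
  have h4 : |s * t| ^ 3 ≤ (16 * t) ^ 3 := pow_le_pow_left₀ (abs_nonneg _) h2 3
  have h5 : Real.exp |s * t| ≤ Real.exp 16 := Real.exp_le_exp.2 h3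
  calc |s * t| ^ 3 * Real.exp |s * t| ≤ (16 * t) ^ 3 * Real.exp 16 :=
        mul_le_mul h4 h5 (Real.exp_pos _).le (by positivity)
    _ = LOC_M * t ^ 3 := by unfold LOC_M; ring

theorem LOC_exp2 {c t : ℝ} (hc0 : 0 ≤ c) (hc1 : c ≤ 1) (ht0 : 0 ≤ t) (ht1 : t ≤ 1) :
    ‖((Real.exp (c * t ^ 2) : ℝ) : ℂ) - (1 + (0 : ℂ) * t + (c : ℂ) * t ^ 2)‖ ≤
      LOC_M * t ^ 3 := by
  have h := Complex.norm_exp_sub_sum_le_norm_mul_exp ((c * t ^ 2 : ℝ) : ℂ) 2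
  have e1 : ∑ m ∈ Finset.range 2, ((c * t ^ 2 : ℝ) : ℂ) ^ m / (m.factorial : ℂ) =
      1 + (0 : ℂ) * t + (c : ℂ) * t ^ 2 := by
    simp [Finset.sum_range_succ, Nat.factorial]
  rw [e1, ← Complex.ofReal_exp, Complex.norm_real, Real.norm_eq_abs] at h
  refine h.trans ?_
  have ht2 : 0 ≤ t ^ 2 := sq_nonneg t
  have ht21 : t ^ 2 ≤ 1 := pow_le_one₀ ht0 ht1
  rw [abs_of_nonneg (mul_nonneg hc0 ht2)]
  have h2 : c * t ^ 2 ≤ t ^ 2 := by nlinarith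
  have h3 : (c * t ^ 2) ^ 2 ≤ (t ^ 2) ^ 2 := pow_le_pow_left₀ (mul_nonneg hc0 ht2) h2 2
  have h4 : (t ^ 2) ^ 2 ≤ t ^ 3 := by
    have : (t ^ 2) ^ 2 = t ^ 3 * t := by ring
    rw [this]
    exact mul_le_of_le_one_right (pow_nonneg ht0 3) ht1
  have h5 : Real.exp (c * t ^ 2) ≤ Real.exp 16 := Real.exp_le_exp.2 (by linarith)
  calc (c * t ^ 2) ^ 2 * Real.exp (c * t ^ 2) ≤ t ^ 3 * Real.exp 16 :=
        mul_le_mul (h3.trans h4) h5 (Real.exp_pos _).le (pow_nonneg ht0 3)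
    _ ≤ LOC_M * t ^ 3 := by
        unfold LOC_M
        nlinarith [mul_nonneg (pow_nonneg ht0 3) (Real.exp_pos 16).le]

/-- the denominator does not vanish -/
theorem LOC_den {u : ℂ} {x : ℝ} (hu : ‖u‖ < 1) (hx : |x| ≤ 2) : 1 - u * x + u ^ 2 ≠ 0 := by
  intro h
  have hre := congrArg Complex.re h
  have him := congrArg Complex.im h
  simp [pow_two] at hre him
  have hx' := abs_le.1 hx
  have hn : u.re ^ 2 + u.im ^ 2 < 1 := by
    have h1 : ‖u‖ ^ 2 < 1 := by nlinarith [norm_nonneg u]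
    rw [← Complex.normSq_eq_norm_sq, Complex.normSq_apply] at h1
    nlinarith
  have him' : u.im * (2 * u.re - x) = 0 := by linarith
  rcases mul_eq_zero.1 him' with h1 | h1
  · rw [h1] at hre hn
    have hr1 : u.re < 1 := by nlinarith
    have hr2 : -1 < u.re := by nlinarith
    rcases le_total 0 u.re with h2 | h2
    · have h3 := mul_le_mul_of_nonneg_left hx'.2 h2
      have h4 : 0 < (1 - u.re) ^ 2 := pow_pos (by linarith) 2
      nlinarith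
    · have h3 := mul_le_mul_of_nonpos_left hx'.1 h2
      have h4 : 0 < (1 + u.re) ^ 2 := pow_pos (by linarith) 2
      nlinarith
  · have h2 : x = 2 * u.re := by linarith
    rw [h2] at hre
    nlinarith

theorem LOC_el {p : ℕ} (hp : p.Prime) {a : ℂ} (ha : ‖a‖ ≤ 1) {x : ℝ} (hx : |x| ≤ 2) :
    ‖el p a x - (1 + (a * x) * ((1 / Real.sqrt p : ℝ) : ℂ) +
      (a ^ 2 * ((x : ℂ) ^ 2 - 1)) * ((1 / Real.sqrt p : ℝ) : ℂ) ^ 2)‖ ≤
      LOC_M * (1 / Real.sqrt p) ^ 3 := by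
  have hp2 : (2 : ℝ) ≤ p := by exact_mod_cast hp.two_le
  have hsp : 1 < Real.sqrt p := by
    rw [Real.lt_sqrt (by norm_num)]
    linarith
  set t : ℝ := 1 / Real.sqrt p with ht
  have ht0 : 0 ≤ t := by positivity
  have ht1 : t < 1 := by
    rw [ht, div_lt_one (by linarith)]
    exact hsp
  have ht2 : t ^ 2 = 1 / p := by
    rw [ht, div_pow, Real.sq_sqrt (by linarith), one_pow]
  set u : ℂ := a * t with hu
  have hnt : ‖(t : ℂ)‖ = t := by rw [Complex.norm_real, Real.norm_eq_abs, abs_of_nonneg ht0]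
  have hun : ‖u‖ ≤ t := by
    rw [hu, norm_mul, hnt]
    exact mul_le_of_le_one_left ht0 ha
  have hden : el p a x = (1 - u * x + u ^ 2)⁻¹ := by
    rw [el, hu]
    congr 1
    have e1 : a * (x : ℂ) / (Real.sqrt p : ℂ) = a * t * x := by
      rw [ht]
      push_cast
      ring
    have e2 : a ^ 2 / (p : ℂ) = (a * t) ^ 2 := by
      have e3 : (t : ℂ) ^ 2 = 1 / (p : ℂ) := by
        have := congrArg (fun r : ℝ => (r : ℂ)) ht2
        push_cast at this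
        exact this
      rw [mul_pow, e3]
      ring
    rw [e1, e2]
  have hne := LOC_den (lt_of_le_of_lt hun ht1) hx
  have hmul : el p a x * (1 - u * x + u ^ 2) = 1 := by
    rw [hden]
    exact inv_mul_cancel₀ hne
  have hkey : el p a x - (1 + (a * x) * (t : ℂ) + (a ^ 2 * ((x : ℂ) ^ 2 - 1)) * (t : ℂ) ^ 2) =
      -(el p a x * (u ^ 3 * (2 * x - x ^ 3) + u ^ 4 * (x ^ 2 - 1))) := by
    have e1 : (1 + (a * x) * (t : ℂ) + (a ^ 2 * ((x : ℂ) ^ 2 - 1)) * (t : ℂ) ^ 2) =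
        1 + u * x + u ^ 2 * (x ^ 2 - 1) := by
      rw [hu]; ring
    rw [e1]
    linear_combination (1 + u * x + u ^ 2 * ((x : ℂ) ^ 2 - 1)) * hmul
  rw [hkey, norm_neg, norm_mul]
  have hel := el_norm hp ha hx
  have hx2 : ‖(x : ℂ)‖ ≤ 2 := by rw [Complex.norm_real]; exact hx
  have hx3 : ‖(2 * x - x ^ 3 : ℂ)‖ ≤ 12 := by
    refine (norm_sub_le _ _).trans ?_
    rw [norm_mul, norm_pow]
    have : ‖(x : ℂ)‖ ^ 3 ≤ 2 ^ 3 := pow_le_pow_left₀ (norm_nonneg _) hx2 3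
    have h2 : ‖(2 : ℂ)‖ = 2 := by norm_num
    rw [h2]
    linarith
  have hx4 : ‖(x ^ 2 - 1 : ℂ)‖ ≤ 5 := by
    refine (norm_sub_le _ _).trans ?_
    rw [norm_pow, norm_one]
    have : ‖(x : ℂ)‖ ^ 2 ≤ 2 ^ 2 := pow_le_pow_left₀ (norm_nonneg _) hx2 2
    linarith
  have hu3 : ‖u‖ ^ 3 ≤ t ^ 3 := pow_le_pow_left₀ (norm_nonneg _) hun 3
  have hu4 : ‖u‖ ^ 4 ≤ t ^ 3 := by
    have h1 : ‖u‖ ^ 4 ≤ t ^ 4 := pow_le_pow_left₀ (norm_nonneg _) hun 4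
    have h2 : t ^ 4 = t ^ 3 * t := by ring
    rw [h2] at h1
    exact h1.trans (mul_le_of_le_one_right (pow_nonneg ht0 3) ht1.le)
  have h1 : ‖u ^ 3 * (2 * x - x ^ 3) + u ^ 4 * ((x : ℂ) ^ 2 - 1)‖ ≤ 17 * t ^ 3 := by
    refine (norm_add_le _ _).trans ?_
    rw [norm_mul, norm_mul, norm_pow, norm_pow]
    have e1 : ‖u‖ ^ 3 * ‖(2 * x - x ^ 3 : ℂ)‖ ≤ t ^ 3 * 12 :=
      mul_le_mul hu3 hx3 (norm_nonneg _) (pow_nonneg ht0 3)
    have e2 : ‖u‖ ^ 4 * ‖(x ^ 2 - 1 : ℂ)‖ ≤ t ^ 3 * 5 :=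
      mul_le_mul hu4 hx4 (norm_nonneg _) (pow_nonneg ht0 3)
    linarith
  calc ‖el p a x‖ * ‖u ^ 3 * (2 * x - x ^ 3) + u ^ 4 * ((x : ℂ) ^ 2 - 1)‖ ≤ 12 * (17 * t ^ 3) :=
        mul_le_mul hel h1 (norm_nonneg _) (by norm_num)
    _ ≤ LOC_M * t ^ 3 := by nlinarith [LOC_M_ge, pow_nonneg ht0 3]

/-- integration against the Sato-Tate distribution -/
theorem LOC_int {I : Finset ℕ} {P : Measure (ℕ → ℝ)} (hP : IsST I P) {p : ℕ} (hp : p ∈ I)
    (F : ℝ → ℂ) (hF : Measurable F) (A B D : ℂ) (K : ℝ)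
    (h : ∀ x : ℝ, |x| ≤ 2 → ‖F x - (A + B * x + D * ((x : ℂ) ^ 2 - 1))‖ ≤ K) :
    ‖∫ x, F (x p) ∂P - A‖ ≤ K := by
  have hprob := hP.prob
  have hbd : ∀ᵐ x ∂P, |x p| ≤ 2 := hP.bdd.mono fun x hx => hx p hp
  have hmeas : Measurable fun x : ℕ → ℝ => x p := measurable_pi_apply p
  have hint : ∀ (H : ℝ → ℂ), Measurable H → (∃ C : ℝ, ∀ x : ℝ, |x| ≤ 2 → ‖H x‖ ≤ C) →
      Integrable (fun x => H (x p)) P := by
    rintro H hH ⟨C, hC⟩
    refine Integrable.of_bound (hH.comp hmeas).aestronglyMeasurable C ?_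
    filter_upwards [hbd] with x hx
    exact hC _ hx
  have hx1 : Integrable (fun x => ((x p : ℝ) : ℂ)) P := by
    refine hint (fun x : ℝ => (x : ℂ)) Complex.measurable_ofReal ⟨2, fun x hx => ?_⟩
    rw [Complex.norm_real]
    exact hx
  have hx2 : Integrable (fun x => ((x p : ℝ) : ℂ) ^ 2 - 1) P := by
    refine hint (fun x : ℝ => (x : ℂ) ^ 2 - 1)
      ((Complex.measurable_ofReal.pow_const 2).sub_const 1) ⟨5, fun x hx => ?_⟩
    refine (norm_sub_le _ _).trans ?_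
    rw [norm_pow, norm_one, Complex.norm_real, Real.norm_eq_abs]
    have : |x| ^ 2 ≤ 2 ^ 2 := pow_le_pow_left₀ (abs_nonneg _) hx 2
    linarith
  have hm1 : ∫ x, ((x p : ℝ) : ℂ) ∂P = 0 := by
    have h1 := hP.mom p hp 1
    have h2 : ∀ x : ℕ → ℝ, Uu (x p) 1 = x p := fun x => rfl
    simp only [h2] at h1
    rw [integral_complex_ofReal, h1]
    simp
  have hm2 : ∫ x, (((x p : ℝ) : ℂ) ^ 2 - 1) ∂P = 0 := by
    have h1 := hP.mom p hp 2
    have h2 : ∀ x : ℕ → ℝ, Uu (x p) 2 = x p ^ 2 - 1 := fun x => by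
      simp only [Uu]
      ring
    simp only [h2] at h1
    have h3 : ∀ x : ℕ → ℝ, ((x p : ℝ) : ℂ) ^ 2 - 1 = ((x p ^ 2 - 1 : ℝ) : ℂ) := fun x => by
      push_cast
      ring
    simp only [h3]
    rw [integral_complex_ofReal, h1]
    simp
  have hAB : Integrable (fun x => A + B * ((x p : ℝ) : ℂ)) P :=
    (integrable_const A).add (hx1.const_mul B)
  have hABD : Integrable (fun x => A + B * ((x p : ℝ) : ℂ) + D * (((x p : ℝ) : ℂ) ^ 2 - 1)) P :=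
    hAB.add (hx2.const_mul D)
  have hmain : ∫ x, (A + B * ((x p : ℝ) : ℂ) + D * (((x p : ℝ) : ℂ) ^ 2 - 1)) ∂P = A := by
    rw [integral_add hAB (hx2.const_mul D),
      integral_add (integrable_const A) (hx1.const_mul B), integral_const_mul,
      integral_const_mul, hm1, hm2, integral_const]
    simp
  have hFi : Integrable (fun x => F (x p)) P := by
    refine hint F hF ⟨K + (‖A‖ + ‖B‖ * 2 + ‖D‖ * 5), fun x hx => ?_⟩
    have h1 := h x hx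
    have h2 : F x = (F x - (A + B * x + D * ((x : ℂ) ^ 2 - 1))) +
      (A + B * x + D * ((x : ℂ) ^ 2 - 1)) := by ring
    rw [h2]
    refine (norm_add_le _ _).trans (add_le_add h1 ?_)
    refine norm_add₃_le.trans ?_
    rw [norm_mul, norm_mul, Complex.norm_real, Real.norm_eq_abs]
    have h3 : ‖(x : ℂ) ^ 2 - 1‖ ≤ 5 := by
      refine (norm_sub_le _ _).trans ?_
      rw [norm_pow, norm_one, Complex.norm_real, Real.norm_eq_abs]
      have : |x| ^ 2 ≤ 2 ^ 2 := pow_le_pow_left₀ (abs_nonneg _) hx 2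
      linarith
    have h4 := mul_le_mul_of_nonneg_left hx (norm_nonneg B)
    have h5 := mul_le_mul_of_nonneg_left h3 (norm_nonneg D)
    linarith
  have h6 : ∫ x, F (x p) ∂P - A =
      ∫ x, (F (x p) - (A + B * ((x p : ℝ) : ℂ) + D * (((x p : ℝ) : ℂ) ^ 2 - 1))) ∂P := by
    rw [integral_sub hFi hABD, hmain]
  rw [h6]
  have h7 : ∀ᵐ x ∂P, ‖F (x p) - (A + B * ((x p : ℝ) : ℂ) + D * (((x p : ℝ) : ℂ) ^ 2 - 1))‖ ≤ K := by
    filter_upwards [hbd] with x hx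
    exact h _ hx
  have h8 := norm_integral_le_of_norm_le_const h7
  simpa using h8

/-- local expansions -/
theorem local_est_pr : ∃ C : ℝ, 1 ≤ C ∧ ∀ (I : Finset ℕ) (P : Measure (ℕ → ℝ)), IsST I P →
    ∀ p ∈ I, p.Prime → ∀ a : ℂ, ‖a‖ ≤ 1 →
      ‖∫ x, ((Real.exp (1 / (2 * p)) * Real.exp (-x p / Real.sqrt p) : ℝ) : ℂ) * el p a (x p) ∂P - 1‖ ≤
        ‖1 - a‖ / p + C * (p : ℝ) ^ (-(3 / 2) : ℝ) ∧
      ∫ x, Real.exp (1 / p) * Real.exp (-2 * x p / Real.sqrt p) * ‖el p a (x p)‖ ^ 2 ∂P ≤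
        1 + 4 * ‖1 - a‖ / p + C * (p : ℝ) ^ (-(3 / 2) : ℝ) ∧
      ∀ τ : ℝ, |τ| ≤ 8 → ∫ x, Real.exp (τ * x p / Real.sqrt p) * ‖el p a (x p)‖ ^ 2 ∂P ≤ 1 + C / p := by
  set M₀ : ℝ := LOC_M with hM₀
  have hM₀g : 4096 ≤ M₀ := LOC_M_ge
  set M₁ : ℝ := 10 * M₀ ^ 2 with hM₁
  have hM01 : M₀ ≤ M₁ := by nlinarith
  set M₂ : ℝ := 10 * M₁ ^ 2 with hM₂
  have hM12 : M₁ ≤ M₂ := by nlinarith
  refine ⟨M₂ + 49, by linarith, ?_⟩
  intro I P hP p hpI hp a ha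
  have hp2 : (2 : ℝ) ≤ p := by exact_mod_cast hp.two_le
  have hp0 : (0 : ℝ) < p := by linarith
  have hsp : 1 < Real.sqrt p := by
    rw [Real.lt_sqrt (by norm_num)]
    linarith
  obtain ⟨t, ht⟩ : ∃ t : ℝ, t = 1 / Real.sqrt p := ⟨_, rfl⟩
  have ht0 : 0 ≤ t := by rw [ht]; positivity
  have ht1 : t ≤ 1 := by
    rw [ht, div_le_one (by linarith)]
    exact hsp.le
  have ht2 : t ^ 2 = 1 / p := by
    rw [ht, div_pow, Real.sq_sqrt (by linarith), one_pow]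
  have ht3 : (p : ℝ) ^ (-(3 / 2) : ℝ) = t ^ 3 := by
    rw [ht, Real.sqrt_eq_rpow, div_pow, one_pow, ← Real.rpow_natCast, ← Real.rpow_mul hp0.le,
      Real.rpow_neg hp0.le, one_div]
    norm_num
  have ht32 : t ^ 3 ≤ t ^ 2 := by
    have : t ^ 3 = t ^ 2 * t := by ring
    rw [this]
    exact mul_le_of_le_one_right (sq_nonneg t) ht1
  have hdiv : ∀ s : ℝ, s / Real.sqrt p = s * t := fun s => by rw [ht]; ring
  have ht2c : ((1 / p : ℝ) : ℂ) = (t : ℂ) ^ 2 := by rw [← ht2]; push_cast; ring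
  -- expansion of the Euler factor and its conjugate
  have hel : ∀ x : ℝ, |x| ≤ 2 → ‖el p a x - (1 + (a * x) * (t : ℂ) +
      (a ^ 2 * ((x : ℂ) ^ 2 - 1)) * (t : ℂ) ^ 2)‖ ≤ M₀ * t ^ 3 := by
    intro x hx
    have := LOC_el hp ha hx
    rw [← ht] at this
    exact this
  have helc : ∀ x : ℝ, |x| ≤ 2 → ‖conj (el p a x) - (1 + (conj a * x) * (t : ℂ) +
      (conj a ^ 2 * ((x : ℂ) ^ 2 - 1)) * (t : ℂ) ^ 2)‖ ≤ M₀ * t ^ 3 := by
    intro x hx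
    have h1 := hel x hx
    rw [← Complex.norm_conj] at h1
    simpa using h1
  have hac : ‖conj a‖ ≤ 1 := by rw [Complex.norm_conj]; exact ha
  -- bounds for coefficients
  have hxn : ∀ x : ℝ, |x| ≤ 2 → ‖(x : ℂ)‖ ≤ 2 := fun x hx => by rw [Complex.norm_real]; exact hx
  have hx2n : ∀ x : ℝ, |x| ≤ 2 → ‖(x : ℂ) ^ 2 - 1‖ ≤ 5 := fun x hx => by
    refine (norm_sub_le _ _).trans ?_
    rw [norm_pow, norm_one]
    have : ‖(x : ℂ)‖ ^ 2 ≤ 2 ^ 2 := pow_le_pow_left₀ (norm_nonneg _) (hxn x hx) 2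
    linarith
  have hc1 : ∀ b : ℂ, ‖b‖ ≤ 1 → ∀ x : ℝ, |x| ≤ 2 → ‖b * x‖ ≤ M₀ := fun b hb x hx => by
    rw [norm_mul]
    have := mul_le_mul hb (hxn x hx) (norm_nonneg _) zero_le_one
    linarith
  have hc2 : ∀ b : ℂ, ‖b‖ ≤ 1 → ∀ x : ℝ, |x| ≤ 2 → ‖b ^ 2 * ((x : ℂ) ^ 2 - 1)‖ ≤ M₀ :=
    fun b hb x hx => by
    rw [norm_mul, norm_pow]
    have h1 : ‖b‖ ^ 2 ≤ 1 := pow_le_one₀ (norm_nonneg _) hb
    have := mul_le_mul h1 (hx2n x hx) (norm_nonneg _) zero_le_one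
    linarith
  have h1M : ‖(1 : ℂ)‖ ≤ M₀ := by rw [norm_one]; linarith
  have h0M : ‖(0 : ℂ)‖ ≤ M₀ := by rw [norm_zero]; linarith
  have hsM : ∀ s : ℝ, |s| ≤ 16 → ‖(s : ℂ)‖ ≤ M₀ ∧ ‖(s : ℂ) ^ 2 / 2‖ ≤ M₀ := fun s hs => by
    have h1 : ‖(s : ℂ)‖ ≤ 16 := by rw [Complex.norm_real]; exact hs
    refine ⟨by linarith, ?_⟩
    rw [norm_div, norm_pow]
    have h2 : ‖(s : ℂ)‖ ^ 2 ≤ 16 ^ 2 := pow_le_pow_left₀ (norm_nonneg _) h1 2
    have h3 : ‖(2 : ℂ)‖ = 2 := by norm_num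
    rw [h3]
    linarith
  have hcM : ∀ c : ℝ, 0 ≤ c → c ≤ 1 → ‖(c : ℂ)‖ ≤ M₀ := fun c h0 h1 => by
    rw [Complex.norm_real, Real.norm_eq_abs, abs_of_nonneg h0]
    linarith
  have hup : M₀ * t ^ 3 ≤ M₁ * t ^ 3 := mul_le_mul_of_nonneg_right hM01 (pow_nonneg ht0 3)
  have hmeas : Measurable fun x : ℝ => el p a x := el_meas p a
  refine ⟨?_, ?_, ?_⟩
  · -- (i)
    have hexp : ∀ x : ℝ, |x| ≤ 2 →
        ‖((Real.exp (1 / (2 * p)) * Real.exp (-x / Real.sqrt p) : ℝ) : ℂ) * el p a x -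
          ((1 + (1 - a) * (t : ℂ) ^ 2) + ((a - 1) * t) * x +
            ((a ^ 2 - a + 1 / 2) * (t : ℂ) ^ 2) * ((x : ℂ) ^ 2 - 1))‖ ≤ M₂ * t ^ 3 := by
      intro x hx
      have e1 := LOC_exp2 (c := 1 / 2) (by norm_num) (by norm_num) ht0 ht1
      have e2 := LOC_exp1 (s := -x) (t := t) (by rw [abs_neg]; linarith) ht0 ht1
      have hs := hsM (-x) (by rw [abs_neg]; linarith)
      have p1 := LOC_mul ht0 ht1 (by linarith : (1 : ℝ) ≤ M₀) h1M h0M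
        (hcM (1 / 2) (by norm_num) (by norm_num)) h1M hs.1 hs.2 e1 e2
      have p2 := LOC_mul ht0 ht1 (by linarith : (1 : ℝ) ≤ M₁) p1.2.1 p1.2.2.1 p1.2.2.2
        (h1M.trans hM01) ((hc1 a ha x hx).trans hM01) ((hc2 a ha x hx).trans hM01) p1.1
        ((hel x hx).trans hup)
      have e3 : Real.exp (1 / (2 * p)) * Real.exp (-x / Real.sqrt p) =
          Real.exp (1 / 2 * t ^ 2) * Real.exp (-x * t) := by
        rw [hdiv, ht2]
        congr 2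
        field_simp
      rw [e3, Complex.ofReal_mul]
      refine le_trans (le_of_eq ?_) p2.1
      congr 1
      push_cast
      ring
    have h2 := LOC_int hP hpI (fun x : ℝ =>
      ((Real.exp (1 / (2 * p)) * Real.exp (-x / Real.sqrt p) : ℝ) : ℂ) * el p a x)
      ((Complex.measurable_ofReal.comp (measurable_const.mul
        (Real.measurable_exp.comp (measurable_neg.div_const _)))).mul hmeas) _ _ _ _ hexp
    rw [ht3]
    have h3 : ∫ x, ((Real.exp (1 / (2 * p)) * Real.exp (-x p / Real.sqrt p) : ℝ) : ℂ) *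
        el p a (x p) ∂P - 1 =
        (∫ x, ((Real.exp (1 / (2 * p)) * Real.exp (-x p / Real.sqrt p) : ℝ) : ℂ) *
        el p a (x p) ∂P - (1 + (1 - a) * (t : ℂ) ^ 2)) + (1 - a) * (t : ℂ) ^ 2 := by ring
    rw [h3]
    refine (norm_add_le _ _).trans ?_
    have h4 : ‖(1 - a) * (t : ℂ) ^ 2‖ = ‖1 - a‖ / p := by
      rw [norm_mul, norm_pow, Complex.norm_real, Real.norm_eq_abs, sq_abs, ht2]
      ring
    rw [h4]
    have h5 : M₂ * t ^ 3 ≤ (M₂ + 49) * t ^ 3 := by nlinarith [pow_nonneg ht0 3]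
    linarith
  · -- (ii)
    have hexp : ∀ x : ℝ, |x| ≤ 2 →
        ‖((Real.exp (1 / p) * Real.exp (-2 * x / Real.sqrt p) * ‖el p a x‖ ^ 2 : ℝ) : ℂ) -
          ((1 + (3 + a * conj a - 2 * (a + conj a)) * (t : ℂ) ^ 2) +
            ((a + conj a - 2) * t) * x +
            ((2 + a ^ 2 + conj a ^ 2 + a * conj a - 2 * (a + conj a)) * (t : ℂ) ^ 2) *
              ((x : ℂ) ^ 2 - 1))‖ ≤ M₂ * t ^ 3 := by
      intro x hx
      have e1 := LOC_exp2 (c := 1) (by norm_num) (by norm_num) ht0 ht1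
      have hs16 : |-2 * x| ≤ 16 := by
        rw [abs_mul, abs_neg, abs_two]
        linarith
      have e2 := LOC_exp1 (s := -2 * x) (t := t) hs16 ht0 ht1
      have hs := hsM (-2 * x) hs16
      have p1 := LOC_mul ht0 ht1 (by linarith : (1 : ℝ) ≤ M₀) h1M h0M
        (hcM 1 (by norm_num) (by norm_num)) h1M hs.1 hs.2 e1 e2
      have p2 := LOC_mul ht0 ht1 (by linarith : (1 : ℝ) ≤ M₀) h1M (hc1 a ha x hx)
        (hc2 a ha x hx) h1M (hc1 _ hac x hx) (hc2 _ hac x hx) (hel x hx) (helc x hx)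
      have p3 := LOC_mul ht0 ht1 (by linarith : (1 : ℝ) ≤ M₁) p1.2.1 p1.2.2.1 p1.2.2.2
        p2.2.1 p2.2.2.1 p2.2.2.2 p1.1 p2.1
      have e3 : Real.exp (1 / p) * Real.exp (-2 * x / Real.sqrt p) =
          Real.exp (1 * t ^ 2) * Real.exp (-2 * x * t) := by
        rw [hdiv, ht2, one_mul]
      have e4 : ((‖el p a x‖ ^ 2 : ℝ) : ℂ) = el p a x * conj (el p a x) := by
        rw [Complex.mul_conj, Complex.normSq_eq_norm_sq]
      rw [e3, Complex.ofReal_mul, e4, Complex.ofReal_mul]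
      refine le_trans (le_of_eq ?_) p3.1
      congr 1
      push_cast
      ring
    have h2 := LOC_int hP hpI (fun x : ℝ =>
      ((Real.exp (1 / p) * Real.exp (-2 * x / Real.sqrt p) * ‖el p a x‖ ^ 2 : ℝ) : ℂ))
      (Complex.measurable_ofReal.comp ((measurable_const.mul
        (Real.measurable_exp.comp ((measurable_const.mul measurable_id).div_const _))).mul
          (hmeas.norm.pow_const 2))) _ _ _ _ hexp
    rw [integral_complex_ofReal] at h2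
    have h3 := (Complex.abs_re_le_norm _).trans h2
    rw [Complex.sub_re, Complex.ofReal_re] at h3
    have h4 := (abs_le.1 h3).2
    have h5 : (1 + (3 + a * conj a - 2 * (a + conj a)) * (t : ℂ) ^ 2).re ≤
        1 + 4 * ‖1 - a‖ / p := by
      have e5 : (1 + (3 + a * conj a - 2 * (a + conj a)) * (t : ℂ) ^ 2) =
          ((1 + (‖1 - a‖ ^ 2 + 2 * (1 - a).re) * t ^ 2 : ℝ) : ℂ) := by
        have e6 : ((‖1 - a‖ ^ 2 : ℝ) : ℂ) = (1 - a) * conj (1 - a) := by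
          rw [Complex.mul_conj, Complex.normSq_eq_norm_sq]
        have e7 : ((2 * (1 - a).re : ℝ) : ℂ) = (1 - a) + conj (1 - a) := by
          rw [Complex.add_conj]
        rw [Complex.ofReal_add, Complex.ofReal_mul, Complex.ofReal_add, e6, e7]
        simp only [map_sub, map_one]
        push_cast
        ring
      rw [e5, Complex.ofReal_re]
      have h6 : (1 - a).re ≤ ‖1 - a‖ := Complex.re_le_norm _
      have h7 : ‖1 - a‖ ≤ 2 := by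
        refine (norm_sub_le _ _).trans ?_
        rw [norm_one]
        linarith
      have h8 : ‖1 - a‖ ^ 2 ≤ 2 * ‖1 - a‖ := by nlinarith [norm_nonneg (1 - a)]
      have h9 : (‖1 - a‖ ^ 2 + 2 * (1 - a).re) * t ^ 2 ≤ (4 * ‖1 - a‖) * t ^ 2 :=
        mul_le_mul_of_nonneg_right (by linarith) (sq_nonneg t)
      have h10 : (4 * ‖1 - a‖) * t ^ 2 = 4 * ‖1 - a‖ / p := by rw [ht2]; ring
      linarith
    rw [ht3]
    have h6 : M₂ * t ^ 3 ≤ (M₂ + 49) * t ^ 3 := by nlinarith [pow_nonneg ht0 3]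
    linarith
  · -- (iii)
    intro τ hτ
    have hexp : ∀ x : ℝ, |x| ≤ 2 →
        ‖((Real.exp (τ * x / Real.sqrt p) * ‖el p a x‖ ^ 2 : ℝ) : ℂ) -
          ((1 + ((τ : ℂ) ^ 2 / 2 + a * conj a + τ * (a + conj a)) * (t : ℂ) ^ 2) +
            ((a + conj a + τ) * t) * x +
            (((τ : ℂ) ^ 2 / 2 + a ^ 2 + conj a ^ 2 + a * conj a + τ * (a + conj a)) * (t : ℂ) ^ 2) *
              ((x : ℂ) ^ 2 - 1))‖ ≤ M₂ * t ^ 3 := by
      intro x hx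
      have hs16 : |τ * x| ≤ 16 := by
        rw [abs_mul]
        have := mul_le_mul hτ hx (abs_nonneg _) (by norm_num)
        linarith
      have e2 := LOC_exp1 (s := τ * x) (t := t) hs16 ht0 ht1
      have hs := hsM (τ * x) hs16
      have p2 := LOC_mul ht0 ht1 (by linarith : (1 : ℝ) ≤ M₀) h1M (hc1 a ha x hx)
        (hc2 a ha x hx) h1M (hc1 _ hac x hx) (hc2 _ hac x hx) (hel x hx) (helc x hx)
      have p3 := LOC_mul ht0 ht1 (by linarith : (1 : ℝ) ≤ M₁) (h1M.trans hM01)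
        (hs.1.trans hM01) (hs.2.trans hM01) p2.2.1 p2.2.2.1 p2.2.2.2 (e2.trans hup) p2.1
      have e4 : ((‖el p a x‖ ^ 2 : ℝ) : ℂ) = el p a x * conj (el p a x) := by
        rw [Complex.mul_conj, Complex.normSq_eq_norm_sq]
      rw [hdiv, Complex.ofReal_mul, e4]
      refine le_trans (le_of_eq ?_) p3.1
      congr 1
      push_cast
      ring
    have h2 := LOC_int hP hpI (fun x : ℝ =>
      ((Real.exp (τ * x / Real.sqrt p) * ‖el p a x‖ ^ 2 : ℝ) : ℂ))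
      (Complex.measurable_ofReal.comp
        ((Real.measurable_exp.comp ((measurable_const.mul measurable_id).div_const _)).mul
          (hmeas.norm.pow_const 2))) _ _ _ _ hexp
    rw [integral_complex_ofReal] at h2
    have h3 := (Complex.abs_re_le_norm _).trans h2
    rw [Complex.sub_re, Complex.ofReal_re] at h3
    have h4 := (abs_le.1 h3).2
    have h5 : (1 + ((τ : ℂ) ^ 2 / 2 + a * conj a + τ * (a + conj a)) * (t : ℂ) ^ 2).re ≤
        1 + 49 * t ^ 2 := by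
      rw [Complex.add_re, Complex.one_re]
      have h6 : ‖((τ : ℂ) ^ 2 / 2 + a * conj a + τ * (a + conj a)) * (t : ℂ) ^ 2‖ ≤ 49 * t ^ 2 := by
        rw [norm_mul, norm_pow, Complex.norm_real, Real.norm_eq_abs, sq_abs]
        refine mul_le_mul_of_nonneg_right ?_ (sq_nonneg t)
        refine norm_add₃_le.trans ?_
        have hτn : ‖(τ : ℂ)‖ ≤ 8 := by rw [Complex.norm_real]; exact hτ
        have k1 : ‖(τ : ℂ) ^ 2 / 2‖ ≤ 32 := by
          rw [norm_div, norm_pow]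
          have h2 : ‖(τ : ℂ)‖ ^ 2 ≤ 8 ^ 2 := pow_le_pow_left₀ (norm_nonneg _) hτn 2
          have h3 : ‖(2 : ℂ)‖ = 2 := by norm_num
          rw [h3]
          linarith
        have k2 : ‖a * conj a‖ ≤ 1 := by
          rw [norm_mul]
          exact mul_le_one₀ ha (norm_nonneg _) hac
        have k3 : ‖(τ : ℂ) * (a + conj a)‖ ≤ 16 := by
          rw [norm_mul]
          have k4 : ‖a + conj a‖ ≤ 2 := by
            refine (norm_add_le _ _).trans ?_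
            linarith
          have := mul_le_mul hτn k4 (norm_nonneg _) (by norm_num)
          linarith
        linarith
      have h7 := (Complex.re_le_norm _).trans h6
      linarith
    have h6 : M₂ * t ^ 3 ≤ M₂ * t ^ 2 := mul_le_mul_of_nonneg_left ht32 (by linarith)
    have h7 : (M₂ + 49) / p = M₂ * t ^ 2 + 49 * t ^ 2 := by rw [ht2]; ring
    rw [h7]
    linarith

theorem local_est : type_of% @local_est_pr := @local_est_pr

end Pool.Agent.LVB
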