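import Pool.Agent.Lib_helper41.LVB.Defs
import Pool.Agent.Lib_helper41.LVBF.ELF
import Pool.Agent.Lib_helper41.LVBF.EXT
import Pool.Agent.Lib_helper41.LVBF.LOC

/-! Theorem B, block BLE: one block of the mollifier. -/

set_option autoImplicit false

namespace Pool.Agent.LVB

open Pool.Agent.LEV Complex MeasureTheory Filter Topology UpperHalfPlane ModularGroup ProbabilityTheory
open scoped MatrixGroups Modular ENNReal ModularForm ComplexConjugate ContDiff

theorem BLE_prod {𝕜 : Type} [RCLike 𝕜] {I : Finset ℕ} {P : Measure (ℕ → ℝ)} (hP : IsST I P)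
    (F : ℕ → ℝ → 𝕜) (hF : ∀ p, Measurable (F p)) :
    ∫ x, ∏ p ∈ I, F p (x p) ∂P = ∏ p ∈ I, ∫ x, F p (x p) ∂P := by
  have h := hP.ind.integral_fun_prod_comp (f := fun (p : I) => F p)
    (fun p => (measurable_pi_apply _).aemeasurable)
    (fun p => (hF p).aestronglyMeasurable)
  have h1 : ∀ x : ℕ → ℝ, ∏ p ∈ I, F p (x p) = ∏ p : I, F p (x p) :=
    fun x => (Finset.prod_coe_sort I (fun p => F p (x p))).symm
  simp_rw [h1]
  rw [h]
  exact Finset.prod_coe_sort I (fun p => ∫ x, F p (x p) ∂P)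

theorem BLE_ex_cont (K : ℕ) : Continuous (fun t : ℝ => ex K t) := by
  unfold ex
  fun_prop

theorem BLE_PB_meas (I : Finset ℕ) : Measurable (PB I) := by
  unfold PB
  exact Finset.measurable_fun_sum _ (fun p _ => (measurable_pi_apply p).div_const _)

/-- the Euler product is measurable and bounded -/
theorem BLE_L_meas (I : Finset ℕ) (a : ℕ → ℂ) :
    Measurable (fun x : ℕ → ℝ => ∏ p ∈ I, el p (a p) (x p)) :=
  Finset.measurable_fun_prod _ (fun p _ => (el_meas p (a p)).comp (measurable_pi_apply p))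

theorem BLE_L_bdd {I : Finset ℕ} (hI : ∀ p ∈ I, p.Prime) {a : ℕ → ℂ} (ha : ∀ p ∈ I, ‖a p‖ ≤ 1)
    {x : ℕ → ℝ} (hx : ∀ p ∈ I, |x p| ≤ 2) : ‖∏ p ∈ I, el p (a p) (x p)‖ ≤ 12 ^ I.card := by
  rw [norm_prod]
  calc ∏ p ∈ I, ‖el p (a p) (x p)‖ ≤ ∏ _p ∈ I, (12 : ℝ) :=
        Finset.prod_le_prod (fun p _ => norm_nonneg _)
          (fun p hp => el_norm (hI p hp) (ha p hp) (hx p hp))
    _ = _ := by rw [Finset.prod_const]

theorem BLE_PB_bdd {I : Finset ℕ} {x : ℕ → ℝ} (hx : ∀ p ∈ I, |x p| ≤ 2) :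
    |PB I x| ≤ ∑ p ∈ I, 2 / Real.sqrt p := by
  unfold PB
  refine (Finset.abs_sum_le_sum_abs _ _).trans (Finset.sum_le_sum (fun p hp => ?_))
  rw [abs_div, abs_of_nonneg (Real.sqrt_nonneg _)]
  exact div_le_div_of_nonneg_right (hx p hp) (Real.sqrt_nonneg _)

theorem BLE_int {I : Finset ℕ} (hI : ∀ p ∈ I, p.Prime) {P : Measure (ℕ → ℝ)} (hP : IsST I P)
    {a : ℕ → ℂ} (ha : ∀ p ∈ I, ‖a p‖ ≤ 1) {G : ℝ → ℝ} (hG : Continuous G) :
    Integrable (fun x => G (PB I x) * ‖∏ p ∈ I, el p (a p) (x p)‖ ^ 2) P ∧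
    Integrable (fun x => ((G (PB I x) : ℝ) : ℂ) * ∏ p ∈ I, el p (a p) (x p)) P := by
  have := hP.prob
  obtain ⟨M, hM⟩ := (isCompact_Icc (a := -∑ p ∈ I, 2 / Real.sqrt p)
    (b := ∑ p ∈ I, 2 / Real.sqrt p)).exists_bound_of_continuousOn hG.continuousOn
  have hGm : Measurable (fun x : ℕ → ℝ => G (PB I x)) := hG.measurable.comp (BLE_PB_meas I)
  have hLm := BLE_L_meas I a
  constructor
  · refine Integrable.of_bound (hGm.mul (hLm.norm.pow_const 2)).aestronglyMeasurable
      (M * (12 ^ I.card) ^ 2) ?_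
    filter_upwards [hP.bdd] with x hx
    have h1 := hM (PB I x) (abs_le.mp (BLE_PB_bdd hx))
    have h2 := BLE_L_bdd hI ha hx
    rw [norm_mul, norm_pow, norm_norm]
    exact mul_le_mul h1 (pow_le_pow_left₀ (norm_nonneg _) h2 2) (by positivity)
      ((norm_nonneg _).trans h1)
  · refine Integrable.of_bound (hGm.complex_ofReal.mul hLm).aestronglyMeasurable
      (M * (12 ^ I.card)) ?_
    filter_upwards [hP.bdd] with x hx
    have h1 := hM (PB I x) (abs_le.mp (BLE_PB_bdd hx))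
    have h2 := BLE_L_bdd hI ha hx
    rw [norm_mul, Complex.norm_real]
    exact mul_le_mul h1 h2 (norm_nonneg _) ((norm_nonneg _).trans h1)

theorem block_est_pr : ∃ C : ℝ, 1 ≤ C ∧ ∀ (I : Finset ℕ), (∀ p ∈ I, p.Prime) → ∀ P : Measure (ℕ → ℝ),
    IsST I P → ∀ a : ℕ → ℂ, (∀ p ∈ I, ‖a p‖ ≤ 1) → ∀ K : ℕ, C * HB I ≤ K →
      ‖∫ x, (mb1 I K x : ℂ) * ∏ p ∈ I, el p (a p) (x p) ∂P - 1‖ ≤
        Real.exp (∑ p ∈ I, ‖1 - a p‖ / p + C * ∑ p ∈ I, (p : ℝ) ^ (-(3 / 2) : ℝ)) - 1 +
          2 * Real.exp (-K) ∧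
      ∫ x, mb1 I K x ^ 2 * ‖∏ p ∈ I, el p (a p) (x p)‖ ^ 2 ∂P ≤
        Real.exp (4 * ∑ p ∈ I, ‖1 - a p‖ / p + C * ∑ p ∈ I, (p : ℝ) ^ (-(3 / 2) : ℝ) +
          4 * Real.exp (-K)) := by
  obtain ⟨Cl, hCl1, hloc⟩ := local_est
  refine ⟨Cl + 1, by linarith, ?_⟩
  intro I hI P hP a ha K hK
  have := hP.prob
  have hint := fun (G : ℝ → ℝ) (hG : Continuous G) => BLE_int hI hP ha hG
  set L : (ℕ → ℝ) → ℂ := fun x => ∏ p ∈ I, el p (a p) (x p) with hL
  have hH0 : 0 ≤ HB I := Finset.sum_nonneg (fun p _ => by positivity)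
  have hD0 : 0 ≤ ∑ p ∈ I, ‖1 - a p‖ / (p : ℝ) := Finset.sum_nonneg (fun p _ => by positivity)
  have hS0 : 0 ≤ ∑ p ∈ I, (p : ℝ) ^ (-(3 / 2) : ℝ) := Finset.sum_nonneg (fun p _ => by positivity)
  -- (A)
  have hA : ‖∫ x, ((Real.exp (HB I / 2) * Real.exp (-PB I x) : ℝ) : ℂ) * L x ∂P - 1‖ ≤
      Real.exp (∑ p ∈ I, ‖1 - a p‖ / p + Cl * ∑ p ∈ I, (p : ℝ) ^ (-(3 / 2) : ℝ)) - 1 := by
    let F : ℕ → ℝ → ℂ := fun (p : ℕ) (y : ℝ) =>
      ((Real.exp (1 / (2 * p)) * Real.exp (-y / Real.sqrt p) : ℝ) : ℂ) * el p (a p) y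
    have hF : ∀ p, Measurable (F p) := fun p =>
      (Measurable.complex_ofReal (by fun_prop)).mul (el_meas p (a p))
    have h1 : ∀ x : ℕ → ℝ, ((Real.exp (HB I / 2) * Real.exp (-PB I x) : ℝ) : ℂ) * L x =
        ∏ p ∈ I, F p (x p) := by
      intro x
      simp only [hL, F]
      rw [Finset.prod_mul_distrib, ← Complex.ofReal_prod, Finset.prod_mul_distrib, ← Real.exp_sum,
        ← Real.exp_sum]
      congr 3
      · congr 1
        unfold HB
        rw [Finset.sum_div]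
        exact Finset.sum_congr rfl (fun p _ => by rw [div_div, mul_comm])
      · congr 1
        unfold PB
        rw [← Finset.sum_neg_distrib]
        exact Finset.sum_congr rfl (fun p _ => by rw [neg_div])
    rw [integral_congr_ae (Eventually.of_forall h1), BLE_prod hP F hF]
    have h2 : ∀ p ∈ I, (∫ x : ℕ → ℝ, F p (x p) ∂P) = 1 + ((∫ x : ℕ → ℝ, F p (x p) ∂P) - 1) :=
      fun p _ => by ring
    rw [Finset.prod_congr rfl h2]
    refine (Finset.norm_prod_one_add_sub_one_le _ _).trans ?_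
    apply sub_le_sub_right
    apply Real.exp_le_exp.mpr
    rw [Finset.mul_sum, ← Finset.sum_add_distrib]
    exact Finset.sum_le_sum (fun p hp => (hloc I P hP p hp (hI p hp) (a p) (ha p hp)).1)
  -- (B)
  have hB : ∫ x, Real.exp (HB I) * Real.exp (-2 * PB I x) * ‖L x‖ ^ 2 ∂P ≤
      Real.exp (4 * ∑ p ∈ I, ‖1 - a p‖ / p + Cl * ∑ p ∈ I, (p : ℝ) ^ (-(3 / 2) : ℝ)) := by
    let F : ℕ → ℝ → ℝ := fun (p : ℕ) (y : ℝ) => Real.exp (1 / p) * Real.exp (-2 * y / Real.sqrt p) *
          ‖el p (a p) y‖ ^ 2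
    have hF : ∀ p, Measurable (F p) := fun p =>
      Measurable.mul (by fun_prop) ((el_meas p (a p)).norm.pow_const 2)
    have h1 : ∀ x : ℕ → ℝ, Real.exp (HB I) * Real.exp (-2 * PB I x) * ‖L x‖ ^ 2 =
        ∏ p ∈ I, F p (x p) := by
      intro x
      simp only [hL, F]
      rw [Finset.prod_mul_distrib, Finset.prod_mul_distrib, ← Real.exp_sum, ← Real.exp_sum, norm_prod,
        Finset.prod_pow]
      congr 3
      unfold PB
      rw [Finset.mul_sum]
      exact Finset.sum_congr rfl (fun p _ => by rw [mul_div_assoc])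
    rw [integral_congr_ae (Eventually.of_forall h1), BLE_prod hP F hF]
    have h2 : ∀ p ∈ I, (∫ x : ℕ → ℝ, Real.exp (1 / p) * Real.exp (-2 * x p / Real.sqrt p) *
          ‖el p (a p) (x p)‖ ^ 2 ∂P) ≤ Real.exp (4 * ‖1 - a p‖ / p + Cl * (p : ℝ) ^ (-(3 / 2) : ℝ)) := by
      intro p hp
      refine ((hloc I P hP p hp (hI p hp) (a p) (ha p hp)).2.1).trans ?_
      have := Real.add_one_le_exp (4 * ‖1 - a p‖ / p + Cl * (p : ℝ) ^ (-(3 / 2) : ℝ))
      linarith
    refine (Finset.prod_le_prod (fun p _ => integral_nonneg (fun x => by positivity)) h2).trans ?_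
    rw [← Real.exp_sum]
    apply Real.exp_le_exp.mpr
    rw [Finset.sum_add_distrib, Finset.mul_sum, Finset.mul_sum]
    apply le_of_eq
    congr 1
    exact Finset.sum_congr rfl (fun p _ => by rw [mul_div_assoc])
  -- (C)
  have hC : ∀ τ : ℝ, |τ| ≤ 8 → ∫ x, Real.exp (τ * PB I x) * ‖L x‖ ^ 2 ∂P ≤ Real.exp (Cl * HB I) := by
    intro τ hτ
    let F : ℕ → ℝ → ℝ := fun (p : ℕ) (y : ℝ) => Real.exp (τ * y / Real.sqrt p) * ‖el p (a p) y‖ ^ 2
    have hF : ∀ p, Measurable (F p) := fun p =>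
      Measurable.mul (by fun_prop) ((el_meas p (a p)).norm.pow_const 2)
    have h1 : ∀ x : ℕ → ℝ, Real.exp (τ * PB I x) * ‖L x‖ ^ 2 = ∏ p ∈ I, F p (x p) := by
      intro x
      simp only [hL, F]
      rw [Finset.prod_mul_distrib, ← Real.exp_sum, norm_prod, Finset.prod_pow]
      congr 2
      unfold PB
      rw [Finset.mul_sum]
      exact Finset.sum_congr rfl (fun p _ => by rw [mul_div_assoc])
    rw [integral_congr_ae (Eventually.of_forall h1), BLE_prod hP F hF]
    have h2 : ∀ p ∈ I, (∫ x : ℕ → ℝ, Real.exp (τ * x p / Real.sqrt p) *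
          ‖el p (a p) (x p)‖ ^ 2 ∂P) ≤ Real.exp (Cl * (1 / p)) := by
      intro p hp
      refine ((hloc I P hP p hp (hI p hp) (a p) (ha p hp)).2.2 τ hτ).trans ?_
      have := Real.add_one_le_exp (Cl * (1 / (p : ℝ)))
      have h3 : Cl * (1 / (p : ℝ)) = Cl / p := by ring
      rw [h3] at this ⊢
      linarith
    refine (Finset.prod_le_prod (fun p _ => integral_nonneg (fun x => by positivity)) h2).trans ?_
    rw [← Real.exp_sum, ← Finset.mul_sum]
    exact le_rfl
  -- (D)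
  have hcont1 : Continuous (fun t : ℝ => (Real.exp (HB I / 2) * ex K (-t) -
      Real.exp (HB I / 2) * Real.exp (-t)) ^ 2) := by
    have := (BLE_ex_cont K).comp continuous_neg
    exact ((continuous_const.mul this).sub (by fun_prop)).pow 2
  have hDint := (hint _ hcont1).1
  have hD : ∫ x, (mb1 I K x - Real.exp (HB I / 2) * Real.exp (-PB I x)) ^ 2 * ‖L x‖ ^ 2 ∂P ≤
      Real.exp (-3 * K) := by
    have hpt : ∀ x : ℕ → ℝ, (mb1 I K x - Real.exp (HB I / 2) * Real.exp (-PB I x)) ^ 2 * ‖L x‖ ^ 2 ≤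
        Real.exp (HB I) * Real.exp (-(4 * K + 2)) * (Real.exp ((2 * Real.exp 1) * PB I x) * ‖L x‖ ^ 2) +
        Real.exp (HB I) * Real.exp (-(4 * K + 2)) * (Real.exp (-(2 * Real.exp 1) * PB I x) * ‖L x‖ ^ 2) := by
      intro x
      have h1 := ex_near K (-PB I x)
      rw [abs_neg] at h1
      have h2 : (ex K (-PB I x) - Real.exp (-PB I x)) ^ 2 ≤
          (Real.exp (-(2 * K + 1)) * Real.exp (Real.exp 1 * |PB I x|)) ^ 2 := by
        rw [← sq_abs (ex K (-PB I x) - Real.exp (-PB I x))]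
        exact pow_le_pow_left₀ (abs_nonneg _) h1 2
      have h3 : (Real.exp (-(2 * (K : ℝ) + 1)) * Real.exp (Real.exp 1 * |PB I x|)) ^ 2 =
          Real.exp (-(4 * K + 2)) * Real.exp ((2 * Real.exp 1) * |PB I x|) := by
        rw [mul_pow, ← Real.exp_nat_mul, ← Real.exp_nat_mul]
        congr 2
        · push_cast; ring
        · push_cast; ring
      have h4 : Real.exp ((2 * Real.exp 1) * |PB I x|) ≤ Real.exp ((2 * Real.exp 1) * PB I x) +
          Real.exp (-(2 * Real.exp 1) * PB I x) := by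
        rcases abs_cases (PB I x) with ⟨h, -⟩ | ⟨h, -⟩
        · rw [h]; linarith [Real.exp_pos (-(2 * Real.exp 1) * PB I x)]
        · rw [h]
          have : (2 * Real.exp 1) * -PB I x = -(2 * Real.exp 1) * PB I x := by ring
          rw [this]; linarith [Real.exp_pos ((2 * Real.exp 1) * PB I x)]
      have h5 : (mb1 I K x - Real.exp (HB I / 2) * Real.exp (-PB I x)) ^ 2 =
          Real.exp (HB I) * (ex K (-PB I x) - Real.exp (-PB I x)) ^ 2 := by
        unfold mb1
        rw [← mul_sub, mul_pow, ← Real.exp_nat_mul]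
        congr 2
        push_cast; ring
      have h6 : (ex K (-PB I x) - Real.exp (-PB I x)) ^ 2 ≤ Real.exp (-(4 * K + 2)) *
          (Real.exp ((2 * Real.exp 1) * PB I x) + Real.exp (-(2 * Real.exp 1) * PB I x)) := by
        refine h2.trans ?_
        rw [h3]
        exact mul_le_mul_of_nonneg_left h4 (Real.exp_pos _).le
      rw [h5]
      calc Real.exp (HB I) * (ex K (-PB I x) - Real.exp (-PB I x)) ^ 2 * ‖L x‖ ^ 2
          ≤ Real.exp (HB I) * (Real.exp (-(4 * K + 2)) *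
            (Real.exp ((2 * Real.exp 1) * PB I x) + Real.exp (-(2 * Real.exp 1) * PB I x))) *
            ‖L x‖ ^ 2 := by
            apply mul_le_mul_of_nonneg_right _ (by positivity)
            exact mul_le_mul_of_nonneg_left h6 (Real.exp_pos _).le
        _ = _ := by ring
    have hi1 := (hint (fun t => Real.exp ((2 * Real.exp 1) * t)) (by fun_prop)).1.const_mul
      (Real.exp (HB I) * Real.exp (-(4 * K + 2)))
    have hi2 := (hint (fun t => Real.exp (-(2 * Real.exp 1) * t)) (by fun_prop)).1.const_mul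
      (Real.exp (HB I) * Real.exp (-(4 * K + 2)))
    have h7 := integral_mono hDint (hi1.add hi2) hpt
    refine h7.trans ?_
    simp only [Pi.add_apply]
    rw [integral_add hi1 hi2, integral_const_mul, integral_const_mul]
    have he : Real.exp 1 < 2.7182818286 := Real.exp_one_lt_d9
    have he0 : 0 < Real.exp 1 := Real.exp_pos _
    have h8 := hC (2 * Real.exp 1) (by rw [abs_of_pos (by positivity)]; linarith)
    have h9 := hC (-(2 * Real.exp 1)) (by rw [abs_neg, abs_of_pos (by positivity)]; linarith)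
    have h10 : (0 : ℝ) < Real.exp (HB I) * Real.exp (-(4 * K + 2)) := by positivity
    have h11 : Real.exp (HB I) * Real.exp (-(4 * (K : ℝ) + 2)) * Real.exp (Cl * HB I) * 2 ≤
        Real.exp (-3 * K) := by
      have h12 : (2 : ℝ) ≤ Real.exp 2 := by
        have := Real.add_one_le_exp (2 : ℝ)
        linarith
      calc Real.exp (HB I) * Real.exp (-(4 * (K : ℝ) + 2)) * Real.exp (Cl * HB I) * 2
          ≤ Real.exp (HB I) * Real.exp (-(4 * (K : ℝ) + 2)) * Real.exp (Cl * HB I) * Real.exp 2 :=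
            mul_le_mul_of_nonneg_left h12 (by positivity)
        _ = Real.exp (HB I + (-(4 * (K : ℝ) + 2)) + Cl * HB I + 2) := by
            rw [← Real.exp_add, ← Real.exp_add, ← Real.exp_add]
        _ ≤ Real.exp (-3 * K) := by
            apply Real.exp_le_exp.mpr
            nlinarith
    have h13 := mul_le_mul_of_nonneg_left h8 h10.le
    have h14 := mul_le_mul_of_nonneg_left h9 h10.le
    linarith
  have hE : Real.exp (-(K : ℝ)) ≤ 1 := by
    apply Real.exp_le_one_iff.mpr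
    have : (0 : ℝ) ≤ K := Nat.cast_nonneg K
    linarith
  have hE0 : 0 < Real.exp (-(K : ℝ)) := Real.exp_pos _
  have hE3 : Real.exp (-3 * (K : ℝ)) = Real.exp (-(K : ℝ)) ^ 3 := by
    rw [← Real.exp_nat_mul]; congr 1; push_cast; ring
  have hEK : Real.exp (K : ℝ) * Real.exp (-(K : ℝ)) = 1 := by rw [← Real.exp_add]; simp
  constructor
  · -- first estimate
    have hi1 := (hint (fun t => Real.exp (HB I / 2) * Real.exp (-t)) (by fun_prop)).2
    have hi2 := (hint (fun t => Real.exp (HB I / 2) * ex K (-t) - Real.exp (HB I / 2) * Real.exp (-t))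
      ((continuous_const.mul ((BLE_ex_cont K).comp continuous_neg)).sub (by fun_prop))).2
    have h1 : ∫ x, (mb1 I K x : ℂ) * L x ∂P =
        ∫ x, ((Real.exp (HB I / 2) * Real.exp (-PB I x) : ℝ) : ℂ) * L x ∂P +
        ∫ x, ((Real.exp (HB I / 2) * ex K (-PB I x) - Real.exp (HB I / 2) * Real.exp (-PB I x) : ℝ) : ℂ) *
          L x ∂P := by
      rw [← integral_add hi1 hi2]
      apply integral_congr_ae
      apply Eventually.of_forall
      intro x
      simp only [mb1]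
      push_cast
      ring
    have h2 : ‖∫ x, ((Real.exp (HB I / 2) * ex K (-PB I x) - Real.exp (HB I / 2) *
        Real.exp (-PB I x) : ℝ) : ℂ) * L x ∂P‖ ≤ 2 * Real.exp (-K) := by
      refine (norm_integral_le_integral_norm _).trans ?_
      have h3 : ∀ x : ℕ → ℝ, ‖((Real.exp (HB I / 2) * ex K (-PB I x) - Real.exp (HB I / 2) *
          Real.exp (-PB I x) : ℝ) : ℂ) * L x‖ ≤ Real.exp K *
            ((mb1 I K x - Real.exp (HB I / 2) * Real.exp (-PB I x)) ^ 2 * ‖L x‖ ^ 2) + Real.exp (-K) := by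
        intro x
        rw [norm_mul, Complex.norm_real, Real.norm_eq_abs]
        unfold mb1
        set v := |Real.exp (HB I / 2) * ex K (-PB I x) - Real.exp (HB I / 2) * Real.exp (-PB I x)| *
          ‖L x‖ with hv
        have hv0 : 0 ≤ v := by positivity
        have h4 : (Real.exp (HB I / 2) * ex K (-PB I x) - Real.exp (HB I / 2) *
            Real.exp (-PB I x)) ^ 2 * ‖L x‖ ^ 2 = v ^ 2 := by
          rw [hv, mul_pow, sq_abs]
        rw [h4]
        have h5 : 0 ≤ Real.exp K * (v - Real.exp (-K)) ^ 2 := by positivity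
        have h6 : Real.exp K * (v - Real.exp (-K)) ^ 2 = Real.exp K * v ^ 2 -
            2 * v * (Real.exp K * Real.exp (-K)) + Real.exp (-K) * (Real.exp K * Real.exp (-K)) := by ring
        rw [h6, hEK] at h5
        linarith
      have h7 := integral_mono hi2.norm ((hDint.const_mul (Real.exp K)).add (integrable_const
        (Real.exp (-(K : ℝ))))) h3
      refine h7.trans ?_
      simp only [Pi.add_apply]
      rw [integral_add (hDint.const_mul (Real.exp K)) (integrable_const _), integral_const_mul]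
      simp only [integral_const, probReal_univ, one_smul]
      have h8 := mul_le_mul_of_nonneg_left hD (Real.exp_pos (K : ℝ)).le
      have h9 : Real.exp (K : ℝ) * Real.exp (-3 * (K : ℝ)) = Real.exp (-(K : ℝ)) ^ 2 := by
        rw [hE3]
        calc Real.exp (K : ℝ) * Real.exp (-(K : ℝ)) ^ 3 =
            (Real.exp (K : ℝ) * Real.exp (-(K : ℝ))) * Real.exp (-(K : ℝ)) ^ 2 := by ring
          _ = _ := by rw [hEK, one_mul]
      rw [h9] at h8
      have h10 : Real.exp (-(K : ℝ)) ^ 2 ≤ Real.exp (-(K : ℝ)) := by nlinarith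
      have h11 : Real.exp (K : ℝ) * ∫ x, (Real.exp (HB I / 2) * ex K (-PB I x) -
          Real.exp (HB I / 2) * Real.exp (-PB I x)) ^ 2 * ‖L x‖ ^ 2 ∂P ≤ Real.exp (-(K : ℝ)) ^ 2 := h8
      linarith
    have h12 : Real.exp (∑ p ∈ I, ‖1 - a p‖ / p + Cl * ∑ p ∈ I, (p : ℝ) ^ (-(3 / 2) : ℝ)) ≤
        Real.exp (∑ p ∈ I, ‖1 - a p‖ / p + (Cl + 1) * ∑ p ∈ I, (p : ℝ) ^ (-(3 / 2) : ℝ)) := by
      apply Real.exp_le_exp.mpr
      nlinarith
    rw [h1]
    calc ‖∫ x, ((Real.exp (HB I / 2) * Real.exp (-PB I x) : ℝ) : ℂ) * L x ∂P +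
        ∫ x, ((Real.exp (HB I / 2) * ex K (-PB I x) - Real.exp (HB I / 2) * Real.exp (-PB I x) : ℝ) : ℂ) *
          L x ∂P - 1‖ = ‖(∫ x, ((Real.exp (HB I / 2) * Real.exp (-PB I x) : ℝ) : ℂ) * L x ∂P - 1) +
        ∫ x, ((Real.exp (HB I / 2) * ex K (-PB I x) - Real.exp (HB I / 2) * Real.exp (-PB I x) : ℝ) : ℂ) *
          L x ∂P‖ := by congr 1; ring
      _ ≤ _ := norm_add_le _ _
      _ ≤ _ := by linarith
  · -- second estimate
    have hi1 := (hint (fun t => Real.exp (HB I) * Real.exp (-2 * t)) (by fun_prop)).1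
    have hi3 := (hint (fun t => (Real.exp (HB I / 2) * ex K (-t)) ^ 2)
      ((continuous_const.mul ((BLE_ex_cont K).comp continuous_neg)).pow 2)).1
    have hpt : ∀ x : ℕ → ℝ, mb1 I K x ^ 2 * ‖L x‖ ^ 2 ≤
        (1 + Real.exp (-K)) * (Real.exp (HB I) * Real.exp (-2 * PB I x) * ‖L x‖ ^ 2) +
        (1 + Real.exp K) * ((mb1 I K x - Real.exp (HB I / 2) * Real.exp (-PB I x)) ^ 2 * ‖L x‖ ^ 2) := by
      intro x
      set u := Real.exp (HB I / 2) * Real.exp (-PB I x) with hu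
      have h1 : Real.exp (HB I) * Real.exp (-2 * PB I x) = u ^ 2 := by
        rw [hu, mul_pow, ← Real.exp_nat_mul, ← Real.exp_nat_mul]
        congr 2
        · push_cast; ring
        · push_cast; ring
      rw [h1]
      set v := mb1 I K x - u with hv
      have h2 : mb1 I K x = u + v := by rw [hv]; ring
      rw [h2]
      have h3 : (u + v) ^ 2 ≤ (1 + Real.exp (-K)) * u ^ 2 + (1 + Real.exp K) * v ^ 2 := by
        have h5 : 0 ≤ Real.exp K * (v - Real.exp (-K) * u) ^ 2 := by positivity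
        have h6 : Real.exp K * (v - Real.exp (-K) * u) ^ 2 = Real.exp K * v ^ 2 -
            2 * v * u * (Real.exp K * Real.exp (-K)) +
            Real.exp (-K) * u ^ 2 * (Real.exp K * Real.exp (-K)) := by ring
        rw [h6, hEK] at h5
        nlinarith
      have h4 : 0 ≤ ‖L x‖ ^ 2 := by positivity
      calc (u + v) ^ 2 * ‖L x‖ ^ 2 ≤ ((1 + Real.exp (-K)) * u ^ 2 + (1 + Real.exp K) * v ^ 2) * ‖L x‖ ^ 2 :=
            mul_le_mul_of_nonneg_right h3 h4
        _ = _ := by ring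
    have h7 := integral_mono hi3 ((hi1.const_mul (1 + Real.exp (-K))).add
      (hDint.const_mul (1 + Real.exp K))) hpt
    refine h7.trans ?_
    simp only [Pi.add_apply]
    rw [integral_add (hi1.const_mul _) (hDint.const_mul _), integral_const_mul, integral_const_mul]
    set A := Real.exp (4 * ∑ p ∈ I, ‖1 - a p‖ / p + Cl * ∑ p ∈ I, (p : ℝ) ^ (-(3 / 2) : ℝ)) with hAdef
    have hA1 : 1 ≤ A := by
      rw [hAdef]
      apply Real.one_le_exp
      have : 0 ≤ Cl * ∑ p ∈ I, (p : ℝ) ^ (-(3 / 2) : ℝ) := mul_nonneg (by linarith) hS0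
      linarith
    have h8 : Real.exp (K : ℝ) * Real.exp (-(K : ℝ)) ^ 3 = Real.exp (-(K : ℝ)) ^ 2 := by
      calc Real.exp (K : ℝ) * Real.exp (-(K : ℝ)) ^ 3 =
          (Real.exp (K : ℝ) * Real.exp (-(K : ℝ))) * Real.exp (-(K : ℝ)) ^ 2 := by ring
        _ = _ := by rw [hEK, one_mul]
    have hD' : ∫ x, (Real.exp (HB I / 2) * ex K (-PB I x) -
        Real.exp (HB I / 2) * Real.exp (-PB I x)) ^ 2 * ‖L x‖ ^ 2 ∂P ≤ Real.exp (-(K : ℝ)) ^ 3 := by
      rw [← hE3]; exact hD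
    have h9 := mul_le_mul_of_nonneg_left hD' (show (0 : ℝ) ≤ 1 + Real.exp K by positivity)
    have h10 := mul_le_mul_of_nonneg_left hB (show (0 : ℝ) ≤ 1 + Real.exp (-K) by positivity)
    set e := Real.exp (-(K : ℝ)) with he
    have h11 : e ^ 2 ≤ e := by nlinarith
    have h12 : e ^ 3 ≤ e := by nlinarith
    have h13 : (1 + Real.exp (K : ℝ)) * e ^ 3 ≤ 2 * e * A := by
      have h14 : (1 + Real.exp (K : ℝ)) * e ^ 3 = e ^ 3 + e ^ 2 := by
        rw [add_mul, one_mul, h8]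
      rw [h14]
      nlinarith
    have h15 : (1 + 3 * e) * A ≤ A * Real.exp (4 * e) := by
      have h16 : 1 + 3 * e ≤ Real.exp (4 * e) := by
        have := Real.add_one_le_exp (4 * e)
        linarith
      rw [mul_comm]
      exact mul_le_mul_of_nonneg_left h16 (by linarith)
    have h17 : A * Real.exp (4 * e) ≤ Real.exp (4 * ∑ p ∈ I, ‖1 - a p‖ / p +
        (Cl + 1) * ∑ p ∈ I, (p : ℝ) ^ (-(3 / 2) : ℝ) + 4 * e) := by
      rw [hAdef, ← Real.exp_add]
      apply Real.exp_le_exp.mpr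
      nlinarith
    linarith

theorem block_est : type_of% @block_est_pr := @block_est_pr

end Pool.Agent.LVB
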