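import Pool.Agent.Lib_helper41.LVB.Defs
import Pool.Agent.Lib_helper41.LVBF.HPM

/-! Block LEN (cites hpoly_mul and hpoly_ex of block HPM). -/

namespace Pool.Agent.LVB

open Pool.Agent.LEV Complex MeasureTheory Filter Topology UpperHalfPlane ModularGroup ProbabilityTheory
open scoped MatrixGroups Modular ENNReal ModularForm ComplexConjugate ContDiff

theorem LEN_mono {I I' : Finset ℕ} (h : I ⊆ I') {X X' : ℕ} (hX : X ≤ X') {G : (ℕ → ℝ) → ℝ}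
    (hG : HPoly I X G) : HPoly I' X' G := by
  obtain ⟨c, hc, hG⟩ := hG
  refine ⟨c, fun m hm => ?_, fun x => ?_⟩
  · obtain ⟨h1, h2, h3⟩ := hc m hm
    exact ⟨h1, h2.trans hX, h3.trans h⟩
  · rw [hG x]
    refine Finset.sum_subset (Finset.Icc_subset_Icc le_rfl hX) fun m hm hm' => ?_
    by_contra h0
    have hcm : c m ≠ 0 := fun h => h0 (by rw [h, zero_mul])
    obtain ⟨h1, h2, h3⟩ := hc m hcm
    exact hm' (Finset.mem_Icc.2 ⟨h1, h2⟩)

theorem LEN_one (I : Finset ℕ) : HPoly I 1 (fun _ => 1) := by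
  refine ⟨fun m => if m = 1 then 1 else 0, fun m hm => ?_, fun x => ?_⟩
  · have h1 : m = 1 := by
      by_contra h
      exact hm (if_neg h)
    subst h1
    simp
  · simp [Um]

theorem LEN_prod {I : Finset ℕ} (hI : ∀ p ∈ I, p.Prime) {G : ℕ → (ℕ → ℝ) → ℝ} {X : ℕ → ℕ}
    (hG : ∀ i, HPoly I (X i) (G i)) (J : ℕ) :
    HPoly I (∏ i ∈ Finset.range J, X i) (fun x => ∏ i ∈ Finset.range J, G i x) := by
  induction J with
  | zero => simpa using LEN_one I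
  | succ J ih =>
    simp only [Finset.prod_range_succ]
    have h := hpoly_mul hI hI ih (hG J)
    rwa [Finset.union_self] at h

theorem LEN_geom (n : ℕ) : ∑ i ∈ Finset.range n, ((i : ℝ) + 1) * Real.exp (-(i : ℝ)) ≤ 4 := by
  have h1 : ∀ i : ℕ, Real.exp (-(i : ℝ)) ≤ (1 / 2 : ℝ) ^ i := by
    intro i
    have h2 : Real.exp (-(i : ℝ)) = Real.exp (-1) ^ i := by
      rw [← Real.exp_nat_mul]; congr 1; ring
    rw [h2]
    refine pow_le_pow_left₀ (Real.exp_pos _).le ?_ i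
    have := Real.exp_neg_one_lt_d9
    linarith
  have h3 : ∀ n : ℕ, ∑ i ∈ Finset.range n, ((i : ℝ) + 1) * (1 / 2 : ℝ) ^ i =
      4 - (2 * n + 4) * (1 / 2 : ℝ) ^ n := by
    intro n
    induction n with
    | zero => norm_num
    | succ n ih =>
      rw [Finset.sum_range_succ, ih]
      push_cast
      ring
  calc _ ≤ ∑ i ∈ Finset.range n, ((i : ℝ) + 1) * (1 / 2 : ℝ) ^ i :=
        Finset.sum_le_sum fun i _ => mul_le_mul_of_nonneg_left (h1 i) (by positivity)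
    _ = 4 - (2 * n + 4) * (1 / 2 : ℝ) ^ n := h3 n
    _ ≤ 4 := by
      have : 0 ≤ (2 * (n : ℝ) + 4) * (1 / 2 : ℝ) ^ n := by positivity
      linarith

theorem LEN_logs : Tendsto (fun N : ℕ => Real.log (Real.log N)) atTop atTop :=
  Real.tendsto_log_atTop.comp (Real.tendsto_log_atTop.comp tendsto_natCast_atTop_atTop)

/-- the sum of the exponents -/
theorem LEN_sum (A₁ N : ℕ) (hL : 2 ≤ Real.log (Real.log N)) :
    ∑ i ∈ Finset.range (JJ N), (Kk A₁ N i : ℝ) * Real.exp (-(i : ℝ)) ≤ 5 * A₁ := by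
  set L := Real.log (Real.log N) with hLdef
  obtain ⟨J, hJ⟩ : ∃ J, JJ N = J + 1 := ⟨_, rfl⟩
  have hJ' : J = ⌈2 * Real.log L⌉₊ := by
    have : JJ N = ⌈2 * Real.log L⌉₊ + 1 := rfl
    omega
  rw [hJ, Finset.sum_range_succ]
  have h1 : ∑ i ∈ Finset.range J, (Kk A₁ N i : ℝ) * Real.exp (-(i : ℝ)) ≤ 4 * A₁ := by
    have h2 : ∀ i ∈ Finset.range J, (Kk A₁ N i : ℝ) * Real.exp (-(i : ℝ)) =
        A₁ * (((i : ℝ) + 1) * Real.exp (-(i : ℝ))) := by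
      intro i hi
      have hi' : i + 1 < JJ N := by rw [hJ]; have := Finset.mem_range.1 hi; omega
      rw [Kk, if_pos hi']
      push_cast
      ring
    rw [Finset.sum_congr rfl h2, ← Finset.mul_sum, mul_comm (4 : ℝ)]
    exact mul_le_mul_of_nonneg_left (LEN_geom J) (by positivity)
  have h3 : (Kk A₁ N J : ℝ) * Real.exp (-(J : ℝ)) ≤ A₁ := by
    have h4 : ¬ J + 1 < JJ N := by rw [hJ]; omega
    rw [Kk, if_neg h4]
    push_cast
    have h5 : (⌈L⌉₊ : ℝ) ≤ L + 1 := (Nat.ceil_lt_add_one (by linarith)).le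
    have h6 : Real.exp (-(J : ℝ)) ≤ (L ^ 2)⁻¹ := by
      have h7 : 2 * Real.log L ≤ J := by rw [hJ']; exact Nat.le_ceil _
      have h8 : Real.exp (-(J : ℝ)) ≤ Real.exp (-(2 * Real.log L)) := Real.exp_le_exp.2 (by linarith)
      have h9 : Real.exp (-(2 * Real.log L)) = (L ^ 2)⁻¹ := by
        rw [Real.exp_neg, two_mul, Real.exp_add, Real.exp_log (by linarith), sq]
      rwa [h9] at h8
    have h7 : (⌈L⌉₊ : ℝ) * Real.exp (-(J : ℝ)) ≤ 1 := by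
      calc (⌈L⌉₊ : ℝ) * Real.exp (-(J : ℝ)) ≤ (L + 1) * (L ^ 2)⁻¹ :=
            mul_le_mul h5 h6 (Real.exp_pos _).le (by linarith)
        _ ≤ 1 := by
          rw [← div_eq_mul_inv, div_le_one (by positivity)]
          nlinarith
    calc (A₁ : ℝ) * (⌈L⌉₊ : ℝ) * Real.exp (-(J : ℝ)) =
          A₁ * ((⌈L⌉₊ : ℝ) * Real.exp (-(J : ℝ))) := by ring
      _ ≤ A₁ * 1 := mul_le_mul_of_nonneg_left h7 (by positivity)
      _ = A₁ := mul_one _
  linarith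

/-- the mollifier is short -/
theorem ml_hpoly_pr (A₁ : ℕ) : ∃ c₁ : ℝ, 0 < c₁ ∧ ∀ c₀ : ℝ, 0 < c₀ → c₀ ≤ c₁ → ∀ z₀ : ℕ, ∃ N₀ : ℕ,
    ∀ N : ℕ, N₀ ≤ N → HPoly (Pr N) ⌊(N : ℝ) ^ (1 / 10 : ℝ)⌋₊ (Ml c₀ A₁ z₀ N) := by
  refine ⟨1 / (100 * ((A₁ : ℝ) + 1)), by positivity, fun c₀ hc₀ hc₁ z₀ => ?_⟩
  obtain ⟨N₁, hN₁⟩ := (Filter.tendsto_atTop.1 LEN_logs 2).exists_forall_of_atTop
  refine ⟨max N₁ 2, fun N hN => ?_⟩
  have hL := hN₁ N ((le_max_left _ _).trans hN)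
  have hN2 : 2 ≤ N := (le_max_right _ _).trans hN
  have hNr : (2 : ℝ) ≤ N := by exact_mod_cast hN2
  have hN1 : (1 : ℝ) ≤ N := by linarith
  have hc₀' : c₀ ≤ 1 / 100 := by
    refine hc₁.trans ?_
    apply one_div_le_one_div_of_le (by norm_num)
    have : (0 : ℝ) ≤ A₁ := by positivity
    linarith
  have hexp : ∀ i : ℕ, c₀ * Real.exp (-(i : ℝ)) ≤ 1 / 100 := by
    intro i
    have h1 : Real.exp (-(i : ℝ)) ≤ 1 := Real.exp_le_one_iff.2 (by simp)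
    nlinarith [Real.exp_pos (-(i : ℝ))]
  have hPr : ∀ p ∈ Pr N, p.Prime := fun p hp => (Finset.mem_filter.1 hp).2
  set Z : ℕ → ℕ := fun i => ⌊(N : ℝ) ^ (c₀ * Real.exp (-(i : ℝ)))⌋₊ with hZ
  have hblock : ∀ i, HPoly (Pr N) (Z i ^ (2 * Kk A₁ N i)) (mb1 (Bk c₀ z₀ N i) (Kk A₁ N i)) := by
    intro i
    have hb : ∀ p ∈ Bk c₀ z₀ N i, p.Prime ∧ (p : ℝ) ≤ (N : ℝ) ^ (c₀ * Real.exp (-(i : ℝ))) := by
      intro p hp
      obtain ⟨-, h1, -, -, h2⟩ := Finset.mem_filter.1 hp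
      exact ⟨h1, h2⟩
    have hsub : Bk c₀ z₀ N i ⊆ Pr N := by
      intro p hp
      obtain ⟨h1, h2⟩ := hb p hp
      refine Finset.mem_filter.2 ⟨Finset.mem_range.2 ?_, h1⟩
      have h3 : (N : ℝ) ^ (c₀ * Real.exp (-(i : ℝ))) < (N : ℝ) ^ (1 : ℝ) :=
        Real.rpow_lt_rpow_of_exponent_lt (by linarith) ((hexp i).trans_lt (by norm_num))
      rw [Real.rpow_one] at h3
      exact_mod_cast h2.trans_lt h3
    refine LEN_mono hsub le_rfl (hpoly_ex (fun p hp => (hb p hp).1) ?_ ?_ _)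
    · exact Nat.le_floor (by
        push_cast
        exact Real.one_le_rpow hN1 (by positivity))
    · intro p hp
      exact Nat.le_floor (hb p hp).2
  have hprod := LEN_prod hPr hblock (JJ N)
  refine LEN_mono (Finset.Subset.refl _) (Nat.le_floor ?_) hprod
  push_cast
  have h1 : ∀ i ∈ Finset.range (JJ N), ((Z i : ℝ)) ^ (2 * Kk A₁ N i) ≤
      (N : ℝ) ^ (2 * c₀ * ((Kk A₁ N i : ℝ) * Real.exp (-(i : ℝ)))) := by
    intro i _
    have h2 : (Z i : ℝ) ≤ (N : ℝ) ^ (c₀ * Real.exp (-(i : ℝ))) := Nat.floor_le (by positivity)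
    calc ((Z i : ℝ)) ^ (2 * Kk A₁ N i) ≤
          ((N : ℝ) ^ (c₀ * Real.exp (-(i : ℝ)))) ^ (2 * Kk A₁ N i) :=
          pow_le_pow_left₀ (by positivity) h2 _
      _ = (N : ℝ) ^ (2 * c₀ * ((Kk A₁ N i : ℝ) * Real.exp (-(i : ℝ)))) := by
        rw [← Real.rpow_natCast, ← Real.rpow_mul (by positivity)]
        congr 1
        push_cast
        ring
  calc ∏ i ∈ Finset.range (JJ N), ((Z i : ℝ)) ^ (2 * Kk A₁ N i)
      ≤ ∏ i ∈ Finset.range (JJ N), (N : ℝ) ^ (2 * c₀ * ((Kk A₁ N i : ℝ) * Real.exp (-(i : ℝ)))) :=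
        Finset.prod_le_prod (fun i _ => by positivity) h1
    _ = (N : ℝ) ^ (2 * c₀ * ∑ i ∈ Finset.range (JJ N), (Kk A₁ N i : ℝ) * Real.exp (-(i : ℝ))) := by
        rw [Finset.mul_sum, Real.rpow_sum_of_pos (by linarith)]
    _ ≤ (N : ℝ) ^ (1 / 10 : ℝ) := by
        refine Real.rpow_le_rpow_of_exponent_le hN1 ?_
        have h3 := LEN_sum A₁ N hL
        have h4 : c₀ * (100 * ((A₁ : ℝ) + 1)) ≤ 1 := by
          rwa [le_div_iff₀ (by positivity)] at hc₁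
        have h5 : (0 : ℝ) ≤ A₁ := by positivity
        calc 2 * c₀ * _ ≤ 2 * c₀ * (5 * A₁) := mul_le_mul_of_nonneg_left h3 (by positivity)
          _ ≤ 1 / 10 := by nlinarith

theorem ml_hpoly : type_of% @ml_hpoly_pr := @ml_hpoly_pr

end Pool.Agent.LVB
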