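import Pool.Agent.Lib_helper41.LVB.Defs
import Pool.Agent.Lib_helper68.LEV.MRT

set_option autoImplicit false

namespace Pool.Agent.LVB

open Pool.Agent.LEV Complex MeasureTheory Filter Topology UpperHalfPlane ModularGroup ProbabilityTheory
open scoped MatrixGroups Modular ENNReal ModularForm ComplexConjugate ContDiff

theorem psa_exp {w : ℂ} (hw : 0 ≤ w.re) : ‖1 - Complex.exp (-w)‖ ≤ ‖w‖ := by
  have h := Convex.norm_image_sub_le_of_norm_deriv_le (𝕜 := ℂ) (f := Complex.exp) (C := 1)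
    (s := {z : ℂ | z.re ≤ 0}) (x := -w) (y := 0)
    (fun x _ => Complex.differentiable_exp.differentiableAt)
    (fun x hx => by
      rw [Complex.deriv_exp, Complex.norm_exp]
      exact Real.exp_le_one_iff.mpr hx)
    (convex_halfSpace_re_le 0) (by simpa using hw) (by simp)
  simpa using h

theorem psa_re (N : ℕ) (T : ℝ) : (sT N T).re = 1 / Real.log N := by
  unfold sT
  rw [Complex.div_ofReal_re]
  simp

theorem psa_norm (N : ℕ) (hN : 3 ≤ N) (T : ℝ) : ‖sT N T‖ ≤ (1 + |T|) / Real.log N := by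
  have hN' : (1 : ℝ) < N := by exact_mod_cast (by omega : 1 < N)
  have hL : 0 < Real.log N := Real.log_pos hN'
  unfold sT
  rw [norm_div, Complex.norm_real, Real.norm_of_nonneg hL.le]
  apply div_le_div_of_nonneg_right _ hL.le
  refine (norm_add_le _ _).trans ?_
  simp

theorem ps_norm_pr {N : ℕ} (hN : 3 ≤ N) (T : ℝ) {p : ℕ} (hp : 1 ≤ p) :
    ‖(p : ℂ) ^ (-(sT N T))‖ ≤ 1 := by
  have hN' : (1 : ℝ) < N := by exact_mod_cast (by omega : 1 < N)
  have hL : 0 < Real.log N := Real.log_pos hN'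
  rw [Complex.norm_natCast_cpow_of_pos (by omega), Complex.neg_re, psa_re]
  apply Real.rpow_le_one_of_one_le_of_nonpos
  · exact_mod_cast hp
  · have : 0 < 1 / Real.log N := by positivity
    linarith

theorem psa_one (N : ℕ) (hN : 3 ≤ N) (T : ℝ) (p : ℕ) (hp : 1 ≤ p) :
    ‖1 - (p : ℂ) ^ (-(sT N T))‖ ≤ (1 + |T|) / Real.log N * Real.log p := by
  have hN' : (1 : ℝ) < N := by exact_mod_cast (by omega : 1 < N)
  have hL : 0 < Real.log N := Real.log_pos hN'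
  have hp' : (1 : ℝ) ≤ p := by exact_mod_cast hp
  have hlp : 0 ≤ Real.log p := Real.log_nonneg hp'
  have h1 : (p : ℂ) ^ (-(sT N T)) = Complex.exp (-((Real.log p : ℂ) * sT N T)) := by
    rw [Complex.cpow_def_of_ne_zero (by exact_mod_cast (by omega : p ≠ 0)), Complex.natCast_log]
    congr 1
    ring
  rw [h1]
  have h2 : 0 ≤ ((Real.log p : ℂ) * sT N T).re := by
    rw [Complex.re_ofReal_mul, psa_re]
    positivity
  refine (psa_exp h2).trans ?_
  rw [norm_mul, Complex.norm_real, Real.norm_of_nonneg hlp, mul_comm]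
  exact mul_le_mul_of_nonneg_right (psa_norm N hN T) hlp

theorem psa_two (N : ℕ) (hN : 3 ≤ N) (T : ℝ) (p : ℕ) (hp : 1 ≤ p) :
    ‖1 - (p : ℂ) ^ (-(sT N T))‖ ≤ 2 := by
  refine (norm_sub_le _ _).trans ?_
  have := ps_norm_pr hN T hp
  rw [norm_one]
  linarith

theorem psa_low {C : ℝ} (hC : ∀ x : ℕ, 1 ≤ x →
      |∑ p ∈ (Finset.Icc 1 x).filter Nat.Prime, Real.log p / p - Real.log x| ≤ C)
    {y : ℝ} (hy : 1 ≤ y) {S : Finset ℕ} (hS : ∀ p ∈ S, p.Prime ∧ (p : ℝ) ≤ y) :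
    ∑ p ∈ S, Real.log p / p ≤ Real.log y + C := by
  have hn : 1 ≤ ⌊y⌋₊ := Nat.le_floor (by exact_mod_cast hy)
  have h1 : S ⊆ (Finset.Icc 1 ⌊y⌋₊).filter Nat.Prime := by
    intro p hp
    obtain ⟨h2, h3⟩ := hS p hp
    rw [Finset.mem_filter, Finset.mem_Icc]
    exact ⟨⟨h2.one_lt.le, Nat.le_floor h3⟩, h2⟩
  have h2 : ∑ p ∈ S, Real.log p / p ≤ ∑ p ∈ (Finset.Icc 1 ⌊y⌋₊).filter Nat.Prime, Real.log p / p := by
    refine Finset.sum_le_sum_of_subset_of_nonneg h1 fun p _ _ => ?_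
    exact div_nonneg (Real.log_natCast_nonneg p) (Nat.cast_nonneg p)
  have h3 := (abs_le.mp (hC _ hn)).2
  have h4 : Real.log (⌊y⌋₊ : ℝ) ≤ Real.log y := by
    apply Real.log_le_log
    · exact_mod_cast hn
    · exact Nat.floor_le (by linarith)
  linarith

theorem psa_all {C : ℝ} (hC : ∀ x : ℝ, 2 ≤ x →
      |∑ p ∈ (Finset.Icc 1 ⌊x⌋₊).filter Nat.Prime, 1 / (p : ℝ) - Real.log (Real.log x)| ≤ C)
    {x : ℝ} (hx : 2 ≤ x) {S : Finset ℕ} (hS : ∀ p ∈ S, p.Prime ∧ (p : ℝ) ≤ x) :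
    ∑ p ∈ S, 1 / (p : ℝ) ≤ Real.log (Real.log x) + C := by
  have h1 : S ⊆ (Finset.Icc 1 ⌊x⌋₊).filter Nat.Prime := by
    intro p hp
    obtain ⟨h2, h3⟩ := hS p hp
    rw [Finset.mem_filter, Finset.mem_Icc]
    exact ⟨⟨h2.one_lt.le, Nat.le_floor h3⟩, h2⟩
  have h2 : ∑ p ∈ S, 1 / (p : ℝ) ≤ ∑ p ∈ (Finset.Icc 1 ⌊x⌋₊).filter Nat.Prime, 1 / (p : ℝ) :=
    Finset.sum_le_sum_of_subset_of_nonneg h1 fun p _ _ => by positivity
  have h3 := (abs_le.mp (hC x hx)).2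
  linarith

theorem psa_high {C : ℝ} (hC : ∀ x : ℝ, 2 ≤ x →
      |∑ p ∈ (Finset.Icc 1 ⌊x⌋₊).filter Nat.Prime, 1 / (p : ℝ) - Real.log (Real.log x)| ≤ C)
    {y x : ℝ} (hy : 2 ≤ y) (hyx : y ≤ x) {S : Finset ℕ}
    (hS : ∀ p ∈ S, p.Prime ∧ y < (p : ℝ) ∧ (p : ℝ) ≤ x) :
    ∑ p ∈ S, 1 / (p : ℝ) ≤ Real.log (Real.log x) - Real.log (Real.log y) + 2 * C := by
  have hdis : Disjoint S ((Finset.Icc 1 ⌊y⌋₊).filter Nat.Prime) := by
    rw [Finset.disjoint_left]
    intro p hp hp2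
    rw [Finset.mem_filter, Finset.mem_Icc] at hp2
    have h1 := (hS p hp).2.1
    have h2 : (p : ℝ) ≤ y := (Nat.le_floor_iff (by linarith)).mp hp2.1.2
    linarith
  have h1 := psa_all hC (hy.trans hyx) (S := S ∪ (Finset.Icc 1 ⌊y⌋₊).filter Nat.Prime) (by
    intro p hp
    rw [Finset.mem_union] at hp
    rcases hp with hp | hp
    · exact ⟨(hS p hp).1, (hS p hp).2.2⟩
    · rw [Finset.mem_filter, Finset.mem_Icc] at hp
      exact ⟨hp.2, ((Nat.le_floor_iff (by linarith)).mp hp.1.2).trans hyx⟩)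
  rw [Finset.sum_union hdis] at h1
  have h3 := (abs_le.mp (hC y hy)).1
  linarith

theorem ps_large_pr : ∃ C : ℝ, ∀ N : ℕ, 3 ≤ N → ∀ T : ℝ,
    ∑ p ∈ Pr N, ‖1 - (p : ℂ) ^ (-(sT N T))‖ / p ≤ 2 * Real.log (2 + |T|) + C := by
  obtain ⟨C1, hC1⟩ := Pool.Agent.BG4.mertens_one
  obtain ⟨C2, hC2⟩ := Pool.Agent.LEV.mertens_two
  have hl2 : 0 < Real.log 2 := Real.log_pos (by norm_num)
  have hC10 : 0 ≤ C1 := (abs_nonneg _).trans (hC1 1 le_rfl)
  have hC20 : 0 ≤ C2 := (abs_nonneg _).trans (hC2 2 le_rfl)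
  refine ⟨1 + C1 / Real.log 2 + 4 * C2, ?_⟩
  intro N hN T
  have hN' : (1 : ℝ) < N := by exact_mod_cast (by omega : 1 < N)
  have hN2 : (2 : ℝ) ≤ N := by exact_mod_cast (by omega : 2 ≤ N)
  have hL : 0 < Real.log N := Real.log_pos hN'
  set L := Real.log N with hLd
  set τ := 1 + |T| with hτd
  have hτ : 1 ≤ τ := by rw [hτd]; linarith [abs_nonneg T]
  have hlτ : Real.log τ ≤ Real.log (2 + |T|) := Real.log_le_log (by linarith) (by rw [hτd]; linarith)
  have hmem : ∀ p ∈ Pr N, p.Prime ∧ (p : ℝ) ≤ N := by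
    intro p hp
    unfold Pr at hp
    rw [Finset.mem_filter, Finset.mem_range] at hp
    exact ⟨hp.2, by exact_mod_cast hp.1.le⟩
  have hextra : 0 ≤ C1 / Real.log 2 := by positivity
  rcases le_or_gt (L / Real.log 2) τ with h | h
  · have h1 : ∑ p ∈ Pr N, ‖1 - (p : ℂ) ^ (-(sT N T))‖ / p ≤ ∑ p ∈ Pr N, 2 * (1 / (p : ℝ)) := by
      refine Finset.sum_le_sum fun p hp => ?_
      have h2 := psa_two N hN T p (hmem p hp).1.one_lt.le
      rw [mul_one_div]
      exact div_le_div_of_nonneg_right h2 (Nat.cast_nonneg p)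
    rw [← Finset.mul_sum] at h1
    have h2 := psa_all hC2 hN2 hmem
    have h3 : Real.log L ≤ Real.log τ := by
      apply Real.log_le_log hL
      rw [div_le_iff₀ hl2] at h
      have : Real.log 2 ≤ 1 := by have := Real.log_two_lt_d9; linarith
      nlinarith
    rw [← hLd] at h2
    linarith
  · have hLτ : Real.log 2 < L / τ := by
      rw [lt_div_iff₀ (by linarith)]
      rw [lt_div_iff₀ hl2] at h
      linarith
    set y := Real.exp (L / τ) with hyd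
    have hy2 : 2 ≤ y := by
      rw [hyd, ← Real.log_le_iff_le_exp (by norm_num)]
      exact hLτ.le
    have hyN : y ≤ N := by
      rw [hyd, ← Real.le_log_iff_exp_le (by linarith)]
      exact div_le_self hL.le hτ
    have hlogy : Real.log y = L / τ := by rw [hyd, Real.log_exp]
    rw [← Finset.sum_filter_add_sum_filter_not (Pr N) (fun p : ℕ => (p : ℝ) ≤ y)]
    have h1 : ∑ p ∈ (Pr N).filter (fun p : ℕ => (p : ℝ) ≤ y), ‖1 - (p : ℂ) ^ (-(sT N T))‖ / p
        ≤ 1 + C1 / Real.log 2 := by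
      have h2 : ∑ p ∈ (Pr N).filter (fun p : ℕ => (p : ℝ) ≤ y), ‖1 - (p : ℂ) ^ (-(sT N T))‖ / p
          ≤ ∑ p ∈ (Pr N).filter (fun p : ℕ => (p : ℝ) ≤ y), τ / L * (Real.log p / p) := by
        refine Finset.sum_le_sum fun p hp => ?_
        rw [Finset.mem_filter] at hp
        have h3 := psa_one N hN T p (hmem p hp.1).1.one_lt.le
        rw [← mul_div_assoc]
        exact div_le_div_of_nonneg_right h3 (Nat.cast_nonneg p)
      rw [← Finset.mul_sum] at h2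
      have h3 := psa_low hC1 (y := y) (by linarith) (S := (Pr N).filter (fun p : ℕ => (p : ℝ) ≤ y))
        (by
          intro p hp
          rw [Finset.mem_filter] at hp
          exact ⟨(hmem p hp.1).1, hp.2⟩)
      have h4 : τ / L * (Real.log y + C1) ≤ 1 + C1 / Real.log 2 := by
        rw [hlogy]
        have h5 : τ / L * (L / τ) = 1 := by
          have : τ ≠ 0 := by linarith
          field_simp
        have h6 : τ / L ≤ 1 / Real.log 2 := by
          rw [div_le_div_iff₀ hL hl2]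
          rw [lt_div_iff₀ hl2] at h
          linarith
        have h7 : τ / L * C1 ≤ 1 / Real.log 2 * C1 := mul_le_mul_of_nonneg_right h6 hC10
        calc τ / L * (L / τ + C1) = τ / L * (L / τ) + τ / L * C1 := by ring
          _ ≤ 1 + 1 / Real.log 2 * C1 := by rw [h5]; linarith
          _ = 1 + C1 / Real.log 2 := by ring
      have h5 : τ / L * ∑ p ∈ (Pr N).filter (fun p : ℕ => (p : ℝ) ≤ y), Real.log p / p
          ≤ τ / L * (Real.log y + C1) := mul_le_mul_of_nonneg_left h3 (by positivity)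
      linarith
    have h2 : ∑ p ∈ (Pr N).filter (fun p : ℕ => ¬ (p : ℝ) ≤ y), ‖1 - (p : ℂ) ^ (-(sT N T))‖ / p
        ≤ 2 * Real.log τ + 4 * C2 := by
      have h3 : ∑ p ∈ (Pr N).filter (fun p : ℕ => ¬ (p : ℝ) ≤ y), ‖1 - (p : ℂ) ^ (-(sT N T))‖ / p
          ≤ ∑ p ∈ (Pr N).filter (fun p : ℕ => ¬ (p : ℝ) ≤ y), 2 * (1 / (p : ℝ)) := by
        refine Finset.sum_le_sum fun p hp => ?_
        rw [Finset.mem_filter] at hp
        have h2 := psa_two N hN T p (hmem p hp.1).1.one_lt.le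
        rw [mul_one_div]
        exact div_le_div_of_nonneg_right h2 (Nat.cast_nonneg p)
      rw [← Finset.mul_sum] at h3
      have h4 := psa_high hC2 hy2 hyN (S := (Pr N).filter (fun p : ℕ => ¬ (p : ℝ) ≤ y))
        (by
          intro p hp
          rw [Finset.mem_filter] at hp
          exact ⟨(hmem p hp.1).1, not_le.mp hp.2, (hmem p hp.1).2⟩)
      rw [hlogy, ← hLd, Real.log_div hL.ne' (by linarith)] at h4
      linarith
    linarith

theorem ps_small_pr : ∃ C : ℝ, ∀ N : ℕ, 3 ≤ N → ∀ c₀ : ℝ, 0 < c₀ → ∀ T : ℝ,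
    ∑ p ∈ (Pr N).filter (fun p : ℕ => (p : ℝ) ≤ (N : ℝ) ^ c₀), ‖1 - (p : ℂ) ^ (-(sT N T))‖ / p ≤
      (1 + |T|) * (c₀ + C / Real.log N) := by
  obtain ⟨C1, hC1⟩ := Pool.Agent.BG4.mertens_one
  refine ⟨C1, ?_⟩
  intro N hN c₀ hc₀ T
  have hN' : (1 : ℝ) < N := by exact_mod_cast (by omega : 1 < N)
  have hL : 0 < Real.log N := Real.log_pos hN'
  have hmem : ∀ p ∈ (Pr N).filter (fun p : ℕ => (p : ℝ) ≤ (N : ℝ) ^ c₀),
      p.Prime ∧ (p : ℝ) ≤ (N : ℝ) ^ c₀ := by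
    intro p hp
    unfold Pr at hp
    rw [Finset.mem_filter, Finset.mem_filter, Finset.mem_range] at hp
    exact ⟨hp.1.2, hp.2⟩
  have hy1 : 1 ≤ (N : ℝ) ^ c₀ := Real.one_le_rpow hN'.le hc₀.le
  have h2 : ∑ p ∈ (Pr N).filter (fun p : ℕ => (p : ℝ) ≤ (N : ℝ) ^ c₀), ‖1 - (p : ℂ) ^ (-(sT N T))‖ / p
      ≤ ∑ p ∈ (Pr N).filter (fun p : ℕ => (p : ℝ) ≤ (N : ℝ) ^ c₀),
        (1 + |T|) / Real.log N * (Real.log p / p) := by
    refine Finset.sum_le_sum fun p hp => ?_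
    have h3 := psa_one N hN T p (hmem p hp).1.one_lt.le
    rw [← mul_div_assoc]
    exact div_le_div_of_nonneg_right h3 (Nat.cast_nonneg p)
  rw [← Finset.mul_sum] at h2
  have h3 := psa_low hC1 hy1 hmem
  rw [Real.log_rpow (by linarith)] at h3
  have hT : 0 ≤ 1 + |T| := by linarith [abs_nonneg T]
  have h4 : (1 + |T|) / Real.log N * ∑ p ∈ (Pr N).filter (fun p : ℕ => (p : ℝ) ≤ (N : ℝ) ^ c₀),
      Real.log p / p ≤ (1 + |T|) / Real.log N * (c₀ * Real.log N + C1) :=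
    mul_le_mul_of_nonneg_left h3 (by positivity)
  have h5 : (1 + |T|) / Real.log N * (c₀ * Real.log N + C1) = (1 + |T|) * (c₀ + C1 / Real.log N) := by
    field_simp
  linarith

theorem ps_norm : type_of% @ps_norm_pr := @ps_norm_pr

theorem ps_large : type_of% @ps_large_pr := @ps_large_pr

theorem ps_small : type_of% @ps_small_pr := @ps_small_pr

end Pool.Agent.LVB
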