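import Pool.Agent.Lib_helper41.LVB.Defs

/-! Block PSD. -/

namespace Pool.Agent.LVB

open Pool.Agent.LEV Complex MeasureTheory Filter Topology UpperHalfPlane ModularGroup ProbabilityTheory
open scoped MatrixGroups Modular ENNReal ModularForm ComplexConjugate ContDiff

theorem PSD_logs : Tendsto (fun N : ℕ => Real.log (Real.log N)) atTop atTop :=
  Real.tendsto_log_atTop.comp (Real.tendsto_log_atTop.comp tendsto_natCast_atTop_atTop)

theorem kk_sum_pr {δ : ℝ} (hδ : 0 < δ) : ∃ A : ℕ, ∀ A₁ : ℕ, A ≤ A₁ → ∃ N₀ : ℕ, ∀ N : ℕ, N₀ ≤ N →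
    ∑ i ∈ Finset.range (JJ N), Real.exp (-(Kk A₁ N i : ℝ)) ≤ δ := by
  -- choose `A ≥ 1` with `exp (-A) ≤ δ / 4`
  obtain ⟨A, hA⟩ := exists_nat_ge (max 1 (-Real.log (δ / 4)))
  have hA1 : (1 : ℝ) ≤ A := (le_max_left _ _).trans hA
  have hA2 : Real.exp (-(A : ℝ)) ≤ δ / 4 := by
    have h1 : -Real.log (δ / 4) ≤ A := (le_max_right _ _).trans hA
    have h2 : -(A : ℝ) ≤ Real.log (δ / 4) := by linarith
    calc Real.exp (-(A : ℝ)) ≤ Real.exp (Real.log (δ / 4)) := Real.exp_le_exp.2 h2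
      _ = δ / 4 := Real.exp_log (by positivity)
  refine ⟨A, fun A₁ hA₁ => ?_⟩
  have hA1' : (A : ℝ) ≤ A₁ := by exact_mod_cast hA₁
  obtain ⟨N₀, hN₀⟩ := (Filter.tendsto_atTop.1 PSD_logs (-Real.log (δ / 2))).exists_forall_of_atTop
  obtain ⟨N₁, hN₁⟩ := (Filter.tendsto_atTop.1 PSD_logs 0).exists_forall_of_atTop
  refine ⟨max N₀ N₁, fun N hN => ?_⟩
  have h0 := hN₀ N ((le_max_left _ _).trans hN)
  have h00 := hN₁ N ((le_max_right _ _).trans hN)
  set q := Real.exp (-(A₁ : ℝ)) with hq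
  have hq0 : 0 < q := Real.exp_pos _
  have hq1 : q ≤ 1 / 2 := by
    have h1 : q ≤ Real.exp (-1) := Real.exp_le_exp.2 (by linarith)
    have h2 : Real.exp (-1 : ℝ) < 1 / 2 := by
      have := Real.exp_neg_one_lt_d9
      linarith
    linarith
  have hqδ : q ≤ δ / 4 := (Real.exp_le_exp.2 (by linarith)).trans hA2
  obtain ⟨J, hJ⟩ : ∃ J, JJ N = J + 1 := ⟨_, rfl⟩
  rw [hJ, Finset.sum_range_succ]
  have hfirst : ∑ i ∈ Finset.range J, Real.exp (-(Kk A₁ N i : ℝ)) ≤ δ / 2 := by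
    have h1 : ∀ i ∈ Finset.range J, Real.exp (-(Kk A₁ N i : ℝ)) = q * q ^ i := by
      intro i hi
      have hi' : i + 1 < JJ N := by rw [hJ]; have := Finset.mem_range.1 hi; omega
      rw [Kk, if_pos hi', ← pow_succ', hq, ← Real.exp_nat_mul]
      congr 1
      push_cast
      ring
    rw [Finset.sum_congr rfl h1, ← Finset.mul_sum]
    have h2 : ∑ i ∈ Finset.range J, q ^ i ≤ 2 := by
      have h3 : ∑ i ∈ Finset.range J, q ^ i ≤ ∑ i ∈ Finset.range J, (1 / 2 : ℝ) ^ i :=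
        Finset.sum_le_sum fun i _ => pow_le_pow_left₀ hq0.le hq1 i
      exact h3.trans (sum_geometric_two_le J)
    nlinarith
  have hlast : Real.exp (-(Kk A₁ N J : ℝ)) ≤ δ / 2 := by
    have h1 : ¬ J + 1 < JJ N := by rw [hJ]; omega
    rw [Kk, if_neg h1]
    have h2 : Real.log (Real.log N) ≤ (⌈Real.log (Real.log N)⌉₊ : ℝ) := Nat.le_ceil _
    have h3 : -((A₁ * ⌈Real.log (Real.log N)⌉₊ : ℕ) : ℝ) ≤ Real.log (δ / 2) := by
      push_cast
      have h4 : (⌈Real.log (Real.log N)⌉₊ : ℝ) ≤ A₁ * (⌈Real.log (Real.log N)⌉₊ : ℝ) :=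
        le_mul_of_one_le_left (by positivity) (hA1.trans hA1')
      linarith
    calc _ ≤ Real.exp (Real.log (δ / 2)) := Real.exp_le_exp.2 h3
      _ = δ / 2 := Real.exp_log (by positivity)
  linarith

theorem p32_sum_pr {δ : ℝ} (hδ : 0 < δ) : ∃ z₀ : ℕ, ∀ I : Finset ℕ, (∀ p ∈ I, z₀ < p) →
    ∑ p ∈ I, (p : ℝ) ^ (-(3 / 2) : ℝ) ≤ δ := by
  have hs : Summable fun n : ℕ => (n : ℝ) ^ (-(3 / 2) : ℝ) := by
    rw [Real.summable_nat_rpow]
    norm_num
  obtain ⟨s, hs⟩ := hs.vanishing (Metric.ball_mem_nhds (0 : ℝ) hδ)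
  refine ⟨s.sup id, fun I hI => ?_⟩
  have hd : Disjoint I s := by
    rw [Finset.disjoint_left]
    intro p hp hps
    have h1 : p ≤ s.sup id := Finset.le_sup (f := id) hps
    have h2 := hI p hp
    omega
  have h := hs I hd
  rw [mem_ball_zero_iff, Real.norm_eq_abs] at h
  exact (le_abs_self _).trans h.le

theorem kk_sum : type_of% @kk_sum_pr := @kk_sum_pr

theorem p32_sum : type_of% @p32_sum_pr := @p32_sum_pr

end Pool.Agent.LVB
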