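import Pool.Agent.Lib_helper41.LVB.Defs
import Pool.Agent.Lib_helper68.LEV.MRT

set_option autoImplicit false

namespace Pool.Agent.LVB

open Pool.Agent.LEV Complex MeasureTheory Filter Topology UpperHalfPlane ModularGroup ProbabilityTheory
open scoped MatrixGroups Modular ENNReal ModularForm ComplexConjugate ContDiff

theorem psb_all {C : ℝ} (hC : ∀ x : ℝ, 2 ≤ x →
      |∑ p ∈ (Finset.Icc 1 ⌊x⌋₊).filter Nat.Prime, 1 / (p : ℝ) - Real.log (Real.log x)| ≤ C)
    {x : ℝ} (hx : 2 ≤ x) {S : Finset ℕ} (hS : ∀ p ∈ S, p.Prime ∧ (p : ℝ) ≤ x) :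
    ∑ p ∈ S, 1 / (p : ℝ) ≤ Real.log (Real.log x) + C := by
  have h1 : S ⊆ (Finset.Icc 1 ⌊x⌋₊).filter Nat.Prime := by
    intro p hp
    obtain ⟨h2, h3⟩ := hS p hp
    rw [Finset.mem_filter, Finset.mem_Icc]
    exact ⟨⟨h2.one_lt.le, Nat.le_floor h3⟩, h2⟩
  have h2 : ∑ p ∈ S, 1 / (p : ℝ) ≤ ∑ p ∈ (Finset.Icc 1 ⌊x⌋₊).filter Nat.Prime, 1 / (p : ℝ) :=
    Finset.sum_le_sum_of_subset_of_nonneg h1 fun p _ _ => by positivity
  have h3 := (abs_le.mp (hC x hx)).2
  linarith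

theorem psb_high {C : ℝ} (hC : ∀ x : ℝ, 2 ≤ x →
      |∑ p ∈ (Finset.Icc 1 ⌊x⌋₊).filter Nat.Prime, 1 / (p : ℝ) - Real.log (Real.log x)| ≤ C)
    {y x : ℝ} (hy : 2 ≤ y) (hyx : y ≤ x) {S : Finset ℕ}
    (hS : ∀ p ∈ S, p.Prime ∧ y < (p : ℝ) ∧ (p : ℝ) ≤ x) :
    ∑ p ∈ S, 1 / (p : ℝ) ≤ Real.log (Real.log x) - Real.log (Real.log y) + 2 * C := by
  have hdis : Disjoint S ((Finset.Icc 1 ⌊y⌋₊).filter Nat.Prime) := by
    rw [Finset.disjoint_left]
    intro p hp hp2
    rw [Finset.mem_filter, Finset.mem_Icc] at hp2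
    have h1 := (hS p hp).2.1
    have h2 : (p : ℝ) ≤ y := (Nat.le_floor_iff (by linarith)).mp hp2.1.2
    linarith
  have h1 := psb_all hC (hy.trans hyx) (S := S ∪ (Finset.Icc 1 ⌊y⌋₊).filter Nat.Prime) (by
    intro p hp
    rw [Finset.mem_union] at hp
    rcases hp with hp | hp
    · exact ⟨(hS p hp).1, (hS p hp).2.2⟩
    · rw [Finset.mem_filter, Finset.mem_Icc] at hp
      exact ⟨hp.2, ((Nat.le_floor_iff (by linarith)).mp hp.1.2).trans hyx⟩)
  rw [Finset.sum_union hdis] at h1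
  have h3 := (abs_le.mp (hC y hy)).1
  linarith

theorem psb_log : Tendsto (fun N : ℕ => Real.log N) atTop atTop :=
  Real.tendsto_log_atTop.comp tendsto_natCast_atTop_atTop

theorem psb_loglog : Tendsto (fun N : ℕ => Real.log (Real.log N)) atTop atTop :=
  Real.tendsto_log_atTop.comp psb_log

/-- `L / (log L)^2` tends to infinity -/
theorem psb_div : Tendsto (fun N : ℕ => Real.log N / Real.log (Real.log N) ^ 2) atTop atTop := by
  have h1 : Tendsto (fun x : ℝ => Real.exp x / x ^ 2) atTop atTop := Real.tendsto_exp_div_pow_atTop 2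
  have h2 := h1.comp psb_loglog
  refine h2.congr' ?_
  filter_upwards [psb_log.eventually_gt_atTop 0] with N hN
  simp only [Function.comp]
  rw [Real.exp_log hN]

theorem hb_bounds_pr : ∃ C : ℝ, 0 < C ∧ ∀ c₀ : ℝ, 0 < c₀ → c₀ ≤ 1 → ∀ z₀ : ℕ, ∃ N₀ : ℕ, ∀ N : ℕ, N₀ ≤ N →
    (∀ i, i + 1 < JJ N → HB (Bk c₀ z₀ N i) ≤ C) ∧
    (∀ i, HB (Bk c₀ z₀ N i) ≤ Real.log (Real.log N) + C) ∧
    ∑ i ∈ Finset.range (JJ N), HB (Bk c₀ z₀ N i) ≤ Real.log (Real.log N) + C ∧
    ∑ p ∈ (Pr N).filter (fun p : ℕ => (N : ℝ) ^ c₀ < p), 1 / (p : ℝ) ≤ C - Real.log c₀ := by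
  obtain ⟨C2, hC2⟩ := Pool.Agent.LEV.mertens_two
  have hC20 : 0 ≤ C2 := (abs_nonneg _).trans (hC2 2 le_rfl)
  refine ⟨1 + 2 * C2, by linarith, ?_⟩
  intro c₀ hc₀ hc₁ z₀
  have hl2 : 0 < Real.log 2 := Real.log_pos (by norm_num)
  -- largeness conditions
  have ev : ∀ᶠ N : ℕ in atTop, Real.log 2 * Real.exp 1 / c₀ ≤ Real.log N / Real.log (Real.log N) ^ 2 ∧
      1 ≤ Real.log (Real.log N) ∧ Real.log 2 / c₀ ≤ Real.log N ∧ 3 ≤ N := by
    filter_upwards [psb_div.eventually_ge_atTop (Real.log 2 * Real.exp 1 / c₀),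
      psb_loglog.eventually_ge_atTop 1, psb_log.eventually_ge_atTop (Real.log 2 / c₀),
      eventually_ge_atTop 3] with N h1 h2 h3 h4
    exact ⟨h1, h2, h3, h4⟩
  obtain ⟨N₀, hN₀⟩ := eventually_atTop.mp ev
  refine ⟨N₀, fun N hN => ?_⟩
  obtain ⟨e1, e2, e3, e4⟩ := hN₀ N hN
  have hN' : (1 : ℝ) < N := by exact_mod_cast (by omega : 1 < N)
  have hN2 : (2 : ℝ) ≤ N := by exact_mod_cast (by omega : 2 ≤ N)
  have hN0 : (0 : ℝ) < N := by linarith
  have hL : 0 < Real.log N := Real.log_pos hN'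
  have hmem : ∀ i, ∀ p ∈ Bk c₀ z₀ N i, p.Prime ∧ (p : ℝ) ≤ N := by
    intro i p hp
    unfold Bk at hp
    rw [Finset.mem_filter, Finset.mem_Icc] at hp
    exact ⟨hp.2.1, by exact_mod_cast hp.1.2⟩
  have hdis : ∀ i j, i < j → j < JJ N → Disjoint (Bk c₀ z₀ N i) (Bk c₀ z₀ N j) := by
    intro i j hij hj
    rw [Finset.disjoint_left]
    intro p hp hp2
    unfold Bk at hp hp2
    rw [Finset.mem_filter] at hp hp2
    have h1 := hp.2.2.2.1 (by omega)
    have h2 := hp2.2.2.2.2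
    have h3 : (N : ℝ) ^ (c₀ * Real.exp (-(j : ℝ))) ≤ (N : ℝ) ^ (c₀ * Real.exp (-(i + 1 : ℝ))) := by
      apply Real.rpow_le_rpow_of_exponent_le hN'.le
      apply mul_le_mul_of_nonneg_left _ hc₀.le
      apply Real.exp_le_exp.mpr
      have : (i : ℝ) + 1 ≤ j := by exact_mod_cast hij
      linarith
    linarith
  refine ⟨?_, ?_, ?_, ?_⟩
  · intro i hi
    unfold HB
    have hll : 0 ≤ Real.log (Real.log (Real.log N)) := Real.log_nonneg e2
    have hi1 : ((i : ℝ) + 1) ≤ 2 * Real.log (Real.log (Real.log N)) + 1 := by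
      unfold JJ at hi
      have h1 : i + 1 ≤ ⌈2 * Real.log (Real.log (Real.log N))⌉₊ := by omega
      have h2 : ((i + 1 : ℕ) : ℝ) ≤ (⌈2 * Real.log (Real.log (Real.log N))⌉₊ : ℝ) := by exact_mod_cast h1
      have h3 := (Nat.ceil_lt_add_one (a := 2 * Real.log (Real.log (Real.log N))) (by linarith)).le
      push_cast at h2
      linarith
    have hlb : Real.exp (-1) / Real.log (Real.log N) ^ 2 ≤ Real.exp (-((i : ℝ) + 1)) := by
      have h1 : Real.exp (-1) / Real.log (Real.log N) ^ 2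
          = Real.exp (-(2 * Real.log (Real.log (Real.log N)) + 1)) := by
        have h2 : Real.exp (2 * Real.log (Real.log (Real.log N))) = Real.log (Real.log N) ^ 2 := by
          rw [mul_comm, Real.exp_mul, Real.exp_log (by linarith)]
          norm_cast
        rw [← h2, ← Real.exp_sub]
        congr 1
        ring
      rw [h1]
      apply Real.exp_le_exp.mpr
      linarith
    have hexp : Real.log 2 ≤ c₀ * Real.exp (-((i : ℝ) + 1)) * Real.log N := by
      have h1 : Real.log 2 * Real.exp 1 / c₀ * (c₀ * Real.exp (-1)) = Real.log 2 := by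
        rw [Real.exp_neg]
        field_simp
      have h2 : Real.log 2 * Real.exp 1 / c₀ * (c₀ * Real.exp (-1)) ≤
          Real.log N / Real.log (Real.log N) ^ 2 * (c₀ * Real.exp (-1)) :=
        mul_le_mul_of_nonneg_right e1 (by positivity)
      have h3 : Real.log N / Real.log (Real.log N) ^ 2 * (c₀ * Real.exp (-1)) =
          c₀ * (Real.exp (-1) / Real.log (Real.log N) ^ 2) * Real.log N := by ring
      have h4 : c₀ * (Real.exp (-1) / Real.log (Real.log N) ^ 2) * Real.log N ≤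
          c₀ * Real.exp (-((i : ℝ) + 1)) * Real.log N :=
        mul_le_mul_of_nonneg_right (mul_le_mul_of_nonneg_left hlb hc₀.le) hL.le
      linarith
    have hlogy : Real.log ((N : ℝ) ^ (c₀ * Real.exp (-(i + 1 : ℝ)))) =
        c₀ * Real.exp (-((i : ℝ) + 1)) * Real.log N := Real.log_rpow hN0 _
    have hlogx : Real.log ((N : ℝ) ^ (c₀ * Real.exp (-(i : ℝ)))) =
        c₀ * Real.exp (-(i : ℝ)) * Real.log N := Real.log_rpow hN0 _
    have hy2 : 2 ≤ (N : ℝ) ^ (c₀ * Real.exp (-(i + 1 : ℝ))) := by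
      rw [← Real.log_le_log_iff (by norm_num) (Real.rpow_pos_of_pos hN0 _), hlogy]
      exact hexp
    have hyx : (N : ℝ) ^ (c₀ * Real.exp (-(i + 1 : ℝ))) ≤ (N : ℝ) ^ (c₀ * Real.exp (-(i : ℝ))) := by
      apply Real.rpow_le_rpow_of_exponent_le hN'.le
      apply mul_le_mul_of_nonneg_left _ hc₀.le
      apply Real.exp_le_exp.mpr
      linarith
    have h1 := psb_high hC2 hy2 hyx (S := Bk c₀ z₀ N i) (by
      intro p hp
      have h2 := hmem i p hp
      unfold Bk at hp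
      rw [Finset.mem_filter] at hp
      exact ⟨h2.1, hp.2.2.2.1 hi, hp.2.2.2.2⟩)
    rw [hlogx, hlogy] at h1
    have h2 : Real.log (c₀ * Real.exp (-(i : ℝ)) * Real.log N) -
        Real.log (c₀ * Real.exp (-((i : ℝ) + 1)) * Real.log N) = 1 := by
      rw [Real.log_mul (by positivity) hL.ne', Real.log_mul (by positivity) hL.ne',
        Real.log_mul hc₀.ne' (by positivity), Real.log_mul hc₀.ne' (by positivity),
        Real.log_exp, Real.log_exp]
      ring
    linarith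
  · intro i
    unfold HB
    have := psb_all hC2 hN2 (hmem i)
    linarith
  · unfold HB
    rw [← Finset.sum_biUnion]
    · have := psb_all hC2 hN2 (S := (Finset.range (JJ N)).biUnion (Bk c₀ z₀ N)) (by
        intro p hp
        rw [Finset.mem_biUnion] at hp
        obtain ⟨i, _, hi⟩ := hp
        exact hmem i p hi)
      linarith
    · intro i hi j hj hij
      simp only [Finset.coe_range, Set.mem_Iio] at hi hj
      rcases lt_or_gt_of_ne hij with h | h
      · exact hdis i j h hj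
      · exact (hdis j i h hi).symm
  · have hlogy : Real.log ((N : ℝ) ^ c₀) = c₀ * Real.log N := Real.log_rpow hN0 _
    have hy2 : 2 ≤ (N : ℝ) ^ c₀ := by
      rw [← Real.log_le_log_iff (by norm_num) (Real.rpow_pos_of_pos hN0 _), hlogy]
      rw [div_le_iff₀ hc₀] at e3
      linarith
    have hyx : (N : ℝ) ^ c₀ ≤ N := by
      calc (N : ℝ) ^ c₀ ≤ (N : ℝ) ^ (1 : ℝ) := Real.rpow_le_rpow_of_exponent_le hN'.le hc₁
        _ = N := Real.rpow_one _
    have h1 := psb_high hC2 hy2 hyx (S := (Pr N).filter (fun p : ℕ => (N : ℝ) ^ c₀ < p)) (by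
      intro p hp
      unfold Pr at hp
      rw [Finset.mem_filter, Finset.mem_filter, Finset.mem_range] at hp
      exact ⟨hp.1.2, hp.2, by exact_mod_cast hp.1.1.le⟩)
    rw [hlogy, Real.log_mul hc₀.ne' hL.ne'] at h1
    linarith

theorem hb_bounds : type_of% @hb_bounds_pr := @hb_bounds_pr

end Pool.Agent.LVB
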