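import Pool.Agent.Lib_helper41.LVB.Defs

/-! LVB, block PSC. -/

set_option autoImplicit false

namespace Pool.Agent.LVB

open Pool.Agent.LEV Complex MeasureTheory Filter Topology UpperHalfPlane ModularGroup ProbabilityTheory
open scoped MatrixGroups Modular ENNReal ModularForm ComplexConjugate ContDiff

theorem PSC_mono {c₀ : ℝ} (h0 : 0 < c₀) {N : ℕ} (hN : 2 ≤ N) {s t : ℝ} (h : s ≤ t) :
    (N : ℝ) ^ (c₀ * Real.exp (-t)) ≤ (N : ℝ) ^ (c₀ * Real.exp (-s)) := by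
  have hN1 : (1 : ℝ) ≤ N := by exact_mod_cast (by omega : 1 ≤ N)
  refine Real.rpow_le_rpow_of_exponent_le hN1 ?_
  exact mul_le_mul_of_nonneg_left (Real.exp_le_exp.2 (neg_le_neg h)) h0.le

/-- the blocks are disjoint and cover the primes in `(z₀, N^{c₀}]` -/
theorem bk_disj_pr (c₀ : ℝ) (h0 : 0 < c₀) (h1 : c₀ < 1) (z₀ : ℕ) : ∃ N₀ : ℕ, ∀ N : ℕ, N₀ ≤ N →
    (∀ i, Bk c₀ z₀ N i ⊆ Pr N) ∧
    (∀ i < JJ N, ∀ j < JJ N, i ≠ j → Disjoint (Bk c₀ z₀ N i) (Bk c₀ z₀ N j)) ∧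
    (∀ i, ∀ p ∈ Bk c₀ z₀ N i, p.Prime ∧ z₀ < p ∧ (p : ℝ) ≤ (N : ℝ) ^ (c₀ * Real.exp (-(i : ℝ)))) ∧
    (∀ p ∈ Pr N, z₀ < p → (p : ℝ) ≤ (N : ℝ) ^ c₀ → ∃ i < JJ N, p ∈ Bk c₀ z₀ N i) := by
  refine ⟨2, fun N hN => ?_⟩
  have hN1 : (1 : ℝ) < N := by exact_mod_cast (by omega : 1 < N)
  have hlt : ∀ i j, i < j → j < JJ N → Disjoint (Bk c₀ z₀ N i) (Bk c₀ z₀ N j) := by
    intro i j hij hj
    rw [Finset.disjoint_left]
    intro p hp hp'
    simp only [Bk, Finset.mem_filter] at hp hp'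
    have h2 := hp.2.2.2.1 (by omega)
    have h3 := hp'.2.2.2.2
    have h4 : (i : ℝ) + 1 ≤ j := by exact_mod_cast hij
    have h5 := PSC_mono h0 hN h4
    linarith
  refine ⟨fun i p hp => ?_, fun i hi j hj hij => ?_, fun i p hp => ?_, fun p hp hz hpN => ?_⟩
  · simp only [Bk, Finset.mem_filter] at hp
    simp only [Pr, Finset.mem_filter, Finset.mem_range]
    refine ⟨?_, hp.2.1⟩
    have h2 := hp.2.2.2.2
    have h3 : (N : ℝ) ^ (c₀ * Real.exp (-(i : ℝ))) < (N : ℝ) ^ (1 : ℝ) := by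
      refine Real.rpow_lt_rpow_of_exponent_lt hN1 ?_
      have h4 : Real.exp (-(i : ℝ)) ≤ 1 := Real.exp_le_one_iff.2 (neg_nonpos.2 (Nat.cast_nonneg i))
      have h5 : 0 < Real.exp (-(i : ℝ)) := Real.exp_pos _
      nlinarith
    rw [Real.rpow_one] at h3
    exact_mod_cast h2.trans_lt h3
  · rcases lt_or_gt_of_ne hij with h | h
    · exact hlt i j h hj
    · exact (hlt j i h hi).symm
  · simp only [Bk, Finset.mem_filter] at hp
    exact ⟨hp.2.1, hp.2.2.1, hp.2.2.2.2⟩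
  · simp only [Pr, Finset.mem_filter, Finset.mem_range] at hp
    have hJ : 1 ≤ JJ N := by unfold JJ; omega
    classical
    have hP0 : (p : ℝ) ≤ (N : ℝ) ^ (c₀ * Real.exp (-((0 : ℕ) : ℝ))) := by simpa using hpN
    have hs := Nat.findGreatest_spec
      (P := fun i : ℕ => (p : ℝ) ≤ (N : ℝ) ^ (c₀ * Real.exp (-(i : ℝ)))) (Nat.zero_le (JJ N - 1)) hP0
    have hle := Nat.findGreatest_le
      (P := fun i : ℕ => (p : ℝ) ≤ (N : ℝ) ^ (c₀ * Real.exp (-(i : ℝ)))) (JJ N - 1)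
    have hg : ∀ k : ℕ, Nat.findGreatest
        (fun i : ℕ => (p : ℝ) ≤ (N : ℝ) ^ (c₀ * Real.exp (-(i : ℝ)))) (JJ N - 1) < k →
        k ≤ JJ N - 1 → ¬ (p : ℝ) ≤ (N : ℝ) ^ (c₀ * Real.exp (-(k : ℝ))) :=
      fun k hk hkb => Nat.findGreatest_is_greatest hk hkb
    set i := Nat.findGreatest
      (fun i : ℕ => (p : ℝ) ≤ (N : ℝ) ^ (c₀ * Real.exp (-(i : ℝ)))) (JJ N - 1) with hi
    refine ⟨i, by omega, ?_⟩
    simp only [Bk, Finset.mem_filter, Finset.mem_Icc]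
    refine ⟨⟨hp.2.one_lt.le, hp.1.le⟩, hp.2, hz, fun h => ?_, hs⟩
    have h2 := hg (i + 1) (by omega) (by omega)
    push_cast at h2
    exact not_le.1 h2

theorem bk_disj : type_of% @bk_disj_pr := @bk_disj_pr

end Pool.Agent.LVB
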