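import Pool.Agent.Lib_helper41.LVB.Defs
import Pool.Agent.Lib_helper41.LVBF.EXT

/-! LVB block MPO. Cites ex_pos, ex_le (EXT) from WantedB. -/

set_option autoImplicit false

namespace Pool.Agent.LVB

open Pool.Agent.LEV Complex MeasureTheory Filter Topology UpperHalfPlane ModularGroup ProbabilityTheory
open scoped MatrixGroups Modular ENNReal ModularForm ComplexConjugate ContDiff

/-! block MPO -/

theorem ml_pos_pr (c₀ : ℝ) (A₁ z₀ N : ℕ) (x : ℕ → ℝ) : 0 < Ml c₀ A₁ z₀ N x := by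
  unfold Ml mol mb1
  exact Finset.prod_pos fun i _ => mul_pos (Real.exp_pos _) (ex_pos _ _)

theorem ml_le_pr (c₀ : ℝ) (A₁ z₀ N : ℕ) (x : ℕ → ℝ) : Ml c₀ A₁ z₀ N x ≤
    Real.exp (∑ i ∈ Finset.range (JJ N), HB (Bk c₀ z₀ N i) / 2 +
      ∑ i ∈ Finset.range (JJ N), |PB (Bk c₀ z₀ N i) x|) := by
  rw [← Finset.sum_add_distrib, Real.exp_sum]
  unfold Ml mol mb1
  refine Finset.prod_le_prod (fun i _ => (mul_pos (Real.exp_pos _) (ex_pos _ _)).le) fun i _ => ?_
  rw [Real.exp_add]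
  refine mul_le_mul_of_nonneg_left ?_ (Real.exp_pos _).le
  refine (ex_le _ _).trans ?_
  rw [abs_neg]

theorem ml_pos : type_of% @ml_pos_pr := @ml_pos_pr

theorem ml_le : type_of% @ml_le_pr := @ml_le_pr

end Pool.Agent.LVB
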