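import Pool.Agent.Lib_helper41.LVB.Defs
import Pool.Agent.Lib_helper68.LEV.EIA
import Pool.Agent.Lib_helper41.LVBF.LSS
import Pool.Agent.Lib_helper41.LVBF.MPO
import Pool.Agent.Lib_helper41.LVBF.PSB

/-! Theorem B, block MUP: the mollifier is rarely large. -/

namespace Pool.Agent.LVB

open Pool.Agent.LEV Complex MeasureTheory Filter Topology UpperHalfPlane ModularGroup ProbabilityTheory
open scoped MatrixGroups Modular ENNReal ModularForm ComplexConjugate ContDiff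

theorem MUP_om {N : ℕ} [Fact N.Prime] {f : S2 N} (hf : IsNew f) : 0 ≤ om f := by
  have := nr_pos (new_ne_zero hf)
  unfold om
  have := Real.pi_pos
  positivity

/-- the second moment of the sum over one block -/
theorem MUP_block {N : ℕ} [Fact N.Prime] (hN : 16 ≤ N) {ι : Type} [Fintype ι] (f : ι → S2 N)
    (hi : Function.Injective f) (hn : ∀ i, IsNew (f i)) {I : Finset ℕ}
    (hI : ∀ p ∈ I, 1 ≤ p ∧ (p : ℝ) ≤ (N : ℝ) ^ (1 / 2 : ℝ)) :
    ∑ i, om (f i) * PB I (la (f i)) ^ 2 ≤ Real.exp (8 * Real.pi * (1 / 2)) * HB I := by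
  classical
  have hNr : (16 : ℝ) ≤ N := by exact_mod_cast hN
  have hNp : (0 : ℝ) < N := by linarith
  set X : ℕ := ⌊(N : ℝ) ^ (1 / 2 : ℝ)⌋₊ with hX
  have hsq : ((N : ℝ) ^ (1 / 2 : ℝ)) ^ 2 = N := by
    rw [← Real.sqrt_eq_rpow, Real.sq_sqrt hNp.le]
  have h4 : (4 : ℝ) ≤ (N : ℝ) ^ (1 / 2 : ℝ) := by
    rw [← Real.sqrt_eq_rpow]
    apply Real.le_sqrt_of_sq_le
    linarith
  have hX1 : 1 ≤ X := Nat.le_floor (by push_cast; linarith)
  have hX2 : (X : ℝ) ≤ (1 / 2 : ℝ) ^ 2 * N := by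
    have : (X : ℝ) ≤ (N : ℝ) ^ (1 / 2 : ℝ) := Nat.floor_le (by positivity)
    nlinarith
  have hsub : I ⊆ Finset.Icc 1 X := by
    intro p hp
    rw [Finset.mem_Icc]
    exact ⟨(hI p hp).1, Nat.le_floor (hI p hp).2⟩
  have key := ls_sharp f hi hn (ν := 1 / 2) (by norm_num) (by norm_num) hX1 hX2
    (fun n => if n ∈ I then 1 / Real.sqrt n else 0) 0
  have e1 : ∑ n ∈ Finset.Icc 1 X, (if n ∈ I then 1 / Real.sqrt n else 0 : ℝ) ^ 2 = HB I := by
    have : ∑ n ∈ Finset.Icc 1 X, (if n ∈ I then 1 / Real.sqrt n else 0 : ℝ) ^ 2 =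
        ∑ n ∈ Finset.Icc 1 X, if n ∈ I then 1 / (n : ℝ) else 0 := by
      refine Finset.sum_congr rfl fun n _ => ?_
      by_cases h : n ∈ I
      · rw [if_pos h, if_pos h, div_pow, one_pow, Real.sq_sqrt (Nat.cast_nonneg n)]
      · rw [if_neg h, if_neg h]; norm_num
    rw [this, Finset.sum_ite_mem, Finset.inter_eq_right.2 hsub, HB]
  have e2 : ∀ i, ∑ n ∈ Finset.Icc 1 X, (if n ∈ I then 1 / Real.sqrt n else 0 : ℝ) * la (f i) n +
      0 * se (f i) = PB I (la (f i)) := by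
    intro i
    have : ∑ n ∈ Finset.Icc 1 X, (if n ∈ I then 1 / Real.sqrt n else 0 : ℝ) * la (f i) n =
        ∑ n ∈ Finset.Icc 1 X, if n ∈ I then la (f i) n / Real.sqrt n else 0 := by
      refine Finset.sum_congr rfl fun n _ => ?_
      by_cases h : n ∈ I
      · rw [if_pos h, if_pos h]; ring
      · rw [if_neg h, if_neg h]; ring
    rw [this, Finset.sum_ite_mem, Finset.inter_eq_right.2 hsub, PB]
    ring
  simp only [e2] at key
  rw [e1] at key
  simpa using key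

theorem MUP_lim {ε δ : ℝ} (hε : 0 < ε) (hδ : 0 < δ) (C : ℝ) : ∀ᶠ N : ℕ in atTop,
    1 ≤ Real.log (Real.log N) ∧ 0 < Real.log N ∧ C ≤ Real.log (Real.log N) ∧
    C ≤ ε * Real.log (Real.log N) ∧
    (JJ N : ℝ) ≤ δ * Real.log (Real.log N) := by
  have t1 : Tendsto (fun N : ℕ => Real.log (Real.log (N : ℝ))) atTop atTop :=
    Real.tendsto_log_atTop.comp (Real.tendsto_log_atTop.comp tendsto_natCast_atTop_atTop)
  have t0 : Tendsto (fun N : ℕ => Real.log (N : ℝ)) atTop atTop :=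
    Real.tendsto_log_atTop.comp tendsto_natCast_atTop_atTop
  have hlog : ∀ᶠ x : ℝ in atTop, Real.log x ≤ (δ / 4) * x := by
    have h := Real.isLittleO_log_id_atTop.def (c := δ / 4) (by positivity)
    filter_upwards [h, eventually_ge_atTop (1 : ℝ)] with x hx hx1
    rw [id, Real.norm_eq_abs, Real.norm_eq_abs, abs_of_nonneg (Real.log_nonneg hx1),
      abs_of_nonneg (by linarith)] at hx
    exact hx
  filter_upwards [t1.eventually hlog, t1.eventually (eventually_ge_atTop 1),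
    t1.eventually (eventually_ge_atTop C), t1.eventually (eventually_ge_atTop (C / ε)),
    t1.eventually (eventually_ge_atTop (4 / δ)), t0.eventually (eventually_gt_atTop 0)]
    with N h1 h2 h3 h4 h5 h6
  refine ⟨h2, h6, h3, ?_, ?_⟩
  · rw [div_le_iff₀ hε] at h4
    linarith
  · have h7 : 0 ≤ Real.log (Real.log (Real.log N)) := Real.log_nonneg h2
    have h8 : (⌈2 * Real.log (Real.log (Real.log N))⌉₊ : ℝ) < 2 * Real.log (Real.log (Real.log N)) + 1 :=
      Nat.ceil_lt_add_one (by positivity)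
    have h9 : (JJ N : ℝ) = (⌈2 * Real.log (Real.log (Real.log N))⌉₊ : ℝ) + 1 := by
      rw [JJ]; push_cast; ring
    rw [h9]
    rw [div_le_iff₀ hδ] at h5
    nlinarith

/-- the mollifier is rarely large -/
theorem mol_upper_pr {c₀ : ℝ} (h0 : 0 < c₀) (h1 : c₀ < 1 / 2) (A₁ z₀ : ℕ) {ε δ : ℝ} (hε : 0 < ε)
    (hδ : 0 < δ) : ∃ N₀ : ℕ, ∀ (N : ℕ) [Fact N.Prime], N₀ ≤ N → ∀ {ι : Type} [Fintype ι]
    (f : ι → S2 N), Function.Injective f → (∀ i, IsNew (f i)) → ∀ s : Finset ι,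
      (∀ i ∈ s, Real.log N ^ (1 / 2 + ε) < Ml c₀ A₁ z₀ N (la (f i))) → ∑ i ∈ s, om (f i) ≤ δ := by
  classical
  obtain ⟨C, hC, hb⟩ := hb_bounds
  obtain ⟨N₁, hN₁⟩ := hb c₀ h0 (by linarith) z₀
  set K : ℝ := Real.exp (8 * Real.pi * (1 / 2)) with hK
  have hKp : 0 < K := Real.exp_pos _
  set κ : ℝ := δ * (ε / 2) ^ 2 / (2 * K) with hκ
  have hκp : 0 < κ := by positivity
  obtain ⟨N₂, hN₂⟩ := eventually_atTop.1 (MUP_lim (ε := ε) (δ := κ) hε hκp C)
  refine ⟨max (max N₁ N₂) 16, ?_⟩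
  intro N _ hN ι _ f hi hn s hs
  have hNa : N₁ ≤ N := le_trans (le_trans (le_max_left _ _) (le_max_left _ _)) hN
  have hNb : N₂ ≤ N := le_trans (le_trans (le_max_right _ _) (le_max_left _ _)) hN
  have hNc : 16 ≤ N := le_trans (le_max_right _ _) hN
  have hNr : (16 : ℝ) ≤ N := by exact_mod_cast hNc
  obtain ⟨-, -, hsum, -⟩ := hN₁ N hNa
  obtain ⟨l1, l2, l3, l4, l5⟩ := hN₂ N hNb
  set L : ℝ := Real.log (Real.log N) with hL
  have hom : ∀ i, 0 ≤ om (f i) := fun i => MUP_om (hn i)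
  set B : ℕ → Finset ℕ := fun j => Bk c₀ z₀ N j with hB
  have hBk : ∀ j, ∀ p ∈ B j, 1 ≤ p ∧ (p : ℝ) ≤ (N : ℝ) ^ (1 / 2 : ℝ) := by
    intro j p hp
    rw [hB] at hp
    simp only [Bk, Finset.mem_filter, Finset.mem_Icc] at hp
    obtain ⟨⟨hp1, -⟩, -, -, -, hp2⟩ := hp
    refine ⟨hp1, hp2.trans ?_⟩
    apply Real.rpow_le_rpow_of_exponent_le (by linarith)
    have : Real.exp (-(j : ℝ)) ≤ 1 := by
      rw [Real.exp_le_one_iff]
      have : (0 : ℝ) ≤ j := Nat.cast_nonneg j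
      linarith
    nlinarith
  -- lower bound on `s`
  have hlow : ∀ i ∈ s, ε / 2 * L ≤ ∑ j ∈ Finset.range (JJ N), |PB (B j) (la (f i))| := by
    intro i his
    have a := (hs i his).trans_le (ml_le c₀ A₁ z₀ N (la (f i)))
    rw [Real.rpow_def_of_pos l2] at a
    have b := Real.exp_lt_exp.1 a
    have c : ∑ j ∈ Finset.range (JJ N), HB (Bk c₀ z₀ N j) / 2 =
        (∑ j ∈ Finset.range (JJ N), HB (Bk c₀ z₀ N j)) / 2 := by rw [Finset.sum_div]
    rw [c] at b
    have d : L * (1 / 2 + ε) < (∑ j ∈ Finset.range (JJ N), HB (Bk c₀ z₀ N j)) / 2 +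
      ∑ j ∈ Finset.range (JJ N), |PB (B j) (la (f i))| := b
    nlinarith
  -- second moment
  have hmom : ∑ i, om (f i) * (∑ j ∈ Finset.range (JJ N), |PB (B j) (la (f i))|) ^ 2 ≤
      JJ N * (K * (L + C)) := by
    have e1 : ∀ i, om (f i) * (∑ j ∈ Finset.range (JJ N), |PB (B j) (la (f i))|) ^ 2 ≤
        JJ N * ∑ j ∈ Finset.range (JJ N), om (f i) * PB (B j) (la (f i)) ^ 2 := by
      intro i
      have h := sq_sum_le_card_mul_sum_sq (s := Finset.range (JJ N))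
        (f := fun j => |PB (B j) (la (f i))|)
      rw [Finset.card_range] at h
      simp only [sq_abs] at h
      have h2 := mul_le_mul_of_nonneg_left h (hom i)
      refine h2.trans (le_of_eq ?_)
      rw [← Finset.mul_sum]
      ring
    have e2 : ∑ i, om (f i) * (∑ j ∈ Finset.range (JJ N), |PB (B j) (la (f i))|) ^ 2 ≤
        ∑ i, JJ N * ∑ j ∈ Finset.range (JJ N), om (f i) * PB (B j) (la (f i)) ^ 2 :=
      Finset.sum_le_sum fun i _ => e1 i
    rw [← Finset.mul_sum, Finset.sum_comm] at e2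
    refine e2.trans (mul_le_mul_of_nonneg_left ?_ (Nat.cast_nonneg _))
    have e3 : ∑ j ∈ Finset.range (JJ N), ∑ i, om (f i) * PB (B j) (la (f i)) ^ 2 ≤
        ∑ j ∈ Finset.range (JJ N), K * HB (B j) :=
      Finset.sum_le_sum fun j _ => MUP_block hNc f hi hn (hBk j)
    refine e3.trans ?_
    rw [← Finset.mul_sum]
    exact mul_le_mul_of_nonneg_left hsum hKp.le
  -- Chebyshev
  have hLp : 0 < L := by linarith
  have hq : 0 < (ε / 2 * L) ^ 2 := by positivity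
  have e4 : (∑ i ∈ s, om (f i)) * (ε / 2 * L) ^ 2 ≤ JJ N * (K * (L + C)) := by
    refine le_trans ?_ hmom
    rw [Finset.sum_mul]
    refine le_trans (Finset.sum_le_sum fun i his => ?_)
      (Finset.sum_le_sum_of_subset_of_nonneg (Finset.subset_univ s)
        (fun i _ _ => mul_nonneg (hom i) (sq_nonneg _)))
    refine mul_le_mul_of_nonneg_left ?_ (hom i)
    exact pow_le_pow_left₀ (by positivity) (hlow i his) 2
  have e5 : (JJ N : ℝ) * (K * (L + C)) ≤ δ * (ε / 2 * L) ^ 2 := by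
    have a : (JJ N : ℝ) * (K * (L + C)) ≤ κ * L * (K * (L + L)) := by
      apply mul_le_mul l5 ?_ (by positivity) (by positivity)
      exact mul_le_mul_of_nonneg_left (by linarith) hKp.le
    refine a.trans (le_of_eq ?_)
    rw [hκ]
    field_simp
    ring
  exact le_of_mul_le_mul_right (e4.trans e5) hq

theorem mol_upper : type_of% @mol_upper_pr := @mol_upper_pr

end Pool.Agent.LVB
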