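import Pool.Agent.Lib_helper41.LVB.Defs

/-! Block ATD. -/

namespace Pool.Agent.LVB

open Pool.Agent.LEV Complex MeasureTheory Filter Topology UpperHalfPlane ModularGroup ProbabilityTheory
open scoped MatrixGroups Modular ENNReal ModularForm ComplexConjugate ContDiff

/-- the bump function -/
noncomputable def ATDb : ContDiffBump (1 / 2 : ℝ) := ⟨1 / 40, 1 / 20, by norm_num, by norm_num⟩

theorem ATD_mv : mv = ATDb.normed volume := rfl

theorem mv_facts_pr : ContDiff ℝ ∞ mv ∧ (∀ v, 0 ≤ mv v) ∧ (∀ v, mv v ≠ 0 → 9 / 20 ≤ v ∧ v ≤ 11 / 20) ∧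
    (∀ v, mv (1 - v) = mv v) ∧ ∫ v, mv v = 1 := by
  rw [ATD_mv]
  refine ⟨ATDb.contDiff_normed, ATDb.nonneg_normed, fun v hv => ?_, fun v => ?_,
    ATDb.integral_normed⟩
  · have h1 : v ∈ Function.support (ATDb.normed volume) := hv
    rw [ATDb.support_normed_eq, Metric.mem_ball, Real.dist_eq] at h1
    have h2 : ATDb.rOut = 1 / 20 := rfl
    rw [h2, abs_lt] at h1
    constructor <;> linarith [h1.1, h1.2]
  · have h := ATDb.normed_sub (μ := volume) (v - 1 / 2)
    have e1 : (1 / 2 : ℝ) - (v - 1 / 2) = 1 - v := by ring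
    have e2 : (1 / 2 : ℝ) + (v - 1 / 2) = v := by ring
    rwa [e1, e2] at h

/-- the smooth compactly supported function `mv v * exp v` -/
noncomputable def ATDh (v : ℝ) : ℂ := (mv v : ℂ) * ((Real.exp v : ℝ) : ℂ)

theorem ATD_cs : HasCompactSupport ATDh := by
  have h1 : HasCompactSupport mv := by rw [ATD_mv]; exact ATDb.hasCompactSupport_normed
  have h2 : HasCompactSupport fun v => (mv v : ℂ) :=
    h1.comp_left (g := fun x : ℝ => (x : ℂ)) Complex.ofReal_zero
  exact h2.mul_right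

theorem ATD_smooth : ContDiff ℝ ∞ ATDh := by
  have h1 : ContDiff ℝ ∞ fun v => (mv v : ℂ) := Complex.ofRealCLM.contDiff.comp mv_facts_pr.1
  have h2 : ContDiff ℝ ∞ fun v => ((Real.exp v : ℝ) : ℂ) :=
    Complex.ofRealCLM.contDiff.comp Real.contDiff_exp
  exact h1.mul h2

open FourierTransform in
theorem ATD_fourier (T : ℝ) :
    ∫ v : ℝ, (mv v : ℂ) * Complex.exp ((v : ℂ) * (1 + (T : ℂ) * Complex.I)) =
      (𝓕 ATDh) (-(T / (2 * Real.pi))) := by
  rw [Real.fourier_real_eq_integral_exp_smul]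
  congr 1
  funext v
  rw [ATDh, smul_eq_mul, Complex.ofReal_exp]
  have h1 : (v : ℂ) * (1 + (T : ℂ) * Complex.I) = (v : ℂ) + (v * T : ℂ) * Complex.I := by ring
  have h2 : ((-2 * Real.pi * v * -(T / (2 * Real.pi)) : ℝ) : ℂ) = (v * T : ℂ) := by
    rw [← Complex.ofReal_mul]
    congr 1
    have := Real.pi_pos
    field_simp
  rw [h1, Complex.exp_add, h2]
  ring

theorem ATD_decay (k : ℕ) : ∃ C : ℝ, ∀ T : ℝ,
    ‖∫ v : ℝ, (mv v : ℂ) * Complex.exp ((v : ℂ) * (1 + (T : ℂ) * Complex.I))‖ * (1 + |T|) ^ k ≤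
      C := by
  set f : SchwartzMap ℝ ℂ := ATD_cs.toSchwartzMap ATD_smooth with hf
  have hfc : (f : ℝ → ℂ) = ATDh := rfl
  have key : ∀ T : ℝ, ∫ v : ℝ, (mv v : ℂ) * Complex.exp ((v : ℂ) * (1 + (T : ℂ) * Complex.I)) =
      (FourierTransform.fourier f) (-(T / (2 * Real.pi))) := by
    intro T
    rw [ATD_fourier, SchwartzMap.fourier_coe, hfc]
  obtain ⟨C₀, hC₀, h₀⟩ := (FourierTransform.fourier f).decay 0 0
  obtain ⟨C₁, hC₁, h₁⟩ := (FourierTransform.fourier f).decay k 0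
  refine ⟨2 ^ k * (C₀ + (2 * Real.pi) ^ k * C₁), fun T => ?_⟩
  have h0 := h₀ (-(T / (2 * Real.pi)))
  have h1 := h₁ (-(T / (2 * Real.pi)))
  rw [norm_iteratedFDeriv_zero, ← key T] at h0 h1
  rw [pow_zero, one_mul] at h0
  set a := ‖∫ v : ℝ, (mv v : ℂ) * Complex.exp ((v : ℂ) * (1 + (T : ℂ) * Complex.I))‖ with ha
  have ha0 : 0 ≤ a := norm_nonneg _
  have hT : |T| ^ k * a ≤ (2 * Real.pi) ^ k * C₁ := by
    have h2 : ‖-(T / (2 * Real.pi))‖ = |T| / (2 * Real.pi) := by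
      rw [norm_neg, Real.norm_eq_abs, abs_div, abs_of_pos (by positivity : 0 < 2 * Real.pi)]
    rw [h2, div_pow, div_mul_eq_mul_div, div_le_iff₀ (by positivity)] at h1
    linarith
  have h3 : (1 + |T|) ^ k ≤ 2 ^ k * (1 + |T| ^ k) := by
    have h4 : (1 + |T|) ≤ 2 * max 1 |T| := by
      have := le_max_left 1 |T|
      have := le_max_right 1 |T|
      linarith
    have h5 : max 1 |T| ^ k ≤ 1 + |T| ^ k := by
      rcases le_total 1 |T| with h | h
      · rw [max_eq_right h]; linarith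
      · rw [max_eq_left h, one_pow]
        have : 0 ≤ |T| ^ k := by positivity
        linarith
    calc (1 + |T|) ^ k ≤ (2 * max 1 |T|) ^ k := pow_le_pow_left₀ (by positivity) h4 k
      _ = 2 ^ k * max 1 |T| ^ k := mul_pow _ _ _
      _ ≤ _ := mul_le_mul_of_nonneg_left h5 (by positivity)
  calc a * (1 + |T|) ^ k ≤ a * (2 ^ k * (1 + |T| ^ k)) := mul_le_mul_of_nonneg_left h3 ha0
    _ = 2 ^ k * (a + |T| ^ k * a) := by ring
    _ ≤ _ := mul_le_mul_of_nonneg_left (add_le_add h0 hT) (by positivity)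

theorem ATD_norm_Gamma {s : ℂ} (hs : 0 < s.re) : ‖Complex.Gamma s‖ ≤ Real.Gamma s.re := by
  rw [Complex.Gamma_eq_integral hs, Real.Gamma_eq_integral hs, Complex.GammaIntegral]
  refine norm_integral_le_of_norm_le (Real.GammaIntegral_convergent hs) ?_
  rw [ae_restrict_iff' measurableSet_Ioi]
  refine ae_of_all _ fun x hx => ?_
  have hx0 : (0 : ℝ) < x := hx
  rw [norm_mul, Complex.norm_real, Real.norm_eq_abs, Real.abs_exp,
    Complex.norm_cpow_eq_rpow_re_of_pos hx0]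
  simp

/-- `Gamma ≤ 1` on `[1, 2]` -/
theorem ATD_Gamma_le {x : ℝ} (h1 : 1 ≤ x) (h2 : x ≤ 2) : Real.Gamma x ≤ 1 := by
  have h := Real.convexOn_Gamma.2 (Set.mem_Ioi.2 one_pos) (Set.mem_Ioi.2 two_pos)
    (by linarith : (0 : ℝ) ≤ 2 - x) (by linarith : (0 : ℝ) ≤ x - 1) (by ring)
  simp only [smul_eq_mul, Real.Gamma_one, Real.Gamma_two, mul_one] at h
  have e : 2 - x + (x - 1) * 2 = x := by ring
  rw [e] at h
  linarith

theorem at_decay_pr (k : ℕ) : ∃ C : ℝ, ∀ N : ℕ, 3 ≤ N → ∀ T : ℝ, ‖AT N T‖ ≤ C * (1 + |T|) ^ (-(k : ℤ)) := by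
  obtain ⟨C, hC⟩ := ATD_decay k
  refine ⟨C, fun N hN T => ?_⟩
  have hNr : (3 : ℝ) ≤ N := by exact_mod_cast hN
  have hlog : 1 < Real.log N := by
    have h1 : Real.exp 1 < 3 := by
      have := Real.exp_one_lt_d9
      linarith
    rw [Real.lt_log_iff_exp_lt (by linarith)]
    linarith
  have hlog0 : 0 < Real.log N := by linarith
  have hre : (sT N T).re = 1 / Real.log N := by
    rw [sT, Complex.div_ofReal_re]
    simp
  have hσ0 : 0 < 1 / Real.log N := by positivity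
  have hσ1 : 1 / Real.log N ≤ 1 := by
    rw [div_le_one hlog0]; exact hlog.le
  have hG : ‖Complex.Gamma (sT N T)‖ ≤ Real.log N := by
    have h1 := ATD_norm_Gamma (s := sT N T) (by rw [hre]; exact hσ0)
    rw [hre] at h1
    have h2 : Real.Gamma (1 / Real.log N + 1) = 1 / Real.log N * Real.Gamma (1 / Real.log N) :=
      Real.Gamma_add_one hσ0.ne'
    have h3 : Real.Gamma (1 / Real.log N + 1) ≤ 1 := ATD_Gamma_le (by linarith) (by linarith)
    rw [h2, div_mul_eq_mul_div, one_mul, div_le_one hlog0] at h3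
    exact h1.trans h3
  have h2π : ‖(2 * Real.pi : ℂ) ^ (-(sT N T))‖ ≤ 1 := by
    have e : (2 * Real.pi : ℂ) = ((2 * Real.pi : ℝ) : ℂ) := by push_cast; ring
    rw [e, Complex.norm_cpow_eq_rpow_re_of_pos (by positivity), Complex.neg_re, hre]
    refine Real.rpow_le_one_of_one_le_of_nonpos ?_ (by linarith)
    have := Real.pi_gt_three
    linarith
  have hb : ‖(1 : ℂ) / (2 * Real.pi)‖ ≤ 1 := by
    have e : (1 : ℂ) / (2 * Real.pi) = ((1 / (2 * Real.pi) : ℝ) : ℂ) := by push_cast; ring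
    rw [e, Complex.norm_real, Real.norm_eq_abs, abs_of_pos (by positivity)]
    rw [div_le_one (by positivity)]
    have := Real.pi_gt_three
    linarith
  have hgl : ‖Complex.Gamma (sT N T) / (Real.log N : ℂ)‖ ≤ 1 := by
    rw [norm_div, Complex.norm_real, Real.norm_eq_abs, abs_of_pos hlog0, div_le_one hlog0]
    exact hG
  rw [zpow_neg, zpow_natCast, ← div_eq_mul_inv, le_div_iff₀ (by positivity)]
  refine le_trans (mul_le_mul_of_nonneg_right ?_ (by positivity)) (hC T)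
  rw [AT, norm_mul, norm_mul, norm_mul]
  calc _ ≤ 1 * 1 * 1 *
        ‖∫ v : ℝ, (mv v : ℂ) * Complex.exp ((v : ℂ) * (1 + (T : ℂ) * Complex.I))‖ := by
        gcongr
    _ = _ := by ring

theorem mv_facts : type_of% @mv_facts_pr := @mv_facts_pr

theorem at_decay : type_of% @at_decay_pr := @at_decay_pr

end Pool.Agent.LVB
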