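import Pool.Agent.Lib_helper41.LVB.Defs
import Pool.Agent.Lib_helper41.LVBF.BLE
import Pool.Agent.Lib_helper41.LVBF.ELM
import Pool.Agent.Lib_helper41.LVBF.PSA
import Pool.Agent.Lib_helper41.LVBF.PSB
import Pool.Agent.Lib_helper41.LVBF.PSC
import Pool.Agent.Lib_helper41.LVBF.PSD
import Pool.Agent.Lib_helper41.LVBF.SPL

/-! Block EUB. -/

namespace Pool.Agent.LVB

open Pool.Agent.LEV Complex MeasureTheory Filter Topology UpperHalfPlane ModularGroup ProbabilityTheory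
open scoped MatrixGroups Modular ENNReal ModularForm ComplexConjugate ContDiff

theorem EUB_prod {s : Finset ℕ} {z : ℕ → ℂ} {w : ℕ → ℝ}
    (h : ∀ i ∈ s, 1 + ‖z i - 1‖ ≤ Real.exp (w i)) :
    ‖∏ i ∈ s, z i - 1‖ ≤ Real.exp (∑ i ∈ s, w i) - 1 := by
  induction s using Finset.induction_on with
  | empty => simp
  | insert j s hj ih =>
    have h1 := ih fun i hi => h i (Finset.mem_insert_of_mem hi)
    have h2 := h j (Finset.mem_insert_self _ _)
    rw [Finset.prod_insert hj, Finset.sum_insert hj, Real.exp_add]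
    have e : z j * ∏ i ∈ s, z i - 1 = (z j - 1) * (∏ i ∈ s, z i - 1) + (z j - 1) +
        (∏ i ∈ s, z i - 1) := by ring
    have h3 : ‖z j * ∏ i ∈ s, z i - 1‖ ≤ ‖z j - 1‖ * ‖∏ i ∈ s, z i - 1‖ + ‖z j - 1‖ +
        ‖∏ i ∈ s, z i - 1‖ := by
      rw [e, ← norm_mul]
      exact (norm_add_le _ _).trans (add_le_add_left (norm_add_le _ _) _)
    have h4 : 1 + ‖∏ i ∈ s, z i - 1‖ ≤ Real.exp (∑ i ∈ s, w i) := by linarith
    have h5 := mul_le_mul h2 h4 (by positivity) (Real.exp_nonneg _)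
    nlinarith

theorem EUB_exp {x y : ℝ} (hx : 0 ≤ x) (hy : 0 ≤ y) : Real.exp x + y ≤ Real.exp (x + y) := by
  rw [Real.exp_add]
  have h1 : 1 ≤ Real.exp x := Real.one_le_exp hx
  have h2 := Real.add_one_le_exp y
  nlinarith [Real.exp_pos x]

theorem EUB_inv {x : ℝ} (h0 : 0 ≤ x) (h1 : x ≤ 1 / 2) : (1 - x)⁻¹ ≤ Real.exp (2 * x) := by
  rw [inv_le_comm₀ (by linarith) (Real.exp_pos _), ← Real.exp_neg]
  have h2 : Real.exp (-(2 * x)) = (Real.exp (2 * x))⁻¹ := Real.exp_neg _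
  have h3 : 1 + 2 * x ≤ Real.exp (2 * x) := by
    have := Real.add_one_le_exp (2 * x)
    linarith
  rw [h2, inv_le_comm₀ (Real.exp_pos _) (by linarith)]
  refine le_trans ?_ h3
  rw [inv_le_comm₀ (by linarith) (by linarith), ← one_div, div_le_iff₀ (by linarith)]
  nlinarith

/-- the mollified Euler product in the model -/
theorem eu_both_pr {δ : ℝ} (hδ : 0 < δ) : ∃ (A₁ z₀ : ℕ), ∀ c₀ : ℝ, 0 < c₀ → c₀ < 1 →
    ∃ (C : ℝ) (N₀ : ℕ), 3 ≤ N₀ ∧ ∀ N : ℕ, N₀ ≤ N → ∀ P : Measure (ℕ → ℝ), IsST (Pr N) P →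
      (Integrable (fun x => Ml c₀ A₁ z₀ N x ^ 2) P ∧
        ∫ x, Ml c₀ A₁ z₀ N x ^ 2 ∂P ≤ Real.log N ^ 5) ∧ ∀ T : ℝ,
      Integrable (fun x => (Ml c₀ A₁ z₀ N x : ℂ) * Lp N T x) P ∧
      Integrable (fun x => Ml c₀ A₁ z₀ N x ^ 2 * ‖Lp N T x‖ ^ 2) P ∧
      ‖∫ x, (Ml c₀ A₁ z₀ N x : ℂ) * Lp N T x ∂P - 1‖ ≤
        Real.exp (∑ p ∈ (Pr N).filter (fun p : ℕ => (p : ℝ) ≤ (N : ℝ) ^ c₀),
          ‖1 - (p : ℂ) ^ (-(sT N T))‖ / p + δ) - 1 ∧
      ∫ x, Ml c₀ A₁ z₀ N x ^ 2 * ‖Lp N T x‖ ^ 2 ∂P ≤ C * (2 + |T|) ^ 8 := by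
  classical
  obtain ⟨Cb, hCb1, hble⟩ := block_est
  obtain ⟨Ch, hCh0, hhb⟩ := hb_bounds
  obtain ⟨Cl, hpl⟩ := ps_large
  have hCb0 : 0 < Cb := by linarith
  set d : ℝ := min δ 1 with hd
  have hd0 : 0 < d := lt_min hδ one_pos
  have hdδ : d ≤ δ := min_le_left _ _
  have hd1 : d ≤ 1 := min_le_right _ _
  obtain ⟨z₀, hz₀⟩ := p32_sum (δ := d / (2 * Cb)) (by positivity)
  obtain ⟨A, hA⟩ := kk_sum (δ := d / 8) (by positivity)
  refine ⟨max A ⌈Cb * (1 + Ch)⌉₊, z₀, fun c₀ hc0 hc1 => ?_⟩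
  set A₁ : ℕ := max A ⌈Cb * (1 + Ch)⌉₊ with hA₁
  have hA₁R : Cb * (1 + Ch) ≤ A₁ := by
    have h1 : Cb * (1 + Ch) ≤ (⌈Cb * (1 + Ch)⌉₊ : ℝ) := Nat.le_ceil _
    have h2 : (⌈Cb * (1 + Ch)⌉₊ : ℝ) ≤ A₁ := by exact_mod_cast le_max_right _ _
    linarith
  obtain ⟨N1, hN1⟩ := hA A₁ (le_max_left _ _)
  obtain ⟨N2, hN2⟩ := hhb c₀ hc0 hc1.le z₀
  obtain ⟨N3, hN3⟩ := bk_disj c₀ hc0 hc1 z₀
  refine ⟨Real.exp (2 * (z₀ + (Ch - Real.log c₀)) + (4 * Cl + 1)),
    max (max N1 N2) (max N3 (max 3 ⌈Real.exp (Real.exp (4 * Ch + 1))⌉₊)),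
    (le_max_left _ _).trans ((le_max_right _ _).trans (le_max_right _ _)), ?_⟩
  intro N hN P hP
  have g1 : N1 ≤ N := (le_max_left _ _).trans ((le_max_left _ _).trans hN)
  have g2 : N2 ≤ N := (le_max_right _ _).trans ((le_max_left _ _).trans hN)
  have g3 : N3 ≤ N := (le_max_left _ _).trans ((le_max_right _ _).trans hN)
  have g4 : 3 ≤ N :=
    (le_max_left _ _).trans ((le_max_right _ _).trans ((le_max_right _ _).trans hN))
  have g5 : ⌈Real.exp (Real.exp (4 * Ch + 1))⌉₊ ≤ N :=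
    (le_max_right _ _).trans ((le_max_right _ _).trans ((le_max_right _ _).trans hN))
  have hK := hN1 N g1
  obtain ⟨hb1, hb2, hb3, hb4⟩ := hN2 N g2
  obtain ⟨k1, k2, k3, k4⟩ := hN3 N g3
  have hNR : (3 : ℝ) ≤ N := by exact_mod_cast g4
  have hN0 : (0 : ℝ) < N := by linarith
  have hlogN1 : 1 < Real.log N := by
    rw [Real.lt_log_iff_exp_lt hN0]
    have := Real.exp_one_lt_d9
    linarith
  have hll : 0 < Real.log (Real.log N) := Real.log_pos hlogN1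
  have hlogexp : Real.exp (4 * Ch + 1) ≤ Real.log N := by
    rw [Real.le_log_iff_exp_le hN0]
    exact (Nat.le_ceil _).trans (by exact_mod_cast g5)
  have hprime : ∀ p ∈ Pr N, p.Prime := fun p hp => (Finset.mem_filter.1 hp).2
  set J := JJ N with hJ
  set B : ℕ → Finset ℕ := Bk c₀ z₀ N with hB
  set K : ℕ → ℕ := Kk A₁ N with hKdef
  -- the condition on the degrees
  have hcond : ∀ i < J, Cb * HB (B i) ≤ K i := by
    intro i hi
    by_cases h : i + 1 < J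
    · have e : (K i : ℝ) = A₁ * (i + 1) := by
        rw [hKdef, Kk, if_pos h]
        push_cast
        ring
      rw [e]
      have h1 := mul_le_mul_of_nonneg_left (hb1 i h) hCb0.le
      have h2 : (A₁ : ℝ) ≤ A₁ * (i + 1) := by
        have : (0 : ℝ) ≤ (A₁ : ℝ) * i := by positivity
        linarith
      have h3 : Cb * Ch ≤ Cb * (1 + Ch) := by nlinarith
      linarith
    · have e : (K i : ℝ) = A₁ * (⌈Real.log (Real.log N)⌉₊ : ℝ) := by
        rw [hKdef, Kk, if_neg h]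
        push_cast
        ring
      rw [e]
      have h1 := mul_le_mul_of_nonneg_left (hb2 i) hCb0.le
      have h2 : Real.log (Real.log N) ≤ (⌈Real.log (Real.log N)⌉₊ : ℝ) := Nat.le_ceil _
      have h3 : (1 : ℝ) ≤ (⌈Real.log (Real.log N)⌉₊ : ℝ) := by
        have : 0 < ⌈Real.log (Real.log N)⌉₊ := Nat.ceil_pos.2 hll
        exact_mod_cast this
      have h4 : Cb * (1 + Ch) * (⌈Real.log (Real.log N)⌉₊ : ℝ) ≤
          A₁ * (⌈Real.log (Real.log N)⌉₊ : ℝ) :=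
        mul_le_mul_of_nonneg_right hA₁R (by linarith)
      have h5 : Cb * Ch ≤ Cb * Ch * (⌈Real.log (Real.log N)⌉₊ : ℝ) := by
        have : 0 ≤ Cb * Ch := by positivity
        nlinarith
      have h6 : Cb * Real.log (Real.log N) ≤ Cb * (⌈Real.log (Real.log N)⌉₊ : ℝ) :=
        mul_le_mul_of_nonneg_left h2 hCb0.le
      nlinarith
  have hblk : ∀ i < J, ∀ a : ℕ → ℂ, (∀ p ∈ Pr N, ‖a p‖ ≤ 1) →
      ‖∫ x, (mb1 (B i) (K i) x : ℂ) * ∏ p ∈ B i, el p (a p) (x p) ∂P - 1‖ ≤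
        Real.exp (∑ p ∈ B i, ‖1 - a p‖ / p + Cb * ∑ p ∈ B i, (p : ℝ) ^ (-(3 / 2) : ℝ)) - 1 +
          2 * Real.exp (-(K i : ℝ)) ∧
      ∫ x, mb1 (B i) (K i) x ^ 2 * ‖∏ p ∈ B i, el p (a p) (x p)‖ ^ 2 ∂P ≤
        Real.exp (4 * ∑ p ∈ B i, ‖1 - a p‖ / p + Cb * ∑ p ∈ B i, (p : ℝ) ^ (-(3 / 2) : ℝ) +
          4 * Real.exp (-(K i : ℝ))) := fun i hi a ha =>
    hble (B i) (fun p hp => (k3 i p hp).1) P (st_sub (k1 i) hP) a (fun p hp => ha p (k1 i hp))
      (K i) (hcond i hi)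
  -- the union of the blocks
  set U : Finset ℕ := (Finset.range J).biUnion B with hU
  have hUQ : U ⊆ Pr N := Finset.biUnion_subset.2 fun i _ => k1 i
  have hpd : Set.PairwiseDisjoint (Finset.range J : Set ℕ) B := by
    intro i hi j hj hij
    exact k2 i (Finset.mem_range.1 (Finset.mem_coe.1 hi)) j
      (Finset.mem_range.1 (Finset.mem_coe.1 hj)) hij
  have hsumU : ∀ f : ℕ → ℝ, ∑ i ∈ Finset.range J, ∑ p ∈ B i, f p = ∑ p ∈ U, f p := fun f =>
    (Finset.sum_biUnion hpd).symm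
  have hUz : ∀ p ∈ U, z₀ < p := by
    intro p hp
    rw [hU, Finset.mem_biUnion] at hp
    obtain ⟨i, _, hi⟩ := hp
    exact (k3 i p hi).2.1
  have hS : Cb * ∑ p ∈ U, (p : ℝ) ^ (-(3 / 2) : ℝ) ≤ d / 2 := by
    have h1 := mul_le_mul_of_nonneg_left (hz₀ U hUz) hCb0.le
    have h2 : Cb * (d / (2 * Cb)) = d / 2 := by field_simp
    linarith
  have hUf : U ⊆ (Pr N).filter (fun p : ℕ => (p : ℝ) ≤ (N : ℝ) ^ c₀) := by
    intro p hp
    rw [Finset.mem_filter]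
    refine ⟨hUQ hp, ?_⟩
    rw [hU, Finset.mem_biUnion] at hp
    obtain ⟨i, _, hi⟩ := hp
    refine (k3 i p hi).2.2.trans ?_
    refine Real.rpow_le_rpow_of_exponent_le (by linarith) ?_
    have h1 : Real.exp (-(i : ℝ)) ≤ 1 := by
      rw [Real.exp_le_one_iff]
      have : (0 : ℝ) ≤ i := by positivity
      linarith
    nlinarith
  -- the second moment of the blocks
  have hsq : ∀ a : ℕ → ℂ, (∀ p ∈ Pr N, ‖a p‖ ≤ 1) →
      ∏ i ∈ Finset.range J, ∫ x, mb1 (B i) (K i) x ^ 2 * ‖∏ p ∈ B i, el p (a p) (x p)‖ ^ 2 ∂P ≤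
        Real.exp (4 * ∑ p ∈ U, ‖1 - a p‖ / p + 1) := by
    intro a ha
    calc ∏ i ∈ Finset.range J,
          ∫ x, mb1 (B i) (K i) x ^ 2 * ‖∏ p ∈ B i, el p (a p) (x p)‖ ^ 2 ∂P
        ≤ ∏ i ∈ Finset.range J, Real.exp (4 * ∑ p ∈ B i, ‖1 - a p‖ / p +
          Cb * ∑ p ∈ B i, (p : ℝ) ^ (-(3 / 2) : ℝ) + 4 * Real.exp (-(K i : ℝ))) :=
          Finset.prod_le_prod (fun i _ => integral_nonneg fun x => by positivity)
            fun i hi => (hblk i (Finset.mem_range.1 hi) a ha).2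
      _ = Real.exp (4 * ∑ p ∈ U, ‖1 - a p‖ / p + Cb * ∑ p ∈ U, (p : ℝ) ^ (-(3 / 2) : ℝ) +
          4 * ∑ i ∈ Finset.range J, Real.exp (-(K i : ℝ))) := by
          rw [← Real.exp_sum, Finset.sum_add_distrib, Finset.sum_add_distrib, ← Finset.mul_sum,
            ← Finset.mul_sum, ← Finset.mul_sum, hsumU, hsumU]
      _ ≤ _ := by
          refine Real.exp_le_exp.2 ?_
          linarith
  constructor
  · -- the mollifier alone
    have h0 : ∀ p ∈ Pr N, ‖(fun _ : ℕ => (0 : ℂ)) p‖ ≤ 1 := fun p _ => by simp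
    obtain ⟨_, s2, _, s4⟩ := mol_split hprime hP (J := J) (B := B) (fun i _ => k1 i)
      (fun i hi j hj => k2 i hi j hj) K h0
    have hel : ∀ (I : Finset ℕ) (x : ℕ → ℝ), ∏ p ∈ I, el p ((fun _ : ℕ => (0 : ℂ)) p) (x p) = 1 := by
      intro I x
      refine Finset.prod_eq_one fun p _ => ?_
      simp [el]
    have e1 : (fun x => mol J B K x ^ 2 * ‖∏ p ∈ Pr N, el p ((fun _ : ℕ => (0 : ℂ)) p) (x p)‖ ^ 2) =
        fun x => Ml c₀ A₁ z₀ N x ^ 2 := by
      funext x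
      rw [hel, norm_one, one_pow, mul_one]
      rfl
    rw [e1] at s2
    refine ⟨s2, ?_⟩
    have e2 : ∫ x, Ml c₀ A₁ z₀ N x ^ 2 ∂P = ∫ x, mol J B K x ^ 2 *
        ‖∏ p ∈ Pr N, el p ((fun _ : ℕ => (0 : ℂ)) p) (x p)‖ ^ 2 ∂P := by rw [e1]
    rw [e2, s4]
    have e3 : ∏ p ∈ Pr N \ (Finset.range J).biUnion B,
        (1 - ‖(fun _ : ℕ => (0 : ℂ)) p‖ ^ 2 / (p : ℝ))⁻¹ = 1 := by
      refine Finset.prod_eq_one fun p _ => ?_
      simp
    rw [e3, one_mul]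
    refine (hsq _ h0).trans ?_
    have e4 : ∑ p ∈ U, ‖1 - (fun _ : ℕ => (0 : ℂ)) p‖ / (p : ℝ) ≤
        Real.log (Real.log N) + Ch := by
      rw [← hsumU]
      refine le_trans (le_of_eq ?_) hb3
      refine Finset.sum_congr rfl fun i _ => ?_
      rw [HB]
      refine Finset.sum_congr rfl fun p _ => ?_
      simp
    have hlog0 : 0 < Real.log N := by linarith
    calc Real.exp (4 * ∑ p ∈ U, ‖1 - (fun _ : ℕ => (0 : ℂ)) p‖ / (p : ℝ) + 1)
        ≤ Real.exp (4 * Real.log (Real.log N) + (4 * Ch + 1)) := by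
          refine Real.exp_le_exp.2 ?_
          linarith
      _ = Real.log N ^ 4 * Real.exp (4 * Ch + 1) := by
          rw [Real.exp_add]
          congr 1
          have : (4 : ℝ) * Real.log (Real.log N) = ((4 : ℕ) : ℝ) * Real.log (Real.log N) := by
            norm_num
          rw [this, Real.exp_nat_mul, Real.exp_log hlog0]
      _ ≤ Real.log N ^ 4 * Real.log N := mul_le_mul_of_nonneg_left hlogexp (by positivity)
      _ = _ := by ring
  · intro T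
    set a : ℕ → ℂ := fun p => (p : ℂ) ^ (-(sT N T)) with ha
    have ha1 : ∀ p ∈ Pr N, ‖a p‖ ≤ 1 := fun p hp => ps_norm g4 T (hprime p hp).one_le
    obtain ⟨s1, s2, s3, s4⟩ := mol_split hprime hP (J := J) (B := B) (fun i _ => k1 i)
      (fun i hi j hj => k2 i hi j hj) K ha1
    refine ⟨s1, s2, ?_, ?_⟩
    · -- the mean
      have e1 : ∫ x, (Ml c₀ A₁ z₀ N x : ℂ) * Lp N T x ∂P = ∏ i ∈ Finset.range J,
          ∫ x, (mb1 (B i) (K i) x : ℂ) * ∏ p ∈ B i, el p (a p) (x p) ∂P := s3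
      rw [e1]
      have h1 : ∀ i ∈ Finset.range J,
          1 + ‖∫ x, (mb1 (B i) (K i) x : ℂ) * ∏ p ∈ B i, el p (a p) (x p) ∂P - 1‖ ≤
          Real.exp ((∑ p ∈ B i, ‖1 - a p‖ / p + Cb * ∑ p ∈ B i, (p : ℝ) ^ (-(3 / 2) : ℝ)) +
            2 * Real.exp (-(K i : ℝ))) := by
        intro i hi
        have h2 := (hblk i (Finset.mem_range.1 hi) a ha1).1
        have h3 : 0 ≤ ∑ p ∈ B i, ‖1 - a p‖ / (p : ℝ) + Cb * ∑ p ∈ B i, (p : ℝ) ^ (-(3 / 2) : ℝ) := by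
          positivity
        have h4 := EUB_exp h3 (by positivity : 0 ≤ 2 * Real.exp (-(K i : ℝ)))
        linarith
      refine (EUB_prod h1).trans ?_
      refine sub_le_sub_right (Real.exp_le_exp.2 ?_) 1
      rw [Finset.sum_add_distrib, Finset.sum_add_distrib, ← Finset.mul_sum, ← Finset.mul_sum,
        hsumU, hsumU]
      have h5 : ∑ p ∈ U, ‖1 - a p‖ / (p : ℝ) ≤
          ∑ p ∈ (Pr N).filter (fun p : ℕ => (p : ℝ) ≤ (N : ℝ) ^ c₀), ‖1 - a p‖ / (p : ℝ) :=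
        Finset.sum_le_sum_of_subset_of_nonneg hUf fun p _ _ => by positivity
      linarith
    · -- the second moment
      have e1 : ∫ x, Ml c₀ A₁ z₀ N x ^ 2 * ‖Lp N T x‖ ^ 2 ∂P =
          (∏ p ∈ Pr N \ U, (1 - ‖a p‖ ^ 2 / (p : ℝ))⁻¹) * ∏ i ∈ Finset.range J,
          ∫ x, mb1 (B i) (K i) x ^ 2 * ‖∏ p ∈ B i, el p (a p) (x p)‖ ^ 2 ∂P := s4
      rw [e1]
      have h1 : ∏ p ∈ Pr N \ U, (1 - ‖a p‖ ^ 2 / (p : ℝ))⁻¹ ≤
          Real.exp (2 * ∑ p ∈ Pr N \ U, 1 / (p : ℝ)) := by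
        rw [Finset.mul_sum, Real.exp_sum]
        refine Finset.prod_le_prod (fun p hp => ?_) fun p hp => ?_
        · have hp2 : (2 : ℝ) ≤ p := by
            exact_mod_cast (hprime p (Finset.sdiff_subset hp)).two_le
          have h2 := ha1 p (Finset.sdiff_subset hp)
          have h3 : ‖a p‖ ^ 2 ≤ 1 := pow_le_one₀ (norm_nonneg _) h2
          have h4 : ‖a p‖ ^ 2 / (p : ℝ) ≤ 1 := by
            rw [div_le_one (by linarith)]
            linarith
          exact inv_nonneg.2 (by linarith)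
        · have hp2 : (2 : ℝ) ≤ p := by
            exact_mod_cast (hprime p (Finset.sdiff_subset hp)).two_le
          have h2 := ha1 p (Finset.sdiff_subset hp)
          have h3 : ‖a p‖ ^ 2 ≤ 1 := pow_le_one₀ (norm_nonneg _) h2
          have h4 : ‖a p‖ ^ 2 / (p : ℝ) ≤ 1 / p :=
            div_le_div_of_nonneg_right h3 (by linarith)
          have h5 : 1 / (p : ℝ) ≤ 1 / 2 := one_div_le_one_div_of_le (by norm_num) hp2
          refine (EUB_inv (by positivity) (h4.trans h5)).trans (Real.exp_le_exp.2 ?_)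
          linarith
      have h2 : ∑ p ∈ Pr N \ U, 1 / (p : ℝ) ≤ z₀ + (Ch - Real.log c₀) := by
        have hsub : Pr N \ U ⊆ ((Finset.Icc 1 z₀) ∪
            (Pr N).filter (fun p : ℕ => (N : ℝ) ^ c₀ < p)) := by
          intro p hp
          rw [Finset.mem_sdiff] at hp
          rw [Finset.mem_union]
          by_cases hz : p ≤ z₀
          · exact Or.inl (Finset.mem_Icc.2 ⟨(hprime p hp.1).one_le, hz⟩)
          · right
            rw [Finset.mem_filter]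
            refine ⟨hp.1, ?_⟩
            by_contra hcon
            obtain ⟨i, hi, hpi⟩ := k4 p hp.1 (not_le.1 hz) (not_lt.1 hcon)
            exact hp.2 (Finset.mem_biUnion.2 ⟨i, Finset.mem_range.2 hi, hpi⟩)
        refine (Finset.sum_le_sum_of_subset_of_nonneg hsub fun p _ _ => by positivity).trans ?_
        have h3 : ∑ p ∈ (Finset.Icc 1 z₀) ∪ (Pr N).filter (fun p : ℕ => (N : ℝ) ^ c₀ < p),
            1 / (p : ℝ) ≤ ∑ p ∈ Finset.Icc 1 z₀, 1 / (p : ℝ) +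
              ∑ p ∈ (Pr N).filter (fun p : ℕ => (N : ℝ) ^ c₀ < p), 1 / (p : ℝ) := by
          rw [← Finset.sum_union_inter]
          have : 0 ≤ ∑ p ∈ (Finset.Icc 1 z₀) ∩ (Pr N).filter (fun p : ℕ => (N : ℝ) ^ c₀ < p),
              1 / (p : ℝ) := Finset.sum_nonneg fun p _ => by positivity
          linarith
        refine h3.trans (add_le_add ?_ hb4)
        calc ∑ p ∈ Finset.Icc 1 z₀, 1 / (p : ℝ) ≤ ∑ p ∈ Finset.Icc 1 z₀, (1 : ℝ) := by
              refine Finset.sum_le_sum fun p hp => ?_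
              have : (1 : ℝ) ≤ p := by exact_mod_cast (Finset.mem_Icc.1 hp).1
              rw [div_le_one (by linarith)]
              exact this
          _ = z₀ := by simp
      have h3 : ∑ p ∈ U, ‖1 - a p‖ / (p : ℝ) ≤ 2 * Real.log (2 + |T|) + Cl :=
        (Finset.sum_le_sum_of_subset_of_nonneg hUQ fun p _ _ => by positivity).trans (hpl N g4 T)
      have hT : 0 < 2 + |T| := by
        have := abs_nonneg T
        linarith
      calc (∏ p ∈ Pr N \ U, (1 - ‖a p‖ ^ 2 / (p : ℝ))⁻¹) * ∏ i ∈ Finset.range J,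
            ∫ x, mb1 (B i) (K i) x ^ 2 * ‖∏ p ∈ B i, el p (a p) (x p)‖ ^ 2 ∂P
          ≤ Real.exp (2 * ∑ p ∈ Pr N \ U, 1 / (p : ℝ)) *
            Real.exp (4 * ∑ p ∈ U, ‖1 - a p‖ / (p : ℝ) + 1) :=
            mul_le_mul h1 (hsq a ha1) (Finset.prod_nonneg fun i _ =>
              integral_nonneg fun x => by positivity) (Real.exp_nonneg _)
        _ ≤ Real.exp (2 * (z₀ + (Ch - Real.log c₀))) *
            Real.exp (4 * (2 * Real.log (2 + |T|) + Cl) + 1) := by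
            refine mul_le_mul (Real.exp_le_exp.2 ?_) (Real.exp_le_exp.2 ?_) (Real.exp_nonneg _)
              (Real.exp_nonneg _)
            · linarith
            · linarith
        _ = Real.exp (2 * (z₀ + (Ch - Real.log c₀)) + (4 * Cl + 1)) * (2 + |T|) ^ 8 := by
            have : (2 + |T|) ^ 8 = Real.exp (8 * Real.log (2 + |T|)) := by
              have h8 : (8 : ℝ) * Real.log (2 + |T|) = ((8 : ℕ) : ℝ) * Real.log (2 + |T|) := by
                norm_num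
              rw [h8, Real.exp_nat_mul, Real.exp_log hT]
            rw [this, ← Real.exp_add, ← Real.exp_add]
            congr 1
            ring

theorem eu_both : type_of% @eu_both_pr := @eu_both_pr

end Pool.Agent.LVB
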