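import Pool.Agent.Lib_helper41.LVB.Defs
import Pool.Agent.Lib_helper68.LEV.MEX
import Pool.Agent.Lib_helper41.LVBF.ELF

/-! # Block LPB: measurability and boundedness of the random Euler product -/

namespace Pool.Agent.LVB

open Pool.Agent.LEV Complex MeasureTheory Filter Topology UpperHalfPlane ModularGroup ProbabilityTheory
open scoped MatrixGroups Modular ENNReal ModularForm ComplexConjugate ContDiff

theorem lp_meas_pr (N : ℕ) : Measurable (fun z : ℝ × (ℕ → ℝ) => Lp N z.1 z.2) := by
  unfold Lp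
  refine Finset.measurable_prod _ fun p hp => ?_
  have hp0 : (p : ℂ) ≠ 0 := by
    have h1 : p.Prime := (Finset.mem_filter.1 hp).2
    exact_mod_cast h1.ne_zero
  have hs : Measurable (fun z : ℝ × (ℕ → ℝ) => sT N z.1) := by
    unfold sT
    refine Measurable.div_const ?_ _
    exact (Complex.continuous_ofReal.comp continuous_fst |>.mul continuous_const |>.const_add 1
      |>.measurable)
  have ha : Measurable (fun z : ℝ × (ℕ → ℝ) => (p : ℂ) ^ (-(sT N z.1))) := by
    have e : (fun z : ℝ × (ℕ → ℝ) => (p : ℂ) ^ (-(sT N z.1))) =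
        fun z => Complex.exp (Complex.log (p : ℂ) * (-(sT N z.1))) := by
      funext z
      rw [Complex.cpow_def_of_ne_zero hp0]
    rw [e]
    exact Complex.measurable_exp.comp (measurable_const.mul hs.neg)
  have hx : Measurable (fun z : ℝ × (ℕ → ℝ) => ((z.2 p : ℝ) : ℂ)) :=
    Complex.measurable_ofReal.comp ((measurable_pi_apply p).comp measurable_snd)
  unfold el
  exact (((measurable_const.sub ((ha.mul hx).div_const _))).add ((ha.pow_const 2).div_const _)).inv

theorem LPB_norm {N : ℕ} (hN : 3 ≤ N) (T : ℝ) {p : ℕ} (hp : 1 ≤ p) :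
    ‖(p : ℂ) ^ (-(sT N T))‖ ≤ 1 := by
  have hlog : 0 < Real.log N := Real.log_pos (by exact_mod_cast (by omega : 1 < N))
  have hre : (-(sT N T)).re = -(1 / Real.log N) := by
    unfold sT
    rw [Complex.neg_re, Complex.div_ofReal_re]
    simp
  rw [Complex.norm_natCast_cpow_of_pos (by omega), hre]
  apply Real.rpow_le_one_of_one_le_of_nonpos
  · exact_mod_cast hp
  · have : 0 < 1 / Real.log N := by positivity
    linarith

theorem lp_bound_pr {N : ℕ} (hN : 3 ≤ N) : ∃ C : ℝ, ∀ (T : ℝ) (x : ℕ → ℝ), (∀ p ∈ Pr N, |x p| ≤ 2) →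
    ‖Lp N T x‖ ≤ C := by
  refine ⟨12 ^ (Pr N).card, fun T x hx => ?_⟩
  unfold Lp
  rw [norm_prod]
  refine (Finset.prod_le_prod (fun p _ => norm_nonneg _) (g := fun _ => (12 : ℝ)) fun p hp => ?_).trans
    (by simp)
  have h1 : p.Prime := (Finset.mem_filter.1 hp).2
  exact el_norm_pr h1 (LPB_norm hN T h1.one_lt.le) (hx p hp)

theorem LPB_um (n : ℕ) : Measurable (fun x : ℕ → ℝ => Um n x) := by
  unfold Um
  refine Finset.measurable_prod _ fun p _ => ?_
  exact (MEX_cont _).measurable.comp (measurable_pi_apply p)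

theorem sp_meas_pr (N : ℕ) : Measurable (SP N) := by
  unfold SP
  refine Measurable.tsum fun n => ?_
  split_ifs
  · exact (LPB_um n).const_mul _
  · exact measurable_const

theorem lp_meas : type_of% @lp_meas_pr := @lp_meas_pr

theorem lp_bound : type_of% @lp_bound_pr := @lp_bound_pr

theorem sp_meas : type_of% @sp_meas_pr := @sp_meas_pr

end Pool.Agent.LVB
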