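import Pool.Agent.Lib_helper41.LVB.Defs
import Pool.Agent.Lib_helper41.LVBF.ATD

/-! Block WTF. -/

namespace Pool.Agent.LVB

open Pool.Agent.LEV Complex MeasureTheory Filter Topology UpperHalfPlane ModularGroup ProbabilityTheory
open scoped MatrixGroups Modular ENNReal ModularForm ComplexConjugate ContDiff

theorem WTF_gam {s : ℂ} (hs : 0 < s.re) : ‖Complex.Gamma s‖ ≤ Real.Gamma s.re := by
  rw [Complex.Gamma_eq_integral hs, Complex.GammaIntegral, Real.Gamma_eq_integral hs]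
  refine (norm_integral_le_integral_norm _).trans (le_of_eq ?_)
  refine setIntegral_congr_fun measurableSet_Ioi fun x hx => ?_
  have hx' : (0 : ℝ) < x := hx
  show ‖((Real.exp (-x) : ℝ) : ℂ) * (x : ℂ) ^ (s - 1)‖ = Real.exp (-x) * x ^ (s.re - 1)
  rw [norm_mul, Complex.norm_real, Real.norm_of_nonneg (Real.exp_nonneg _),
    Complex.norm_cpow_eq_rpow_re_of_pos hx', Complex.sub_re, Complex.one_re]

theorem WTF_gcont {σ : ℝ} (hσ : 0 < σ) :
    Continuous (fun t : ℝ => Complex.Gamma (σ + t * Complex.I)) := by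
  refine continuous_iff_continuousAt.2 fun t => ?_
  have h1 : ContinuousAt Complex.Gamma (σ + t * Complex.I) := by
    refine (Complex.differentiableAt_Gamma _ fun m => ?_).continuousAt
    intro h
    have h2 := congrArg Complex.re h
    simp at h2
    have : (0 : ℝ) ≤ m := by positivity
    linarith
  exact ContinuousAt.comp (f := fun t : ℝ => (σ + t * Complex.I : ℂ)) h1 (by fun_prop)

theorem WTF_dec {σ : ℝ} (hσ : 0 < σ) :
    Integrable (fun t : ℝ => Complex.Gamma (σ + t * Complex.I)) := by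
  set c : ℝ := min (σ ^ 2) 1 with hc
  have hc0 : 0 < c := lt_min (by positivity) one_pos
  refine Integrable.mono' (integrable_inv_one_add_sq.const_mul (Real.Gamma (σ + 2) / c))
    (WTF_gcont hσ).aestronglyMeasurable (Eventually.of_forall fun t => ?_)
  set s : ℂ := σ + t * Complex.I with hs
  have hre : s.re = σ := by simp [hs]
  have him : s.im = t := by simp [hs]
  have hs0 : s ≠ 0 := fun h => by
    rw [h] at hre
    simp at hre
    linarith
  have hs1 : s + 1 ≠ 0 := fun h => by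
    have := congrArg Complex.re h
    simp [hre] at this
    linarith
  have e1 : Complex.Gamma (s + 2) = (s + 1) * (s * Complex.Gamma s) := by
    have h1 : s + 2 = (s + 1) + 1 := by ring
    rw [h1, Complex.Gamma_add_one _ hs1, Complex.Gamma_add_one _ hs0]
  have h2 : ‖Complex.Gamma (s + 2)‖ ≤ Real.Gamma (σ + 2) := by
    have h3 : (s + 2).re = σ + 2 := by simp [hre]
    have := WTF_gam (s := s + 2) (by rw [h3]; linarith)
    rwa [h3] at this
  rw [e1, norm_mul, norm_mul] at h2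
  have n1 : ‖s‖ ^ 2 = σ ^ 2 + t ^ 2 := by
    rw [← Complex.normSq_eq_norm_sq, Complex.normSq_apply, hre, him]
    ring
  have n2 : ‖s + 1‖ ^ 2 = (σ + 1) ^ 2 + t ^ 2 := by
    rw [← Complex.normSq_eq_norm_sq, Complex.normSq_apply]
    simp [hre, him]
    ring
  have n3 : ‖s‖ ≤ ‖s + 1‖ := by
    refine (sq_le_sq₀ (norm_nonneg _) (norm_nonneg _)).1 ?_
    rw [n1, n2]
    nlinarith
  have n4 : c * (1 + t ^ 2) ≤ ‖s + 1‖ * ‖s‖ := by
    have h3 : ‖s‖ * ‖s‖ ≤ ‖s + 1‖ * ‖s‖ := mul_le_mul_of_nonneg_right n3 (norm_nonneg _)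
    have h4 : c ≤ σ ^ 2 := min_le_left _ _
    have h5 : c ≤ 1 := min_le_right _ _
    nlinarith [sq_nonneg t]
  rw [← div_eq_mul_inv, div_div, le_div_iff₀ (by positivity)]
  calc ‖Complex.Gamma s‖ * (c * (1 + t ^ 2)) ≤ ‖Complex.Gamma s‖ * (‖s + 1‖ * ‖s‖) :=
        mul_le_mul_of_nonneg_left n4 (norm_nonneg _)
    _ = ‖s + 1‖ * (‖s‖ * ‖Complex.Gamma s‖) := by ring
    _ ≤ _ := h2

theorem WTF_mellin {s : ℂ} (hs : 0 < s.re) :
    mellin (fun x : ℝ => ((Real.exp (-x) : ℝ) : ℂ)) s = Complex.Gamma s := by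
  rw [Complex.Gamma_eq_integral hs, Complex.GammaIntegral_eq_mellin]

theorem WTF_exp {σ y : ℝ} (hσ : 0 < σ) (hy : 0 < y) : ((Real.exp (-y) : ℝ) : ℂ) =
    1 / (2 * Real.pi) * ∫ t : ℝ, (y : ℂ) ^ (-(σ + t * Complex.I : ℂ)) * Complex.Gamma (σ + t * Complex.I) := by
  have h1 : MellinConvergent (fun x : ℝ => ((Real.exp (-x) : ℝ) : ℂ)) (σ : ℂ) := by
    have := Complex.GammaIntegral_convergent (s := (σ : ℂ)) (by simpa using hσ)
    rw [MellinConvergent]
    refine this.congr_fun (fun x _ => ?_) measurableSet_Ioi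
    simp only [smul_eq_mul]
    ring
  have hre : ∀ t : ℝ, (σ + t * Complex.I : ℂ).re = σ := fun t => by simp
  have h2 : VerticalIntegrable (mellin (fun x : ℝ => ((Real.exp (-x) : ℝ) : ℂ))) σ := by
    rw [VerticalIntegrable]
    refine (WTF_dec hσ).congr (Eventually.of_forall fun t => ?_)
    exact (WTF_mellin (by rw [hre]; exact hσ)).symm
  have h3 := mellinInv_mellin_eq σ (fun x : ℝ => ((Real.exp (-x) : ℝ) : ℂ)) hy h1 h2
    (by fun_prop)
  rw [← h3, mellinInv, Complex.real_smul]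
  congr 1
  · push_cast
    ring
  · congr 1
    ext t
    rw [smul_eq_mul, WTF_mellin (by rw [hre]; exact hσ)]

theorem WTF_log {N : ℕ} (hN : 3 ≤ N) : 0 < Real.log N := by
  have : (3 : ℝ) ≤ N := by exact_mod_cast hN
  exact Real.log_pos (by linarith)

theorem WTF_sT {N : ℕ} (T : ℝ) :
    sT N T = (((Real.log N)⁻¹ : ℝ) : ℂ) + ((T / Real.log N : ℝ) : ℂ) * Complex.I := by
  rw [sT]
  push_cast
  ring

theorem WTF_gT {N : ℕ} (hN : 3 ≤ N) :
    Continuous (fun T : ℝ => Complex.Gamma (sT N T)) ∧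
      Integrable (fun T : ℝ => Complex.Gamma (sT N T)) := by
  have hl := WTF_log hN
  have hσ : 0 < (Real.log N)⁻¹ := inv_pos.2 hl
  have e : (fun T : ℝ => Complex.Gamma (sT N T)) =
      fun T : ℝ => (fun t : ℝ => Complex.Gamma ((((Real.log N)⁻¹ : ℝ) : ℂ) + t * Complex.I))
        (T / Real.log N) := by
    funext T
    rw [WTF_sT]
  rw [e]
  exact ⟨(WTF_gcont hσ).comp (by fun_prop), (WTF_dec hσ).comp_div hl.ne'⟩

theorem WTF_sTc (N : ℕ) : Continuous (sT N) := by
  unfold sT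
  fun_prop

theorem WTF_cpow {b : ℂ} (hb : b ≠ 0) (N : ℕ) : Continuous (fun T : ℝ => b ^ (-(sT N T))) := by
  have e : (fun T : ℝ => b ^ (-(sT N T))) = fun T : ℝ => Complex.exp (Complex.log b * -(sT N T)) := by
    funext T
    rw [Complex.cpow_def_of_ne_zero hb]
  rw [e]
  exact Complex.continuous_exp.comp (continuous_const.mul (WTF_sTc N).neg)

theorem WTF_mvc : Continuous mv := (mv_facts.1).continuous

theorem WTF_mvs : HasCompactSupport mv := by
  refine HasCompactSupport.of_support_subset_isCompact (isCompact_Icc (a := 9 / 20) (b := 11 / 20)) ?_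
  intro v hv
  exact mv_facts.2.2.1 v hv

theorem WTF_mvi : Integrable (fun v : ℝ => (mv v : ℂ) * ((Real.exp v : ℝ) : ℂ)) := by
  have h1 : Continuous (fun v : ℝ => mv v * Real.exp v) := WTF_mvc.mul Real.continuous_exp
  have h2 : HasCompactSupport (fun v : ℝ => mv v * Real.exp v) := WTF_mvs.mul_right
  have h0 : Integrable (fun v : ℝ => mv v * Real.exp v) volume :=
    h1.integrable_of_hasCompactSupport h2
  have h3 := h0.ofReal (𝕜 := ℂ)
  exact h3.congr (Eventually.of_forall fun v => Complex.ofReal_mul _ _)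

theorem WTF_e (v T : ℝ) : Complex.exp ((v : ℂ) * (1 + (T : ℂ) * Complex.I)) =
    ((Real.exp v : ℝ) : ℂ) * Complex.exp (((v * T : ℝ) : ℂ) * Complex.I) := by
  rw [Complex.ofReal_exp, ← Complex.exp_add]
  congr 1
  push_cast
  ring

theorem WTF_trc : Continuous (fun T : ℝ => ∫ v : ℝ, (mv v : ℂ) *
    Complex.exp ((v : ℂ) * (1 + (T : ℂ) * Complex.I))) := by
  refine continuous_of_dominated (bound := fun v => ‖(mv v : ℂ) * ((Real.exp v : ℝ) : ℂ)‖)
    (fun T => ?_) (fun T => Eventually.of_forall fun v => ?_) WTF_mvi.norm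
    (Eventually.of_forall fun v => by fun_prop)
  · exact ((Complex.continuous_ofReal.comp WTF_mvc).mul (by fun_prop)).aestronglyMeasurable
  · rw [WTF_e, ← mul_assoc, norm_mul, Complex.norm_exp_ofReal_mul_I, mul_one]

theorem WTF_ATc {N : ℕ} (hN : 3 ≤ N) : Continuous (AT N) := by
  unfold AT
  refine ((continuous_const.mul ((WTF_gT hN).1.div_const _)).mul ?_).mul WTF_trc
  refine WTF_cpow ?_ N
  have : (2 * Real.pi : ℂ) = ((2 * Real.pi : ℝ) : ℂ) := by push_cast; rfl
  rw [this, Complex.ofReal_ne_zero]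
  positivity

theorem at_int_pr (N : ℕ) (hN : 3 ≤ N) (k : ℕ) :
    Integrable (fun T : ℝ => AT N T * ((|T| ^ k : ℝ) : ℂ)) := by
  obtain ⟨C, hC⟩ := at_decay (k + 2)
  have hC0 : 0 ≤ C := by
    have := (norm_nonneg _).trans (hC N hN 0)
    simpa using this
  refine Integrable.mono' (integrable_inv_one_add_sq.const_mul C)
    ((WTF_ATc hN).mul (by fun_prop)).aestronglyMeasurable (Eventually.of_forall fun T => ?_)
  have hT := abs_nonneg T
  rw [norm_mul, Complex.norm_real, Real.norm_of_nonneg (by positivity)]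
  have h1 : (0 : ℝ) < 1 + |T| := by linarith
  have h2 : (1 + |T|) ^ (-((k + 2 : ℕ) : ℤ)) = ((1 + |T|) ^ (k + 2))⁻¹ := by
    rw [zpow_neg, zpow_natCast]
  have h3 := hC N hN T
  rw [h2] at h3
  have h4 : |T| ^ k ≤ (1 + |T|) ^ k := pow_le_pow_left₀ hT (by linarith) k
  have h5 : 1 + T ^ 2 ≤ (1 + |T|) ^ 2 := by
    rw [← sq_abs T]
    nlinarith
  calc ‖AT N T‖ * |T| ^ k ≤ C * ((1 + |T|) ^ (k + 2))⁻¹ * (1 + |T|) ^ k :=
        mul_le_mul h3 h4 (by positivity) (by positivity)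
    _ = C * ((1 + |T|) ^ 2)⁻¹ := by
        rw [pow_add]
        field_simp
    _ ≤ C * (1 + T ^ 2)⁻¹ :=
        mul_le_mul_of_nonneg_left (inv_anti₀ (by positivity) h5) hC0

theorem wt_fourier_pr {N : ℕ} (hN : 3 ≤ N) {n : ℕ} (hn : 1 ≤ n) :
    (wt N n : ℂ) = ∫ T : ℝ, AT N T * (n : ℂ) ^ (-(sT N T)) := by
  have hl := WTF_log hN
  have hlc : (Real.log N : ℂ) ≠ 0 := Complex.ofReal_ne_zero.2 hl.ne'
  have hσ : 0 < (Real.log N)⁻¹ := inv_pos.2 hl
  have hNR : (0 : ℝ) < N := by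
    have : (3 : ℝ) ≤ N := by exact_mod_cast hN
    linarith
  have hnR : (0 : ℝ) < n := by exact_mod_cast hn
  have hnc : (n : ℂ) ≠ 0 := by exact_mod_cast (by omega : n ≠ 0)
  have hpc : (2 * Real.pi : ℂ) = ((2 * Real.pi : ℝ) : ℂ) := by push_cast; rfl
  have hp0 : (2 * Real.pi : ℂ) ≠ 0 := by
    rw [hpc, Complex.ofReal_ne_zero]
    positivity
  set G : ℝ → ℂ := fun T => 1 / (2 * Real.pi) * (Complex.Gamma (sT N T) / (Real.log N : ℂ)) *
    (2 * Real.pi : ℂ) ^ (-(sT N T)) * (n : ℂ) ^ (-(sT N T)) with hG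
  -- the exponential at each `v`
  have hexp : ∀ v : ℝ, ((Real.exp (-2 * Real.pi * n * (N : ℝ) ^ (-v)) : ℝ) : ℂ) =
      ∫ T : ℝ, G T * Complex.exp ((v : ℂ) * (1 + (T : ℂ) * Complex.I)) := by
    intro v
    set y : ℝ := 2 * Real.pi * n * (N : ℝ) ^ (-v) with hy
    have hy0 : 0 < y := by positivity
    have hlogy : Real.log y = Real.log (2 * Real.pi) + Real.log n - v * Real.log N := by
      rw [hy, Real.log_mul (by positivity) (by positivity),
        Real.log_mul (by positivity) hnR.ne', Real.log_rpow hNR]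
      ring
    have e0 : -2 * Real.pi * n * (N : ℝ) ^ (-v) = -y := by
      rw [hy]
      ring
    rw [e0, WTF_exp hσ hy0]
    have e1 : ∫ t : ℝ, (y : ℂ) ^ (-((((Real.log N)⁻¹ : ℝ) : ℂ) + t * Complex.I)) *
        Complex.Gamma ((((Real.log N)⁻¹ : ℝ) : ℂ) + t * Complex.I) =
        (Real.log N : ℂ)⁻¹ * ∫ T : ℝ, (y : ℂ) ^ (-(sT N T)) * Complex.Gamma (sT N T) := by
      have h1 := Measure.integral_comp_div (fun t : ℝ =>
        (y : ℂ) ^ (-((((Real.log N)⁻¹ : ℝ) : ℂ) + t * Complex.I)) *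
          Complex.Gamma ((((Real.log N)⁻¹ : ℝ) : ℂ) + t * Complex.I)) (Real.log N)
      rw [abs_of_pos hl, Complex.real_smul] at h1
      have h2 : ∀ T : ℝ, (fun t : ℝ => (y : ℂ) ^ (-((((Real.log N)⁻¹ : ℝ) : ℂ) + t * Complex.I)) *
          Complex.Gamma ((((Real.log N)⁻¹ : ℝ) : ℂ) + t * Complex.I)) (T / Real.log N) =
          (y : ℂ) ^ (-(sT N T)) * Complex.Gamma (sT N T) := by
        intro T
        rw [WTF_sT]
      simp_rw [h2] at h1
      rw [h1, ← mul_assoc, inv_mul_cancel₀ hlc, one_mul]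
    rw [e1, ← mul_assoc, ← integral_const_mul]
    congr 1
    ext T
    have e2 : (y : ℂ) ^ (-(sT N T)) = (2 * Real.pi : ℂ) ^ (-(sT N T)) * (n : ℂ) ^ (-(sT N T)) *
        Complex.exp ((v : ℂ) * (1 + (T : ℂ) * Complex.I)) := by
      rw [Complex.cpow_def_of_ne_zero (Complex.ofReal_ne_zero.2 hy0.ne'),
        Complex.cpow_def_of_ne_zero hp0, Complex.cpow_def_of_ne_zero hnc, hpc,
        ← Complex.ofReal_log hy0.le, ← Complex.ofReal_log (by positivity),
        Complex.natCast_log.symm, ← Complex.exp_add, ← Complex.exp_add, hlogy]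
      congr 1
      have e3 : sT N T * (Real.log N : ℂ) = 1 + (T : ℂ) * Complex.I := by
        rw [sT, div_mul_cancel₀ _ hlc]
      rw [← e3]
      push_cast
      ring
    rw [e2, hG]
    field_simp
  -- Fubini
  have hGc : Continuous G := by
    rw [hG]
    exact ((continuous_const.mul ((WTF_gT hN).1.div_const _)).mul (WTF_cpow hp0 N)).mul
      (WTF_cpow hnc N)
  have hGi : Integrable G := by
    have h1 : Integrable (fun T : ℝ => (‖(1 : ℂ) / (2 * Real.pi)‖ * ‖(Real.log N : ℂ)‖⁻¹ *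
        ((2 * Real.pi) ^ (-(Real.log N)⁻¹) * (n : ℝ) ^ (-(Real.log N)⁻¹))) *
          ‖Complex.Gamma (sT N T)‖) := (WTF_gT hN).2.norm.const_mul _
    refine h1.mono' hGc.aestronglyMeasurable (Eventually.of_forall fun T => le_of_eq ?_)
    have hre : (-(sT N T)).re = -(Real.log N)⁻¹ := by
      rw [WTF_sT, Complex.neg_re, Complex.add_re, Complex.ofReal_re, Complex.re_ofReal_mul,
        Complex.I_re, mul_zero, add_zero]
    have n1 : ‖(2 * Real.pi : ℂ) ^ (-(sT N T))‖ = (2 * Real.pi) ^ (-(Real.log N)⁻¹) := by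
      rw [hpc, Complex.norm_cpow_eq_rpow_re_of_pos (by positivity), hre]
    have n2 : ‖(n : ℂ) ^ (-(sT N T))‖ = (n : ℝ) ^ (-(Real.log N)⁻¹) := by
      rw [← Complex.ofReal_natCast, Complex.norm_cpow_eq_rpow_re_of_pos hnR, hre]
    simp only [hG]
    rw [norm_mul, norm_mul, norm_mul, norm_div (Complex.Gamma _) _, n1, n2]
    ring
  have hfub : Integrable (Function.uncurry fun (v T : ℝ) =>
      (mv v : ℂ) * (G T * Complex.exp ((v : ℂ) * (1 + (T : ℂ) * Complex.I)))) (volume.prod volume) := by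
    have h1 := WTF_mvi.mul_prod hGi
    have h2 : (Function.uncurry fun (v T : ℝ) =>
        (mv v : ℂ) * (G T * Complex.exp ((v : ℂ) * (1 + (T : ℂ) * Complex.I)))) =
        fun p : ℝ × ℝ => ((mv p.1 : ℂ) * ((Real.exp p.1 : ℝ) : ℂ) * G p.2) *
          Complex.exp (((p.1 * p.2 : ℝ) : ℂ) * Complex.I) := by
      ext p
      simp only [Function.uncurry]
      rw [WTF_e]
      ring
    rw [h2]
    refine h1.mul_bdd (c := 1) ?_ (Eventually.of_forall fun p => ?_)
    · exact (by fun_prop : Continuous fun p : ℝ × ℝ =>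
        Complex.exp (((p.1 * p.2 : ℝ) : ℂ) * Complex.I)).aestronglyMeasurable
    · rw [Complex.norm_exp_ofReal_mul_I]
  have e5 : (wt N n : ℂ) = ∫ v : ℝ, ∫ T : ℝ,
      (mv v : ℂ) * (G T * Complex.exp ((v : ℂ) * (1 + (T : ℂ) * Complex.I))) := by
    rw [wt, ← integral_complex_ofReal]
    congr 1
    ext v
    rw [integral_const_mul, ← hexp v]
    push_cast
    rfl
  rw [e5, integral_integral_swap hfub]
  congr 1
  ext T
  have e6 : (fun v : ℝ => (mv v : ℂ) * (G T * Complex.exp ((v : ℂ) * (1 + (T : ℂ) * Complex.I)))) =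
      fun v : ℝ => G T * ((mv v : ℂ) * Complex.exp ((v : ℂ) * (1 + (T : ℂ) * Complex.I))) := by
    ext v
    ring
  rw [e6, integral_const_mul, AT, hG]
  ring

theorem at_int : type_of% @at_int_pr := @at_int_pr

theorem wt_fourier : type_of% @wt_fourier_pr := @wt_fourier_pr

end Pool.Agent.LVB
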