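import Pool.Agent.Lib_helper41.LVB.Defs
import Pool.Agent.Lib_helper68.LEV.HPO
import Pool.Agent.Lib_helper41.LVBF.ELF
import Pool.Agent.Lib_helper41.LVBF.LPB
import Pool.Agent.Lib_helper41.LVBF.WTF

/-! LVB, block FOU (helper29). Cites el_sum, uu_le (ELF), at_int, wt_fourier (WTF), lp_meas,
lp_bound (LPB). -/

namespace Pool.Agent.LVB

open Pool.Agent.LEV Complex MeasureTheory Filter Topology UpperHalfPlane ModularGroup ProbabilityTheory
open scoped MatrixGroups Modular ENNReal ModularForm ComplexConjugate ContDiff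

/-- the value `0` outside of the primes below `N` -/
noncomputable def FOU_x (N : ℕ) (x : ℕ → ℝ) : ℕ → ℝ := fun p => if p ∈ Pr N then x p else 0

theorem FOU_x_le {N : ℕ} {x : ℕ → ℝ} (hx : ∀ p ∈ Pr N, |x p| ≤ 2) (p : ℕ) :
    |FOU_x N x p| ≤ 2 := by
  unfold FOU_x
  split_ifs with h
  · exact hx p h
  · simp

theorem FOU_um {N : ℕ} (x : ℕ → ℝ) {m : ℕ} (hm : m.primeFactors ⊆ Pr N) :
    Um m (FOU_x N x) = Um m x := by
  unfold Um
  refine Finset.prod_congr rfl fun p hp => ?_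
  unfold FOU_x
  rw [if_pos (hm hp)]

/-- the absolute values -/
noncomputable def FOU_g (x : ℕ → ℝ) (m : ℕ) : ℝ := |Um m x| / Real.sqrt m

/-- the terms -/
noncomputable def FOU_f (N : ℕ) (x : ℕ → ℝ) (T : ℝ) (m : ℕ) : ℂ :=
  (Um m x : ℂ) * ((m : ℂ) ^ (-(sT N T)) / (Real.sqrt m : ℂ))

theorem FOU_g_one (x : ℕ → ℝ) : FOU_g x 1 = 1 := by
  simp [FOU_g, HPO_um_one]

theorem FOU_g_mul (x : ℕ → ℝ) {m n : ℕ} (h : m.Coprime n) :
    FOU_g x (m * n) = FOU_g x m * FOU_g x n := by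
  unfold FOU_g
  rw [HPO_um_mul h, abs_mul, Nat.cast_mul, Real.sqrt_mul (Nat.cast_nonneg m)]
  ring

theorem FOU_f_one (N : ℕ) (x : ℕ → ℝ) (T : ℝ) : FOU_f N x T 1 = 1 := by
  simp [FOU_f, HPO_um_one]

theorem FOU_f_mul (N : ℕ) (x : ℕ → ℝ) (T : ℝ) {m n : ℕ} (h : m.Coprime n) :
    FOU_f N x T (m * n) = FOU_f N x T m * FOU_f N x T n := by
  unfold FOU_f
  rw [HPO_um_mul h, Nat.cast_mul, Nat.cast_mul, Complex.natCast_mul_natCast_cpow,
    Real.sqrt_mul (Nat.cast_nonneg m)]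
  push_cast
  ring

theorem FOU_cpow_pow (p : ℕ) (s : ℂ) (n : ℕ) : ((p ^ n : ℕ) : ℂ) ^ s = ((p : ℂ) ^ s) ^ n := by
  induction n with
  | zero => simp
  | succ n ih =>
    rw [pow_succ p n, Nat.cast_mul, Complex.natCast_mul_natCast_cpow, ih, pow_succ]

theorem FOU_sqrt_pow (p n : ℕ) : Real.sqrt ((p ^ n : ℕ) : ℝ) = Real.sqrt p ^ n := by
  induction n with
  | zero => simp
  | succ n ih =>
    rw [pow_succ p n, Nat.cast_mul, Real.sqrt_mul (Nat.cast_nonneg _), ih, pow_succ]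

theorem FOU_g_pow (x : ℕ → ℝ) {p : ℕ} (hp : p.Prime) (n : ℕ) :
    FOU_g x (p ^ n) = |Uu (x p) n| * (1 / Real.sqrt p) ^ n := by
  unfold FOU_g
  rw [HPO_um_pow hp, FOU_sqrt_pow, one_div, inv_pow, div_eq_mul_inv]

theorem FOU_f_pow (N : ℕ) (x : ℕ → ℝ) (T : ℝ) {p : ℕ} (hp : p.Prime) (n : ℕ) :
    FOU_f N x T (p ^ n) =
      (Uu (x p) n : ℂ) * ((p : ℂ) ^ (-(sT N T)) / (Real.sqrt p : ℂ)) ^ n := by
  unfold FOU_f
  rw [HPO_um_pow hp, FOU_sqrt_pow, FOU_cpow_pow]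
  push_cast
  rw [div_pow]

theorem FOU_ps {N : ℕ} (hN : 3 ≤ N) (T : ℝ) {m : ℕ} (hm : 0 < m) :
    ‖(m : ℂ) ^ (-(sT N T))‖ ≤ 1 := by
  rw [Complex.norm_natCast_cpow_of_pos hm]
  have hlog : 0 < Real.log N := Real.log_pos (by exact_mod_cast (by omega : 1 < N))
  have h1 : (-(sT N T)).re = -(1 / Real.log N) := by
    rw [Complex.neg_re, sT, Complex.div_ofReal_re]
    simp
  rw [h1]
  refine Real.rpow_le_one_of_one_le_of_nonpos (by exact_mod_cast hm) ?_
  have : 0 < 1 / Real.log N := by positivity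
  linarith

theorem FOU_f_le {N : ℕ} (hN : 3 ≤ N) (x : ℕ → ℝ) (T : ℝ) {m : ℕ} (hm : 0 < m) :
    ‖FOU_f N x T m‖ ≤ FOU_g x m := by
  unfold FOU_f FOU_g
  rw [norm_mul, norm_div, Complex.norm_real, Complex.norm_real, Real.norm_eq_abs,
    Real.norm_eq_abs, abs_of_nonneg (Real.sqrt_nonneg _), div_eq_mul_inv, div_eq_mul_inv]
  refine mul_le_mul_of_nonneg_left ?_ (abs_nonneg _)
  exact mul_le_of_le_one_left (by positivity) (FOU_ps hN T hm)

theorem FOU_g_nonneg (x : ℕ → ℝ) (m : ℕ) : 0 ≤ FOU_g x m :=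
  div_nonneg (abs_nonneg _) (Real.sqrt_nonneg _)

theorem FOU_g_sum {x : ℕ → ℝ} (hx : ∀ p, |x p| ≤ 2) {p : ℕ} (hp : p.Prime) :
    Summable fun n : ℕ => ‖FOU_g x (p ^ n)‖ := by
  have hp2 : (2 : ℝ) ≤ p := by exact_mod_cast hp.two_le
  have hsp : 1 < Real.sqrt p := by
    rw [Real.lt_sqrt (by norm_num)]
    linarith
  have hr0 : 0 ≤ 1 / Real.sqrt p := by positivity
  have hr1 : 1 / Real.sqrt p < 1 := by
    rw [div_lt_one (by linarith)]
    exact hsp
  have h1 : Summable fun n : ℕ => ((n : ℝ) + 1) * (1 / Real.sqrt p) ^ n := by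
    have h2 : Summable fun n : ℕ => (n : ℝ) ^ 1 * (1 / Real.sqrt p) ^ n :=
      summable_pow_mul_geometric_of_norm_lt_one 1 (by
        rw [Real.norm_eq_abs, abs_of_nonneg hr0]
        exact hr1)
    have h3 : Summable fun n : ℕ => (1 / Real.sqrt p) ^ n := summable_geometric_of_lt_one hr0 hr1
    refine (h2.add h3).congr fun n => ?_
    rw [pow_one]
    ring
  refine Summable.of_nonneg_of_le (fun n => norm_nonneg _) (fun n => ?_) h1
  rw [Real.norm_eq_abs, abs_of_nonneg (FOU_g_nonneg x _), FOU_g_pow x hp]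
  exact mul_le_mul_of_nonneg_right (uu_le (hx p) n) (pow_nonneg hr0 n)

theorem FOU_summable {x : ℕ → ℝ} (hx : ∀ p, |x p| ≤ 2) (s : Finset ℕ) :
    Summable fun m : Nat.factoredNumbers s => FOU_g x m := by
  have h := (EulerProduct.summable_and_hasSum_factoredNumbers_prod_filter_prime_tsum
    (FOU_g_one x) (fun {m n} h => FOU_g_mul x h) (fun {p} hp => FOU_g_sum hx hp) s).1
  refine h.congr fun m => ?_
  rw [Real.norm_eq_abs, abs_of_nonneg (FOU_g_nonneg x _)]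

theorem FOU_hasSum {N : ℕ} (hN : 3 ≤ N) {x : ℕ → ℝ} (hx : ∀ p, |x p| ≤ 2) (T : ℝ) :
    HasSum (fun m : Nat.factoredNumbers (Pr N) => FOU_f N x T m) (Lp N T x) := by
  have h := (EulerProduct.summable_and_hasSum_factoredNumbers_prod_filter_prime_tsum
    (FOU_f_one N x T) (fun {m n} h => FOU_f_mul N x T h) (fun {p} hp => by
      refine Summable.of_nonneg_of_le (fun n => norm_nonneg _) (fun n => ?_) (FOU_g_sum hx hp)
      rw [Real.norm_eq_abs, abs_of_nonneg (FOU_g_nonneg x _)]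
      exact FOU_f_le hN x T (pow_pos hp.pos n)) (Pr N)).2
  have h1 : ∏ p ∈ Pr N with p.Prime, ∑' n : ℕ, FOU_f N x T (p ^ n) = Lp N T x := by
    have h2 : (Pr N).filter (fun p => p.Prime) = Pr N := by
      refine Finset.filter_true_of_mem fun p hp => ?_
      exact (Finset.mem_filter.1 hp).2
    rw [h2, Lp]
    refine Finset.prod_congr rfl fun p hp => ?_
    have hpp : p.Prime := (Finset.mem_filter.1 hp).2
    have h3 := el_sum hpp (FOU_ps hN T hpp.pos) (hx p)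
    rw [← h3.tsum_eq]
    refine tsum_congr fun n => ?_
    exact FOU_f_pow N x T hpp n
  rw [h1] at h
  exact h

theorem FOU_lp {N : ℕ} (T : ℝ) (x : ℕ → ℝ) : Lp N T (FOU_x N x) = Lp N T x := by
  unfold Lp
  refine Finset.prod_congr rfl fun p hp => ?_
  unfold FOU_x
  rw [if_pos hp]

theorem FOU_sT_cont (N : ℕ) : Continuous fun T : ℝ => sT N T := by
  unfold sT
  fun_prop

theorem FOU_SP (N : ℕ) (x : ℕ → ℝ) :
    SP N x = ∑' m : Nat.factoredNumbers (Pr N), wt N m / Real.sqrt m * Um m x := by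
  have h0 : ∑' m : Nat.factoredNumbers (Pr N), wt N m / Real.sqrt m * Um m x =
      ∑' n : ℕ, (Nat.factoredNumbers (Pr N)).indicator
        (fun n : ℕ => wt N n / Real.sqrt n * Um n x) n :=
    tsum_subtype (Nat.factoredNumbers (Pr N)) (fun n : ℕ => wt N n / Real.sqrt n * Um n x)
  rw [h0, SP]
  refine tsum_congr fun n => ?_
  by_cases hn : n ∈ Nat.factoredNumbers (Pr N)
  · rw [Set.indicator_of_mem hn, if_pos (Nat.mem_factoredNumbers_iff_primeFactors_subset.1 hn)]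
  · rw [Set.indicator_of_notMem hn,
      if_neg fun h => hn (Nat.mem_factoredNumbers_iff_primeFactors_subset.2 h)]

theorem FOU_pos {N : ℕ} (m : Nat.factoredNumbers (Pr N)) : 0 < (m : ℕ) :=
  Nat.pos_of_ne_zero (Nat.ne_zero_of_mem_factoredNumbers m.2)

theorem FOU_meas (N : ℕ) (x : ℕ → ℝ) {m : ℕ} (hm : 0 < m) :
    Measurable fun T : ℝ => FOU_f N x T m := by
  have h1 : Continuous fun T : ℝ => (m : ℂ) ^ (-(sT N T)) := by
    refine Continuous.const_cpow (FOU_sT_cont N).neg (Or.inl ?_)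
    exact_mod_cast hm.ne'
  exact (continuous_const.mul (h1.div_const _)).measurable

theorem FOU_AT {N : ℕ} (hN : 3 ≤ N) : Integrable (fun T : ℝ => AT N T) := by
  refine (at_int N hN 0).congr (Eventually.of_forall fun T => ?_)
  simp

theorem FOU_int {N : ℕ} (hN : 3 ≤ N) (x : ℕ → ℝ) {m : ℕ} (hm : 0 < m) :
    Integrable (fun T : ℝ => AT N T * FOU_f N x T m) :=
  (FOU_AT hN).mul_bdd (c := FOU_g x m) (FOU_meas N x hm).aestronglyMeasurable
    (Eventually.of_forall fun T => FOU_f_le hN x T hm)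

theorem FOU_int_norm {N : ℕ} (hN : 3 ≤ N) (x : ℕ → ℝ) {m : ℕ} (hm : 0 < m) :
    ∫ T : ℝ, ‖AT N T * FOU_f N x T m‖ ≤ (∫ T : ℝ, ‖AT N T‖) * FOU_g x m := by
  rw [← integral_mul_const]
  refine integral_mono (FOU_int hN x hm).norm ((FOU_AT hN).norm.mul_const _) fun T => ?_
  simp only [norm_mul]
  exact mul_le_mul_of_nonneg_left (FOU_f_le hN x T hm) (norm_nonneg _)

theorem FOU_term {N : ℕ} (hN : 3 ≤ N) (x : ℕ → ℝ) {m : ℕ} (hm : 1 ≤ m) :
    ∫ T : ℝ, AT N T * FOU_f N x T m = ((wt N m / Real.sqrt m * Um m x : ℝ) : ℂ) := by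
  have h7 := wt_fourier hN hm
  have h8 : (fun T : ℝ => AT N T * FOU_f N x T m) =
      fun T : ℝ => ((Um m x : ℂ) / (Real.sqrt m : ℂ)) * (AT N T * (m : ℂ) ^ (-(sT N T))) := by
    funext T
    rw [FOU_f]
    ring
  rw [h8, integral_const_mul, ← h7]
  push_cast
  ring

theorem FOU_main {N : ℕ} (hN : 3 ≤ N) {x : ℕ → ℝ} (hx : ∀ p, |x p| ≤ 2) :
    HasSum (fun m : Nat.factoredNumbers (Pr N) => ∫ T : ℝ, AT N T * FOU_f N x T m)
      (∫ T : ℝ, AT N T * Lp N T x) := by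
  have hsum : Summable fun m : Nat.factoredNumbers (Pr N) =>
      ∫ T : ℝ, ‖AT N T * FOU_f N x T m‖ := by
    have h1 : Summable fun m : Nat.factoredNumbers (Pr N) =>
        (∫ T : ℝ, ‖AT N T‖) * FOU_g x m := (FOU_summable hx (Pr N)).mul_left _
    exact Summable.of_nonneg_of_le (fun m => integral_nonneg fun T => norm_nonneg _)
      (fun m => FOU_int_norm hN x (FOU_pos m)) h1
  have h3 := hasSum_integral_of_summable_integral_norm
    (F := fun (m : Nat.factoredNumbers (Pr N)) (T : ℝ) => AT N T * FOU_f N x T m)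
    (fun m => FOU_int hN x (FOU_pos m)) hsum
  have h4 : (∫ T : ℝ, ∑' m : Nat.factoredNumbers (Pr N), AT N T * FOU_f N x T m) =
      ∫ T : ℝ, AT N T * Lp N T x := by
    refine integral_congr_ae (Eventually.of_forall fun T => ?_)
    exact ((FOU_hasSum hN hx T).mul_left (AT N T)).tsum_eq
  rw [h4] at h3
  exact h3

theorem FOU_pair (x : ℕ → ℝ) : Measurable fun T : ℝ => (T, x) :=
  measurable_id.prodMk measurable_const

theorem FOU_Lm (N : ℕ) (x : ℕ → ℝ) : Measurable (fun T : ℝ => Lp N T x) :=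
  Measurable.comp (g := fun z : ℝ × (ℕ → ℝ) => Lp N z.1 z.2) (f := fun T : ℝ => (T, x))
    (lp_meas N) (FOU_pair x)

theorem FOU_gen {A L : ℝ → ℂ} (hA : Integrable A) (hL : Measurable L) {C : ℝ}
    (hC : ∀ T, ‖L T‖ ≤ C) : Integrable (fun T => A T * L T) :=
  hA.mul_bdd (c := C) hL.aestronglyMeasurable (Eventually.of_forall hC)

theorem FOU_Lint {N : ℕ} (hN : 3 ≤ N) {x : ℕ → ℝ} (hx : ∀ p ∈ Pr N, |x p| ≤ 2) :
    Integrable (fun T : ℝ => AT N T * Lp N T x) := by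
  obtain ⟨C, hC⟩ := lp_bound hN
  exact FOU_gen (FOU_AT hN) (FOU_Lm N x) (fun T => hC T x hx)

theorem FOU_SPc {N : ℕ} (hN : 3 ≤ N) {x : ℕ → ℝ} (hx : ∀ p ∈ Pr N, |x p| ≤ 2) :
    (SP N x : ℂ) = ∫ T : ℝ, AT N T * Lp N T x := by
  have h3 := FOU_main hN (FOU_x_le hx)
  have h4 : (fun T : ℝ => AT N T * Lp N T (FOU_x N x)) = fun T : ℝ => AT N T * Lp N T x := by
    funext T
    rw [FOU_lp]
  rw [h4] at h3
  rw [← h3.tsum_eq, FOU_SP, Complex.ofReal_tsum]
  refine tsum_congr fun m => ?_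
  rw [FOU_term hN _ (FOU_pos m),
    FOU_um x (Nat.mem_factoredNumbers_iff_primeFactors_subset.1 m.2).2]

theorem sp_fourier_pr {N : ℕ} (hN : 3 ≤ N) {x : ℕ → ℝ} (hx : ∀ p ∈ Pr N, |x p| ≤ 2) :
    Integrable (fun T : ℝ => AT N T * Lp N T x) ∧
    (SP N x : ℂ) = ∫ T : ℝ, AT N T * Lp N T x := ⟨FOU_Lint hN hx, FOU_SPc hN hx⟩

theorem sp_fourier : type_of% @sp_fourier_pr := @sp_fourier_pr

end Pool.Agent.LVB
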