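import Pool.Agent.Lib_helper41.LVB.Defs
import Pool.Agent.Lib_helper41.LVBF.ATD
import Pool.Agent.Lib_helper41.LVBF.EUB
import Pool.Agent.Lib_helper41.LVBF.FOU
import Pool.Agent.Lib_helper41.LVBF.LPB
import Pool.Agent.Lib_helper41.LVBF.PSA
import Pool.Agent.Lib_helper41.LVBF.WTF
import Pool.Agent.Lib_helper41.LVBF.WTT

/-! LVB, block MMN (helper29). Cites ps_large, ps_small (PSA), eu_both (EUB), at_decay
(ATD), at_int, wt_fourier (WTF), wt_one (WTT), sp_fourier (FOU), lp_meas, lp_bound, sp_meas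
(LPB). -/

namespace Pool.Agent.LVB

open Pool.Agent.LEV Complex MeasureTheory Filter Topology UpperHalfPlane ModularGroup ProbabilityTheory
open scoped MatrixGroups Modular ENNReal ModularForm ComplexConjugate ContDiff

theorem MMN_cs {A L : ℝ → ℂ} (hA : Integrable A) (hL : Measurable L) {C : ℝ}
    (hC : ∀ T, ‖L T‖ ≤ C) :
    ‖∫ T, A T * L T‖ ^ 2 ≤ (∫ T, ‖A T‖) * ∫ T, ‖A T‖ * ‖L T‖ ^ 2 := by
  have hLn : Measurable fun T => ‖L T‖ := hL.norm
  have h1 : Integrable (fun T => ‖A T‖ * ‖L T‖) :=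
    hA.norm.mul_bdd (c := C) hLn.aestronglyMeasurable
      (Eventually.of_forall fun T => by rw [norm_norm]; exact hC T)
  have h2 : Integrable (fun T => ‖A T‖ * ‖L T‖ ^ 2) :=
    hA.norm.mul_bdd (c := C ^ 2) (hLn.pow_const 2).aestronglyMeasurable
      (Eventually.of_forall fun T => by
        rw [norm_pow, norm_norm]
        exact pow_le_pow_left₀ (norm_nonneg _) (hC T) 2)
  have h3 : ‖∫ T, A T * L T‖ ≤ ∫ T, ‖A T‖ * ‖L T‖ := by
    refine (norm_integral_le_integral_norm _).trans (le_of_eq ?_)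
    simp only [norm_mul]
  have h4 : ∀ r : ℝ, 0 ≤ (∫ T, ‖A T‖) * (r * r) + (-2 * ∫ T, ‖A T‖ * ‖L T‖) * r +
      ∫ T, ‖A T‖ * ‖L T‖ ^ 2 := by
    intro r
    have h5 : 0 ≤ ∫ T, ‖A T‖ * (‖L T‖ - r) ^ 2 :=
      integral_nonneg fun T => mul_nonneg (norm_nonneg _) (sq_nonneg _)
    have h6 : ∫ T, ‖A T‖ * (‖L T‖ - r) ^ 2 =
        ∫ T, (‖A T‖ * ‖L T‖ ^ 2 - (2 * r) * (‖A T‖ * ‖L T‖) + (r * r) * ‖A T‖) := by
      congr 1
      funext T
      ring
    have h7 : Integrable (fun T => ‖A T‖ * ‖L T‖ ^ 2 - (2 * r) * (‖A T‖ * ‖L T‖)) :=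
      h2.sub (h1.const_mul _)
    rw [h6, integral_add h7 (hA.norm.const_mul _), integral_sub h2 (h1.const_mul _),
      integral_const_mul, integral_const_mul] at h5
    linarith
  have h8 := discrim_le_zero h4
  unfold discrim at h8
  have h9 : (∫ T, ‖A T‖ * ‖L T‖) ^ 2 ≤ (∫ T, ‖A T‖) * ∫ T, ‖A T‖ * ‖L T‖ ^ 2 := by nlinarith
  exact (pow_le_pow_left₀ (norm_nonneg _) h3 2).trans h9

theorem MMN_abs {P : Measure (ℕ → ℝ)} [IsProbabilityMeasure P] (A : ℝ → ℂ)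
    (L : ℝ → (ℕ → ℝ) → ℂ) (M : (ℕ → ℝ) → ℝ) (S : (ℕ → ℝ) → ℝ)
    (hA : Integrable A) (hLm : Measurable (fun z : ℝ × (ℕ → ℝ) => L z.1 z.2)) (CL : ℝ)
    (hLb : ∀ᵐ x ∂P, ∀ T, ‖L T x‖ ≤ CL) (hM : Measurable M)
    (hM2 : Integrable (fun x => M x ^ 2) P)
    (hS : ∀ᵐ x ∂P, (S x : ℂ) = ∫ T, A T * L T x) (hSm : Measurable S)
    (w : ℝ → ℝ) (hw : Integrable w) (B1 B2 B3 : ℝ)
    (h1 : ∀ T, ‖A T‖ * ‖∫ x, (M x : ℂ) * L T x ∂P - 1‖ ≤ B1 * w T)
    (h2 : ∀ T, ‖A T‖ ≤ B2 * w T)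
    (h3 : ∀ T, ‖A T‖ * ∫ x, M x ^ 2 * ‖L T x‖ ^ 2 ∂P ≤ B3 * w T) :
    (∫ T, A T).re - B1 * ∫ T, w T ≤ ∫ x, S x * M x ∂P ∧
      Integrable (fun x => (S x * M x) ^ 2) P ∧
      ∫ x, (S x * M x) ^ 2 ∂P ≤ (B2 * ∫ T, w T) * (B3 * ∫ T, w T) := by
  have hM1 : Integrable M P := by
    refine Integrable.mono' ((integrable_const (1 : ℝ)).add hM2) hM.aestronglyMeasurable
      (Eventually.of_forall fun x => ?_)
    rw [Real.norm_eq_abs, Pi.add_apply]
    have h4 : |M x| ^ 2 = M x ^ 2 := sq_abs _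
    nlinarith [abs_nonneg (M x), sq_nonneg (|M x| - 1)]
  have hMc : Integrable (fun x => (M x : ℂ)) P := hM1.ofReal
  have hAM : Integrable (fun z : ℝ × (ℕ → ℝ) => A z.1 * (M z.2 : ℂ)) (volume.prod P) :=
    hA.mul_prod hMc
  have hLae : ∀ᵐ z ∂((volume : Measure ℝ).prod P), ∀ T, ‖L T z.2‖ ≤ CL :=
    Measure.quasiMeasurePreserving_snd.ae hLb
  have hG : Integrable (fun z : ℝ × (ℕ → ℝ) => A z.1 * (M z.2 : ℂ) * L z.1 z.2)
      (volume.prod P) :=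
    hAM.mul_bdd (c := CL) hLm.aestronglyMeasurable (hLae.mono fun z hz => hz z.1)
  have hLx : ∀ x, Measurable fun T => L T x := fun x =>
    Measurable.comp (g := fun z : ℝ × (ℕ → ℝ) => L z.1 z.2) (f := fun T : ℝ => (T, x)) hLm
      (measurable_id.prodMk measurable_const)
  -- the mean
  have hswap : ∫ x, ∫ T, A T * (M x : ℂ) * L T x ∂volume ∂P =
      ∫ T, ∫ x, A T * (M x : ℂ) * L T x ∂P := by
    have h4 := integral_integral_swap (μ := (volume : Measure ℝ)) (ν := P)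
      (f := fun (T : ℝ) (x : ℕ → ℝ) => A T * (M x : ℂ) * L T x) hG
    exact h4.symm
  have hmean : ((∫ x, S x * M x ∂P : ℝ) : ℂ) = ∫ T, A T * ∫ x, (M x : ℂ) * L T x ∂P := by
    rw [← integral_complex_ofReal]
    have h4 : ∫ x, ((S x * M x : ℝ) : ℂ) ∂P = ∫ x, ∫ T, A T * (M x : ℂ) * L T x ∂volume ∂P := by
      refine integral_congr_ae ?_
      filter_upwards [hS] with x hx
      rw [Complex.ofReal_mul, hx, ← integral_mul_const]
      congr 1
      funext T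
      ring
    rw [h4, hswap]
    congr 1
    funext T
    rw [← integral_const_mul]
    congr 1
    funext x
    ring
  have hAmi : Integrable (fun T => A T * ∫ x, (M x : ℂ) * L T x ∂P) := by
    have h4 := hG.integral_prod_left
    refine h4.congr (Eventually.of_forall fun T => ?_)
    simp only
    rw [← integral_const_mul]
    congr 1
    funext x
    ring
  have herr : ‖(∫ T, A T * ∫ x, (M x : ℂ) * L T x ∂P) - ∫ T, A T‖ ≤ B1 * ∫ T, w T := by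
    rw [← integral_sub hAmi hA, ← integral_const_mul]
    refine norm_integral_le_of_norm_le (hw.const_mul B1) (Eventually.of_forall fun T => ?_)
    have h4 : A T * (∫ x, (M x : ℂ) * L T x ∂P) - A T =
        A T * (∫ x, (M x : ℂ) * L T x ∂P - 1) := by ring
    rw [h4, norm_mul]
    exact h1 T
  refine ⟨?_, ?_⟩
  · rw [← hmean] at herr
    have h4 := (Complex.abs_re_le_norm _).trans herr
    rw [Complex.sub_re, Complex.ofReal_re] at h4
    have := (abs_le.1 h4).1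
    linarith
  -- the second moment
  set a0 : ℝ := ∫ T, ‖A T‖ with ha0
  have ha0n : 0 ≤ a0 := integral_nonneg fun T => norm_nonneg _
  have ha0le : a0 ≤ B2 * ∫ T, w T := by
    rw [ha0, ← integral_const_mul]
    exact integral_mono hA.norm (hw.const_mul B2) h2
  have hAM2 : Integrable (fun z : ℝ × (ℕ → ℝ) => ‖A z.1‖ * M z.2 ^ 2) (volume.prod P) :=
    hA.norm.mul_prod hM2
  have hH : Integrable (fun z : ℝ × (ℕ → ℝ) => ‖A z.1‖ * M z.2 ^ 2 * ‖L z.1 z.2‖ ^ 2)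
      (volume.prod P) :=
    hAM2.mul_bdd (c := CL ^ 2) (hLm.norm.pow_const 2).aestronglyMeasurable
      (hLae.mono fun z hz => by
        rw [norm_pow, norm_norm]
        exact pow_le_pow_left₀ (norm_nonneg _) (hz z.1) 2)
  have hswap2 : ∫ x, ∫ T, ‖A T‖ * M x ^ 2 * ‖L T x‖ ^ 2 ∂volume ∂P =
      ∫ T, ∫ x, ‖A T‖ * M x ^ 2 * ‖L T x‖ ^ 2 ∂P := by
    have h4 := integral_integral_swap (μ := (volume : Measure ℝ)) (ν := P)
      (f := fun (T : ℝ) (x : ℕ → ℝ) => ‖A T‖ * M x ^ 2 * ‖L T x‖ ^ 2) hH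
    exact h4.symm
  have hpt : ∀ᵐ x ∂P, (S x * M x) ^ 2 ≤ a0 * ∫ T, ‖A T‖ * M x ^ 2 * ‖L T x‖ ^ 2 := by
    filter_upwards [hS, hLb] with x hx hxb
    have h4 := MMN_cs hA (hLx x) hxb
    rw [← hx, Complex.norm_real, Real.norm_eq_abs, sq_abs] at h4
    have h5 : ∫ T, ‖A T‖ * M x ^ 2 * ‖L T x‖ ^ 2 = M x ^ 2 * ∫ T, ‖A T‖ * ‖L T x‖ ^ 2 := by
      rw [← integral_const_mul]
      congr 1
      funext T
      ring
    rw [h5, mul_pow]
    calc S x ^ 2 * M x ^ 2 ≤ (a0 * ∫ T, ‖A T‖ * ‖L T x‖ ^ 2) * M x ^ 2 :=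
          mul_le_mul_of_nonneg_right h4 (sq_nonneg _)
      _ = _ := by ring
  have hptb : ∀ᵐ x ∂P, ‖(S x * M x) ^ 2‖ ≤ (a0 * CL) ^ 2 * M x ^ 2 := by
    filter_upwards [hS, hLb] with x hx hxb
    have h4 : ‖∫ T, A T * L T x‖ ≤ a0 * CL := by
      rw [ha0, ← integral_mul_const]
      refine norm_integral_le_of_norm_le (hA.norm.mul_const CL) (Eventually.of_forall fun T => ?_)
      rw [norm_mul]
      exact mul_le_mul_of_nonneg_left (hxb T) (norm_nonneg _)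
    rw [← hx, Complex.norm_real, Real.norm_eq_abs] at h4
    rw [Real.norm_eq_abs, abs_of_nonneg (sq_nonneg _), mul_pow, ← sq_abs (S x)]
    exact mul_le_mul_of_nonneg_right (pow_le_pow_left₀ (abs_nonneg _) h4 2) (sq_nonneg _)
  have hint : Integrable (fun x => (S x * M x) ^ 2) P :=
    Integrable.mono' (hM2.const_mul _) ((hSm.mul hM).pow_const 2).aestronglyMeasurable hptb
  refine ⟨hint, ?_⟩
  have hHr : Integrable (fun x => ∫ T, ‖A T‖ * M x ^ 2 * ‖L T x‖ ^ 2) P := hH.integral_prod_right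
  have h4 : ∫ x, (S x * M x) ^ 2 ∂P ≤ ∫ x, a0 * ∫ T, ‖A T‖ * M x ^ 2 * ‖L T x‖ ^ 2 ∂volume ∂P :=
    integral_mono_ae hint (hHr.const_mul a0) hpt
  rw [integral_const_mul, hswap2] at h4
  have h5 : ∫ T, ∫ x, ‖A T‖ * M x ^ 2 * ‖L T x‖ ^ 2 ∂P ≤ B3 * ∫ T, w T := by
    rw [← integral_const_mul]
    refine integral_mono hH.integral_prod_left (hw.const_mul B3) fun T => ?_
    have h6 : ∫ x, ‖A T‖ * M x ^ 2 * ‖L T x‖ ^ 2 ∂P = ‖A T‖ * ∫ x, M x ^ 2 * ‖L T x‖ ^ 2 ∂P := by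
      rw [← integral_const_mul]
      congr 1
      funext x
      ring
    simp only
    rw [h6]
    exact h3 T
  have h6 : 0 ≤ ∫ T, ∫ x, ‖A T‖ * M x ^ 2 * ‖L T x‖ ^ 2 ∂P :=
    integral_nonneg fun T => integral_nonneg fun x => by positivity
  exact h4.trans (mul_le_mul ha0le h5 h6 (ha0n.trans ha0le))

/-! ### the weight -/

theorem MMN_w : Integrable (fun T : ℝ => ((1 + |T|) ^ 2)⁻¹) := by
  have h := integrable_one_add_norm (E := ℝ) (μ := volume) (r := 2) (by simp)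
  refine h.congr (Eventually.of_forall fun T => ?_)
  simp only [Real.norm_eq_abs]
  have h1 : (0 : ℝ) ≤ 1 + |T| := by positivity
  rw [Real.rpow_neg h1]
  norm_num

theorem MMN_meas (c₀ : ℝ) (A₁ z₀ N : ℕ) : Measurable (Ml c₀ A₁ z₀ N) := by
  unfold Ml mol
  refine Finset.measurable_fun_prod _ fun i _ => ?_
  have hPB : Measurable (PB (Bk c₀ z₀ N i)) := by
    unfold PB
    exact Finset.measurable_fun_sum _ fun p _ => (measurable_pi_apply p).div_const _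
  unfold mb1 ex
  refine measurable_const.mul ?_
  exact Finset.measurable_fun_sum _ fun k _ => (hPB.neg.pow_const k).div_const _

theorem MMN_AT {N : ℕ} (hN : 3 ≤ N) : Integrable (fun T : ℝ => AT N T) := by
  refine (at_int N hN 0).congr (Eventually.of_forall fun T => ?_)
  simp

theorem MMN_wt {N : ℕ} (hN : 3 ≤ N) : (∫ T : ℝ, AT N T).re = wt N 1 := by
  have h := wt_fourier hN (le_refl 1)
  simp only [Nat.cast_one, Complex.one_cpow, mul_one] at h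
  rw [← h, Complex.ofReal_re]

theorem m_main_pr : ∃ (A₁ z₀ : ℕ) (c₁ : ℝ), 0 < c₁ ∧ ∀ c₀ : ℝ, 0 < c₀ → c₀ ≤ c₁ →
    ∃ (C : ℝ) (N₀ : ℕ), ∀ N : ℕ, N₀ ≤ N → ∀ P : Measure (ℕ → ℝ), IsST (Pr N) P →
      3 / 4 ≤ ∫ x, SP N x * Ml c₀ A₁ z₀ N x ∂P ∧
      Integrable (fun x => (SP N x * Ml c₀ A₁ z₀ N x) ^ 2) P ∧
      ∫ x, (SP N x * Ml c₀ A₁ z₀ N x) ^ 2 ∂P ≤ C ∧
      Integrable (fun x => Ml c₀ A₁ z₀ N x ^ 2) P ∧ ∫ x, Ml c₀ A₁ z₀ N x ^ 2 ∂P ≤ Real.log N ^ 5 := by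
  obtain ⟨C5, hC5⟩ := at_decay 5
  obtain ⟨C10, hC10⟩ := at_decay 10
  obtain ⟨Cl, hCl⟩ := ps_large
  obtain ⟨Cs, hCs⟩ := ps_small
  have hdec5 : ∀ N : ℕ, 3 ≤ N → ∀ T : ℝ, ‖AT N T‖ ≤ C5 * ((1 + |T|) ^ 5)⁻¹ := by
    intro N hN T
    have := hC5 N hN T
    rwa [zpow_neg, zpow_natCast] at this
  have hdec10 : ∀ N : ℕ, 3 ≤ N → ∀ T : ℝ, ‖AT N T‖ ≤ C10 * ((1 + |T|) ^ 10)⁻¹ := by
    intro N hN T
    have := hC10 N hN T
    rwa [zpow_neg, zpow_natCast] at this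
  have hC5n : 0 ≤ C5 := by
    have := (norm_nonneg _).trans (hdec5 3 le_rfl 0)
    simpa using this
  have hC10n : 0 ≤ C10 := by
    have := (norm_nonneg _).trans (hdec10 3 le_rfl 0)
    simpa using this
  set K : ℝ := ∫ T : ℝ, ((1 + |T|) ^ 2)⁻¹ with hK
  have hKn : 0 ≤ K := integral_nonneg fun T => by positivity
  set E : ℝ := Real.exp (Cl + 1) with hE
  have hEn : 0 < E := Real.exp_pos _
  set T0 : ℝ := 64 * C5 * E * K with hT0
  have hT0n : 0 ≤ T0 := by positivity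
  set ν : ℝ := 1 / (16 * (C5 * K + 1)) with hν
  have hν0 : 0 < ν := by positivity
  set δ : ℝ := min 1 (Real.log (1 + ν) / 2) with hδ
  have hlogν : 0 < Real.log (1 + ν) := Real.log_pos (by linarith)
  have hδ0 : 0 < δ := lt_min one_pos (by linarith)
  have hδ1 : δ ≤ 1 := min_le_left _ _
  have hδν : Real.exp (2 * δ) - 1 ≤ ν := by
    have h1 : 2 * δ ≤ Real.log (1 + ν) := by
      have := min_le_right (1 : ℝ) (Real.log (1 + ν) / 2)
      linarith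
    have h2 := Real.exp_le_exp.2 h1
    rw [Real.exp_log (by linarith)] at h2
    linarith
  obtain ⟨A₁, z₀, hEU⟩ := eu_both hδ0
  refine ⟨A₁, z₀, min (1 / 2) (δ / (2 * (1 + T0))), lt_min (by norm_num) (by positivity), ?_⟩
  intro c₀ hc0 hc1
  have hc2 : c₀ < 1 := by
    have := hc1.trans (min_le_left _ _)
    linarith
  have hc3 : c₀ ≤ δ / (2 * (1 + T0)) := hc1.trans (min_le_right _ _)
  obtain ⟨C, N0, hN0, hmain⟩ := hEU c₀ hc0 hc2
  obtain ⟨N1, hN1⟩ := wt_one (ε := 1 / 8) (by norm_num)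
  obtain ⟨N2, hN2⟩ : ∃ N2 : ℕ, ∀ N : ℕ, N2 ≤ N → Cs / Real.log N ≤ δ / (2 * (1 + T0)) := by
    obtain ⟨n, hn⟩ := exists_nat_gt (Real.exp (|Cs| * (2 * (1 + T0)) / δ + 1))
    refine ⟨n, fun N hN => ?_⟩
    have hNr : Real.exp (|Cs| * (2 * (1 + T0)) / δ + 1) < N :=
      hn.trans_le (by exact_mod_cast hN)
    have h1 : |Cs| * (2 * (1 + T0)) / δ + 1 < Real.log N := by
      rw [Real.lt_log_iff_exp_lt ((Real.exp_pos _).trans hNr)]
      exact hNr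
    have h2 : 0 ≤ |Cs| * (2 * (1 + T0)) / δ := by positivity
    have hlog : 0 < Real.log N := by linarith
    rw [div_le_div_iff₀ hlog (by positivity)]
    have h3 : |Cs| * (2 * (1 + T0)) / δ ≤ Real.log N := by linarith
    rw [div_le_iff₀ hδ0] at h3
    have h4 : Cs * (2 * (1 + T0)) ≤ |Cs| * (2 * (1 + T0)) :=
      mul_le_mul_of_nonneg_right (le_abs_self _) (by positivity)
    linarith
  refine ⟨(C10 * K) * ((2 ^ 8 * |C| * C10) * K), max N0 (max N1 N2), ?_⟩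
  intro N hN P hP
  have hNN0 : N0 ≤ N := (le_max_left _ _).trans hN
  have hNN1 : N1 ≤ N := (le_max_left _ _).trans ((le_max_right _ _).trans hN)
  have hNN2 : N2 ≤ N := (le_max_right _ _).trans ((le_max_right _ _).trans hN)
  have hN3 : 3 ≤ N := hN0.trans hNN0
  have hprob := hP.prob
  obtain ⟨⟨hMi, hMb⟩, hT⟩ := hmain N hNN0 P hP
  obtain ⟨CL, hCL⟩ := lp_bound hN3
  have hbd : ∀ᵐ x ∂P, ∀ p ∈ Pr N, |x p| ≤ 2 := hP.bdd
  -- bounds for the mean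
  have hm : ∀ T : ℝ, ‖∫ x, (Ml c₀ A₁ z₀ N x : ℂ) * Lp N T x ∂P - 1‖ ≤
      ν + 4 * E / (1 + T0) * (1 + |T|) ^ 3 := by
    intro T
    have h1 := (hT T).2.2.1
    refine h1.trans ?_
    rcases le_total |T| T0 with h2 | h2
    · have h3 := hCs N hN3 c₀ hc0 T
      have h4 : (1 + |T|) * (c₀ + Cs / Real.log N) ≤ δ := by
        have h5 : c₀ + Cs / Real.log N ≤ δ / (1 + T0) := by
          have h6 := hN2 N hNN2
          have h7 : δ / (1 + T0) = δ / (2 * (1 + T0)) + δ / (2 * (1 + T0)) := by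
            field_simp
            norm_num
          linarith
        calc (1 + |T|) * (c₀ + Cs / Real.log N) ≤ (1 + |T|) * (δ / (1 + T0)) :=
              mul_le_mul_of_nonneg_left h5 (by positivity)
          _ ≤ (1 + T0) * (δ / (1 + T0)) := mul_le_mul_of_nonneg_right (by linarith) (by positivity)
          _ = δ := by field_simp
      have h5 : 0 ≤ 4 * E / (1 + T0) * (1 + |T|) ^ 3 := by positivity
      have h6 : Real.exp (∑ p ∈ (Pr N).filter (fun p : ℕ => (p : ℝ) ≤ (N : ℝ) ^ c₀),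
          ‖1 - (p : ℂ) ^ (-(sT N T))‖ / p + δ) ≤ Real.exp (2 * δ) :=
        Real.exp_le_exp.2 (by linarith)
      linarith
    · have h3 := hCl N hN3 T
      have h4 : ∑ p ∈ (Pr N).filter (fun p : ℕ => (p : ℝ) ≤ (N : ℝ) ^ c₀),
          ‖1 - (p : ℂ) ^ (-(sT N T))‖ / p ≤ ∑ p ∈ Pr N, ‖1 - (p : ℂ) ^ (-(sT N T))‖ / p :=
        Finset.sum_le_sum_of_subset_of_nonneg (Finset.filter_subset _ _)
          (fun p _ _ => by positivity)
      have h5 : Real.exp (∑ p ∈ (Pr N).filter (fun p : ℕ => (p : ℝ) ≤ (N : ℝ) ^ c₀),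
          ‖1 - (p : ℂ) ^ (-(sT N T))‖ / p + δ) ≤ E * (2 + |T|) ^ 2 := by
        have h6 : E * (2 + |T|) ^ 2 = Real.exp (2 * Real.log (2 + |T|) + (Cl + 1)) := by
          rw [Real.exp_add, hE, mul_comm (2 : ℝ) (Real.log (2 + |T|)), Real.exp_mul,
            Real.exp_log (by positivity)]
          norm_num
          ring
        rw [h6]
        exact Real.exp_le_exp.2 (by linarith)
      have h6 : (2 + |T|) ^ 2 ≤ 4 * (1 + |T|) ^ 2 := by nlinarith [abs_nonneg T]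
      have h7 : E * (2 + |T|) ^ 2 ≤ 4 * E / (1 + T0) * (1 + |T|) ^ 3 := by
        have h8 : 4 * E / (1 + T0) * (1 + |T|) ^ 3 =
            (4 * E * (1 + |T|) ^ 2) * ((1 + |T|) / (1 + T0)) := by
          field_simp
        rw [h8]
        have h9 : 1 ≤ (1 + |T|) / (1 + T0) := by
          rw [le_div_iff₀ (by linarith)]
          linarith
        calc E * (2 + |T|) ^ 2 ≤ E * (4 * (1 + |T|) ^ 2) :=
              mul_le_mul_of_nonneg_left h6 hEn.le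
          _ = (4 * E * (1 + |T|) ^ 2) * 1 := by ring
          _ ≤ _ := mul_le_mul_of_nonneg_left h9 (by positivity)
      linarith
  have key := MMN_abs (P := P) (AT N) (Lp N) (Ml c₀ A₁ z₀ N) (SP N) (MMN_AT hN3) (lp_meas N) CL
    (hbd.mono fun x hx T => hCL T x hx) (MMN_meas c₀ A₁ z₀ N) hMi
    (hbd.mono fun x hx => (sp_fourier hN3 hx).2) (sp_meas N)
    (fun T : ℝ => ((1 + |T|) ^ 2)⁻¹) MMN_w (C5 * (ν + 4 * E / (1 + T0))) C10
    (2 ^ 8 * |C| * C10) ?_ ?_ ?_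
  · rw [MMN_wt hN3, ← hK] at key
    refine ⟨?_, key.2.1, key.2.2, hMi, hMb⟩
    have h1 := hN1 N hNN1
    have h2 : C5 * (ν + 4 * E / (1 + T0)) * K ≤ 1 / 8 := by
      have h3 : C5 * ν * K ≤ 1 / 16 := by
        have h4 : C5 * ν * K = (C5 * K) / (16 * (C5 * K + 1)) := by rw [hν]; ring
        rw [h4, div_le_div_iff₀ (by positivity) (by norm_num)]
        have : 0 ≤ C5 * K := by positivity
        nlinarith
      have h5 : C5 * (4 * E / (1 + T0)) * K ≤ 1 / 16 := by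
        have h6 : C5 * (4 * E / (1 + T0)) * K = (4 * C5 * E * K) / (1 + T0) := by ring
        rw [h6, div_le_div_iff₀ (by positivity) (by norm_num), hT0]
        nlinarith
      nlinarith
    linarith [key.1]
  · intro T
    have h1 := hdec5 N hN3 T
    have h2 := hm T
    have hy : 1 ≤ 1 + |T| := by linarith [abs_nonneg T]
    have h3 : ((1 + |T|) ^ 5)⁻¹ * (ν + 4 * E / (1 + T0) * (1 + |T|) ^ 3) ≤
        (ν + 4 * E / (1 + T0)) * ((1 + |T|) ^ 2)⁻¹ := by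
      have h4 : ((1 + |T|) ^ 5)⁻¹ * (1 + |T|) ^ 3 = ((1 + |T|) ^ 2)⁻¹ := by
        field_simp
      have h5 : ((1 + |T|) ^ 5)⁻¹ ≤ ((1 + |T|) ^ 2)⁻¹ :=
        inv_anti₀ (by positivity) (pow_le_pow_right₀ hy (by norm_num))
      calc ((1 + |T|) ^ 5)⁻¹ * (ν + 4 * E / (1 + T0) * (1 + |T|) ^ 3)
          = ν * ((1 + |T|) ^ 5)⁻¹ + 4 * E / (1 + T0) * (((1 + |T|) ^ 5)⁻¹ * (1 + |T|) ^ 3) := by
            ring
        _ ≤ ν * ((1 + |T|) ^ 2)⁻¹ + 4 * E / (1 + T0) * ((1 + |T|) ^ 2)⁻¹ := by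
            rw [h4]
            have := mul_le_mul_of_nonneg_left h5 hν0.le
            linarith
        _ = _ := by ring
    calc ‖AT N T‖ * ‖∫ x, (Ml c₀ A₁ z₀ N x : ℂ) * Lp N T x ∂P - 1‖
        ≤ (C5 * ((1 + |T|) ^ 5)⁻¹) * (ν + 4 * E / (1 + T0) * (1 + |T|) ^ 3) :=
          mul_le_mul h1 h2 (norm_nonneg _) (by positivity)
      _ = C5 * (((1 + |T|) ^ 5)⁻¹ * (ν + 4 * E / (1 + T0) * (1 + |T|) ^ 3)) := by ring
      _ ≤ C5 * ((ν + 4 * E / (1 + T0)) * ((1 + |T|) ^ 2)⁻¹) :=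
          mul_le_mul_of_nonneg_left h3 hC5n
      _ = _ := by ring
  · intro T
    have hy : 1 ≤ 1 + |T| := by linarith [abs_nonneg T]
    refine (hdec10 N hN3 T).trans (mul_le_mul_of_nonneg_left ?_ hC10n)
    exact inv_anti₀ (by positivity) (pow_le_pow_right₀ hy (by norm_num))
  · intro T
    have hy : 1 ≤ 1 + |T| := by linarith [abs_nonneg T]
    have h1 := hdec10 N hN3 T
    have h2 := (hT T).2.2.2
    have h3 : C * (2 + |T|) ^ 8 ≤ |C| * (2 ^ 8 * (1 + |T|) ^ 8) := by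
      have h4 : (2 + |T|) ^ 8 ≤ (2 * (1 + |T|)) ^ 8 :=
        pow_le_pow_left₀ (by positivity) (by linarith [abs_nonneg T]) 8
      rw [mul_pow] at h4
      calc C * (2 + |T|) ^ 8 ≤ |C| * (2 + |T|) ^ 8 :=
            mul_le_mul_of_nonneg_right (le_abs_self C) (by positivity)
        _ ≤ _ := mul_le_mul_of_nonneg_left h4 (abs_nonneg C)
    have h5 : 0 ≤ ∫ x, Ml c₀ A₁ z₀ N x ^ 2 * ‖Lp N T x‖ ^ 2 ∂P :=
      integral_nonneg fun x => by positivity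
    calc ‖AT N T‖ * ∫ x, Ml c₀ A₁ z₀ N x ^ 2 * ‖Lp N T x‖ ^ 2 ∂P
        ≤ (C10 * ((1 + |T|) ^ 10)⁻¹) * (|C| * (2 ^ 8 * (1 + |T|) ^ 8)) :=
          mul_le_mul h1 (h2.trans h3) h5 (by positivity)
      _ = 2 ^ 8 * |C| * C10 * (((1 + |T|) ^ 10)⁻¹ * (1 + |T|) ^ 8) := by ring
      _ = 2 ^ 8 * |C| * C10 * ((1 + |T|) ^ 2)⁻¹ := by
          congr 1
          field_simp

theorem m_main : type_of% @m_main_pr := @m_main_pr

end Pool.Agent.LVB
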