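import Pool.Agent.Lib_helper41.LVB.Defs
import Pool.Agent.Lib_helper68.LEV.MEX
import Pool.Agent.Lib_helper41.LVBF.WTT

/-! # Block TRN: truncation of the model of the central value -/

namespace Pool.Agent.LVB

open Pool.Agent.LEV Complex MeasureTheory Filter Topology UpperHalfPlane ModularGroup ProbabilityTheory
open scoped MatrixGroups Modular ENNReal ModularForm ComplexConjugate ContDiff

theorem TRN_um {n : ℕ} (hn : n ≠ 0) {x : ℕ → ℝ} (hx : ∀ p ∈ n.primeFactors, |x p| ≤ 2) :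
    |Um n x| ≤ n := by
  unfold Um
  rw [Finset.abs_prod]
  have h1 : (n : ℝ) = ∏ p ∈ n.primeFactors, (p : ℝ) ^ (n.factorization p) := by
    have h := Nat.prod_factorization_pow_eq_self hn
    rw [Nat.prod_factorization_eq_prod_primeFactors] at h
    conv_lhs => rw [← h]
    push_cast
    rfl
  rw [h1]
  refine Finset.prod_le_prod (fun p _ => abs_nonneg _) fun p hp => ?_
  have hpp : p.Prime := Nat.prime_of_mem_primeFactors hp
  refine (MEX_le (hx p hp) _).trans ?_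
  have h2 : n.factorization p < p ^ n.factorization p := Nat.lt_pow_self hpp.one_lt
  exact_mod_cast h2

theorem TRN_X0_lt {N : ℕ} (hN : 2 ≤ N) : X0 N < N := by
  unfold X0
  have h1 : (1 : ℝ) < N := by exact_mod_cast (by omega : 1 < N)
  have h2 : (N : ℝ) ^ (3 / 5 : ℝ) < (N : ℝ) ^ (1 : ℝ) :=
    Real.rpow_lt_rpow_of_exponent_lt h1 (by norm_num)
  rw [Real.rpow_one] at h2
  rw [Nat.floor_lt (by positivity)]
  exact h2

theorem TRN_pf {N n : ℕ} (h : n < N) : n.primeFactors ⊆ Pr N := by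
  intro p hp
  have h1 := Nat.prime_of_mem_primeFactors hp
  have h2 := Nat.le_of_mem_primeFactors hp
  exact Finset.mem_filter.2 ⟨Finset.mem_range.2 (by omega), h1⟩

theorem st_hpoly_pr : ∃ N₀ : ℕ, ∀ N : ℕ, N₀ ≤ N → HPoly (Pr N) (X0 N) (St N) := by
  refine ⟨2, fun N hN => ?_⟩
  refine ⟨fun n => if 1 ≤ n ∧ n ≤ X0 N then wt N n / Real.sqrt n else 0, ?_, ?_⟩
  · intro m hm
    have h : 1 ≤ m ∧ m ≤ X0 N := by
      by_contra h
      exact hm (if_neg h)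
    exact ⟨h.1, h.2, TRN_pf (lt_of_le_of_lt h.2 (TRN_X0_lt hN))⟩
  · intro x
    unfold St
    refine Finset.sum_congr rfl fun n hn => ?_
    rw [Finset.mem_Icc] at hn
    simp only
    rw [if_pos hn]

/-- exponential beats polynomial -/
theorem TRN_exp : ∃ y₀ : ℝ, 1 ≤ y₀ ∧ ∀ y : ℝ, y₀ ≤ y → 2 * y ^ 5 ≤ Real.exp (y ^ (1 / 12 : ℝ)) := by
  have h1 : Tendsto (fun u : ℝ => u ^ 60 * Real.exp (-u)) atTop (𝓝 0) :=
    Real.tendsto_pow_mul_exp_neg_atTop_nhds_zero 60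
  have h2 : Tendsto (fun y : ℝ => y ^ (1 / 12 : ℝ)) atTop atTop := tendsto_rpow_atTop (by norm_num)
  have h3 := (h1.comp h2).eventually (gt_mem_nhds (show (0 : ℝ) < 1 / 2 by norm_num))
  obtain ⟨y₀, hy⟩ := eventually_atTop.1 h3
  refine ⟨max 1 y₀, le_max_left _ _, fun y hyy => ?_⟩
  have h4 := hy y ((le_max_right _ _).trans hyy)
  have hy0 : 0 ≤ y := by linarith [(le_max_left 1 y₀).trans hyy]
  simp only [Function.comp] at h4
  have h5 : (y ^ (1 / 12 : ℝ)) ^ 60 = y ^ 5 := by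
    rw [← Real.rpow_natCast, ← Real.rpow_mul hy0, ← Real.rpow_natCast]
    norm_num
  rw [h5, Real.exp_neg] at h4
  have h6 := Real.exp_pos (y ^ (1 / 12 : ℝ))
  rw [← div_eq_mul_inv, div_lt_iff₀ h6] at h4
  linarith

theorem TRN_term {y₀ : ℝ} (h1 : 1 ≤ y₀)
    (hy : ∀ y : ℝ, y₀ ≤ y → 2 * y ^ 5 ≤ Real.exp (y ^ (1 / 12 : ℝ))) {N n : ℕ} (hN : 1 ≤ N)
    (hNy : y₀ ≤ (N : ℝ) ^ (3 / 5 : ℝ)) (hn : (N : ℝ) ^ (3 / 5 : ℝ) ≤ n) :
    n * Real.exp (-2 * Real.pi * n * (N : ℝ) ^ (-(11 / 20) : ℝ)) ≤ 1 / (2 * N) * (1 / (n : ℝ) ^ 2) := by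
  have hN0 : (0 : ℝ) < N := by exact_mod_cast hN
  have hn1 : (1 : ℝ) ≤ n := by linarith
  have hn0 : (0 : ℝ) < n := by linarith
  have hNn : (N : ℝ) ≤ (n : ℝ) ^ (5 / 3 : ℝ) := by
    calc (N : ℝ) = ((N : ℝ) ^ (3 / 5 : ℝ)) ^ (5 / 3 : ℝ) := by
          rw [← Real.rpow_mul hN0.le]
          norm_num
      _ ≤ (n : ℝ) ^ (5 / 3 : ℝ) := Real.rpow_le_rpow (by positivity) hn (by norm_num)
  have hN2 : (N : ℝ) ≤ (n : ℝ) ^ 2 := by
    refine hNn.trans ?_
    rw [← Real.rpow_natCast]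
    exact Real.rpow_le_rpow_of_exponent_le hn1 (by norm_num)
  have hexp : (n : ℝ) ^ (1 / 12 : ℝ) ≤ 2 * Real.pi * n * (N : ℝ) ^ (-(11 / 20) : ℝ) := by
    have e1 : (n : ℝ) ^ (-(11 / 12) : ℝ) ≤ (N : ℝ) ^ (-(11 / 20) : ℝ) := by
      calc (n : ℝ) ^ (-(11 / 12) : ℝ) = ((n : ℝ) ^ (5 / 3 : ℝ)) ^ (-(11 / 20) : ℝ) := by
            rw [← Real.rpow_mul hn0.le]
            norm_num
        _ ≤ (N : ℝ) ^ (-(11 / 20) : ℝ) :=
            Real.rpow_le_rpow_of_nonpos hN0 hNn (by norm_num)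
    have e2 : (n : ℝ) ^ (1 / 12 : ℝ) = n * (n : ℝ) ^ (-(11 / 12) : ℝ) := by
      rw [← Real.rpow_one_add' hn0.le (by norm_num)]
      norm_num
    have e3 : (1 : ℝ) ≤ 2 * Real.pi := by linarith [Real.pi_gt_three]
    calc (n : ℝ) ^ (1 / 12 : ℝ) = 1 * (n * (n : ℝ) ^ (-(11 / 12) : ℝ)) := by rw [e2]; ring
      _ ≤ 2 * Real.pi * (n * (N : ℝ) ^ (-(11 / 20) : ℝ)) := by
          refine mul_le_mul e3 ?_ (by positivity) (by positivity)
          exact mul_le_mul_of_nonneg_left e1 hn0.le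
      _ = _ := by ring
  have h5 := hy n (by linarith)
  have h6 : 2 * (n : ℝ) ^ 5 ≤ Real.exp (2 * Real.pi * n * (N : ℝ) ^ (-(11 / 20) : ℝ)) :=
    h5.trans (Real.exp_le_exp.2 hexp)
  have e4 : -2 * Real.pi * n * (N : ℝ) ^ (-(11 / 20) : ℝ) =
      -(2 * Real.pi * n * (N : ℝ) ^ (-(11 / 20) : ℝ)) := by ring
  rw [e4, Real.exp_neg]
  have h7 : n * (Real.exp (2 * Real.pi * n * (N : ℝ) ^ (-(11 / 20) : ℝ)))⁻¹ ≤ n * (2 * (n : ℝ) ^ 5)⁻¹ :=
    mul_le_mul_of_nonneg_left (inv_anti₀ (by positivity) h6) hn0.le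
  refine h7.trans ?_
  have h8 : 1 / (2 * (N : ℝ)) * (1 / (n : ℝ) ^ 2) = (2 * N * (n : ℝ) ^ 2)⁻¹ := by
    field_simp
  have h9 : (n : ℝ) * (2 * (n : ℝ) ^ 5)⁻¹ = (2 * (n : ℝ) ^ 2 * (n : ℝ) ^ 2)⁻¹ := by
    field_simp
  rw [h8, h9]
  refine inv_anti₀ (by positivity) ?_
  have : (N : ℝ) * (n : ℝ) ^ 2 ≤ (n : ℝ) ^ 2 * (n : ℝ) ^ 2 :=
    mul_le_mul_of_nonneg_right hN2 (by positivity)
  nlinarith

theorem sp_trunc_pr : ∃ N₀ : ℕ, ∀ N : ℕ, N₀ ≤ N → ∀ x : ℕ → ℝ, (∀ p ∈ Pr N, |x p| ≤ 2) →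
    |SP N x - St N x| ≤ 1 / N := by
  classical
  obtain ⟨y₀, hy1, hy⟩ := TRN_exp
  have ht : Tendsto (fun N : ℕ => (N : ℝ) ^ (3 / 5 : ℝ)) atTop atTop :=
    (tendsto_rpow_atTop (by norm_num)).comp tendsto_natCast_atTop_atTop
  obtain ⟨N₁, hN₁⟩ := eventually_atTop.1 (ht.eventually_ge_atTop y₀)
  refine ⟨max 3 N₁, fun N hN x hx => ?_⟩
  have hN3 : 3 ≤ N := (le_max_left _ _).trans hN
  have hNy := hN₁ N ((le_max_right _ _).trans hN)
  have hN0 : (0 : ℝ) < N := by exact_mod_cast (by omega : 0 < N)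
  set F : ℕ → ℝ := fun n => if n ≠ 0 ∧ n.primeFactors ⊆ Pr N then wt N n / Real.sqrt n * Um n x else 0
    with hF
  -- the tail
  set G : ℕ → ℝ := fun n => if n ∈ Finset.Icc 1 (X0 N) then 0 else F n with hG
  have hGb : ∀ n, ‖G n‖ ≤ 1 / (2 * N) * (1 / (n : ℝ) ^ 2) := by
    intro n
    simp only [hG]
    split_ifs with h
    · rw [norm_zero]
      positivity
    · simp only [hF]
      split_ifs with h2
      · have hn : X0 N < n := by
          by_contra h3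
          exact h (Finset.mem_Icc.2 ⟨by omega, by omega⟩)
        have hn' : (N : ℝ) ^ (3 / 5 : ℝ) ≤ n := by
          unfold X0 at hn
          exact (Nat.lt_of_floor_lt hn).le
        refine le_trans ?_ (TRN_term hy1 hy (by omega) hNy hn')
        obtain ⟨w0, w1, w2⟩ := wt_bounds hN3 n
        have hu := TRN_um h2.1 (fun p hp => hx p (h2.2 hp))
        have hn1 : (1 : ℝ) ≤ n := by exact_mod_cast (by omega : 1 ≤ n)
        have hsq : 1 ≤ Real.sqrt n := by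
          rw [← Real.sqrt_one]
          exact Real.sqrt_le_sqrt hn1
        rw [norm_mul, norm_div, Real.norm_eq_abs, Real.norm_eq_abs, Real.norm_eq_abs, abs_of_nonneg w0,
          abs_of_nonneg (Real.sqrt_nonneg _)]
        calc wt N n / Real.sqrt n * |Um n x|
            ≤ Real.exp (-2 * Real.pi * n * (N : ℝ) ^ (-(11 / 20) : ℝ)) * n := by
              refine mul_le_mul ?_ hu (abs_nonneg _) (Real.exp_pos _).le
              exact (div_le_self w0 hsq).trans w2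
          _ = _ := by ring
      · rw [norm_zero]
        positivity
  have hz := hasSum_zeta_two
  have hsb : Summable (fun n : ℕ => 1 / (2 * (N : ℝ)) * (1 / (n : ℝ) ^ 2)) := (hz.summable).mul_left _
  have hGs : Summable G := Summable.of_norm_bounded hsb hGb
  have hfin : Summable (fun n => if n ∈ Finset.Icc 1 (X0 N) then F n else 0) :=
    summable_of_ne_finset_zero (s := Finset.Icc 1 (X0 N)) (fun n hn => if_neg hn)
  have hsplit : ∀ n, F n = (if n ∈ Finset.Icc 1 (X0 N) then F n else 0) + G n := by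
    intro n
    simp only [hG]
    split_ifs <;> simp
  have hSP : SP N x = St N x + ∑' n, G n := by
    have e1 : SP N x = ∑' n, F n := by
      unfold SP
      refine tsum_congr fun n => ?_
      simp only [hF]
    rw [e1, tsum_congr hsplit, hfin.tsum_add hGs]
    congr 1
    rw [tsum_eq_sum (s := Finset.Icc 1 (X0 N)) (fun n hn => if_neg hn)]
    unfold St
    refine Finset.sum_congr rfl fun n hn => ?_
    rw [if_pos hn]
    simp only [hF]
    rw [Finset.mem_Icc] at hn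
    rw [if_pos ⟨by omega, TRN_pf (lt_of_le_of_lt hn.2 (TRN_X0_lt (by omega)))⟩]
  rw [hSP, add_sub_cancel_left, ← Real.norm_eq_abs]
  refine (tsum_of_norm_bounded hsb.hasSum hGb).trans ?_
  rw [tsum_mul_left, hz.tsum_eq]
  have hpi : Real.pi ^ 2 / 6 ≤ 2 := by
    nlinarith [Real.pi_lt_d2, Real.pi_gt_three]
  calc 1 / (2 * (N : ℝ)) * (Real.pi ^ 2 / 6) ≤ 1 / (2 * (N : ℝ)) * 2 :=
        mul_le_mul_of_nonneg_left hpi (by positivity)
    _ = 1 / N := by field_simp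

theorem sp_trunc : type_of% @sp_trunc_pr := @sp_trunc_pr

theorem st_hpoly : type_of% @st_hpoly_pr := @st_hpoly_pr

end Pool.Agent.LVB
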