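import Pool.Agent.Lib_helper41.LVB.Defs
import Pool.Agent.Lib_helper68.LEV.EQP
import Pool.Agent.Lib_helper41.LVBF.LEN
import Pool.Agent.Lib_helper41.LVBF.LPB
import Pool.Agent.Lib_helper41.LVBF.MMN
import Pool.Agent.Lib_helper41.LVBF.TRN

/-! LVB, block MFI (cites m_main, ml_hpoly, sp_trunc, sp_meas). -/

set_option autoImplicit false

namespace Pool.Agent.LVB

open Pool.Agent.LEV Complex MeasureTheory Filter Topology UpperHalfPlane ModularGroup ProbabilityTheory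
open scoped MatrixGroups Modular ENNReal ModularForm ComplexConjugate ContDiff

theorem MFI_log : ∃ N₀ : ℕ, 4 ≤ N₀ ∧ ∀ N : ℕ, N₀ ≤ N → Real.log N ^ 5 ≤ (N : ℝ) / 4 := by
  have h := (Real.isLittleO_pow_log_id_atTop (n := 5)).bound (show (0 : ℝ) < 1 / 4 by norm_num)
  have h2 := tendsto_natCast_atTop_atTop (R := ℝ) |>.eventually h
  obtain ⟨M, hM⟩ := eventually_atTop.1 h2
  refine ⟨max M 4, le_max_right _ _, fun N hN => ?_⟩
  have h3 := hM N ((le_max_left _ _).trans hN)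
  have h5 : ‖id (N : ℝ)‖ = N := by
    rw [id, Real.norm_eq_abs]
    exact abs_of_nonneg (Nat.cast_nonneg N)
  rw [h5, Real.norm_eq_abs] at h3
  have h4 := (le_abs_self _).trans h3
  linarith

theorem MFI_stmeas (N : ℕ) : Measurable (St N) := by
  unfold St
  exact Finset.measurable_fun_sum _ fun n _ => (EQP_meas n).const_mul _

/-- the final statement on the model -/
theorem m_final_pr : ∃ (A₁ z₀ : ℕ) (c₀ C : ℝ) (N₀ : ℕ), 0 < c₀ ∧ c₀ < 1 / 2 ∧ ∀ N : ℕ, N₀ ≤ N →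
    HPoly (Pr N) ⌊(N : ℝ) ^ (1 / 10 : ℝ)⌋₊ (Ml c₀ A₁ z₀ N) ∧
    ∀ P : Measure (ℕ → ℝ), IsST (Pr N) P →
      1 / 2 ≤ ∫ x, St N x * Ml c₀ A₁ z₀ N x ∂P ∧
      ∫ x, (St N x * Ml c₀ A₁ z₀ N x) ^ 2 ∂P ≤ C ∧
      ∫ x, Ml c₀ A₁ z₀ N x ^ 2 ∂P ≤ Real.log N ^ 5 := by
  obtain ⟨A₁, z₀, c₁, hc₁, hm⟩ := m_main
  obtain ⟨c₂, hc₂, hl⟩ := ml_hpoly A₁
  obtain ⟨N₃, hN₃⟩ := sp_trunc
  obtain ⟨N₄, hN₄4, hN₄⟩ := MFI_log
  set c₀ : ℝ := min (min c₁ c₂) (1 / 4) with hc₀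
  have hc₀p : 0 < c₀ := lt_min (lt_min hc₁ hc₂) (by norm_num)
  have hc₀1 : c₀ ≤ c₁ := (min_le_left _ _).trans (min_le_left _ _)
  have hc₀2 : c₀ ≤ c₂ := (min_le_left _ _).trans (min_le_right _ _)
  have hc₀h : c₀ < 1 / 2 := lt_of_le_of_lt (min_le_right _ _) (by norm_num)
  obtain ⟨C, N₁, hN₁⟩ := hm c₀ hc₀p hc₀1
  obtain ⟨N₂, hN₂⟩ := hl c₀ hc₀p hc₀2 z₀
  refine ⟨A₁, z₀, c₀, 2 * C + 2, max (max N₁ N₂) (max N₃ N₄), hc₀p, hc₀h, fun N hN => ?_⟩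
  have hn1 : N₁ ≤ N := ((le_max_left _ _).trans (le_max_left _ _)).trans hN
  have hn2 : N₂ ≤ N := ((le_max_right _ _).trans (le_max_left _ _)).trans hN
  have hn3 : N₃ ≤ N := ((le_max_left _ _).trans (le_max_right _ _)).trans hN
  have hn4 : N₄ ≤ N := ((le_max_right _ _).trans (le_max_right _ _)).trans hN
  have hlog := hN₄ N hn4
  have hN4 : (4 : ℝ) ≤ N := by exact_mod_cast hN₄4.trans hn4
  have hpoly := hN₂ N hn2
  refine ⟨hpoly, fun P hP => ?_⟩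
  have := hP.prob
  obtain ⟨hmean, hint2, hle2, hMi, hMl⟩ := hN₁ N hn1 P hP
  have hMmeas : Measurable (Ml c₀ A₁ z₀ N) := by
    obtain ⟨c, -, hc⟩ := hpoly
    have e : Ml c₀ A₁ z₀ N = fun x => ∑ m ∈ Finset.Icc 1 ⌊(N : ℝ) ^ (1 / 10 : ℝ)⌋₊, c m * Um m x :=
      funext hc
    rw [e]
    exact Finset.measurable_fun_sum _ fun n _ => (EQP_meas n).const_mul _
  have hae : ∀ᵐ x ∂P, |SP N x - St N x| ≤ 1 / N := by
    filter_upwards [hP.bdd] with x hx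
    exact hN₃ N hn3 x hx
  -- integrability
  have hSPM : Integrable (fun x => SP N x * Ml c₀ A₁ z₀ N x) P := by
    have h1 : MemLp (fun x => SP N x * Ml c₀ A₁ z₀ N x) 2 P :=
      (memLp_two_iff_integrable_sq ((sp_meas N).mul hMmeas).aestronglyMeasurable).2 hint2
    exact h1.integrable one_le_two
  have hg : Integrable (fun x => (1 / (N : ℝ)) * ((1 + Ml c₀ A₁ z₀ N x ^ 2) / 2)) P :=
    (((integrable_const 1).add hMi).div_const 2).const_mul _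
  have hd : ∀ᵐ x ∂P, |SP N x * Ml c₀ A₁ z₀ N x - St N x * Ml c₀ A₁ z₀ N x| ≤
      (1 / (N : ℝ)) * ((1 + Ml c₀ A₁ z₀ N x ^ 2) / 2) := by
    filter_upwards [hae] with x hx
    rw [← sub_mul, abs_mul]
    refine mul_le_mul hx ?_ (abs_nonneg _) (by positivity)
    have h1 := sq_nonneg (|Ml c₀ A₁ z₀ N x| - 1)
    have h2 := sq_abs (Ml c₀ A₁ z₀ N x)
    nlinarith
  have hD : Integrable (fun x => SP N x * Ml c₀ A₁ z₀ N x - St N x * Ml c₀ A₁ z₀ N x) P := by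
    refine hg.mono' ?_ ?_
    · exact (((sp_meas N).mul hMmeas).sub ((MFI_stmeas N).mul hMmeas)).aestronglyMeasurable
    · filter_upwards [hd] with x hx
      rw [Real.norm_eq_abs]
      exact hx
  have hStM : Integrable (fun x => St N x * Ml c₀ A₁ z₀ N x) P := by
    have := hSPM.sub hD
    refine this.congr (Eventually.of_forall fun x => ?_)
    show SP N x * Ml c₀ A₁ z₀ N x - (SP N x * Ml c₀ A₁ z₀ N x - St N x * Ml c₀ A₁ z₀ N x) = _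
    ring
  refine ⟨?_, ?_, hMl⟩
  · have h1 : ∫ x, SP N x * Ml c₀ A₁ z₀ N x ∂P - ∫ x, St N x * Ml c₀ A₁ z₀ N x ∂P ≤
        ∫ x, (1 / (N : ℝ)) * ((1 + Ml c₀ A₁ z₀ N x ^ 2) / 2) ∂P := by
      rw [← integral_sub hSPM hStM]
      refine integral_mono_ae (hSPM.sub hStM) hg ?_
      filter_upwards [hd] with x hx
      exact (le_abs_self _).trans hx
    have h2 : ∫ x, (1 / (N : ℝ)) * ((1 + Ml c₀ A₁ z₀ N x ^ 2) / 2) ∂P =
        (1 / (N : ℝ)) * ((1 + ∫ x, Ml c₀ A₁ z₀ N x ^ 2 ∂P) / 2) := by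
      rw [integral_const_mul, integral_div, integral_add (integrable_const 1) hMi]
      simp
    have h3 : (1 / (N : ℝ)) * ((1 + ∫ x, Ml c₀ A₁ z₀ N x ^ 2 ∂P) / 2) ≤ 1 / 4 := by
      rw [one_div, inv_mul_le_iff₀ (by linarith)]
      linarith
    linarith
  · have h1 : ∫ x, (St N x * Ml c₀ A₁ z₀ N x) ^ 2 ∂P ≤
        ∫ x, (2 * (SP N x * Ml c₀ A₁ z₀ N x) ^ 2 + 2 * (1 / (N : ℝ)) ^ 2 *
          Ml c₀ A₁ z₀ N x ^ 2) ∂P := by
      refine integral_mono_of_nonneg (Eventually.of_forall fun x => sq_nonneg _)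
        ((hint2.const_mul 2).add (hMi.const_mul _)) ?_
      filter_upwards [hae] with x hx
      have h2 : (St N x - SP N x) ^ 2 ≤ (1 / (N : ℝ)) ^ 2 := by
        rw [← sq_abs, abs_sub_comm]
        exact pow_le_pow_left₀ (abs_nonneg _) hx 2
      have h3 := mul_le_mul_of_nonneg_right h2 (sq_nonneg (Ml c₀ A₁ z₀ N x))
      have h4 := sq_nonneg (SP N x * Ml c₀ A₁ z₀ N x - (St N x - SP N x) * Ml c₀ A₁ z₀ N x)
      have e : St N x * Ml c₀ A₁ z₀ N x =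
        SP N x * Ml c₀ A₁ z₀ N x + (St N x - SP N x) * Ml c₀ A₁ z₀ N x := by ring
      show (St N x * Ml c₀ A₁ z₀ N x) ^ 2 ≤ _
      rw [e]
      nlinarith
    rw [integral_add (hint2.const_mul 2) (hMi.const_mul _), integral_const_mul,
      integral_const_mul] at h1
    have h5 : 2 * (1 / (N : ℝ)) ^ 2 * ∫ x, Ml c₀ A₁ z₀ N x ^ 2 ∂P ≤ 2 := by
      have h6 : ∫ x, Ml c₀ A₁ z₀ N x ^ 2 ∂P ≤ (N : ℝ) ^ 2 := by nlinarith
      have h7 : (1 / (N : ℝ)) ^ 2 * ∫ x, Ml c₀ A₁ z₀ N x ^ 2 ∂P ≤ (1 / (N : ℝ)) ^ 2 * (N : ℝ) ^ 2 :=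
        mul_le_mul_of_nonneg_left h6 (by positivity)
      have h8 : (1 / (N : ℝ)) ^ 2 * (N : ℝ) ^ 2 = 1 := by
        field_simp
      linarith
    linarith

theorem m_final : type_of% @m_final_pr := @m_final_pr

end Pool.Agent.LVB
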