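import Pool.Agent.Lib_helper41.LVB.Defs
import Pool.Agent.Lib_helper68.LEV.EIA
import Pool.Agent.Lib_helper68.LEV.FRK
import Pool.Agent.Lib_helper41.LVBF.AFE
import Pool.Agent.Lib_helper41.LVBF.AFT
import Pool.Agent.Lib_helper41.LVBF.HPM
import Pool.Agent.Lib_helper41.LVBF.MFI
import Pool.Agent.Lib_helper41.LVBF.STE
import Pool.Agent.Lib_helper41.LVBF.TRA
import Pool.Agent.Lib_helper41.LVBF.TRM
import Pool.Agent.Lib_helper41.LVBF.TRN

/-! Theorem B, block HPR: the mollified central values. -/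

namespace Pool.Agent.LVB

open Pool.Agent.LEV Complex MeasureTheory Filter Topology UpperHalfPlane ModularGroup ProbabilityTheory
open scoped MatrixGroups Modular ENNReal ModularForm ComplexConjugate ContDiff

theorem HPR_sign {N : ℕ} [Fact N.Prime] {f : S2 N} (hf : IsNew f) :
    co f N = 1 ∨ co f N = -1 := by
  obtain ⟨W, hW⟩ := fricke_exists (N := N)
  exact (new_fricke hf hW).2

theorem HPR_om {N : ℕ} [Fact N.Prime] {f : S2 N} (hf : IsNew f) : 0 ≤ om f := by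
  have := nr_pos (new_ne_zero hf)
  unfold om
  have := Real.pi_pos
  positivity

theorem HPR_one (I : Finset ℕ) : HPoly I 1 (fun _ => 1) := by
  refine ⟨fun m => if m = 1 then 1 else 0, ?_, ?_⟩
  · intro m hm
    by_cases h : m = 1
    · subst h; simp
    · simp [h] at hm
  · intro x
    simp [Um]

/-- Cauchy-Schwarz with weights -/
theorem HPR_cs {ι : Type} (s : Finset ι) (w U : ι → ℝ) (hw : ∀ i ∈ s, 0 ≤ w i) :
    (∑ i ∈ s, w i * U i) ^ 2 ≤ (∑ i ∈ s, w i) * ∑ i ∈ s, w i * U i ^ 2 := by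
  apply Finset.sum_sq_le_sum_mul_sum_of_sq_le_mul
  · exact hw
  · intro i hi
    exact mul_nonneg (hw i hi) (sq_nonneg _)
  · intro i _
    exact le_of_eq (by ring)

/-- Cauchy-Schwarz with weights, two functions -/
theorem HPR_cs2 {ι : Type} (s : Finset ι) (w t V : ι → ℝ) (hw : ∀ i ∈ s, 0 ≤ w i) :
    (∑ i ∈ s, w i * |t i * V i|) ^ 2 ≤ (∑ i ∈ s, w i * t i ^ 2) * ∑ i ∈ s, w i * V i ^ 2 := by
  apply Finset.sum_sq_le_sum_mul_sum_of_sq_le_mul
  · intro i hi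
    exact mul_nonneg (hw i hi) (sq_nonneg _)
  · intro i hi
    exact mul_nonneg (hw i hi) (sq_nonneg _)
  · intro i _
    rw [mul_pow, sq_abs]
    exact le_of_eq (by ring)

/-- the second moment method -/
theorem HPR_pz {ι : Type} [Fintype ι] (w : ι → ℝ) (hw : ∀ i, 0 ≤ w i) (E : Finset ι)
    (U t : ι → ℝ) {M κ : ℝ} (hM : 0 < M) (h0 : ∑ i, w i ≤ 3 / 2)
    (h1 : 7 / 16 ≤ ∑ i ∈ E, w i * U i) (h2 : ∑ i ∈ E, w i * U i ^ 2 ≤ M)
    (h3 : ∑ i, w i * |t i| ≤ κ) :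
    ∃ s ⊆ E, (∀ i ∈ s, 1 / 16 ≤ U i + t i) ∧ 1 / (16 * M) - 16 * κ ≤ ∑ i ∈ s, w i := by
  classical
  set s0 := E.filter (fun i => 1 / 8 ≤ U i) with hs0
  set s := s0.filter (fun i => |t i| ≤ 1 / 16) with hs
  have hsub0 : s0 ⊆ E := Finset.filter_subset _ _
  have hsub : s ⊆ s0 := Finset.filter_subset _ _
  refine ⟨s, hsub.trans hsub0, ?_, ?_⟩
  · intro i hi
    rw [hs, Finset.mem_filter, hs0, Finset.mem_filter] at hi
    have := (abs_le.1 hi.2).1
    linarith [hi.1.2]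
  · -- mass of `s0`
    have e1 : ∑ i ∈ E, w i * U i ≤ ∑ i ∈ s0, w i * U i + 1 / 8 * (3 / 2) := by
      have e2 : ∑ i ∈ E, w i * U i =
          ∑ i ∈ s0, w i * U i + ∑ i ∈ E.filter (fun i => ¬ 1 / 8 ≤ U i), w i * U i :=
        (Finset.sum_filter_add_sum_filter_not E (fun i => 1 / 8 ≤ U i) _).symm
      rw [e2]
      have e3 : ∑ i ∈ E.filter (fun i => ¬ 1 / 8 ≤ U i), w i * U i ≤
          ∑ i ∈ E.filter (fun i => ¬ 1 / 8 ≤ U i), w i * (1 / 8) := by
        refine Finset.sum_le_sum fun i hi => ?_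
        rw [Finset.mem_filter] at hi
        exact mul_le_mul_of_nonneg_left (not_le.1 hi.2).le (hw i)
      have e4 : ∑ i ∈ E.filter (fun i => ¬ 1 / 8 ≤ U i), w i * (1 / 8) ≤
          ∑ i, w i * (1 / 8) :=
        Finset.sum_le_sum_of_subset_of_nonneg (Finset.subset_univ _)
          (fun i _ _ => mul_nonneg (hw i) (by norm_num))
      have e5 : ∑ i, w i * (1 / 8) = (∑ i, w i) * (1 / 8) := by rw [Finset.sum_mul]
      linarith
    have e6 : 1 / 4 ≤ ∑ i ∈ s0, w i * U i := by linarith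
    have e7 := HPR_cs s0 w U (fun i _ => hw i)
    have e8 : ∑ i ∈ s0, w i * U i ^ 2 ≤ M :=
      (Finset.sum_le_sum_of_subset_of_nonneg hsub0
        (fun i _ _ => mul_nonneg (hw i) (sq_nonneg _))).trans h2
    have e9 : 0 ≤ ∑ i ∈ s0, w i := Finset.sum_nonneg fun i _ => hw i
    have e10 : 1 / 16 ≤ (∑ i ∈ s0, w i) * M := by
      have : (1 / 4 : ℝ) ^ 2 ≤ (∑ i ∈ s0, w i * U i) ^ 2 := by
        apply pow_le_pow_left₀ (by norm_num) e6
      have h5 : (∑ i ∈ s0, w i) * ∑ i ∈ s0, w i * U i ^ 2 ≤ (∑ i ∈ s0, w i) * M :=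
        mul_le_mul_of_nonneg_left e8 e9
      nlinarith
    have e11 : 1 / (16 * M) ≤ ∑ i ∈ s0, w i := by
      rw [div_le_iff₀ (by positivity)]
      linarith
    -- mass of the bad set
    have e12 : ∑ i ∈ s0, w i = ∑ i ∈ s, w i + ∑ i ∈ s0.filter (fun i => ¬ |t i| ≤ 1 / 16), w i :=
      (Finset.sum_filter_add_sum_filter_not s0 (fun i => |t i| ≤ 1 / 16) _).symm
    have e13 : ∑ i ∈ s0.filter (fun i => ¬ |t i| ≤ 1 / 16), w i ≤
        ∑ i ∈ s0.filter (fun i => ¬ |t i| ≤ 1 / 16), 16 * (w i * |t i|) := by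
      refine Finset.sum_le_sum fun i hi => ?_
      rw [Finset.mem_filter] at hi
      have h5 := not_le.1 hi.2
      have h6 : w i * (1 / 16) ≤ w i * |t i| := mul_le_mul_of_nonneg_left h5.le (hw i)
      linarith
    have e14 : ∑ i ∈ s0.filter (fun i => ¬ |t i| ≤ 1 / 16), 16 * (w i * |t i|) ≤
        ∑ i, 16 * (w i * |t i|) :=
      Finset.sum_le_sum_of_subset_of_nonneg (Finset.subset_univ _)
        (fun i _ _ => mul_nonneg (by norm_num) (mul_nonneg (hw i) (abs_nonneg _)))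
    have e15 : ∑ i, 16 * (w i * |t i|) = 16 * ∑ i, w i * |t i| := by rw [Finset.mul_sum]
    linarith

theorem HPR_len {κ : ℝ} (hκ : 0 < κ) : ∀ᶠ N : ℕ in atTop,
    ((X0 N * ⌊(N : ℝ) ^ (1 / 10 : ℝ)⌋₊ : ℕ) : ℝ) ≤ κ * N ∧
    (⌊(N : ℝ) ^ (1 / 10 : ℝ)⌋₊ : ℝ) ≤ κ * N ∧ 1 ≤ X0 N ∧ 1 ≤ ⌊(N : ℝ) ^ (1 / 10 : ℝ)⌋₊ := by
  have h1 : Tendsto (fun N : ℕ => (N : ℝ) ^ (-(3 / 10 : ℝ))) atTop (𝓝 0) :=
    (tendsto_rpow_neg_atTop (by norm_num)).comp tendsto_natCast_atTop_atTop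
  filter_upwards [h1.eventually (gt_mem_nhds hκ), eventually_ge_atTop 1] with N hN hN1
  have hN' : (1 : ℝ) ≤ N := by exact_mod_cast hN1
  have hNp : (0 : ℝ) < N := by linarith
  have a : (X0 N : ℝ) ≤ (N : ℝ) ^ (3 / 5 : ℝ) := Nat.floor_le (by positivity)
  have b : (⌊(N : ℝ) ^ (1 / 10 : ℝ)⌋₊ : ℝ) ≤ (N : ℝ) ^ (1 / 10 : ℝ) := Nat.floor_le (by positivity)
  have c : (N : ℝ) ^ (7 / 10 : ℝ) ≤ κ * N := by
    have : (N : ℝ) ^ (7 / 10 : ℝ) = (N : ℝ) ^ (-(3 / 10 : ℝ)) * N := by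
      conv_rhs => rw [← Real.rpow_one (N : ℝ), ← Real.rpow_mul hNp.le, ← Real.rpow_add hNp]
      norm_num
    rw [this]
    exact mul_le_mul_of_nonneg_right hN.le hNp.le
  have d : (N : ℝ) ^ (3 / 5 : ℝ) * (N : ℝ) ^ (1 / 10 : ℝ) = (N : ℝ) ^ (7 / 10 : ℝ) := by
    rw [← Real.rpow_add hNp]; norm_num
  refine ⟨?_, ?_, ?_, ?_⟩
  · push_cast
    calc (X0 N : ℝ) * (⌊(N : ℝ) ^ (1 / 10 : ℝ)⌋₊ : ℝ)
        ≤ (N : ℝ) ^ (3 / 5 : ℝ) * (N : ℝ) ^ (1 / 10 : ℝ) :=
          mul_le_mul a b (by positivity) (by positivity)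
      _ ≤ κ * N := by rw [d]; exact c
  · refine b.trans (le_trans ?_ c)
    exact Real.rpow_le_rpow_of_exponent_le hN' (by norm_num)
  · exact Nat.le_floor (by simpa using Real.one_le_rpow hN' (by norm_num))
  · exact Nat.le_floor (by simpa using Real.one_le_rpow hN' (by norm_num))

theorem HPR_tail {δ : ℝ} (hδ : 0 < δ) (K : ℝ) : ∀ᶠ N : ℕ in atTop,
    1 / (N : ℝ) ^ 2 * (K * Real.log N ^ 5) ≤ δ := by
  have h1 : Tendsto (fun x : ℝ => Real.log x ^ 5 / x) atTop (𝓝 0) :=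
    (Real.isLittleO_pow_log_id_atTop (n := 5)).tendsto_div_nhds_zero
  have h2 : Tendsto (fun N : ℕ => Real.log N ^ 5 / (N : ℝ)) atTop (𝓝 0) :=
    h1.comp tendsto_natCast_atTop_atTop
  have h3 : Tendsto (fun N : ℕ => (1 / (N : ℝ))) atTop (𝓝 0) := tendsto_one_div_atTop_nhds_zero_nat
  have h4 : Tendsto (fun N : ℕ => K * (1 / (N : ℝ)) * (Real.log N ^ 5 / (N : ℝ))) atTop (𝓝 0) := by
    have := (h3.const_mul K).mul h2
    simpa using this
  filter_upwards [h4.eventually (gt_mem_nhds hδ), eventually_ge_atTop 1] with N hN hN1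
  have hN' : (1 : ℝ) ≤ N := by exact_mod_cast hN1
  refine le_trans (le_of_eq ?_) hN.le
  have : (N : ℝ) ≠ 0 := by positivity
  field_simp

/-- the mollified central values -/
theorem harm_moll_pr : ∃ (A₁ z₀ : ℕ) (c₀ c : ℝ) (N₀ : ℕ), 0 < c₀ ∧ c₀ < 1 / 2 ∧ 0 < c ∧
    ∀ (N : ℕ) [Fact N.Prime], N₀ ≤ N → ∀ {ι : Type} [Fintype ι] (f : ι → S2 N), AllNew f →
      ∃ s : Finset ι, (∀ i ∈ s, co (f i) N = 1 ∧
        1 / 16 ≤ (Lh (f i)).re * Ml c₀ A₁ z₀ N (la (f i))) ∧ c ≤ ∑ i ∈ s, om (f i) := by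
  classical
  obtain ⟨A₁, z₀, c₀, C, N₁, hc0, hc1, hmain⟩ := m_final
  obtain ⟨N₂, hSt⟩ := st_hpoly
  set C' : ℝ := max C 1 with hC'
  have hC1 : 1 ≤ C' := le_max_right _ _
  have hCp : 0 < C' := by linarith
  set ε : ℝ := 1 / (32 * C') with hε
  have hεp : 0 < ε := by positivity
  obtain ⟨ν, N₃, hν, htm⟩ := transfer_mean hεp
  obtain ⟨N₄, htail⟩ := afe_tail
  set K : ℝ := Real.exp (8 * Real.pi * (1 / 2)) with hK
  have hKp : 0 < K := Real.exp_pos _
  set M : ℝ := 4 * (K * C') with hM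
  have hMp : 0 < M := by positivity
  set κ : ℝ := 1 / (512 * M) with hκ
  have hκp : 0 < κ := by positivity
  obtain ⟨N₅, h5⟩ := eventually_atTop.1 (HPR_len (κ := min (ν ^ 2) (1 / 4))
    (lt_min (by positivity) (by norm_num)))
  obtain ⟨N₆, h6⟩ := eventually_atTop.1 (HPR_tail (δ := (κ / 2) ^ 2) (by positivity) K)
  refine ⟨A₁, z₀, c₀, 1 / (32 * M), max (max (max N₁ N₂) (max N₃ N₄)) (max (max N₅ N₆) 4), hc0, hc1,
    by positivity, ?_⟩
  intro N _ hN ι _ f hf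
  have hN1 : N₁ ≤ N := le_trans (le_trans (le_trans (le_max_left _ _) (le_max_left _ _))
    (le_max_left _ _)) hN
  have hN2 : N₂ ≤ N := le_trans (le_trans (le_trans (le_max_right _ _) (le_max_left _ _))
    (le_max_left _ _)) hN
  have hN3 : N₃ ≤ N := le_trans (le_trans (le_trans (le_max_left _ _) (le_max_right _ _))
    (le_max_left _ _)) hN
  have hN4 : N₄ ≤ N := le_trans (le_trans (le_trans (le_max_right _ _) (le_max_right _ _))
    (le_max_left _ _)) hN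
  have hN5 : N₅ ≤ N := le_trans (le_trans (le_trans (le_max_left _ _) (le_max_left _ _))
    (le_max_right _ _)) hN
  have hN6 : N₆ ≤ N := le_trans (le_trans (le_trans (le_max_right _ _) (le_max_left _ _))
    (le_max_right _ _)) hN
  have hN7 : 4 ≤ N := le_trans (le_trans (le_max_right _ _) (le_max_right _ _)) hN
  have hNr : (4 : ℝ) ≤ N := by exact_mod_cast hN7
  have hnew : ∀ i, IsNew (f i) := fun i => (hf.2 (f i)).2 ⟨i, rfl⟩
  have hom : ∀ i, 0 ≤ om (f i) := fun i => HPR_om (hnew i)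
  have hPr : ∀ p ∈ Pr N, p.Prime ∧ p < N := by
    intro p hp
    rw [Pr, Finset.mem_filter, Finset.mem_range] at hp
    exact ⟨hp.2, hp.1⟩
  have hPr' : ∀ p ∈ Pr N, p.Prime := fun p hp => (hPr p hp).1
  obtain ⟨P, hP⟩ := st_exists (Pr N) hPr'
  obtain ⟨hMl, hPm⟩ := hmain N hN1
  obtain ⟨m1, m2, m3⟩ := hPm P hP
  obtain ⟨l1, l2, l3, l4⟩ := h5 N hN5
  set X : ℕ := X0 N * ⌊(N : ℝ) ^ (1 / 10 : ℝ)⌋₊ with hX
  have hX1 : 1 ≤ X := Nat.mul_pos l3 l4
  set V : (ℕ → ℝ) → ℝ := Ml c₀ A₁ z₀ N with hV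
  set G : (ℕ → ℝ) → ℝ := fun x => St N x * V x with hG
  have hGp : HPoly (Pr N) X G := by
    have := hpoly_mul hPr' hPr' (hSt N hN2) hMl
    rwa [Finset.union_self] at this
  have hκ1 : min (ν ^ 2) (1 / 4) * (N : ℝ) ≤ ν ^ 2 * N :=
    mul_le_mul_of_nonneg_right (min_le_left _ _) (by linarith)
  have hκ2 : min (ν ^ 2) (1 / 4) * (N : ℝ) ≤ (1 / 2 : ℝ) ^ 2 * N := by
    refine mul_le_mul_of_nonneg_right ((min_le_right _ _).trans (by norm_num)) (by linarith)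
  have hι2 : ∫ x, G x ^ 2 ∂P ≤ C' := m2.trans (le_max_left _ _)
  have hι2n : 0 ≤ ∫ x, G x ^ 2 ∂P := integral_nonneg fun x => sq_nonneg _
  have hsq : ε * Real.sqrt (∫ x, G x ^ 2 ∂P) ≤ 1 / 32 := by
    have h7 : Real.sqrt (∫ x, G x ^ 2 ∂P) ≤ C' := by
      rw [Real.sqrt_le_left (by linarith)]
      exact hι2.trans (by nlinarith)
    calc ε * Real.sqrt (∫ x, G x ^ 2 ∂P) ≤ ε * C' := mul_le_mul_of_nonneg_left h7 hεp.le
      _ = 1 / 32 := by rw [hε]; field_simp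
  obtain ⟨t1, t2⟩ := htm N hN3 f hf (X := X) (l1.trans hκ1) hPr hP hGp
  -- total mass
  have hmass : ∑ i, om (f i) ≤ 3 / 2 := by
    have hν1 : ((1 : ℕ) : ℝ) ≤ ν ^ 2 * N := by
      refine le_trans ?_ (l1.trans hκ1)
      exact_mod_cast hX1
    obtain ⟨a, -⟩ := htm N hN3 f hf (X := 1) hν1 hPr hP (HPR_one (Pr N))
    have hpr : IsProbabilityMeasure P := hP.prob
    simp only [mul_one, integral_const, probReal_univ, smul_eq_mul, one_pow, Real.sqrt_one] at a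
    have h7 : ε ≤ 1 / 32 := by
      rw [hε]
      apply one_div_le_one_div_of_le (by norm_num)
      linarith
    have := (abs_le.1 a).2
    linarith
  -- second moments
  have hG2 : ∑ i, om (f i) * G (la (f i)) ^ 2 ≤ K * C' := by
    have := transfer f hf.1 hnew (ν := 1 / 2) (by norm_num) (by norm_num) hX1 (l1.trans hκ2) hPr hP
      hGp 0
    simp only [zero_mul, add_zero, ne_eq, OfNat.ofNat_ne_zero, not_false_eq_true, zero_pow] at this
    exact this.trans (mul_le_mul_of_nonneg_left hι2 hKp.le)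
  have hV2 : ∑ i, om (f i) * V (la (f i)) ^ 2 ≤ K * Real.log N ^ 5 := by
    have := transfer f hf.1 hnew (ν := 1 / 2) (by norm_num) (by norm_num) l4 (l2.trans hκ2) hPr hP
      hMl 0
    simp only [zero_mul, add_zero, ne_eq, OfNat.ofNat_ne_zero, not_false_eq_true, zero_pow] at this
    exact this.trans (mul_le_mul_of_nonneg_left m3 hKp.le)
  set E : Finset ι := Finset.univ.filter (fun i => co (f i) N = 1) with hE
  have hEsum : ∑ i ∈ E, om (f i) * (2 * G (la (f i))) =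
      ∑ i, om (f i) * G (la (f i)) + ∑ i, om (f i) * (se (f i) * G (la (f i))) := by
    rw [← Finset.sum_add_distrib, hE, Finset.sum_filter]
    refine Finset.sum_congr rfl fun i _ => ?_
    by_cases h : co (f i) N = 1
    · rw [if_pos h, se, h]; simp; ring
    · have h' : co (f i) N = -1 := (HPR_sign (hnew i)).resolve_left h
      rw [if_neg h, se, h']; simp
  have hone : 7 / 16 ≤ ∑ i ∈ E, om (f i) * (2 * G (la (f i))) := by
    rw [hEsum]
    have a := (abs_le.1 t1).1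
    have b := (abs_le.1 t2).1
    have m1' : 1 / 2 ≤ ∫ x, G x ∂P := m1
    linarith
  have htwo : ∑ i ∈ E, om (f i) * (2 * G (la (f i))) ^ 2 ≤ M := by
    have e1 : ∑ i ∈ E, om (f i) * (2 * G (la (f i))) ^ 2 ≤ ∑ i, om (f i) * (2 * G (la (f i))) ^ 2 :=
      Finset.sum_le_sum_of_subset_of_nonneg (Finset.subset_univ _)
        (fun i _ _ => mul_nonneg (hom i) (sq_nonneg _))
    have e2 : ∑ i, om (f i) * (2 * G (la (f i))) ^ 2 = 4 * ∑ i, om (f i) * G (la (f i)) ^ 2 := by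
      rw [Finset.mul_sum]
      refine Finset.sum_congr rfl fun i _ => ?_
      ring
    rw [e2] at e1
    linarith
  set t : ι → ℝ := fun i => ∑' n : ℕ, la (f i) n / Real.sqrt n * wt N n - St N (la (f i)) with ht
  have hthree : ∑ i, om (f i) * |2 * (t i * V (la (f i)))| ≤ κ := by
    have e1 := HPR_cs2 Finset.univ (fun i => om (f i)) t (fun i => V (la (f i))) (fun i _ => hom i)
    have e2 : ∑ i, om (f i) * t i ^ 2 ≤ 1 / (N : ℝ) ^ 2 := htail N hN4 f hf.1 hnew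
    have e3 : 0 ≤ ∑ i, om (f i) * V (la (f i)) ^ 2 :=
      Finset.sum_nonneg fun i _ => mul_nonneg (hom i) (sq_nonneg _)
    have e4 : (∑ i, om (f i) * t i ^ 2) * ∑ i, om (f i) * V (la (f i)) ^ 2 ≤ (κ / 2) ^ 2 := by
      refine le_trans ?_ (h6 N hN6)
      exact mul_le_mul e2 hV2 e3 (by positivity)
    have e5 : ∑ i, om (f i) * |t i * V (la (f i))| ≤ κ / 2 := by
      refine le_of_sq_le_sq ?_ (by positivity)
      exact e1.trans e4
    have e6 : ∑ i, om (f i) * |2 * (t i * V (la (f i)))| =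
        2 * ∑ i, om (f i) * |t i * V (la (f i))| := by
      rw [Finset.mul_sum]
      refine Finset.sum_congr rfl fun i _ => ?_
      rw [abs_mul, abs_two]; ring
    rw [e6]; linarith
  obtain ⟨s, hsE, hs1, hs2⟩ := HPR_pz (fun i => om (f i)) hom E (fun i => 2 * G (la (f i)))
    (fun i => 2 * (t i * V (la (f i)))) hMp hmass hone htwo hthree
  refine ⟨s, ?_, ?_⟩
  · intro i hi
    have hi1 : co (f i) N = 1 := by
      have := hsE hi
      rw [hE, Finset.mem_filter] at this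
      exact this.2
    refine ⟨hi1, ?_⟩
    have h7 := (afe (by omega : 3 ≤ N) (hnew i) hi1).2
    rw [h7, ofReal_re]
    refine (hs1 i hi).trans (le_of_eq ?_)
    show 2 * (St N (la (f i)) * V (la (f i))) + 2 * ((∑' n : ℕ, la (f i) n / Real.sqrt n * wt N n -
      St N (la (f i))) * V (la (f i))) = _
    ring
  · refine le_trans (le_of_eq ?_) hs2
    rw [hκ]
    field_simp
    norm_num

theorem harm_moll : type_of% @harm_moll_pr := @harm_moll_pr

end Pool.Agent.LVB
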