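import Pool.Agent.Lib_helper41.LVB.Defs
import Pool.Agent.Lib_helper68.LEV.EIA
import Pool.Agent.Lib_helper68.LEV.FRK
import Pool.Agent.Lib_helper68.LEV.PET
import Pool.Agent.Lib_helper41.LVBF.HPR
import Pool.Agent.Lib_helper41.LVBF.MPO
import Pool.Agent.Lib_helper41.LVBF.MUP

/-! Block HPQ (cites harm_moll, mol_upper, ml_pos). -/

namespace Pool.Agent.LVB

open Pool.Agent.LEV Complex MeasureTheory Filter Topology UpperHalfPlane ModularGroup ProbabilityTheory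
open scoped MatrixGroups Modular ENNReal ModularForm ComplexConjugate ContDiff

theorem HPQ_om_nonneg {N : ℕ} [Fact N.Prime] {f : S2 N} (hf : IsNew f) : 0 ≤ om f := by
  unfold om
  have : 0 < nr f := nr_pos (new_ne_zero hf)
  have := Real.pi_pos
  positivity

/-- powers of the logarithm -/
theorem HPQ_log {A ε : ℝ} (hA : 1 / 2 + ε < A) : ∃ N₀ : ℕ, ∀ N : ℕ, N₀ ≤ N →
    0 < Real.log N ∧ Real.log N ^ (-A) * Real.log N ^ (1 / 2 + ε) < 1 / 16 := by
  have h1 : Tendsto (fun N : ℕ => Real.log (N : ℝ)) atTop atTop :=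
    Real.tendsto_log_atTop.comp tendsto_natCast_atTop_atTop
  have h2 : Tendsto (fun N : ℕ => Real.log (N : ℝ) ^ (-(A - (1 / 2 + ε)))) atTop (𝓝 0) :=
    (tendsto_rpow_neg_atTop (by linarith)).comp h1
  have h3 := (h1.eventually_gt_atTop 0).and (h2.eventually_lt_const (show (0 : ℝ) < 1 / 16 by norm_num))
  obtain ⟨N₀, h⟩ := eventually_atTop.mp h3
  refine ⟨N₀, fun N hN => ⟨(h N hN).1, ?_⟩⟩
  rw [← Real.rpow_add (h N hN).1]
  have : -A + (1 / 2 + ε) = -(A - (1 / 2 + ε)) := by ring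
  rw [this]
  exact (h N hN).2

theorem harm_prop_pr : ∃ c : ℝ, 0 < c ∧ ∀ A : ℝ, 1 / 2 < A → ∃ N₀ : ℕ, ∀ (N : ℕ) [Fact N.Prime],
    N₀ ≤ N → ∀ {ι : Type} [Fintype ι] (f : ι → S2 N), AllNew f →
      ∃ s : Finset ι, (∀ i ∈ s, co (f i) N = 1 ∧ Real.log N ^ (-A) < (Lh (f i)).re) ∧
        c ≤ ∑ i ∈ s, om (f i) := by
  classical
  obtain ⟨A₁, z₀, c₀, c, N₁, h0, h12, hc, hmain⟩ := harm_moll
  refine ⟨c / 2, by positivity, fun A hA => ?_⟩
  have hε : 0 < (A - 1 / 2) / 2 := by linarith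
  obtain ⟨N₂, h2⟩ := mol_upper h0 h12 A₁ z₀ hε (show (0 : ℝ) < c / 2 by positivity)
  obtain ⟨N₃, h3⟩ := HPQ_log (A := A) (ε := (A - 1 / 2) / 2) (by linarith)
  refine ⟨max N₁ (max N₂ N₃), fun N _ hN ι _ f hf => ?_⟩
  have hn : ∀ i, IsNew (f i) := fun i => (hf.2 (f i)).mpr ⟨i, rfl⟩
  obtain ⟨s, hs, hsum⟩ := hmain N ((le_max_left _ _).trans hN) f hf
  have h4 := h3 N ((le_max_right _ _).trans ((le_max_right _ _).trans hN))
  set M : ι → ℝ := fun i => Ml c₀ A₁ z₀ N (la (f i)) with hM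
  have h5 := h2 N ((le_max_left _ _).trans ((le_max_right _ _).trans hN)) f hf.1 hn
    (s.filter (fun i => Real.log N ^ (1 / 2 + (A - 1 / 2) / 2) < M i))
    (fun i hi => (Finset.mem_filter.mp hi).2)
  refine ⟨s.filter (fun i => ¬ Real.log N ^ (1 / 2 + (A - 1 / 2) / 2) < M i), fun i hi => ?_, ?_⟩
  · obtain ⟨hi1, hi2⟩ := Finset.mem_filter.mp hi
    obtain ⟨h6, h7⟩ := hs i hi1
    refine ⟨h6, ?_⟩
    have hMpos : 0 < M i := ml_pos _ _ _ _ _
    have hMle : M i ≤ Real.log N ^ (1 / 2 + (A - 1 / 2) / 2) := not_lt.mp hi2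
    have hApos : 0 < Real.log N ^ (-A) := Real.rpow_pos_of_pos h4.1 _
    have h8 : Real.log N ^ (-A) * M i < 1 / 16 :=
      (mul_le_mul_of_nonneg_left hMle hApos.le).trans_lt h4.2
    exact lt_of_mul_lt_mul_right (h8.trans_le h7) hMpos.le
  · have h9 := Finset.sum_filter_add_sum_filter_not s
      (fun i => Real.log N ^ (1 / 2 + (A - 1 / 2) / 2) < M i) (fun i => om (f i))
    linarith

theorem harm_prop : type_of% @harm_prop_pr := @harm_prop_pr

end Pool.Agent.LVB
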