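import Pool.Agent.Lib_helper41.LVB.Defs
import Pool.Agent.Lib_helper68.LEV.LSC
import Pool.Agent.Lib_helper68.LEV.PET
import Pool.Agent.Lib_helper68.LEV.EIA
import Pool.Agent.Lib_helper41.LVBF.LSG
import Pool.Agent.Lib_helper41.LVBF.LSQ
import Pool.Agent.Lib_helper41.LVBF.ROU

namespace Pool.Agent.LVB

open Pool.Agent.LEV Complex MeasureTheory Filter Topology UpperHalfPlane ModularGroup ProbabilityTheory
open scoped MatrixGroups Modular ENNReal ModularForm ComplexConjugate ContDiff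

theorem NRL_la_one {N : ℕ} [Fact N.Prime] {f : S2 N} (hf : IsNew f) : la f 1 = 1 := by
  rw [la, hf.one]
  simp

theorem NRL_la_sq {N : ℕ} [Fact N.Prime] {f : S2 N} (hf : IsNew f) (n : ℕ) :
    ‖co f n‖ ^ 2 / n = la f n ^ 2 := by
  have h : co f n = (((co f n).re : ℝ) : ℂ) := by
    apply Complex.ext
    · simp
    · simp [new_real hf n]
  rw [la, div_pow, Real.sq_sqrt (Nat.cast_nonneg n)]
  conv_lhs => rw [h]
  rw [Complex.norm_real, Real.norm_eq_abs, sq_abs]

/-- lower bound for the Petersson norm -/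
theorem NRL_nr {N : ℕ} [Fact N.Prime] {f : S2 N} (hf : IsNew f) {X : ℕ} (hX : 1 ≤ X)
    (s : Finset ℕ) (hs : s ⊆ Finset.Icc 1 X) :
    Real.exp (-4 * Real.pi) / (4 * Real.pi) * ∑ n ∈ s, la f n ^ 2 ≤
      (1 + 4 * X / N) * nr f := by
  have hXp : (0 : ℝ) < X := by exact_mod_cast hX
  have h1 := strip_le f hXp
  obtain ⟨h2, h3⟩ := strip_sum f (y := 1 / (X : ℝ)) (by positivity)
  rw [h3] at h1
  have hnr : 0 < nr f := nr_pos (new_ne_zero hf)
  have hN : (0 : ℝ) < N := by exact_mod_cast (Fact.out : N.Prime).pos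
  have h4 : (∑' n : ℕ, ‖co f n‖ ^ 2 / (4 * Real.pi * n) *
        Real.exp (-4 * Real.pi * n * (1 / X))) ≤ (1 + 4 * X / N) * nr f :=
    (ENNReal.ofReal_le_ofReal_iff (by positivity)).1 h1
  refine le_trans ?_ h4
  refine le_trans ?_ (h2.sum_le_tsum s (fun n _ => by positivity))
  rw [Finset.mul_sum]
  refine Finset.sum_le_sum fun n hn => ?_
  obtain ⟨hn1, hn2⟩ := Finset.mem_Icc.1 (hs hn)
  rw [← NRL_la_sq hf n]
  have hn0 : (0 : ℝ) < n := by exact_mod_cast hn1
  have e : ‖co f n‖ ^ 2 / (4 * Real.pi * n) * Real.exp (-4 * Real.pi * n * (1 / X)) =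
      Real.exp (-4 * Real.pi * n * (1 / X)) / (4 * Real.pi) * (‖co f n‖ ^ 2 / n) := by
    field_simp
  rw [e]
  refine mul_le_mul_of_nonneg_right ?_ (by positivity)
  refine div_le_div_of_nonneg_right ?_ (by positivity)
  refine Real.exp_le_exp.2 ?_
  have h5 : (n : ℝ) * (1 / X) ≤ 1 := by
    rw [mul_one_div, div_le_one hXp]
    exact_mod_cast hn2
  have := Real.pi_pos
  nlinarith

theorem NRL_log : Tendsto (fun z : ℕ => Real.log z ^ 2 / z) atTop (𝓝 0) := by
  have h := (Real.isLittleO_pow_log_id_atTop (n := 2)).tendsto_div_nhds_zero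
  exact h.comp tendsto_natCast_atTop_atTop

/-- the Petersson norm is rarely small -/
theorem nr_large_pr {δ : ℝ} (hδ : 0 < δ) : ∃ (c : ℝ) (N₀ : ℕ), 0 < c ∧ ∀ (N : ℕ) [Fact N.Prime],
    N₀ ≤ N → ∀ {ι : Type} [Fintype ι] (f : ι → S2 N), Function.Injective f → (∀ i, IsNew (f i)) →
      ∀ s : Finset ι, (∀ i ∈ s, nr (f i) ≤ c * N) → ∑ i ∈ s, om (f i) ≤ δ := by
  classical
  obtain ⟨C, hC, hsq⟩ := sq_sieve
  obtain ⟨c₁, hc₁, hrc⟩ := rough_count
  -- choice of `z`
  have hz0 : ∃ z : ℕ, 2 ≤ z ∧ 8 * C / c₁ ^ 2 * (Real.log z ^ 2 / z) ≤ δ := by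
    have h1 : Tendsto (fun z : ℕ => 8 * C / c₁ ^ 2 * (Real.log z ^ 2 / z)) atTop (𝓝 0) := by
      simpa using NRL_log.const_mul (8 * C / c₁ ^ 2)
    obtain ⟨z, hz⟩ := ((h1.eventually (gt_mem_nhds hδ)).and (eventually_ge_atTop 2)).exists
    exact ⟨z, hz.2, hz.1.le⟩
  obtain ⟨z, hz2, hzδ⟩ := hz0
  obtain ⟨T₀, hT₀⟩ := hrc z hz2
  have hzr : (2 : ℝ) ≤ z := by exact_mod_cast hz2
  have hzp : (0 : ℝ) < z := by linarith
  have hlz : 0 < Real.log z := Real.log_pos (by linarith)
  set e₀ : ℝ := Real.exp (-4 * Real.pi) / (4 * Real.pi) with he₀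
  have he₀p : 0 < e₀ := by positivity
  refine ⟨e₀ * (c₁ / Real.log z) / (40 * z), z * (T₀ + 2), by positivity, ?_⟩
  intro N _ hN ι _ f hi hn s hs
  have hNp : (0 : ℝ) < N := by exact_mod_cast (Fact.out : N.Prime).pos
  set X : ℕ := N / z with hXdef
  have hz0' : 0 < z := by omega
  have hXT : T₀ + 2 ≤ X := (Nat.le_div_iff_mul_le hz0').2 (by rw [mul_comm]; exact hN)
  have hX1 : 1 ≤ X := by omega
  have hXN : X < N := Nat.div_lt_self (Fact.out : N.Prime).pos (by omega)
  have hXp : (0 : ℝ) < X := by exact_mod_cast hX1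
  have hXzN : (X : ℝ) * z ≤ N := by exact_mod_cast Nat.div_mul_le_self N z
  have hNX : (N : ℝ) ≤ 2 * X * z := by
    have h1 : N < (X + 1) * z := by
      have := Nat.lt_div_mul_add (a := N) hz0'
      rw [Nat.add_mul, one_mul]
      exact this
    have h2 : (N : ℝ) ≤ (X + 1) * z := by exact_mod_cast h1.le
    have h3 : (1 : ℝ) ≤ X := by exact_mod_cast hX1
    nlinarith
  -- the counting function
  set r : ℕ → ℝ := fun d =>
    ∑ m ∈ (Finset.Icc 1 X).filter (fun m => rough z m ∧ d * m ≤ X), (1 : ℝ) with hr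
  have hr1 : c₁ * X / Real.log z ≤ r 1 := by
    refine (hT₀ X (by omega)).trans (le_of_eq ?_)
    rw [hr]
    simp only [one_mul, Finset.sum_const, nsmul_eq_mul, mul_one]
    congr 2
    ext m
    simp only [Finset.mem_filter, Finset.mem_Icc]
    tauto
  have hr1p : 0 < r 1 := lt_of_lt_of_le (by positivity) hr1
  have hr0 : ∀ d, 0 ≤ r d := fun d => Finset.sum_nonneg fun _ _ => zero_le_one
  have hrd : ∀ d, 1 ≤ d → r d ≤ X / d := by
    intro d hd
    rw [hr]
    simp only [Finset.sum_const, nsmul_eq_mul, mul_one]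
    have hsub : (Finset.Icc 1 X).filter (fun m => rough z m ∧ d * m ≤ X) ⊆
        Finset.Icc 1 (X / d) := by
      intro m hm
      obtain ⟨h1, h2, h3⟩ := Finset.mem_filter.1 hm
      refine Finset.mem_Icc.2 ⟨(Finset.mem_Icc.1 h1).1, ?_⟩
      rw [Nat.le_div_iff_mul_le (by omega), mul_comm]
      exact h3
    have h4 := Finset.card_le_card hsub
    rw [Nat.card_Icc, Nat.add_sub_cancel] at h4
    calc (((Finset.Icc 1 X).filter (fun m => rough z m ∧ d * m ≤ X)).card : ℝ)
        ≤ ((X / d : ℕ) : ℝ) := by exact_mod_cast h4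
      _ ≤ X / d := Nat.cast_div_le
  -- the second part
  set g : ℕ → ℝ := fun d => if rough z d then r d / X else 0 with hg
  have hgb : ∀ d, 1 ≤ d → |g d| ≤ 1 / d := by
    intro d hd
    have hd0 : (0 : ℝ) < d := by exact_mod_cast hd
    rw [hg]
    simp only
    split_ifs
    · rw [abs_of_nonneg (div_nonneg (hr0 d) hXp.le), div_le_iff₀ hXp]
      calc r d ≤ X / d := hrd d hd
        _ = 1 / d * X := by ring
    · rw [abs_zero]; positivity
  have hL := hsq N f hi hn (z + 1) X (by omega) hXN.le g hgb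
  set S : ι → ℝ := fun i => ∑ d ∈ Finset.Icc (z + 1) X, g d * la (f i) (d ^ 2) with hS
  -- decomposition
  have hdec : ∀ i, ∑ n ∈ (Finset.Icc 1 X).filter (fun n => rough z n), la (f i) n ^ 2 =
      r 1 + X * S i := by
    intro i
    have h1 := rough_sum (hn i) (z := z) hXN (fun _ => 1)
    simp only [mul_one] at h1
    rw [h1]
    have h2 : (1 : ℕ) ∈ (Finset.Icc 1 X).filter (fun d => rough z d) := by
      refine Finset.mem_filter.2 ⟨Finset.mem_Icc.2 ⟨le_refl _, hX1⟩, ?_⟩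
      intro p hp hp1
      exact absurd (Nat.dvd_one.1 hp1) hp.one_lt.ne'
    rw [← Finset.add_sum_erase _ _ h2]
    congr 1
    · rw [one_pow, NRL_la_one (hn i), one_mul]
    · rw [hS, Finset.mul_sum]
      have h3 : ∑ d ∈ Finset.Icc (z + 1) X, (X : ℝ) * (g d * la (f i) (d ^ 2)) =
          ∑ d ∈ (Finset.Icc (z + 1) X).filter (fun d => rough z d),
            la (f i) (d ^ 2) * r d := by
        rw [Finset.sum_filter]
        refine Finset.sum_congr rfl fun d _ => ?_
        rw [hg]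
        simp only
        split_ifs
        · field_simp
        · ring
      rw [h3]
      refine Finset.sum_congr ?_ fun d _ => rfl
      ext d
      simp only [Finset.mem_erase, Finset.mem_filter, Finset.mem_Icc]
      constructor
      · rintro ⟨h4, ⟨h5, h6⟩, h7⟩
        refine ⟨⟨?_, h6⟩, h7⟩
        obtain ⟨p, hp, hpd⟩ := Nat.exists_prime_and_dvd h4
        have h8 := h7 p hp hpd
        have h9 := Nat.le_of_dvd (by omega) hpd
        omega
      · rintro ⟨⟨h4, h5⟩, h6⟩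
        exact ⟨by omega, ⟨by omega, h5⟩, h6⟩
  -- members of `s` have large `S`
  have hbig : ∀ i ∈ s, r 1 / 2 ≤ X * |S i| := by
    intro i his
    by_contra hcon
    rw [not_le] at hcon
    have h1 := NRL_nr (hn i) hX1 ((Finset.Icc 1 X).filter (fun n => rough z n))
      (Finset.filter_subset _ _)
    rw [hdec i] at h1
    have h2 : -(X * |S i|) ≤ X * S i := by
      have := neg_abs_le (S i)
      nlinarith
    have h3 : r 1 / 2 ≤ r 1 + X * S i := by linarith
    have h4 : (1 + 4 * (X : ℝ) / N) ≤ 5 := by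
      have : (X : ℝ) / N ≤ 1 := by
        rw [div_le_one hNp]
        exact_mod_cast hXN.le
      have e : 4 * (X : ℝ) / N = 4 * (X / N) := by ring
      rw [e]
      linarith
    have hnr0 : 0 < nr (f i) := nr_pos (new_ne_zero (hn i))
    have h5 : e₀ * (r 1 / 2) ≤ 5 * (e₀ * (c₁ / Real.log z) / (40 * z) * N) := by
      calc e₀ * (r 1 / 2) ≤ e₀ * (r 1 + X * S i) := mul_le_mul_of_nonneg_left h3 he₀p.le
        _ ≤ (1 + 4 * X / N) * nr (f i) := h1
        _ ≤ 5 * nr (f i) := mul_le_mul_of_nonneg_right h4 hnr0.le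
        _ ≤ 5 * (e₀ * (c₁ / Real.log z) / (40 * z) * N) := by
            have := hs i his
            linarith
    have h6 : e₀ * (c₁ / Real.log z) / (40 * z) * N ≤ e₀ * (c₁ / Real.log z) / 20 * X := by
      have hq : 0 ≤ e₀ * (c₁ / Real.log z) := by positivity
      calc e₀ * (c₁ / Real.log z) / (40 * z) * N
          ≤ e₀ * (c₁ / Real.log z) / (40 * z) * (2 * X * z) :=
            mul_le_mul_of_nonneg_left hNX (by positivity)
        _ = e₀ * (c₁ / Real.log z) / 20 * X := by field_simp; ring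
    have h7 : e₀ * (c₁ / Real.log z * X) / 2 ≤ e₀ * (r 1 / 2) := by
      have : c₁ / Real.log z * X ≤ r 1 := by
        calc c₁ / Real.log z * X = c₁ * X / Real.log z := by ring
          _ ≤ r 1 := hr1
      nlinarith
    have h8 : 0 < e₀ * (c₁ / Real.log z * X) := by positivity
    have h9 : 5 * (e₀ * (c₁ / Real.log z) / 20 * X) = e₀ * (c₁ / Real.log z * X) / 4 := by ring
    linarith
  -- Chebyshev
  have hom : ∀ i, 0 ≤ om (f i) := by
    intro i
    rw [om]
    have := nr_pos (new_ne_zero (hn i))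
    positivity
  have h10 : ∑ i ∈ s, om (f i) * (r 1 / 2) ^ 2 ≤ X ^ 2 * (C * (1 / ((z + 1 : ℕ) : ℝ) + X / N)) := by
    calc ∑ i ∈ s, om (f i) * (r 1 / 2) ^ 2 ≤ ∑ i ∈ s, om (f i) * (X * S i) ^ 2 := by
          refine Finset.sum_le_sum fun i his => mul_le_mul_of_nonneg_left ?_ (hom i)
          have h1 : (X * S i) ^ 2 = (X * |S i|) ^ 2 := by rw [mul_pow, mul_pow, sq_abs]
          rw [h1]
          exact pow_le_pow_left₀ (by positivity) (hbig i his) 2
      _ ≤ ∑ i, om (f i) * (X * S i) ^ 2 :=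
          Finset.sum_le_sum_of_subset_of_nonneg (Finset.subset_univ _)
            (fun i _ _ => mul_nonneg (hom i) (sq_nonneg _))
      _ = X ^ 2 * ∑ i, om (f i) * (S i) ^ 2 := by
          rw [Finset.mul_sum]
          exact Finset.sum_congr rfl fun i _ => by ring
      _ ≤ _ := mul_le_mul_of_nonneg_left hL (by positivity)
  have h11 : 1 / ((z + 1 : ℕ) : ℝ) + X / N ≤ 2 / z := by
    have h1 : 1 / ((z + 1 : ℕ) : ℝ) ≤ 1 / z := by
      refine one_div_le_one_div_of_le hzp ?_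
      push_cast
      linarith
    have h2 : (X : ℝ) / N ≤ 1 / z := by
      rw [div_le_div_iff₀ hNp hzp]
      linarith
    calc 1 / ((z + 1 : ℕ) : ℝ) + X / N ≤ 1 / z + 1 / z := add_le_add h1 h2
      _ = 2 / z := by ring
  rw [← Finset.sum_mul] at h10
  have h12 : (c₁ * X / Real.log z / 2) ^ 2 ≤ (r 1 / 2) ^ 2 :=
    pow_le_pow_left₀ (by positivity) (by linarith) 2
  have hsum0 : 0 ≤ ∑ i ∈ s, om (f i) := Finset.sum_nonneg fun i _ => hom i
  have h13 : (∑ i ∈ s, om (f i)) * (c₁ * X / Real.log z / 2) ^ 2 ≤ X ^ 2 * (C * (2 / z)) :=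
    (mul_le_mul_of_nonneg_left h12 hsum0).trans (h10.trans
      (mul_le_mul_of_nonneg_left (mul_le_mul_of_nonneg_left h11 hC.le) (by positivity)))
  have h14 : 0 < (c₁ * X / Real.log z / 2) ^ 2 := by positivity
  refine le_trans ?_ hzδ
  refine le_of_mul_le_mul_right (h13.trans (le_of_eq ?_)) h14
  field_simp
  ring

theorem nr_large : type_of% @nr_large_pr := @nr_large_pr

end Pool.Agent.LVB
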