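import Pool.Agent.Lib_helper41.LVB.Defs
import Pool.Agent.Lib_helper68.LEV.EIA
import Pool.Agent.Lib_helper68.LEV.FRK
import Pool.Agent.Lib_helper68.LEV.PET
import Pool.Agent.Lib_helper68.LEV.NAT
import Pool.Agent.Lib_helper41.LVBF.HPQ
import Pool.Agent.Lib_helper41.LVBF.NRL

/-! Block NTB (cites harm_prop, nr_large). -/

namespace Pool.Agent.LVB

open Pool.Agent.LEV Complex MeasureTheory Filter Topology UpperHalfPlane ModularGroup ProbabilityTheory
open scoped MatrixGroups Modular ENNReal ModularForm ComplexConjugate ContDiff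

theorem NTB_om {N : ℕ} [Fact N.Prime] {f : S2 N} (hf : IsNew f) :
    0 < nr f ∧ 0 < om f ∧ 4 * Real.pi * nr f * om f = 1 := by
  have h1 : 0 < nr f := nr_pos (new_ne_zero hf)
  have := Real.pi_pos
  refine ⟨h1, by unfold om; positivity, ?_⟩
  unfold om
  field_simp

theorem nat_lower_pr : ∃ c : ℝ, 0 < c ∧ ∀ A : ℝ, 1 / 2 < A → ∃ N₀ : ℕ, ∀ (N : ℕ) [Fact N.Prime],
    N₀ ≤ N → c * N ≤
      ({f : S2 N | (IsNew f ∧ co f N = 1) ∧ Real.log N ^ (-A) < (Lh f).re}.ncard : ℝ) := by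
  classical
  obtain ⟨c₁, hc₁, h1⟩ := harm_prop
  obtain ⟨c₂, N₂, hc₂, h2⟩ := nr_large (show (0 : ℝ) < c₁ / 2 by positivity)
  have hpi := Real.pi_pos
  refine ⟨4 * Real.pi * c₂ * (c₁ / 2), by positivity, fun A hA => ?_⟩
  obtain ⟨N₁, h1⟩ := h1 A hA
  obtain ⟨_, _, hfin⟩ := new_fin
  refine ⟨max N₁ N₂, fun N _ hN => ?_⟩
  have hF : {f : S2 N | IsNew f}.Finite := (hfin N).1
  haveI : Fintype {f : S2 N // IsNew f} := hF.fintype
  set f : {f : S2 N // IsNew f} → S2 N := fun i => i.1 with hf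
  have hinj : Function.Injective f := Subtype.coe_injective
  have hn : ∀ i, IsNew (f i) := fun i => i.2
  have hall : AllNew f := ⟨hinj, fun g => ⟨fun hg => ⟨⟨g, hg⟩, rfl⟩, fun ⟨i, hi⟩ => hi ▸ i.2⟩⟩
  obtain ⟨s, hs, hsum⟩ := h1 N ((le_max_left _ _).trans hN) f hall
  have h3 := h2 N ((le_max_right _ _).trans hN) f hinj hn (s.filter (fun i => nr (f i) ≤ c₂ * N))
    (fun i hi => (Finset.mem_filter.mp hi).2)
  set s' := s.filter (fun i => ¬ nr (f i) ≤ c₂ * N) with hs'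
  have h4 : c₁ / 2 ≤ ∑ i ∈ s', om (f i) := by
    have h9 := Finset.sum_filter_add_sum_filter_not s (fun i => nr (f i) ≤ c₂ * N) (fun i => om (f i))
    rw [hs']
    linarith
  have h5 : 4 * Real.pi * c₂ * (c₁ / 2) * N ≤ s'.card := by
    calc 4 * Real.pi * c₂ * (c₁ / 2) * N = 4 * Real.pi * (c₂ * N) * (c₁ / 2) := by ring
      _ ≤ 4 * Real.pi * (c₂ * N) * ∑ i ∈ s', om (f i) := by gcongr
      _ = ∑ i ∈ s', 4 * Real.pi * (c₂ * N) * om (f i) := Finset.mul_sum _ _ _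
      _ ≤ ∑ i ∈ s', 1 := by
          refine Finset.sum_le_sum fun i hi => ?_
          obtain ⟨h6, h7, h8⟩ := NTB_om (hn i)
          rw [← h8]
          have h10 : c₂ * N ≤ nr (f i) := (not_le.mp (Finset.mem_filter.mp hi).2).le
          gcongr
      _ = s'.card := by simp
  have h6 : (s'.card : ℝ) ≤
      ({f : S2 N | (IsNew f ∧ co f N = 1) ∧ Real.log N ^ (-A) < (Lh f).re}.ncard : ℝ) := by
    norm_cast
    rw [← Finset.card_image_of_injective s' hinj, ← Set.ncard_coe_finset]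
    apply Set.ncard_le_ncard
    · intro g hg
      obtain ⟨i, hi, rfl⟩ := Finset.mem_image.mp (Finset.mem_coe.mp hg)
      obtain ⟨h7, h8⟩ := hs i (Finset.mem_filter.mp hi).1
      exact ⟨⟨hn i, h7⟩, h8⟩
    · exact hF.subset fun g hg => hg.1.1
  exact h5.trans h6

theorem nat_lower : type_of% @nat_lower_pr := @nat_lower_pr

end Pool.Agent.LVB
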